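import Pool.Agent.Lib.MP_556c5c_lc.Spec

/-!
# The literal definitions: ordered rings, ict-patterns, strongly NIP, NIP
-/

namespace Pool.Agent.Lib.MP_556c5c_lc

open FirstOrder Filter

/-- The function symbols `0, 1, -, +, *` of the language of ordered rings. -/
inductive Fn : ℕ → Type
  | zero : Fn 0
  | one : Fn 0
  | neg : Fn 1
  | add : Fn 2
  | mul : Fn 2

/-- The relation symbol `<` of the language of ordered rings. -/
inductive Rl : ℕ → Type
  | lt : Rl 2

/-- The first order language of ordered rings. -/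
def OR : Language := ⟨Fn, Rl⟩

/-- An ordered field as a structure in the language of ordered rings. -/
instance orStructure (K : Type) [Field K] [LinearOrder K] : OR.Structure K where
  funMap {n} f := match n, f with
    | _, Fn.zero => fun _ => 0
    | _, Fn.one => fun _ => 1
    | _, Fn.neg => fun x => - x 0
    | _, Fn.add => fun x => x 0 + x 1
    | _, Fn.mul => fun x => x 0 * x 1
  RelMap {n} r := match n, r with
    | _, Rl.lt => fun x => x 0 < x 1

/-- There is an ict-pattern of depth `ω` in the complete theory of `K`, with `x` an `n`-tuple: formulas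
`φ α (x; y)`, `α < ω`, and parameters `a α j` in a model `M` of the theory of `K`, such that for
every `η : ω → ω` the set `{φ α (x; a α (η α))} ∪ {¬ φ α (x; a α j) | j ≠ η α}` is consistent
(that is, finitely satisfiable in `M`). -/
def HasIct (K : Type) [Field K] [LinearOrder K] (n : ℕ) : Prop :=
  ∃ (m : ℕ → ℕ) (φ : ∀ α : ℕ, OR.Formula (Fin n ⊕ Fin (m α))) (M : Type) (_ : OR.Structure M)
    (a : ∀ α : ℕ, ℕ → Fin (m α) → M), OR.ElementarilyEquivalent K M ∧
    ∀ (η : ℕ → ℕ) (s : Finset (ℕ × ℕ)), ∃ x : Fin n → M, ∀ p ∈ s,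
      ((φ p.1).Realize (Sum.elim x (a p.1 p.2)) ↔ p.2 = η p.1)

/-- The complete theory of the ordered field `K` is strongly NIP. -/
def StronglyNIP (K : Type) [Field K] [LinearOrder K] : Prop := ∀ n : ℕ, ¬ HasIct K n

/-- Some formula `φ (x; y)` has the independence property in the complete theory of `K`: there are
parameters `a 0, a 1, ...` in a model `M` such that for every set `S` of natural numbers
`{φ (x; a i) | i ∈ S} ∪ {¬ φ (x; a i) | i ∉ S}` is consistent (finitely satisfiable in `M`). -/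
def HasIP (K : Type) [Field K] [LinearOrder K] : Prop :=
  ∃ (n m : ℕ) (φ : OR.Formula (Fin n ⊕ Fin m)) (M : Type) (_ : OR.Structure M)
    (a : ℕ → Fin m → M), OR.ElementarilyEquivalent K M ∧
    ∀ (S : Set ℕ) (s : Finset ℕ), ∃ x : Fin n → M, ∀ i ∈ s,
      (φ.Realize (Sum.elim x (a i)) ↔ i ∈ S)

/-- The complete theory of the ordered field `K` is NIP. -/
def IsNIP (K : Type) [Field K] [LinearOrder K] : Prop := ¬ HasIP K

namespace HDGM

variable {K : Type} [Field K] [LinearOrder K]

def symLt : OR.Relations 2 := Rl.lt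

theorem int_term (a : ℤ) : ∃ t : OR.Term ℕ, ∀ v : ℕ → K, t.realize v = (a : K) := by
  induction a using Int.induction_on with
  | zero =>
    refine ⟨Language.Term.func (L := OR) (Fn.zero : OR.Functions 0) Fin.elim0, fun v => ?_⟩
    rw [Int.cast_zero]
    rfl
  | succ i ih =>
    obtain ⟨t, ht⟩ := ih
    refine ⟨Language.Term.func (L := OR) (Fn.add : OR.Functions 2)
      ![t, Language.Term.func (L := OR) (Fn.one : OR.Functions 0) Fin.elim0], fun v => ?_⟩
    change t.realize v + (1 : K) = _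
    rw [ht]
    push_cast
    ring
  | pred i ih =>
    obtain ⟨t, ht⟩ := ih
    refine ⟨Language.Term.func (L := OR) (Fn.add : OR.Functions 2)
      ![t, Language.Term.func (L := OR) (Fn.neg : OR.Functions 1)
        ![Language.Term.func (L := OR) (Fn.one : OR.Functions 0) Fin.elim0] ], fun v => ?_⟩
    change t.realize v + (- (1 : K)) = _
    rw [ht]
    push_cast
    ring

theorem poly_term (p : MvPolynomial ℕ ℤ) :
    ∃ t : OR.Term ℕ, ∀ v : ℕ → K, t.realize v = MvPolynomial.aeval v p := by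
  induction p using MvPolynomial.induction_on with
  | C a =>
    obtain ⟨t, ht⟩ := int_term (K := K) a
    refine ⟨t, fun v => ?_⟩
    rw [ht, MvPolynomial.aeval_C]
    rfl
  | add p q hp hq =>
    obtain ⟨t, ht⟩ := hp
    obtain ⟨u, hu⟩ := hq
    refine ⟨Language.Term.func (L := OR) (Fn.add : OR.Functions 2) ![t, u], fun v => ?_⟩
    change t.realize v + u.realize v = _
    rw [ht, hu, map_add]
  | mul_X p i hp =>
    obtain ⟨t, ht⟩ := hp
    refine ⟨Language.Term.func (L := OR) (Fn.mul : OR.Functions 2)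
      ![t, Language.Term.var i], fun v => ?_⟩
    change t.realize v * v i = _
    rw [ht, map_mul, MvPolynomial.aeval_X]

/-- a definable set is given by a formula -/
theorem formula_of_dfn {S : Set (ℕ → K)} (hS : Dfn S) :
    ∃ φ : OR.Formula ℕ, ∀ v : ℕ → K, v ∈ S ↔ φ.Realize v := by
  refine hS {S | ∃ φ : OR.Formula ℕ, ∀ v : ℕ → K, v ∈ S ↔ φ.Realize v} ?_ ?_ ?_ ?_ ?_
  · intro p
    obtain ⟨t, ht⟩ := poly_term (K := K) p
    obtain ⟨z, hz⟩ := int_term (K := K) 0
    refine ⟨t.equal z, fun v => ?_⟩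
    rw [Language.Formula.realize_equal, ht, hz, Int.cast_zero]
    rfl
  · intro p
    obtain ⟨t, ht⟩ := poly_term (K := K) p
    obtain ⟨z, hz⟩ := int_term (K := K) 0
    refine ⟨Language.Relations.formula₂ (L := OR) symLt z t, fun v => ?_⟩
    rw [Language.Formula.realize_rel₂]
    change 0 < MvPolynomial.aeval v p ↔ z.realize v < t.realize v
    rw [ht, hz, Int.cast_zero]
  · rintro S ⟨φ, hφ⟩
    refine ⟨φ.not, fun v => ?_⟩
    rw [Language.Formula.realize_not, ← hφ]
    rfl
  · rintro S ⟨φ, hφ⟩ T ⟨ψ, hψ⟩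
    refine ⟨φ ⊓ ψ, fun v => ?_⟩
    rw [Language.Formula.realize_inf, ← hφ, ← hψ]
    rfl
  · rintro S ⟨φ, hφ⟩ k
    refine ⟨(φ.relabel (fun i => if i = k then Sum.inr () else Sum.inl i) :
      OR.Formula (ℕ ⊕ Unit)).iExs Unit, fun v => ?_⟩
    rw [Language.Formula.realize_iExs]
    constructor
    · rintro ⟨c, hc⟩
      refine ⟨fun _ => c, ?_⟩
      rw [Language.Formula.realize_relabel]
      rw [hφ] at hc
      convert hc using 1
      funext i
      by_cases hi : i = k
      · subst hi
        simp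
      · simp [hi]
    · rintro ⟨c, hc⟩
      refine ⟨c (), ?_⟩
      rw [Language.Formula.realize_relabel] at hc
      rw [hφ]
      convert hc using 1
      funext i
      by_cases hi : i = k
      · subst hi
        simp
      · simp [hi]

/-- only finitely many parameter variables occur -/
theorem restrict (n : ℕ) (φ : OR.Formula ℕ) :
    ∃ (m : ℕ) (ψ : OR.Formula (Fin n ⊕ Fin m)), ∀ v : ℕ → K,
      (ψ.Realize (Sum.elim (fun k : Fin n => v k) (fun k : Fin m => v (n + k))) ↔ φ.Realize v) := by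
  classical
  obtain ⟨m, hm⟩ : ∃ m : ℕ, ∀ k ∈ φ.freeVarFinset, k < n + m := by
    refine ⟨φ.freeVarFinset.sup id + 1, fun k hk => ?_⟩
    have h1 : k ≤ φ.freeVarFinset.sup id := Finset.le_sup (f := id) hk
    omega
  refine ⟨m, Language.BoundedFormula.restrictFreeVar φ
    (fun k => if h : (k : ℕ) < n then Sum.inl (⟨k, h⟩ : Fin n) else
      Sum.inr (⟨(k : ℕ) - n, by have := hm k k.2; omega⟩ : Fin m)), fun v => ?_⟩
  refine Language.BoundedFormula.realize_restrictFreeVar v fun k => ?_
  split_ifs with h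
  · rfl
  · simp only [Sum.elim_inr]
    congr 1
    omega

/-- Compactness: the ultrapower. -/
theorem compact (P : Type) (n : ℕ) (m : P → ℕ) (φ : ∀ p, OR.Formula (Fin n ⊕ Fin (m p)))
    (b : ℕ → ∀ p, Fin (m p) → K) :
    ∃ (M : Type) (_ : OR.Structure M) (a : ∀ p, Fin (m p) → M), OR.ElementarilyEquivalent K M ∧
      ∀ (s : Finset P) (e : P → Prop),
        (∀ᶠ N : ℕ in atTop, ∃ x : Fin n → K, ∀ p ∈ s,
          ((φ p).Realize (Sum.elim x (b N p)) ↔ e p)) →
        ∃ x : Fin n → M, ∀ p ∈ s, ((φ p).Realize (Sum.elim x (a p)) ↔ e p) := by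
  classical
  let u : Ultrafilter ℕ := hyperfilter ℕ
  refine ⟨(u : Filter ℕ).Product (fun _ => K), inferInstance,
    fun p k => ((fun N => b N p k : ∀ _ : ℕ, K) : (u : Filter ℕ).Product (fun _ => K)), ?_, ?_⟩
  · refine Language.elementarilyEquivalent_iff.2 fun ψ => ?_
    rw [Language.Ultraproduct.sentence_realize]
    simp
  · intro s e h
    have h1 : ∀ᶠ N in (u : Filter ℕ), ∃ x : Fin n → K, ∀ p ∈ s,
        ((φ p).Realize (Sum.elim x (b N p)) ↔ e p) :=
      (Nat.hyperfilter_le_atTop) h
    let x : ℕ → Fin n → K := fun N => if hN : ∃ x : Fin n → K, ∀ p ∈ s,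
        ((φ p).Realize (Sum.elim x (b N p)) ↔ e p) then hN.choose else 0
    have hx : ∀ᶠ N in (u : Filter ℕ), ∀ p ∈ s,
        ((φ p).Realize (Sum.elim (x N) (b N p)) ↔ e p) := by
      filter_upwards [h1] with N hN
      simp only [x, dif_pos hN]
      exact hN.choose_spec
    refine ⟨fun k => ((fun N => x N k : ∀ _ : ℕ, K) : (u : Filter ℕ).Product (fun _ => K)), ?_⟩
    intro p hp
    refine Iff.trans (b := ∀ᶠ N in (u : Filter ℕ), (φ p).Realize
      (fun i => Sum.elim (fun k N => x N k) (fun k N => b N p k) i N)) ?_ ?_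
    · have h2 := Language.Ultraproduct.realize_formula_cast (u := u) (M := fun _ : ℕ => K) (φ p)
        (Sum.elim (fun k N => x N k) (fun k N => b N p k))
      refine Iff.trans (iff_of_eq (congrArg (φ p).Realize ?_)) h2
      funext i
      cases i <;> rfl
    have h4 : ∀ N, (fun i => Sum.elim (fun k N => x N k) (fun k N => b N p k) i N) =
        Sum.elim (x N) (b N p) := by
      intro N
      funext i
      cases i <;> rfl
    simp only [h4]
    constructor
    · intro h5
      obtain ⟨N, hN1, hN2⟩ := (h5.and hx).exists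
      exact (hN2 p hp).1 hN1
    · intro h5
      filter_upwards [hx] with N hN
      exact (hN p hp).2 h5

end HDGM

open HDGM in
theorem noIct_of_stronglyNIP {K : Type} [Field K] [LinearOrder K] (h : StronglyNIP K) :
    NoIct K := by
  rintro ⟨n, S, hS, hpat⟩
  choose F hF using fun i => formula_of_dfn (hS i)
  choose m ψ hψ using fun i => restrict (K := K) n (F i)
  choose b hb using hpat
  obtain ⟨M, iM, a, hKM, hM⟩ := compact (K := K) (ℕ × ℕ) n (fun p => m p.1) (fun p => ψ p.1)
    (fun N p k => b N p.1 p.2 (n + k))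
  refine h n ⟨m, ψ, M, iM, fun α j => a (α, j), hKM, fun η s => ?_⟩
  refine hM s (fun p => p.2 = η p.1) ?_
  have hlarge : ∀ᶠ N : ℕ in atTop, 0 < N ∧ ∀ p ∈ s, p.1 < N ∧ p.2 < N ∧ η p.1 < N := by
    refine (eventually_gt_atTop 0).and ?_
    rw [Filter.eventually_all_finset]
    intro p _
    filter_upwards [eventually_gt_atTop p.1, eventually_gt_atTop p.2,
      eventually_gt_atTop (η p.1)] with N h1 h2 h3
    exact ⟨h1, h2, h3⟩
  filter_upwards [hlarge] with N hN
  obtain ⟨x, hx⟩ := hb N (fun i => if η i < N then η i else 0) (by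
    intro i _
    split_ifs with h1
    · exact h1
    · exact hN.1)
  refine ⟨fun k => x k, fun p hp => ?_⟩
  have h1 := hN.2 p hp
  have h2 := hx p.1 h1.1 p.2 h1.2.1
  rw [if_pos h1.2.2, hF p.1, ← hψ p.1] at h2
  rw [← h2]
  refine iff_of_eq (congrArg (ψ p.1).Realize ?_)
  funext i
  rcases i with i | i
  · simp
  · simp

open HDGM in
theorem nipf_of_isNIP {K : Type} [Field K] [LinearOrder K] (h : IsNIP K) : NIPf K := by
  rintro ⟨n, S, hS, hpat⟩
  obtain ⟨F, hF⟩ := formula_of_dfn hS
  obtain ⟨m, ψ, hψ⟩ := restrict (K := K) n F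
  choose b hb using hpat
  obtain ⟨M, iM, a, hKM, hM⟩ := compact (K := K) ℕ n (fun _ => m) (fun _ => ψ)
    (fun N i k => b N i (n + k))
  refine h ⟨n, m, ψ, M, iM, a, hKM, fun T s => ?_⟩
  refine hM s (fun i => i ∈ T) ?_
  have hlarge : ∀ᶠ N : ℕ in atTop, ∀ i ∈ s, i < N := by
    rw [Filter.eventually_all_finset]
    intro i _
    exact eventually_gt_atTop i
  filter_upwards [hlarge] with N hN
  obtain ⟨x, hx⟩ := hb N T
  refine ⟨fun k => x k, fun i hi => ?_⟩
  have h2 := hx i (hN i hi)
  rw [hF, ← hψ] at h2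
  rw [← h2]
  refine iff_of_eq (congrArg ψ.Realize ?_)
  funext i
  rcases i with i | i
  · simp
  · simp

theorem isRealClosed_of {K : Type} [Field K] [LinearOrder K] [IsStrictOrderedRing K]
    (h : (∀ x : K, 0 < x → ∃ y : K, y * y = x) ∧
      ∀ p : Polynomial K, Odd p.natDegree → ∃ r : K, p.IsRoot r) : IsRealClosed K := by
  refine IsRealClosed.of_linearOrderedField (fun {x} hx => ?_) (fun {f} hf => h.2 f hf)
  rcases hx.eq_or_lt with h0 | h0
  · exact ⟨0, by rw [← h0, mul_zero]⟩
  · obtain ⟨y, hy⟩ := h.1 x h0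
    exact ⟨y, hy.symm⟩

end Pool.Agent.Lib.MP_556c5c_lc
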