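import Pool.Agent.Lib.MP_556c5c_lc.Spec

section
/-!
# AVG: averaging a sublinear functional over commuting operators
-/
set_option autoImplicit false

namespace Pool.Agent.Lib.MP_556c5c_lc

open Finset

namespace AVGM

variable {E : Type} [AddCommGroup E] [Module ℝ E]

/-- The average `(1 / (n + 1)) ∑ k ≤ n, a ^ k`. -/
noncomputable def Av (n : ℕ) (a : Module.End ℝ E) : Module.End ℝ E :=
  ((n : ℝ) + 1)⁻¹ • ∑ k ∈ range (n + 1), a ^ k

theorem p_zero {p : E → ℝ} (hp : Sbl p) : p 0 = 0 := by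
  have h := hp.hom 2 0 (by norm_num)
  rw [smul_zero] at h
  linarith

theorem p_sum {p : E → ℝ} (hp : Sbl p) (f : ℕ → E) (n : ℕ) :
    p (∑ k ∈ range n, f k) ≤ ∑ k ∈ range n, p (f k) := by
  induction n with
  | zero => simp [p_zero hp]
  | succ n ih =>
    rw [sum_range_succ, sum_range_succ]
    exact (hp.sub _ _).trans (by linarith)

theorem p_pow {p : E → ℝ} {a : Module.End ℝ E} (ha : ∀ f, p (a f) ≤ p f) (k : ℕ) (f : E) :
    p ((a ^ k) f) ≤ p f := by
  induction k with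
  | zero => simp
  | succ k ih =>
    rw [pow_succ', Module.End.mul_apply]
    exact (ha _).trans ih

theorem p_Av {p : E → ℝ} (hp : Sbl p) {a : Module.End ℝ E} (ha : ∀ f, p (a f) ≤ p f) (n : ℕ)
    (f : E) : p (Av n a f) ≤ p f := by
  have hn : (0 : ℝ) < (n : ℝ) + 1 := by positivity
  have h1 : Av n a f = ((n : ℝ) + 1)⁻¹ • ∑ k ∈ range (n + 1), (a ^ k) f := by
    simp [Av, LinearMap.sum_apply]
  rw [h1, hp.hom _ _ (inv_pos.2 hn)]
  have h2 : p (∑ k ∈ range (n + 1), (a ^ k) f) ≤ ((n : ℝ) + 1) * p f := by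
    refine (p_sum hp _ _).trans ?_
    refine (sum_le_sum fun k _ => p_pow ha k f).trans ?_
    simp
  calc ((n : ℝ) + 1)⁻¹ * p (∑ k ∈ range (n + 1), (a ^ k) f)
      ≤ ((n : ℝ) + 1)⁻¹ * (((n : ℝ) + 1) * p f) :=
        mul_le_mul_of_nonneg_left h2 (inv_pos.2 hn).le
    _ = p f := by field_simp

theorem Av_sub (n : ℕ) (a : Module.End ℝ E) (f : E) :
    Av n a (f - a f) = ((n : ℝ) + 1)⁻¹ • (f - (a ^ (n + 1)) f) := by
  have h1 : (∑ k ∈ range (n + 1), a ^ k) * (1 - a) = 1 - a ^ (n + 1) := by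
    exact geom_sum_mul_neg a (n + 1)
  have h2 := LinearMap.congr_fun h1 f
  simp only [Module.End.mul_apply, LinearMap.sub_apply, Module.End.one_apply] at h2
  simp only [Av, LinearMap.smul_apply]
  rw [h2]

/-- The submonoid generated by the averages. -/
noncomputable def PP (X : Set (E →ₗ[ℝ] E)) : Submonoid (Module.End ℝ E) :=
  Submonoid.closure {Q | ∃ n : ℕ, ∃ a ∈ X, Q = Av n a}

theorem PP_comm (X : Set (E →ₗ[ℝ] E)) (hX : ∀ a ∈ X, ∀ b ∈ X, a ∘ₗ b = b ∘ₗ a) :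
    ∀ Q ∈ PP X, ∀ R ∈ PP X, Q * R = R * Q := by
  intro Q hQ R hR
  have hgen : ∀ x ∈ {Q | ∃ n : ℕ, ∃ a ∈ X, Q = Av n a},
      ∀ y ∈ {Q | ∃ n : ℕ, ∃ a ∈ X, Q = Av n a}, Commute x y := by
    rintro x ⟨n, a, ha, rfl⟩ y ⟨m, b, hb, rfl⟩
    have hab : Commute (a : Module.End ℝ E) b := hX a ha b hb
    unfold Av
    refine Commute.smul_left (Commute.smul_right ?_ _) _
    exact Commute.sum_left _ _ _ fun i _ => Commute.sum_right _ _ _ fun j _ => hab.pow_pow i j
  refine Submonoid.closure_induction₂ (motive := fun x y _ _ => x * y = y * x) ?_ ?_ ?_ ?_ ?_ hQ hR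
  · intro x y hx hy
    exact hgen x hx y hy
  · intro x hx
    simp
  · intro x hx
    simp
  · intro x y z hx hy hz h1 h2
    have h1' : Commute x z := h1
    have h2' : Commute y z := h2
    exact h1'.mul_left h2'
  · intro x y z hx hy hz h1 h2
    have h1' : Commute z x := h1
    have h2' : Commute z y := h2
    exact h1'.mul_right h2'

theorem PP_le {p : E → ℝ} (hp : Sbl p) (X : Set (E →ₗ[ℝ] E)) (hX : ∀ a ∈ X, ∀ f, p (a f) ≤ p f) :
    ∀ Q ∈ PP X, ∀ f, p (Q f) ≤ p f := by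
  intro Q hQ
  refine Submonoid.closure_induction (motive := fun Q _ => ∀ f, p (Q f) ≤ p f) ?_ ?_ ?_ hQ
  · rintro x ⟨n, a, ha, rfl⟩ f
    exact p_Av hp (hX a ha) n f
  · intro f
    simp
  · intro x y hx hy h1 h2 f
    rw [Module.End.mul_apply]
    exact (h1 _).trans (h2 _)

theorem PP_conj (X : Set (E →ₗ[ℝ] E)) (S : Module.End ℝ E)
    (hS : ∀ a ∈ X, ∃ a' ∈ X, a' ∘ₗ S = S ∘ₗ a) :
    ∀ Q ∈ PP X, ∃ Q' ∈ PP X, Q' * S = S * Q := by
  intro Q hQ
  refine Submonoid.closure_induction (motive := fun Q _ => ∃ Q' ∈ PP X, Q' * S = S * Q) ?_ ?_ ?_ hQ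
  · rintro x ⟨n, a, ha, rfl⟩
    obtain ⟨a', ha', h⟩ := hS a ha
    have h' : (a' : Module.End ℝ E) * S = S * a := h
    have hpow : ∀ k : ℕ, (a' : Module.End ℝ E) ^ k * S = S * (a : Module.End ℝ E) ^ k := by
      intro k
      induction k with
      | zero => simp
      | succ k ih => rw [pow_succ, mul_assoc, h', ← mul_assoc, ih, mul_assoc, ← pow_succ]
    refine ⟨Av n a', Submonoid.subset_closure ⟨n, a', ha', rfl⟩, ?_⟩
    unfold Av
    rw [smul_mul_assoc, mul_smul_comm, Finset.sum_mul, Finset.mul_sum]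
    congr 1
    exact Finset.sum_congr rfl fun k _ => hpow k
  · exact ⟨1, Submonoid.one_mem _, by simp⟩
  · rintro x y hx hy ⟨Q, hQ, h1⟩ ⟨R, hR, h2⟩
    exact ⟨Q * R, Submonoid.mul_mem _ hQ hR, by rw [mul_assoc, h2, ← mul_assoc, h1, mul_assoc]⟩

end AVGM

open AVGM in
theorem specAVG : SpecAVG := by
  intro E _ _ p hp X hcomm hX
  have hc := PP_comm X hcomm
  have hle := PP_le hp X hX
  let V : E → Set ℝ := fun f => {y | ∃ Q ∈ PP X, y = p (Q f)}
  have hne : ∀ f, (V f).Nonempty := fun f => ⟨p f, 1, Submonoid.one_mem _, by simp⟩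
  have hlow : ∀ f, ∀ y ∈ V f, - p (- f) ≤ y := by
    rintro f y ⟨Q, hQ, rfl⟩
    have h1 := hp.sub (Q f) (Q (- f))
    have h2 : Q f + Q (- f) = 0 := by rw [map_neg, add_neg_cancel]
    rw [h2, p_zero hp] at h1
    have h3 := hle Q hQ (- f)
    linarith
  have hbdd : ∀ f, BddBelow (V f) := fun f => ⟨- p (- f), fun y hy => hlow f y hy⟩
  have hinf : ∀ f, ∀ Q ∈ PP X, sInf (V f) ≤ p (Q f) := fun f Q hQ =>
    csInf_le (hbdd f) ⟨Q, hQ, rfl⟩
  refine ⟨fun f => sInf (V f), ⟨?_, ?_⟩, ?_, ?_, ?_⟩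
  · -- homogeneity
    intro c f hc0
    have key : ∀ (c : ℝ) (f : E), 0 < c → sInf (V (c • f)) ≤ c * sInf (V f) := by
      intro c f hc0
      have h1 : ∀ y ∈ V f, sInf (V (c • f)) / c ≤ y := by
        rintro y ⟨Q, hQ, rfl⟩
        rw [div_le_iff₀ hc0, mul_comm, ← hp.hom c _ hc0, ← map_smul]
        exact hinf _ Q hQ
      have h2 := le_csInf (hne f) h1
      rwa [div_le_iff₀ hc0, mul_comm] at h2
    refine le_antisymm (key c f hc0) ?_
    have h1 := key c⁻¹ (c • f) (inv_pos.2 hc0)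
    rw [smul_smul, inv_mul_cancel₀ hc0.ne', one_smul] at h1
    have h2 := mul_le_mul_of_nonneg_left h1 hc0.le
    rwa [← mul_assoc, mul_inv_cancel₀ hc0.ne', one_mul] at h2
  · -- subadditivity
    intro f g
    have h1 : ∀ y ∈ V f, ∀ z ∈ V g, sInf (V (f + g)) ≤ y + z := by
      rintro y ⟨Q, hQ, rfl⟩ z ⟨R, hR, rfl⟩
      have h2 := hinf (f + g) (Q * R) (Submonoid.mul_mem _ hQ hR)
      have h3 : (Q * R) (f + g) = R (Q f) + Q (R g) := by
        rw [map_add]
        congr 1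
        rw [hc Q hQ R hR, Module.End.mul_apply]
      rw [h3] at h2
      have h4 := hp.sub (R (Q f)) (Q (R g))
      have h5 := hle R hR (Q f)
      have h6 := hle Q hQ (R g)
      linarith
    have h2 : ∀ y ∈ V f, sInf (V (f + g)) - y ≤ sInf (V g) := by
      intro y hy
      refine le_csInf (hne g) fun z hz => ?_
      have := h1 y hy z hz
      linarith
    have h3 : sInf (V (f + g)) - sInf (V g) ≤ sInf (V f) := by
      refine le_csInf (hne f) fun y hy => ?_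
      have := h2 y hy
      linarith
    linarith
  · intro f
    have := hinf f 1 (Submonoid.one_mem _)
    simpa using this
  · -- invariance
    intro a ha f
    have hA : ∀ n : ℕ, sInf (V (f - a f)) ≤ (p f + p (- f)) / ((n : ℝ) + 1) := by
      intro n
      have hn : (0 : ℝ) < (n : ℝ) + 1 := by positivity
      have h1 := hinf (f - a f) (Av n a) (Submonoid.subset_closure ⟨n, a, ha, rfl⟩)
      have h2 : p (Av n a (f - a f)) = ((n : ℝ) + 1)⁻¹ * p (f - ((a : Module.End ℝ E) ^ (n + 1)) f) := by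
        have h3 := Av_sub n a f
        rw [show (Av n a) (f - a f) = ((n : ℝ) + 1)⁻¹ • (f - ((a : Module.End ℝ E) ^ (n + 1)) f) from h3]
        exact hp.hom _ _ (inv_pos.2 hn)
      rw [h2] at h1
      have h4 : p (f - ((a : Module.End ℝ E) ^ (n + 1)) f) ≤ p f + p (- f) := by
        have h5 := hp.sub f (((a : Module.End ℝ E) ^ (n + 1)) (- f))
        have h6 : f + ((a : Module.End ℝ E) ^ (n + 1)) (- f)
            = f - ((a : Module.End ℝ E) ^ (n + 1)) f := by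
          rw [map_neg, sub_eq_add_neg]
        rw [h6] at h5
        have h7 := p_pow (a := (a : Module.End ℝ E)) (fun g => hX a ha g) (n + 1) (- f)
        linarith
      refine h1.trans ?_
      rw [div_eq_inv_mul]
      exact mul_le_mul_of_nonneg_left h4 (inv_pos.2 hn).le
    have hlim : Filter.Tendsto (fun n : ℕ => (p f + p (- f)) / ((n : ℝ) + 1)) Filter.atTop
        (nhds 0) := by
      have h1 : Filter.Tendsto (fun n : ℕ => (n : ℝ) + 1) Filter.atTop Filter.atTop :=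
        Filter.tendsto_atTop_add_const_right _ _ tendsto_natCast_atTop_atTop
      exact h1.const_div_atTop _
    exact ge_of_tendsto' hlim hA
  · -- other operators
    intro S hS hconj f
    refine le_csInf (hne f) ?_
    rintro y ⟨Q, hQ, rfl⟩
    obtain ⟨Q', hQ', h⟩ := PP_conj X S hconj Q hQ
    have h1 := hinf (S f) Q' hQ'
    have h2 : Q' (S f) = S (Q f) := by
      have := LinearMap.congr_fun h f
      simpa [Module.End.mul_apply] using this
    rw [h2] at h1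
    exact h1.trans (hS (Q f))

end Pool.Agent.Lib.MP_556c5c_lc
end

section
/-! # MP_556c5c_lc, module BDS (helper45): bad differences at many scales -/
set_option autoImplicit false

namespace Pool.Agent.Lib.MP_556c5c_lc

namespace BDSM

variable {L : Type} [Field L] {φ : L →+* ℝ} {ψ : L →+* ℂ} {A : Type} [AddCommGroup A]

/-- the bad set -/
def Z (φ : L →+* ℝ) (ψ : L →+* ℂ) (h : L → A) (κ : ℝ) (b : L) (T U : ℝ) : Set L :=
  {x ∈ Bx φ ψ T U | ¬ Good ψ h κ b x}

theorem Z_sub (h : L → A) (κ : ℝ) (b : L) (T U : ℝ) : Z φ ψ h κ b T U ⊆ Bx φ ψ T U :=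
  fun _ hx => hx.1

theorem Z_bd (hMUB : SpecMUB) (h : L → A) (κ : ℝ) (b : L) (T U : ℝ) :
    Bd φ ψ (Z φ ψ h κ b T U) :=
  hMUB.bds L φ ψ _ _ (hMUB.bdb L φ ψ T U) (Z_sub h κ b T U)

theorem Z_scale (h : L → A) (κ : ℝ) (b c : L) (hc : c ≠ 0) (T U : ℝ) (x : L)
    (hx : x ∈ Z φ ψ h κ b T U) : c * x + 0 ∈ Z φ ψ h κ (c * b) (|φ c| * T) (‖ψ c‖ * U) := by
  obtain ⟨⟨h1, h2⟩, h3⟩ := hx
  have hφ : 0 < |φ c| := abs_pos.2 ((map_ne_zero φ).2 hc)
  have hψ : 0 < ‖ψ c‖ := norm_pos_iff.2 ((map_ne_zero ψ).2 hc)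
  rw [add_zero]
  refine ⟨⟨?_, ?_⟩, fun hg => h3 ?_⟩
  · rw [map_mul, abs_mul]
    exact mul_lt_mul_of_pos_left h1 hφ
  · rw [map_mul, norm_mul]
    exact mul_lt_mul_of_pos_left h2 hψ
  · obtain ⟨g1, g2, g3⟩ := hg
    refine ⟨fun h0 => g1 (by rw [h0, mul_zero]), ?_, ?_⟩
    · rw [map_mul, map_mul, norm_mul, norm_mul, mul_left_comm] at g2
      exact le_of_mul_le_mul_left g2 hψ
    · rwa [mul_div_mul_left _ _ hc] at g3

theorem mu_scale (hMUB : SpecMUB) (μ : Set L → ℝ) (hv : Vol φ ψ μ) (h : L → A) (κ : ℝ) (b c : L)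
    (hc : c ≠ 0) (T U : ℝ) : |φ c| * ‖ψ c‖ ^ 2 * μ (Z φ ψ h κ b T U) ≤
      μ (Z φ ψ h κ (c * b) (|φ c| * T) (‖ψ c‖ * U)) :=
  hMUB.pull L φ ψ μ hv _ _ (Z_bd hMUB h κ b T U) (Z_bd hMUB h κ _ _ _) c 0 hc
    (fun x hx => Z_scale h κ b c hc T U x hx)

/-- cutting down to the unit box -/
theorem mu_cut (hMUB : SpecMUB) (μ : Set L → ℝ) (hd : Dn φ ψ) (hv : Vol φ ψ μ) (h : L → A) (κ : ℝ)
    (b : L) (T U s : ℝ) (hT : T ≤ 1 + s) (hU : U ≤ 1 + s) (hs : 0 ≤ s) :
    μ (Z φ ψ h κ b T U) ≤ μ (Z φ ψ h κ b 1 1) + ((1 + s) ^ 3 - 1) := by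
  set B1 := Bx φ ψ 1 1 with hB1
  set B2 := Bx φ ψ (1 + s) (1 + s) with hB2
  have b1 : Bd φ ψ B1 := hMUB.bdb L φ ψ 1 1
  have b2 : Bd φ ψ B2 := hMUB.bdb L φ ψ _ _
  have b3 : Bd φ ψ (B2 \ B1) := hMUB.bds L φ ψ _ _ b2 Set.sdiff_subset
  have hsub : B1 ⊆ B2 := fun x hx => ⟨hx.1.trans_le (by linarith), hx.2.trans_le (by linarith)⟩
  have e1 : μ B2 = μ B1 + μ (B2 \ B1) := by
    have := hv.ad B1 (B2 \ B1) b1 b3 Set.disjoint_sdiff_right
    rwa [Set.union_sdiff_cancel hsub] at this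
  have e2 : μ B2 = (1 + s) ^ 3 := by
    rw [hMUB.box L φ ψ μ hd hv _ _ (by linarith) (by linarith)]
    ring
  have e3 : μ B1 = 1 := hv.un
  have hb1 := Z_bd (φ := φ) (ψ := ψ) hMUB h κ b 1 1
  have h1 : μ (Z φ ψ h κ b T U) ≤ μ (Z φ ψ h κ b 1 1 ∪ (B2 \ B1)) := by
    refine hMUB.mono L φ ψ μ hv _ _ ?_ ?_
    · exact hMUB.bds L φ ψ _ _ b2 (Set.union_subset ((Z_sub h κ b 1 1).trans hsub) Set.sdiff_subset)
    · intro x hx
      by_cases h1 : x ∈ B1
      · exact Or.inl ⟨h1, hx.2⟩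
      · exact Or.inr ⟨⟨hx.1.1.trans_le hT, hx.1.2.trans_le hU⟩, h1⟩
  have h2 := hMUB.sub L φ ψ μ hv _ _ hb1 b3
  linarith

end BDSM

open BDSM in
theorem specBDS (hMUB : SpecMUB) : SpecBDS := by
  intro L _ φ ψ A _ q ζ r h D τ N μ hC ε κ hε hκ hbad M R hR
  have hd := hC.dn
  have hv := hC.vol
  set s : ℝ := min 1 ε / 56 with hs
  have hs0 : 0 < s := by positivity
  have hs1 : s ≤ 1 / 56 := by
    have := min_le_left 1 ε
    rw [hs]
    linarith
  have hs2 : s ≤ ε / 56 := by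
    have := min_le_right 1 ε
    rw [hs]
    linarith
  have hh0 : h 0 = 0 := by
    have h1 := hC.cl.hadd 0 0 (by rw [map_zero, norm_zero]; exact hC.cl.r0)
      (by rw [map_zero, norm_zero]; exact hC.cl.r0)
    rw [add_zero, mul_zero, add_zero] at h1
    exact left_eq_add.1 h1
  have hz : μ ({0} : Set L) = 0 := by
    have hb0 : Bd φ ψ ({0} : Set L) := ⟨1, by
      rintro x hx
      rw [Set.mem_singleton_iff] at hx
      subst hx
      exact ⟨by rw [map_zero, abs_zero]; exact one_pos, by rw [map_zero, norm_zero]; exact one_pos⟩⟩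
    have h2 : (2 : L) ≠ 0 := by
      intro h2
      have h3 : φ 2 = 0 := by rw [h2, map_zero]
      rw [map_ofNat] at h3
      norm_num at h3
    have h1 := hv.sc {0} hb0 2 h2
    rw [Set.image_singleton, mul_zero, map_ofNat, map_ofNat] at h1
    norm_num at h1
    linarith
  -- step
  have star : ∀ R : ℝ, 1 ≤ R → ∃ b : L, b ≠ 0 ∧ |φ b| ≤ 1 / R ∧ ‖ψ b‖ ≤ 1 / R ∧
      3 / 4 * ε < μ (Z φ ψ h κ b 1 1) := by
    intro R hR
    obtain ⟨b', T, U, hT, hU, h1, h2, h3⟩ := hbad (2 * R) (by linarith)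
    change ε * (T * U ^ 2) < μ (Z φ ψ h κ b' T U) at h3
    have hpos : 0 < ε * (T * U ^ 2) := by positivity
    have hb' : b' ≠ 0 := by
      rintro rfl
      have h4 : Z φ ψ h κ 0 T U ⊆ {0} := by
        intro x hx
        by_contra hx0
        refine hx.2 ⟨hx0, ?_, ?_⟩
        · rw [map_zero, norm_zero]
          positivity
        · rw [zero_div]
          exact hh0
      have h5 := hMUB.mono L φ ψ μ hv _ _ ⟨1, by
        rintro x hx
        rw [Set.mem_singleton_iff] at hx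
        subst hx
        exact ⟨by rw [map_zero, abs_zero]; exact one_pos,
          by rw [map_zero, norm_zero]; exact one_pos⟩⟩ h4
      linarith
    obtain ⟨c, c1, c2⟩ := hd ((1 + s / 2) / T) (((1 + s / 2) / U : ℝ) : ℂ)
      (min (s / (2 * T)) (s / (2 * U))) (by positivity)
    have c1' := c1.trans_le (min_le_left _ _)
    have c2' := c2.trans_le (min_le_right _ _)
    rw [abs_lt] at c1'
    have t1 : 1 / T < φ c := by
      have : (1 + s / 2) / T - s / (2 * T) = 1 / T := by field_simp; ring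
      linarith
    have t2 : φ c < (1 + s) / T := by
      have : (1 + s / 2) / T + s / (2 * T) = (1 + s) / T := by field_simp; ring
      linarith
    have hφ : 0 < φ c := lt_trans (by positivity) t1
    have hU1 : ‖(((1 + s / 2) / U : ℝ) : ℂ)‖ = (1 + s / 2) / U := by
      rw [Complex.norm_real, Real.norm_of_nonneg (by positivity)]
    have u1 : 1 / U < ‖ψ c‖ := by
      have e1 : (1 + s / 2) / U - s / (2 * U) = 1 / U := by field_simp; ring
      have e2 := norm_sub_norm_le ((((1 + s / 2) / U : ℝ) : ℂ)) (ψ c)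
      rw [norm_sub_rev, hU1] at e2
      linarith
    have u2 : ‖ψ c‖ < (1 + s) / U := by
      have e1 : (1 + s / 2) / U + s / (2 * U) = (1 + s) / U := by field_simp; ring
      have e2 := norm_sub_norm_le (ψ c) ((((1 + s / 2) / U : ℝ) : ℂ))
      rw [hU1] at e2
      linarith
    have hψ : 0 < ‖ψ c‖ := lt_trans (by positivity) u1
    have hc : c ≠ 0 := by
      rintro rfl
      rw [map_zero] at hφ
      exact lt_irrefl _ hφ
    have T1 : 1 ≤ |φ c| * T := by
      rw [abs_of_pos hφ]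
      rw [div_lt_iff₀ hT] at t1
      exact t1.le
    have T2 : |φ c| * T ≤ 1 + s := by
      rw [abs_of_pos hφ]
      rw [lt_div_iff₀ hT] at t2
      exact t2.le
    have U1 : 1 ≤ ‖ψ c‖ * U := by
      rw [div_lt_iff₀ hU] at u1
      exact u1.le
    have U2 : ‖ψ c‖ * U ≤ 1 + s := by
      rw [lt_div_iff₀ hU] at u2
      exact u2.le
    refine ⟨c * b', mul_ne_zero hc hb', ?_, ?_, ?_⟩
    · rw [map_mul, abs_mul, le_div_iff₀ (by linarith)]
      have h4 : |φ c| * (2 * R * |φ b'|) ≤ |φ c| * T := mul_le_mul_of_nonneg_left h1 (abs_nonneg _)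
      nlinarith
    · rw [map_mul, norm_mul, le_div_iff₀ (by linarith)]
      have h4 : ‖ψ c‖ * (2 * R * ‖ψ b'‖) ≤ ‖ψ c‖ * U := mul_le_mul_of_nonneg_left h2 hψ.le
      nlinarith
    · have h4 := mu_scale hMUB μ hv h κ b' c hc T U
      have h5 := mu_cut hMUB μ hd hv h κ (c * b') _ _ s T2 U2 hs0.le
      have h6 : |φ c| * ‖ψ c‖ ^ 2 * (ε * (T * U ^ 2)) < |φ c| * ‖ψ c‖ ^ 2 * μ (Z φ ψ h κ b' T U) :=
        mul_lt_mul_of_pos_left h3 (by positivity)
      have h7 : |φ c| * ‖ψ c‖ ^ 2 * (ε * (T * U ^ 2)) = ε * ((|φ c| * T) * (‖ψ c‖ * U) ^ 2) := by ring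
      have h8 : 1 ≤ (|φ c| * T) * (‖ψ c‖ * U) ^ 2 := one_le_mul_of_one_le_of_one_le T1 (one_le_pow₀ U1)
      have h9 : ε ≤ ε * ((|φ c| * T) * (‖ψ c‖ * U) ^ 2) := le_mul_of_one_le_right hε.le h8
      have h10 : (1 + s) ^ 3 - 1 ≤ 7 * s := by nlinarith [sq_nonneg s, mul_pos hs0 hs0]
      linarith
  -- the sequence
  let Q : L → Prop := fun b => b ≠ 0 ∧ |φ b| ≤ 1 / R ∧ ‖ψ b‖ ≤ 1 / R ∧
      3 / 4 * ε < μ (Z φ ψ h κ b 1 1)
  obtain ⟨b0, hb0⟩ := star R hR
  have hstep : ∀ b : {b : L // Q b}, ∃ b' : {b : L // Q b}, |φ b'.1| ≤ s * |φ b.1| ∧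
      ‖ψ b'.1‖ ≤ s * ‖ψ b.1‖ := by
    rintro ⟨b, hb⟩
    have hφ : 0 < |φ b| := abs_pos.2 ((map_ne_zero φ).2 hb.1)
    have hψ : 0 < ‖ψ b‖ := norm_pos_iff.2 ((map_ne_zero ψ).2 hb.1)
    set R' := max R (max (1 / (s * |φ b|)) (1 / (s * ‖ψ b‖))) with hR'
    have r1 : R ≤ R' := le_max_left _ _
    have r2 : 1 / (s * |φ b|) ≤ R' := (le_max_left _ _).trans (le_max_right _ _)
    have r3 : 1 / (s * ‖ψ b‖) ≤ R' := (le_max_right _ _).trans (le_max_right _ _)
    have hR'0 : 0 < R' := by linarith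
    obtain ⟨b', g1, g2, g3, g4⟩ := star R' (hR.trans r1)
    have hle : 1 / R' ≤ 1 / R := one_div_le_one_div_of_le (by linarith) r1
    refine ⟨⟨b', g1, g2.trans hle, g3.trans hle, g4⟩, g2.trans ?_, g3.trans ?_⟩
    · rw [one_div_le hR'0 (by positivity)]
      exact r2
    · rw [one_div_le hR'0 (by positivity)]
      exact r3
  choose F hF using hstep
  let f : ℕ → {b : L // Q b} := fun n => F^[n] ⟨b0, hb0⟩
  have hf : ∀ n, |φ (f (n + 1)).1| ≤ s * |φ (f n).1| ∧ ‖ψ (f (n + 1)).1‖ ≤ s * ‖ψ (f n).1‖ := by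
    intro n
    have e : f (n + 1) = F (f n) := Function.iterate_succ_apply' F n _
    rw [e]
    exact hF (f n)
  have hlt : ∀ i k, |φ (f (i + k + 1)).1| ≤ s * |φ (f i).1| ∧
      ‖ψ (f (i + k + 1)).1‖ ≤ s * ‖ψ (f i).1‖ := by
    intro i k
    induction k with
    | zero => exact hf i
    | succ k ih =>
      have h1 := hf (i + k + 1)
      have p1 := abs_nonneg (φ (f (i + k + 1)).1)
      have p2 := norm_nonneg (ψ (f (i + k + 1)).1)
      constructor
      · refine h1.1.trans (le_trans ?_ ih.1)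
        nlinarith
      · refine h1.2.trans (le_trans ?_ ih.2)
        nlinarith
  refine ⟨fun i => (f i).1, fun i => ⟨(f i).2.2.1, (f i).2.2.2.1⟩, fun i j hij => ?_⟩
  obtain ⟨k, hk⟩ := Nat.exists_eq_add_of_lt (Fin.lt_def.1 hij)
  have hsm := hlt i.1 k
  rw [← hk] at hsm
  set bi := (f i).1 with hbi
  set bj := (f j).1 with hbj
  obtain ⟨hi0, -, -, hi4⟩ := (f i).2
  have hφ : 0 < |φ bi| := abs_pos.2 ((map_ne_zero φ).2 hi0)
  have hψ : 0 < ‖ψ bi‖ := norm_pos_iff.2 ((map_ne_zero ψ).2 hi0)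
  set g : L := 1 - bj / bi with hg
  have hgb : g * bi = bi - bj := by
    rw [hg, sub_mul, one_mul, div_mul_cancel₀ _ hi0]
  have g1 : |φ g - 1| ≤ s := by
    have e : φ g - 1 = -(φ bj / φ bi) := by
      rw [hg, map_sub, map_one, map_div₀]
      ring
    rw [e, abs_neg, abs_div, div_le_iff₀ hφ]
    exact hsm.1
  have g2 : ‖ψ g - 1‖ ≤ s := by
    have e : ψ g - 1 = -(ψ bj / ψ bi) := by
      rw [hg, map_sub, map_one, map_div₀]
      ring
    rw [e, norm_neg, norm_div, div_le_iff₀ hψ]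
    exact hsm.2
  rw [abs_le] at g1
  have a1 : 1 - s ≤ |φ g| := (by linarith : 1 - s ≤ φ g).trans (le_abs_self _)
  have a2 : |φ g| ≤ 1 + s := by
    rw [abs_le]
    constructor <;> linarith
  have a3 : 1 - s ≤ ‖ψ g‖ := by
    have e2 := norm_sub_norm_le (1 : ℂ) (ψ g)
    rw [norm_sub_rev, norm_one] at e2
    linarith
  have a4 : ‖ψ g‖ ≤ 1 + s := by
    have e2 := norm_sub_norm_le (ψ g) (1 : ℂ)
    rw [norm_one] at e2
    linarith
  have hg0 : g ≠ 0 := by
    rintro h0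
    rw [h0, map_zero, abs_zero] at a1
    linarith
  have h4 := mu_scale hMUB μ hv h κ bi g hg0 1 1
  rw [mul_one, mul_one, hgb] at h4
  have h5 := mu_cut hMUB μ hd hv h κ (bi - bj) _ _ s a2 a4 hs0.le
  change ε / 2 < μ (Z φ ψ h κ (bi - bj) 1 1)
  have h6 : (1 - s) ^ 3 ≤ |φ g| * ‖ψ g‖ ^ 2 := by
    have e1 : (1 - s) ^ 2 ≤ ‖ψ g‖ ^ 2 := pow_le_pow_left₀ (by linarith) a3 2
    have e2 : (1 - s) * (1 - s) ^ 2 ≤ |φ g| * ‖ψ g‖ ^ 2 :=
      mul_le_mul a1 e1 (by positivity) (abs_nonneg _)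
    calc (1 - s) ^ 3 = (1 - s) * (1 - s) ^ 2 := by ring
      _ ≤ _ := e2
  have h7 : (1 - s) ^ 3 * (3 / 4 * ε) ≤ |φ g| * ‖ψ g‖ ^ 2 * μ (Z φ ψ h κ bi 1 1) :=
    mul_le_mul h6 hi4.le (by positivity) (by positivity)
  have h8 : (1 + s) ^ 3 - 1 ≤ 7 * s := by nlinarith [sq_nonneg s, mul_pos hs0 hs0]
  have h9 : 1 - 3 * s ≤ (1 - s) ^ 3 := by nlinarith [sq_nonneg s, mul_pos hs0 hs0]
  have h10 : (1 - 3 * s) * (3 / 4 * ε) ≤ (1 - s) ^ 3 * (3 / 4 * ε) :=
    mul_le_mul_of_nonneg_right h9 (by positivity)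
  have h11 : ε * s ≤ ε * (1 / 56) := mul_le_mul_of_nonneg_left hs1 hε.le
  nlinarith

end Pool.Agent.Lib.MP_556c5c_lc
end

section
/-!
# MP_556c5c_lc, module BLA: for fixed `x` near `0` the class `h (b (1/(1+x) - 1/(1+x')))` is nonzero for many `x'`

Specs used: `SpecPOL`, `SpecMUB`. By helper65.
-/
namespace Pool.Agent.Lib.MP_556c5c_lc.BLAM

variable {F : Type} [NormedField F]

theorem one_add_lb (x : F) (a : ℝ) (hx : ‖x‖ ≤ a) : 1 - a ≤ ‖1 + x‖ := by
  have h1 : ‖(1 : F)‖ ≤ ‖1 + x‖ + ‖x‖ := by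
    calc ‖(1 : F)‖ = ‖(1 + x) - x‖ := by ring_nf
      _ ≤ ‖1 + x‖ + ‖x‖ := norm_sub_le _ _
  rw [norm_one] at h1
  linarith

theorem one_add_ne (x : F) (hx : ‖x‖ < 1) : 1 + x ≠ 0 := by
  intro h
  have h1 := one_add_lb x ‖x‖ le_rfl
  rw [h, norm_zero] at h1
  linarith

theorem nz (ζ : F) (hz : ‖ζ‖ = 1) : ‖ζ - 1‖ ≤ 2 := by
  calc ‖ζ - 1‖ ≤ ‖ζ‖ + ‖(1 : F)‖ := norm_sub_le _ _
    _ = 2 := by rw [hz, norm_one]; norm_num

/-- The quotient `1 + B / (1 + x)` is near `ζ`. -/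
theorem near (ζ B x : F) (a η : ℝ) (hz : ‖ζ‖ = 1) (hB : ‖B - (ζ - 1)‖ ≤ η) (hx : ‖x‖ ≤ a)
    (ha : a ≤ 1 / 2) : ‖1 + B / (1 + x) - ζ‖ ≤ 2 * (η + 2 * a) := by
  have hX : 1 / 2 ≤ ‖1 + x‖ := by
    have := one_add_lb x a hx
    linarith
  have hX0 : 1 + x ≠ 0 := by
    intro h
    rw [h, norm_zero] at hX
    linarith
  have h1 : 1 + B / (1 + x) - ζ = ((B - (ζ - 1)) - (ζ - 1) * x) / (1 + x) := by
    field_simp
    ring
  rw [h1, norm_div, div_le_iff₀ (by linarith)]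
  have h2 : ‖(B - (ζ - 1)) - (ζ - 1) * x‖ ≤ η + 2 * a := by
    calc ‖(B - (ζ - 1)) - (ζ - 1) * x‖ ≤ ‖B - (ζ - 1)‖ + ‖(ζ - 1) * x‖ := norm_sub_le _ _
      _ ≤ η + 2 * a := by
        rw [norm_mul]
        have := mul_le_mul (nz ζ hz) hx (norm_nonneg _) (by norm_num)
        linarith
  have h3 : 0 ≤ η + 2 * a := (norm_nonneg _).trans h2
  nlinarith

theorem nB (ζ B : F) (η : ℝ) (hz : ‖ζ‖ = 1) (hB : ‖B - (ζ - 1)‖ ≤ η) (hη : η ≤ 1) : ‖B‖ ≤ 3 := by
  calc ‖B‖ = ‖(B - (ζ - 1)) + (ζ - 1)‖ := by ring_nf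
    _ ≤ ‖B - (ζ - 1)‖ + ‖ζ - 1‖ := norm_add_le _ _
    _ ≤ 3 := by
      have := nz ζ hz
      linarith

/-- All the estimates at one place. -/
theorem est (ζ B x x' : F) (κ δ η : ℝ) (hκ : 0 < κ) (hκ1 : κ ≤ 1 / 5000) (hδ : 0 < δ)
    (hδ1 : δ ≤ 1 / 1000) (hη : η ≤ κ * δ) (hz : ‖ζ‖ = 1) (hB : ‖B - (ζ - 1)‖ < η)
    (hx : ‖x‖ < κ * δ) (hx' : ‖x'‖ < δ) :
    1 - 6 * (κ * δ) ≤ ‖1 + B / (1 + x)‖ ∧
      ‖(1 + B / (1 + x)) * x' + -(B * x / (1 + x))‖ < δ * (1 + 12 * κ) ∧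
      1 + x ≠ 0 ∧ 1 + x' ≠ 0 ∧ 1 + ((1 + B / (1 + x)) * x' + -(B * x / (1 + x))) ≠ 0 ∧
      ‖1 + B / (1 + ((1 + B / (1 + x)) * x' + -(B * x / (1 + x)))) - ζ‖ ≤ 10 * δ ∧
      ‖B * (1 / (1 + x) - 1 / (1 + x'))‖ ≤ 24 * δ := by
  have hκδ : κ * δ ≤ 1 / 5000 * (1 / 1000) := mul_le_mul hκ1 hδ1 hδ.le (by norm_num)
  have hκδ0 : 0 < κ * δ := mul_pos hκ hδ
  have hκδ2 : κ * δ ≤ δ := by nlinarith
  have hX : 1 / 2 ≤ ‖1 + x‖ := by
    have := one_add_lb x (κ * δ) hx.le
    linarith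
  have hX' : 1 / 2 ≤ ‖1 + x'‖ := by
    have := one_add_lb x' δ hx'.le
    linarith
  have hX0 : 1 + x ≠ 0 := one_add_ne x (by linarith)
  have hX0' : 1 + x' ≠ 0 := one_add_ne x' (by linarith)
  have hB3 : ‖B‖ ≤ 3 := nB ζ B η hz hB.le (by linarith)
  have hu : ‖1 + B / (1 + x) - ζ‖ ≤ 6 * (κ * δ) := by
    have := near ζ B x (κ * δ) η hz hB.le hx.le (by linarith)
    linarith
  have hu1 : ‖1 + B / (1 + x)‖ ≤ 1 + 6 * (κ * δ) := by
    calc ‖1 + B / (1 + x)‖ = ‖(1 + B / (1 + x) - ζ) + ζ‖ := by ring_nf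
      _ ≤ ‖1 + B / (1 + x) - ζ‖ + ‖ζ‖ := norm_add_le _ _
      _ ≤ _ := by rw [hz]; linarith
  have hu2 : 1 - 6 * (κ * δ) ≤ ‖1 + B / (1 + x)‖ := by
    have h1 : ‖ζ‖ ≤ ‖1 + B / (1 + x)‖ + ‖1 + B / (1 + x) - ζ‖ := by
      calc ‖ζ‖ = ‖(1 + B / (1 + x)) - (1 + B / (1 + x) - ζ)‖ := by ring_nf
        _ ≤ _ := norm_sub_le _ _
    rw [hz] at h1
    linarith
  have hg : ‖-(B * x / (1 + x))‖ ≤ 6 * (κ * δ) := by
    rw [norm_neg, norm_div, norm_mul, div_le_iff₀ (by linarith)]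
    have h1 : ‖B‖ * ‖x‖ ≤ 3 * (κ * δ) := mul_le_mul hB3 hx.le (norm_nonneg _) (by norm_num)
    nlinarith
  have h3 : ‖(1 + B / (1 + x)) * x' + -(B * x / (1 + x))‖ < δ * (1 + 12 * κ) := by
    calc ‖(1 + B / (1 + x)) * x' + -(B * x / (1 + x))‖
        ≤ ‖(1 + B / (1 + x)) * x'‖ + ‖-(B * x / (1 + x))‖ := norm_add_le _ _
      _ ≤ (1 + 6 * (κ * δ)) * ‖x'‖ + 6 * (κ * δ) := by
        rw [norm_mul]
        have := mul_le_mul_of_nonneg_right hu1 (norm_nonneg x')
        linarith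
      _ < (1 + 6 * (κ * δ)) * δ + 6 * (κ * δ) := by
        have : (1 + 6 * (κ * δ)) * ‖x'‖ < (1 + 6 * (κ * δ)) * δ :=
          mul_lt_mul_of_pos_left hx' (by linarith)
        linarith
      _ ≤ δ * (1 + 12 * κ) := by nlinarith
  have h4 : δ * (1 + 12 * κ) ≤ 2 * δ := by nlinarith
  have h5 : 1 + ((1 + B / (1 + x)) * x' + -(B * x / (1 + x))) ≠ 0 :=
    one_add_ne _ (by linarith)
  refine ⟨hu2, h3, hX0, hX0', h5, ?_, ?_⟩
  · have := near ζ B ((1 + B / (1 + x)) * x' + -(B * x / (1 + x))) (2 * δ) η hz hB.le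
      (by linarith) (by linarith)
    linarith
  · have h6 : B * (1 / (1 + x) - 1 / (1 + x')) = B * (x' - x) / ((1 + x) * (1 + x')) := by
      field_simp
      ring
    rw [h6, norm_div, norm_mul, norm_mul]
    have h7 : 1 / 4 ≤ ‖1 + x‖ * ‖1 + x'‖ := by
      have := mul_le_mul hX hX' (by norm_num) (norm_nonneg _)
      linarith
    rw [div_le_iff₀ (by linarith)]
    have h8 : ‖x' - x‖ ≤ 2 * δ := by
      have := norm_sub_le x' x
      linarith
    have h9 : ‖B‖ * ‖x' - x‖ ≤ 3 * (2 * δ) := mul_le_mul hB3 h8 (norm_nonneg _) (by norm_num)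
    nlinarith

/-- The identity behind the module. -/
theorem ident {L : Type} [Field L] (b x x' : L) (h1 : 1 + x ≠ 0) (h2 : 1 + x' ≠ 0)
    (h3 : 1 + ((1 + b / (1 + x)) * x' + -(b * x / (1 + x))) ≠ 0) :
    (1 + b / (1 + ((1 + b / (1 + x)) * x' + -(b * x / (1 + x))))) *
      (1 + b * (1 / (1 + x) - 1 / (1 + x'))) = 1 + b / (1 + x) := by
  have h4 : 1 + ((1 + b / (1 + x)) * x' + -(b * x / (1 + x))) =
      (1 + x') * (1 + b * (1 / (1 + x) - 1 / (1 + x'))) := by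
    field_simp
    ring
  have h5 : 1 + b * (1 / (1 + x) - 1 / (1 + x')) ≠ 0 := by
    intro h
    rw [h4, h, mul_zero] at h3
    exact h3 rfl
  rw [h4]
  have h6 : (1 + b / ((1 + x') * (1 + b * (1 / (1 + x) - 1 / (1 + x'))))) *
      (1 + b * (1 / (1 + x) - 1 / (1 + x'))) =
      (1 + b * (1 / (1 + x) - 1 / (1 + x'))) + b / (1 + x') := by
    generalize 1 + b * (1 / (1 + x) - 1 / (1 + x')) = c at h5
    field_simp
  rw [h6]
  field_simp
  ring

end Pool.Agent.Lib.MP_556c5c_lc.BLAM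

namespace Pool.Agent.Lib.MP_556c5c_lc

open BLAM

theorem specBLA (hPOL : SpecPOL) (hMUB : SpecMUB) : SpecBLA := by
  intro L _ φ ψ A _ q ζ r h D τ N μ hC
  have hq5 : (5 : ℝ) ≤ q := by exact_mod_cast hC.cl.q5
  have hq0 : (0 : ℝ) < q := by linarith
  have hr0 := hC.cl.r0
  have hr5 := hC.cl.r5
  set p : ℝ := 1 / q with hp
  have hp0 : 0 < p := by positivity
  have hp5 : p ≤ 1 / 5 := by
    rw [hp]
    exact one_div_le_one_div_of_le (by norm_num) hq5
  refine ⟨p / 1000, by positivity, by linarith, fun δ hδ hδr => ?_⟩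
  set κ : ℝ := p / 1000 with hκ
  have hκ0 : 0 < κ := by positivity
  have hκ1 : κ ≤ 1 / 5000 := by rw [hκ]; linarith
  have hδ1 : δ ≤ 1 / 1000 := by linarith
  obtain ⟨η, hη0, hη⟩ := hPOL L φ ψ A q ζ r h D τ N μ hC (p / 100) (δ * (1 + 12 * κ))
    (by positivity) (by positivity) (by nlinarith)
  refine ⟨min η (κ * δ), lt_min hη0 (mul_pos hκ0 hδ), fun b x hb1 hb2 hx => ?_⟩
  have hpol := hη b (hb1.trans_le (min_le_left _ _)) (hb2.trans_le (min_le_left _ _))
    (D (1 + b / (1 + x)))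
  -- estimates
  have hR := fun (x' : L) (hx' : |φ x'| < δ) => est (1 : ℝ) (φ b) (φ x) (φ x') κ δ (min η (κ * δ))
    hκ0 hκ1 hδ hδ1 (min_le_right _ _) (by simp) (by simpa using hb1) hx.1 hx'
  have hI := fun (x' : L) (hx' : ‖ψ x'‖ < δ) => est ζ (ψ b) (ψ x) (ψ x') κ δ (min η (κ * δ))
    hκ0 hκ1 hδ hδ1 (min_le_right _ _) hC.cl.z1 hb2 hx.2 hx'
  have hzR : 1 - 6 * (κ * δ) ≤ |φ (1 + b / (1 + x))| := by
    have := (hR 0 (by simpa using hδ)).1
    rw [Real.norm_eq_abs] at this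
    simpa using this
  have hzI : 1 - 6 * (κ * δ) ≤ ‖ψ (1 + b / (1 + x))‖ := by
    have := (hI 0 (by simpa using hδ)).1
    simpa using this
  have hu0 : 1 + b / (1 + x) ≠ 0 := by
    intro h0
    rw [h0, map_zero, abs_zero] at hzR
    nlinarith
  have hpull := hMUB.pull L φ ψ μ hC.vol
    {x' ∈ Bx φ ψ δ δ | h (b * (1 / (1 + x) - 1 / (1 + x'))) = 0}
    {y ∈ Bx φ ψ (δ * (1 + 12 * κ)) (δ * (1 + 12 * κ)) | D (1 + b / (1 + y)) = D (1 + b / (1 + x))}
    (hMUB.bds L φ ψ _ _ (hMUB.bdb L φ ψ δ δ) (fun y hy => hy.1))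
    (hMUB.bds L φ ψ _ _ (hMUB.bdb L φ ψ (δ * (1 + 12 * κ)) (δ * (1 + 12 * κ))) (fun y hy => hy.1))
    (1 + b / (1 + x)) (-(b * x / (1 + x))) hu0 (by
      rintro x' ⟨⟨hx1, hx2⟩, hh⟩
      obtain ⟨-, hR2, hR3, hR4, hR5, -, -⟩ := hR x' hx1
      obtain ⟨-, hI2, hI3, hI4, hI5, hI6, hI7⟩ := hI x' hx2
      have hφ : φ ((1 + b / (1 + x)) * x' + -(b * x / (1 + x))) =
          (1 + φ b / (1 + φ x)) * φ x' + -(φ b * φ x / (1 + φ x)) := by simp
      have hψ : ψ ((1 + b / (1 + x)) * x' + -(b * x / (1 + x))) =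
          (1 + ψ b / (1 + ψ x)) * ψ x' + -(ψ b * ψ x / (1 + ψ x)) := by simp
      refine ⟨⟨?_, ?_⟩, ?_⟩
      · rw [hφ]
        exact hR2
      · rw [hψ]
        exact hI2
      · have n1 : 1 + x ≠ 0 := by
          intro h0
          apply hI3
          have := congrArg ψ h0
          simpa using this
        have n2 : 1 + x' ≠ 0 := by
          intro h0
          apply hI4
          have := congrArg ψ h0
          simpa using this
        have n3 : 1 + ((1 + b / (1 + x)) * x' + -(b * x / (1 + x))) ≠ 0 := by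
          intro h0
          apply hI5
          have := congrArg ψ h0
          simpa using this
        have hid := ident b x x' n1 n2 n3
        have hd := hC.cl.dadd (1 + b / (1 + ((1 + b / (1 + x)) * x' + -(b * x / (1 + x)))))
          (b * (1 / (1 + x) - 1 / (1 + x'))) (by
            have e1 : ψ (1 + b / (1 + ((1 + b / (1 + x)) * x' + -(b * x / (1 + x))))) =
              1 + ψ b / (1 + ((1 + ψ b / (1 + ψ x)) * ψ x' + -(ψ b * ψ x / (1 + ψ x)))) := by simp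
            rw [e1]
            linarith) (by
            have e2 : ψ (b * (1 / (1 + x) - 1 / (1 + x'))) =
              ψ b * (1 / (1 + ψ x) - 1 / (1 + ψ x')) := by simp
            rw [e2]
            linarith)
        rw [hid, hh, add_zero] at hd
        exact hd.symm)
  -- the numbers
  set m : ℝ := μ {x' ∈ Bx φ ψ δ δ | h (b * (1 / (1 + x) - 1 / (1 + x'))) = 0} with hm
  have hm0 : 0 ≤ m := hC.vol.nn _ (hMUB.bds L φ ψ _ _ (hMUB.bdb L φ ψ δ δ) (fun y hy => hy.1))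
  have hδ3 : 0 < δ ^ 3 := by positivity
  have ht0 : 0 ≤ 6 * (κ * δ) := by positivity
  have ht1 : 6 * (κ * δ) ≤ κ / 100 := by nlinarith
  have ht2 : 0 < 1 - 6 * (κ * δ) := by linarith
  have hfac : 1 - κ ≤ |φ (1 + b / (1 + x))| * ‖ψ (1 + b / (1 + x))‖ ^ 2 := by
    have hcub : ∀ t : ℝ, 0 ≤ t → t ≤ 1 → 1 - 3 * t ≤ (1 - t) * (1 - t) ^ 2 := by
      intro t h0 h1
      nlinarith [mul_nonneg (mul_nonneg h0 h0) (by linarith : (0 : ℝ) ≤ 3 - t)]
    have hc := hcub (6 * (κ * δ)) ht0 (by linarith)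
    calc 1 - κ ≤ (1 - 6 * (κ * δ)) * (1 - 6 * (κ * δ)) ^ 2 := by linarith
      _ ≤ |φ (1 + b / (1 + x))| * ‖ψ (1 + b / (1 + x))‖ ^ 2 :=
        mul_le_mul hzR (pow_le_pow_left₀ ht2.le hzI 2) (by positivity) (abs_nonneg _)
  have h1 : (1 - κ) * m ≤ (1 - p + p / 100) * (δ * (1 + 12 * κ)) ^ 3 :=
    (mul_le_mul_of_nonneg_right hfac hm0).trans (hpull.trans hpol)
  have h2 : (1 - p + p / 100) * (1 + 12 * κ) ^ 3 ≤ (1 - κ) * (1 - p / 2) := by
    have h3 : (1 + 12 * κ) ^ 3 ≤ 1 + 4 / 100 * p := by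
      rw [hκ]
      nlinarith [mul_pos hp0 hp0, mul_pos (mul_pos hp0 hp0) hp0]
    have h4 : 0 ≤ 1 - p + p / 100 := by linarith
    calc (1 - p + p / 100) * (1 + 12 * κ) ^ 3 ≤ (1 - p + p / 100) * (1 + 4 / 100 * p) :=
        mul_le_mul_of_nonneg_left h3 h4
      _ ≤ (1 - κ) * (1 - p / 2) := by
        rw [hκ]
        nlinarith [mul_pos hp0 hp0]
  have h5 : (1 - κ) * m ≤ (1 - κ) * ((1 - p / 2) * δ ^ 3) := by
    calc (1 - κ) * m ≤ (1 - p + p / 100) * (δ * (1 + 12 * κ)) ^ 3 := h1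
      _ = ((1 - p + p / 100) * (1 + 12 * κ) ^ 3) * δ ^ 3 := by ring
      _ ≤ ((1 - κ) * (1 - p / 2)) * δ ^ 3 := mul_le_mul_of_nonneg_right h2 hδ3.le
      _ = _ := by ring
  have h6 : m ≤ (1 - p / 2) * δ ^ 3 := le_of_mul_le_mul_left h5 (by linarith)
  have h7 : 1 / (2 * (q : ℝ)) = p / 2 := by
    rw [hp]
    field_simp
  rw [h7]
  exact h6

end Pool.Agent.Lib.MP_556c5c_lc
end

section
/-!
# MP_556c5c_lc, module BLK: the block lemma

Specs used: `SpecBLA`, `SpecSSC`, `SpecMUB`. By helper68.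
-/
namespace Pool.Agent.Lib.MP_556c5c_lc.BLKM

section

variable {F : Type} [NormedField F]

theorem lb (u v : F) (a : ℝ) (h : ‖u - v‖ ≤ a) : ‖v‖ - a ≤ ‖u‖ := by
  have h1 : ‖v‖ ≤ ‖u‖ + ‖u - v‖ := by
    calc ‖v‖ = ‖u - (u - v)‖ := by ring_nf
      _ ≤ ‖u‖ + ‖u - v‖ := norm_sub_le _ _
  linarith

theorem ne0 (u : F) (h : 1 / 2 ≤ ‖u‖) : u ≠ 0 := by
  intro h0
  rw [h0, norm_zero] at h
  linarith

/-- All the estimates at one place. -/
theorem est (z B x x' : F) (δ η : ℝ) (hδ1 : δ ≤ 1 / 1000) (hη : η ≤ 1 / 500)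
    (hz : ‖z‖ = 1) (hB : ‖B - (z - 1)‖ < η) (hx : ‖x‖ < δ) (hx' : ‖x'‖ < δ) :
    ‖B‖ ≤ 3 ∧ ‖1 + B‖ ≤ 5 ∧ 1 + x ≠ 0 ∧ 1 + x' ≠ 0 ∧ 1 + x + B ≠ 0 ∧
      ‖1 / (1 + x) - 1 / (1 + x')‖ ≤ 4 * δ ∧ ‖1 - B * (1 + x) / (1 + x + B)‖ ≤ 20 ∧
      (∀ s : F, ‖s‖ < η → 1 + x + s ≠ 0 ∧ ‖-(s * (1 + x) / (1 + x + s))‖ ≤ 16 * η) ∧
      ∀ s : F, ‖s - B‖ < η → 1 + x + s ≠ 0 ∧
        ‖B * (1 + x) / (1 + x + B) - s * (1 + x) / (1 + x + s)‖ ≤ 16 * η := by
  have n1 : ‖(1 : F)‖ = 1 := norm_one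
  have hη0 : 0 < η := (norm_nonneg _).trans_lt hB
  have hz1 : ‖z - 1‖ ≤ 2 := by
    have := norm_sub_le z 1
    linarith
  have hB3 : ‖B‖ ≤ 3 := by
    calc ‖B‖ = ‖(B - (z - 1)) + (z - 1)‖ := by ring_nf
      _ ≤ ‖B - (z - 1)‖ + ‖z - 1‖ := norm_add_le _ _
      _ ≤ 3 := by linarith
  have h1B : ‖1 + B‖ ≤ 5 := by
    have := norm_add_le 1 B
    linarith
  have hX : 9 / 10 ≤ ‖1 + x‖ := by
    have := lb (1 + x) 1 δ (by
      have e : (1 + x) - 1 = x := by ring
      rw [e]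
      exact hx.le)
    linarith
  have hXu : ‖1 + x‖ ≤ 11 / 10 := by
    have := norm_add_le 1 x
    linarith
  have hX' : 9 / 10 ≤ ‖1 + x'‖ := by
    have := lb (1 + x') 1 δ (by
      have e : (1 + x') - 1 = x' := by ring
      rw [e]
      exact hx'.le)
    linarith
  have hX0 : 1 + x ≠ 0 := ne0 _ (by linarith)
  have hX0' : 1 + x' ≠ 0 := ne0 _ (by linarith)
  have hXB : 9 / 10 ≤ ‖1 + x + B‖ := by
    have := lb (1 + x + B) z (δ + η) (by
      have e : (1 + x + B) - z = x + (B - (z - 1)) := by ring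
      rw [e]
      have := norm_add_le x (B - (z - 1))
      linarith)
    linarith
  have hXB0 : 1 + x + B ≠ 0 := ne0 _ (by linarith)
  refine ⟨hB3, h1B, hX0, hX0', hXB0, ?_, ?_, ?_, ?_⟩
  · have e : 1 / (1 + x) - 1 / (1 + x') = (x' - x) / ((1 + x) * (1 + x')) := by
      field_simp
      ring
    rw [e, norm_div, norm_mul]
    have h7 : 1 / 2 ≤ ‖1 + x‖ * ‖1 + x'‖ := by
      have := mul_le_mul hX hX' (by norm_num) (norm_nonneg _)
      linarith
    rw [div_le_iff₀ (by linarith)]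
    have h8 : ‖x' - x‖ ≤ 2 * δ := by
      have := norm_sub_le x' x
      linarith
    have h9 : 0 < δ := (norm_nonneg _).trans_lt hx
    nlinarith
  · have h2 : ‖B * (1 + x) / (1 + x + B)‖ ≤ 19 := by
      rw [norm_div, norm_mul, div_le_iff₀ (by linarith)]
      have := mul_le_mul hB3 hXu (norm_nonneg _) (by norm_num)
      linarith
    have := norm_sub_le 1 (B * (1 + x) / (1 + x + B))
    linarith
  · intro s hs
    have h1 : 1 / 2 ≤ ‖1 + x + s‖ := by
      have := lb (1 + x + s) (1 + x) η (by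
        have e : (1 + x + s) - (1 + x) = s := by ring
        rw [e]
        exact hs.le)
      linarith
    refine ⟨ne0 _ h1, ?_⟩
    rw [norm_neg, norm_div, norm_mul, div_le_iff₀ (by linarith)]
    have := mul_le_mul hs.le hXu (norm_nonneg _) hη0.le
    nlinarith
  · intro s hs
    have h1 : 1 / 2 ≤ ‖1 + x + s‖ := by
      have := lb (1 + x + s) (1 + x + B) η (by
        have e : (1 + x + s) - (1 + x + B) = s - B := by ring
        rw [e]
        exact hs.le)
      linarith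
    have h0 : 1 + x + s ≠ 0 := ne0 _ h1
    refine ⟨h0, ?_⟩
    have e : B * (1 + x) / (1 + x + B) - s * (1 + x) / (1 + x + s) =
        -((s - B) * ((1 + x) * (1 + x))) / ((1 + x + B) * (1 + x + s)) := by
      field_simp
      ring
    rw [e, norm_div, norm_neg, norm_mul, norm_mul, norm_mul]
    have h2 : 9 / 20 ≤ ‖1 + x + B‖ * ‖1 + x + s‖ := by
      have := mul_le_mul hXB h1 (by norm_num) (norm_nonneg _)
      linarith
    rw [div_le_iff₀ (by linarith)]
    have h3 : ‖1 + x‖ * ‖1 + x‖ ≤ 11 / 10 * (11 / 10) :=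
      mul_le_mul hXu hXu (norm_nonneg _) (by norm_num)
    have h4 := mul_le_mul hs.le h3 (by positivity) hη0.le
    nlinarith

end

/-- first identity -/
theorem id1 {L : Type} [Field L] (s x x' : L) (h1 : 1 + x ≠ 0) (h2 : 1 + x' ≠ 0) (h3 : 1 + x + s ≠ 0) :
    s / (1 + x) + (-(s * (1 + x) / (1 + x + s))) / (1 + x') +
      s / (1 + x) * ((-(s * (1 + x) / (1 + x + s))) / (1 + x')) =
    s * (1 / (1 + x) - 1 / (1 + x')) := by
  field_simp
  ring

/-- second identity -/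
theorem id2 {L : Type} [Field L] (s b x x' a a' : L) (h1 : 1 + x ≠ 0) (h2 : 1 + x' ≠ 0)
    (h3 : 1 + x + s ≠ 0) (h4 : 1 + x + b ≠ 0) (ha : a = b * (1 + x) / (1 + x + b))
    (ha' : a' = s * (1 + x) / (1 + x + s)) (h5 : 1 + x' - a ≠ 0) :
    b * (1 / (1 + x) - 1 / (1 + x')) +
      ((s - b) / (1 + x + b) + (a - a') / (1 + x' - a) +
        (s - b) / (1 + x + b) * ((a - a') / (1 + x' - a))) +
      b * (1 / (1 + x) - 1 / (1 + x')) *
      ((s - b) / (1 + x + b) + (a - a') / (1 + x' - a) +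
        (s - b) / (1 + x + b) * ((a - a') / (1 + x' - a))) =
    s * (1 / (1 + x) - 1 / (1 + x')) := by
  have e1 : (1 + x + b) * (1 + x' - a) =
      (1 + b * (1 / (1 + x) - 1 / (1 + x'))) * ((1 + x) * (1 + x')) := by
    rw [ha]
    field_simp
    ring
  have e2 : (1 + x + s) * (1 + x' - a') =
      (1 + s * (1 / (1 + x) - 1 / (1 + x'))) * ((1 + x) * (1 + x')) := by
    rw [ha']
    field_simp
    ring
  have e3 : 1 + ((s - b) / (1 + x + b) + (a - a') / (1 + x' - a) +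
        (s - b) / (1 + x + b) * ((a - a') / (1 + x' - a))) =
      (1 + x + s) * (1 + x' - a') / ((1 + x + b) * (1 + x' - a)) := by
    field_simp
    ring
  have e4 : (1 + b * (1 / (1 + x) - 1 / (1 + x'))) *
      (1 + ((s - b) / (1 + x + b) + (a - a') / (1 + x' - a) +
        (s - b) / (1 + x + b) * ((a - a') / (1 + x' - a)))) =
      1 + s * (1 / (1 + x) - 1 / (1 + x')) := by
    have hA : (1 + x) * (1 + x') ≠ 0 := mul_ne_zero h1 h2
    have hB : (1 + x + b) * (1 + x' - a) ≠ 0 := mul_ne_zero h4 h5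
    rw [e3, mul_div_assoc', div_eq_iff hB, e1, e2]
    ring
  linear_combination e4

end Pool.Agent.Lib.MP_556c5c_lc.BLKM

namespace Pool.Agent.Lib.MP_556c5c_lc

open BLKM

theorem specBLK (hBLA : SpecBLA) (hSSC : SpecSSC) (hMUB : SpecMUB) : SpecBLK := by
  intro L _ φ ψ A _ q ζ r h D τ N μ hC δ n hδ hδr
  have hq5 : (5 : ℝ) ≤ q := by exact_mod_cast hC.cl.q5
  have hr0 := hC.cl.r0
  have hr5 := hC.cl.r5
  have hδ1 : δ ≤ 1 / 1000 := by linarith
  obtain ⟨κ, hκ0, hκ1, hB⟩ := hBLA L φ ψ A q ζ r h D τ N μ hC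
  obtain ⟨ηB, hηB, hB⟩ := hB δ hδ hδr
  have hκδ : κ * δ ≤ δ := by nlinarith
  have hκδ0 : 0 < κ * δ := mul_pos hκ0 hδ
  have hn0 : (0 : ℝ) ≤ n := Nat.cast_nonneg n
  obtain ⟨η₁, hη₁, h1⟩ := hSSC L φ ψ A q ζ r h D τ N μ hC (κ * δ) 5 (1 / (4 * n + 4)) (r / 4)
    hκδ0 (by norm_num) (by positivity) (by positivity) (by linarith)
  obtain ⟨η₂, hη₂, h2⟩ := hSSC L φ ψ A q ζ r h D τ N μ hC δ 20 (1 / (8 * q * (n + 1))) (r / 4)
    hδ (by norm_num) (by positivity) (by positivity) (by linarith)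
  have hη0 : 0 < min (min η₁ (η₂ / 16)) (min ηB (r / 100)) :=
    lt_min (lt_min hη₁ (by positivity)) (lt_min hηB (by positivity))
  refine ⟨min (min η₁ (η₂ / 16)) (min ηB (r / 100)), hη0, fun b hb1 hb2 s s' hs hs' => ?_⟩
  set η := min (min η₁ (η₂ / 16)) (min ηB (r / 100)) with hη
  have g1 : η ≤ η₁ := (min_le_left _ _).trans (min_le_left _ _)
  have g2 : 16 * η ≤ η₂ := by
    have : η ≤ η₂ / 16 := (min_le_left _ _).trans (min_le_right _ _)
    linarith
  have g3 : η ≤ ηB := (min_le_right _ _).trans (min_le_left _ _)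
  have g4 : η ≤ 1 / 500 := by
    have : η ≤ r / 100 := (min_le_right _ _).trans (min_le_right _ _)
    linarith
  -- the estimates at both places
  have hR := fun (x x' : L) (hx : |φ x| < δ) (hx' : |φ x'| < δ) =>
    est (1 : ℝ) (φ b) (φ x) (φ x') δ η hδ1 g4 (by simp) (by simpa using hb1) hx hx'
  have hI := fun (x x' : L) (hx : ‖ψ x‖ < δ) (hx' : ‖ψ x'‖ < δ) =>
    est ζ (ψ b) (ψ x) (ψ x') δ η hδ1 g4 hC.cl.z1 hb2 hx hx'
  have hbox : ∀ t : ℝ, 0 < t → μ (Bx φ ψ t t) = t ^ 3 := by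
    intro t ht
    rw [hMUB.box L φ ψ μ hC.dn hC.vol t t ht ht]
    ring
  -- choice of `x`
  obtain ⟨x, hx, hxg⟩ : ∃ x ∈ Bx φ ψ (κ * δ) (κ * δ), ∀ k, Good ψ h (r / 4) (s k) (x + 1) ∧
      Good ψ h (r / 4) (s' k - b) (x + (1 + b)) := by
    have c1 : ∀ k, μ {x ∈ Bx φ ψ (κ * δ) (κ * δ) | ¬ Good ψ h (r / 4) (s k) (x + 1)} ≤
        1 / (4 * n + 4) * (κ * δ) ^ 3 := fun k => h1 1 (s k) (by simp) (by simp)
      ((hs k).1.le.trans g1) ((hs k).2.le.trans g1)
    have c2 : ∀ k, μ {x ∈ Bx φ ψ (κ * δ) (κ * δ) | ¬ Good ψ h (r / 4) (s' k - b) (x + (1 + b))} ≤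
        1 / (4 * n + 4) * (κ * δ) ^ 3 := fun k => h1 (1 + b) (s' k - b) (by
          have := (hR 0 0 (by simpa using hδ) (by simpa using hδ)).2.1
          simpa using this) (by
          have := (hI 0 0 (by simpa using hδ) (by simpa using hδ)).2.1
          simpa using this) ((hs' k).1.le.trans g1) ((hs' k).2.le.trans g1)
    have bd : ∀ P : L → Prop, Bd φ ψ {x ∈ Bx φ ψ (κ * δ) (κ * δ) | P x} := fun P =>
      hMUB.bds L φ ψ _ _ (hMUB.bdb L φ ψ (κ * δ) (κ * δ)) (fun y hy => hy.1)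
    obtain ⟨x, hx, hx2⟩ := hMUB.find L φ ψ μ hC.vol n
      (fun k => {x ∈ Bx φ ψ (κ * δ) (κ * δ) | ¬ Good ψ h (r / 4) (s k) (x + 1)} ∪
        {x ∈ Bx φ ψ (κ * δ) (κ * δ) | ¬ Good ψ h (r / 4) (s' k - b) (x + (1 + b))})
      (Bx φ ψ (κ * δ) (κ * δ)) (hMUB.bdb L φ ψ (κ * δ) (κ * δ)) (by
        rintro k y (hy | hy)
        · exact hy.1
        · exact hy.1) (by
        rw [hbox _ hκδ0]
        have c3 : ∀ k : Fin n, μ ({x ∈ Bx φ ψ (κ * δ) (κ * δ) | ¬ Good ψ h (r / 4) (s k) (x + 1)} ∪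
            {x ∈ Bx φ ψ (κ * δ) (κ * δ) | ¬ Good ψ h (r / 4) (s' k - b) (x + (1 + b))}) ≤
            2 * (1 / (4 * n + 4) * (κ * δ) ^ 3) := by
          intro k
          have := hMUB.sub L φ ψ μ hC.vol _ _ (bd fun x => ¬ Good ψ h (r / 4) (s k) (x + 1))
            (bd fun x => ¬ Good ψ h (r / 4) (s' k - b) (x + (1 + b)))
          have k1 := c1 k
          have k2 := c2 k
          linarith
        have c4 := Finset.sum_le_sum fun k (_ : k ∈ (Finset.univ : Finset (Fin n))) => c3 k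
        refine lt_of_le_of_lt c4 ?_
        rw [Finset.sum_const, Finset.card_univ, Fintype.card_fin, nsmul_eq_mul]
        have c5 : 0 < (κ * δ) ^ 3 := by positivity
        have c6 : (n : ℝ) * (2 * (1 / (4 * n + 4))) < 1 := by
          rw [mul_one_div, mul_div_assoc', div_lt_one (by positivity)]
          linarith
        have c7 := mul_lt_mul_of_pos_right c6 c5
        linarith)
    refine ⟨x, hx, fun k => ⟨?_, ?_⟩⟩
    · by_contra hn
      exact hx2 k (Or.inl ⟨hx, hn⟩)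
    · by_contra hn
      exact hx2 k (Or.inr ⟨hx, hn⟩)
  have hx1 : |φ x| < δ := hx.1.trans_le hκδ
  have hx2 : ‖ψ x‖ < δ := hx.2.trans_le hκδ
  have hR0 := hR x 0 hx1 (by simpa using hδ)
  have hI0 := hI x 0 hx2 (by simpa using hδ)
  have hX0 : 1 + x ≠ 0 := by
    intro h0
    apply hI0.2.2.1
    simpa using congrArg ψ h0
  have hXb0 : 1 + x + b ≠ 0 := by
    intro h0
    apply hI0.2.2.2.2.1
    simpa using congrArg ψ h0
  have hXs0 : ∀ k, 1 + x + s k ≠ 0 := by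
    intro k h0
    apply (hI0.2.2.2.2.2.2.2.1 (ψ (s k)) (hs k).2).1
    simpa using congrArg ψ h0
  have hXs'0 : ∀ k, 1 + x + s' k ≠ 0 := by
    intro k h0
    apply (hI0.2.2.2.2.2.2.2.2 (ψ (s' k)) (by simpa using (hs' k).2)).1
    simpa using congrArg ψ h0
  -- choice of `x'`
  set a : L := b * (1 + x) / (1 + x + b) with ha
  set a' : Fin n → L := fun k => s' k * (1 + x) / (1 + x + s' k) with ha'
  set t : Fin n → L := fun k => -(s k * (1 + x) / (1 + x + s k)) with ht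
  obtain ⟨x', hx', hxg', hxb⟩ : ∃ x' ∈ Bx φ ψ δ δ, (∀ k, Good ψ h (r / 4) (t k) (x' + 1) ∧
      Good ψ h (r / 4) (a - a' k) (x' + (1 - a))) ∧
      h (b * (1 / (1 + x) - 1 / (1 + x'))) ≠ 0 := by
    have c1 : ∀ k, μ {x' ∈ Bx φ ψ δ δ | ¬ Good ψ h (r / 4) (t k) (x' + 1)} ≤
        1 / (8 * q * (n + 1)) * δ ^ 3 := fun k => h2 1 (t k) (by simp) (by simp) (by
          have := (hR0.2.2.2.2.2.2.2.1 (φ (s k)) (hs k).1).2
          have e : φ (t k) = -(φ (s k) * (1 + φ x) / (1 + φ x + φ (s k))) := by simp [ht]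
          rw [e]
          exact le_trans this g2) (by
          have := (hI0.2.2.2.2.2.2.2.1 (ψ (s k)) (hs k).2).2
          have e : ψ (t k) = -(ψ (s k) * (1 + ψ x) / (1 + ψ x + ψ (s k))) := by simp [ht]
          rw [e]
          exact le_trans this g2)
    have c2 : ∀ k, μ {x' ∈ Bx φ ψ δ δ | ¬ Good ψ h (r / 4) (a - a' k) (x' + (1 - a))} ≤
        1 / (8 * q * (n + 1)) * δ ^ 3 := fun k => h2 (1 - a) (a - a' k) (by
          have e : φ (1 - a) = 1 - φ b * (1 + φ x) / (1 + φ x + φ b) := by simp [ha]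
          rw [e]
          exact hR0.2.2.2.2.2.2.1) (by
          have e : ψ (1 - a) = 1 - ψ b * (1 + ψ x) / (1 + ψ x + ψ b) := by simp [ha]
          rw [e]
          exact hI0.2.2.2.2.2.2.1) (by
          have := (hR0.2.2.2.2.2.2.2.2 (φ (s' k)) (by simpa using (hs' k).1)).2
          have e : φ (a - a' k) = φ b * (1 + φ x) / (1 + φ x + φ b) -
              φ (s' k) * (1 + φ x) / (1 + φ x + φ (s' k)) := by simp [ha, ha']
          rw [e]
          exact le_trans this g2) (by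
          have := (hI0.2.2.2.2.2.2.2.2 (ψ (s' k)) (by simpa using (hs' k).2)).2
          have e : ψ (a - a' k) = ψ b * (1 + ψ x) / (1 + ψ x + ψ b) -
              ψ (s' k) * (1 + ψ x) / (1 + ψ x + ψ (s' k)) := by simp [ha, ha']
          rw [e]
          exact le_trans this g2)
    have c0 := hB b x (hb1.trans_le g3) (hb2.trans_le g3) hx
    have bd : ∀ P : L → Prop, Bd φ ψ {x ∈ Bx φ ψ δ δ | P x} := fun P =>
      hMUB.bds L φ ψ _ _ (hMUB.bdb L φ ψ δ δ) (fun y hy => hy.1)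
    obtain ⟨x', hx', hx2'⟩ := hMUB.find L φ ψ μ hC.vol (n + 1)
      (Fin.cons {x' ∈ Bx φ ψ δ δ | h (b * (1 / (1 + x) - 1 / (1 + x'))) = 0}
        (fun k => {x' ∈ Bx φ ψ δ δ | ¬ Good ψ h (r / 4) (t k) (x' + 1)} ∪
        {x' ∈ Bx φ ψ δ δ | ¬ Good ψ h (r / 4) (a - a' k) (x' + (1 - a))}))
      (Bx φ ψ δ δ) (hMUB.bdb L φ ψ δ δ) (by
        intro k
        refine Fin.cases ?_ (fun k => ?_) k
        · rw [Fin.cons_zero]
          exact fun y hy => hy.1
        · rw [Fin.cons_succ]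
          rintro y (hy | hy)
          · exact hy.1
          · exact hy.1) (by
        rw [hbox _ hδ, Fin.sum_univ_succ, Fin.cons_zero]
        simp only [Fin.cons_succ]
        have c3 : ∀ k : Fin n, μ ({x' ∈ Bx φ ψ δ δ | ¬ Good ψ h (r / 4) (t k) (x' + 1)} ∪
            {x' ∈ Bx φ ψ δ δ | ¬ Good ψ h (r / 4) (a - a' k) (x' + (1 - a))}) ≤
            2 * (1 / (8 * q * (n + 1)) * δ ^ 3) := by
          intro k
          have := hMUB.sub L φ ψ μ hC.vol _ _ (bd fun x' => ¬ Good ψ h (r / 4) (t k) (x' + 1))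
            (bd fun x' => ¬ Good ψ h (r / 4) (a - a' k) (x' + (1 - a)))
          have k1 := c1 k
          have k2 := c2 k
          linarith
        have c4 := Finset.sum_le_sum fun k (_ : k ∈ (Finset.univ : Finset (Fin n))) => c3 k
        refine lt_of_le_of_lt (add_le_add c0 c4) ?_
        rw [Finset.sum_const, Finset.card_univ, Fintype.card_fin, nsmul_eq_mul]
        have c5 : 0 < δ ^ 3 := by positivity
        have c6 : (1 - 1 / (2 * (q : ℝ))) + (n : ℝ) * (2 * (1 / (8 * q * (n + 1)))) < 1 := by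
          have c8 : (n : ℝ) * (2 * (1 / (8 * q * (n + 1)))) = (n / (n + 1)) * (1 / (4 * q)) := by
            field_simp
            ring
          have c9 : (n : ℝ) / (n + 1) ≤ 1 := by
            rw [div_le_one (by positivity)]
            linarith
          have c10 : (0 : ℝ) < 1 / (4 * q) := by positivity
          have c11 : 1 / (2 * (q : ℝ)) = 2 * (1 / (4 * q)) := by
            field_simp
            ring
          have c12 := mul_le_mul_of_nonneg_right c9 c10.le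
          rw [c8, c11]
          linarith
        have c7 := mul_lt_mul_of_pos_right c6 c5
        linarith)
    refine ⟨x', hx', fun k => ⟨?_, ?_⟩, ?_⟩
    · by_contra hn
      have := hx2' k.succ
      rw [Fin.cons_succ] at this
      exact this (Or.inl ⟨hx', hn⟩)
    · by_contra hn
      have := hx2' k.succ
      rw [Fin.cons_succ] at this
      exact this (Or.inr ⟨hx', hn⟩)
    · intro hn
      have := hx2' 0
      rw [Fin.cons_zero] at this
      exact this ⟨hx', hn⟩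
  have hR1 := hR x x' hx1 hx'.1
  have hI1 := hI x x' hx2 hx'.2
  have hX'0 : 1 + x' ≠ 0 := by
    intro h0
    apply hI1.2.2.2.1
    simpa using congrArg ψ h0
  have hyφ : φ (1 / (1 + x) - 1 / (1 + x')) = 1 / (1 + φ x) - 1 / (1 + φ x') := by simp
  have hyψ : ψ (1 / (1 + x) - 1 / (1 + x')) = 1 / (1 + ψ x) - 1 / (1 + ψ x') := by simp
  have frac : ∀ e y : L, Good ψ h (r / 4) e y → ‖ψ (e / y)‖ ≤ r / 4 := by
    rintro e y ⟨hy0, hy1, -⟩
    have hy2 : 0 < ‖ψ y‖ := norm_pos_iff.2 ((map_ne_zero ψ).2 hy0)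
    rw [map_div₀, norm_div, div_le_iff₀ hy2]
    exact hy1
  refine ⟨1 / (1 + x) - 1 / (1 + x'), ?_, ?_, fun k => ?_, fun k => ?_⟩
  · rw [hyφ]
    exact hR1.2.2.2.2.2.1
  · rw [hyψ]
    exact hI1.2.2.2.2.2.1
  · -- the small elements
    have G1 := (hxg k).1
    have G2 := (hxg' k).1
    rw [add_comm x 1] at G1
    rw [add_comm x' 1] at G2
    have f1 := frac _ _ G1
    have f2 := frac _ _ G2
    have h3 := hC.cl.hadd (s k / (1 + x)) (t k / (1 + x')) (by linarith) (by linarith)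
    rw [G1.2.2, G2.2.2, add_zero] at h3
    have h4 : s k / (1 + x) + t k / (1 + x') + s k / (1 + x) * (t k / (1 + x')) =
        s k * (1 / (1 + x) - 1 / (1 + x')) := id1 (s k) x x' hX0 hX'0 (hXs0 k)
    rw [h4] at h3
    exact h3
  · -- the elements near `b`
    have G1 := (hxg k).2
    have G2 := (hxg' k).2
    have e1 : x + (1 + b) = 1 + x + b := by ring
    have e2 : x' + (1 - a) = 1 + x' - a := by ring
    rw [e1] at G1
    rw [e2] at G2
    have f1 := frac _ _ G1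
    have f2 := frac _ _ G2
    have h3 := hC.cl.hadd ((s' k - b) / (1 + x + b)) ((a - a' k) / (1 + x' - a)) (by linarith)
      (by linarith)
    rw [G1.2.2, G2.2.2, add_zero] at h3
    have hby : ‖ψ (b * (1 / (1 + x) - 1 / (1 + x')))‖ < r := by
      rw [map_mul, hyψ, norm_mul]
      have k1 := mul_le_mul hI1.1 hI1.2.2.2.2.2.1 (norm_nonneg _) (by norm_num)
      linarith
    have hw : ‖ψ ((s' k - b) / (1 + x + b) + (a - a' k) / (1 + x' - a) +
        (s' k - b) / (1 + x + b) * ((a - a' k) / (1 + x' - a)))‖ < r := by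
      rw [map_add, map_add, map_mul]
      have k1 := norm_add_le (ψ ((s' k - b) / (1 + x + b)) + ψ ((a - a' k) / (1 + x' - a)))
        (ψ ((s' k - b) / (1 + x + b)) * ψ ((a - a' k) / (1 + x' - a)))
      have k2 := norm_add_le (ψ ((s' k - b) / (1 + x + b))) (ψ ((a - a' k) / (1 + x' - a)))
      have k3 := norm_mul (ψ ((s' k - b) / (1 + x + b))) (ψ ((a - a' k) / (1 + x' - a)))
      have k4 := mul_le_mul f1 f2 (norm_nonneg _) (by positivity)
      nlinarith
    have h4 := hC.cl.hadd (b * (1 / (1 + x) - 1 / (1 + x'))) _ hby hw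
    have h5 := id2 (s' k) b x x' a (a' k) hX0 hX'0 (hXs'0 k) hXb0 rfl rfl G2.1
    rw [h5, h3, add_zero] at h4
    rw [h4]
    exact hxb

end Pool.Agent.Lib.MP_556c5c_lc
end

section
/-!
# MP_556c5c_lc, module CLM: many patterns

Spec used: `SpecBLK`. By helper18.
-/
set_option autoImplicit false

namespace Pool.Agent.Lib.MP_556c5c_lc.CLMM

section

variable {F : Type} [NormedField F]

theorem lowb (B Z T : F) (g : ℝ) (hB : ‖B‖ ≤ 3) (hZ : ‖Z‖ ≤ g) (hT : ‖T‖ ≤ 1) (hg : g ≤ 1 / 100) :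
    9 / 10 ≤ ‖1 + T * B * Z‖ ∧ ‖T * B * Z‖ ≤ 3 * g := by
  have h0 : 0 ≤ g := (norm_nonneg _).trans hZ
  have h1 : ‖T * B * Z‖ ≤ 3 * g := by
    rw [norm_mul, norm_mul]
    have h2 : ‖T‖ * ‖B‖ ≤ 1 * 3 := mul_le_mul hT hB (norm_nonneg _) (by norm_num)
    calc ‖T‖ * ‖B‖ * ‖Z‖ ≤ (1 * 3) * g := mul_le_mul h2 hZ (norm_nonneg _) (by norm_num)
      _ = 3 * g := by ring
  refine ⟨?_, h1⟩
  have h3 : ‖(1 : F)‖ ≤ ‖1 + T * B * Z‖ + ‖T * B * Z‖ := by
    calc ‖(1 : F)‖ = ‖(1 + T * B * Z) - T * B * Z‖ := by ring_nf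
      _ ≤ _ := norm_sub_le _ _
  rw [norm_one] at h3
  linarith

theorem ests (B Z T T₀ : F) (g c : ℝ) (hB : ‖B‖ ≤ 3) (hZ : ‖Z‖ ≤ g) (hT : ‖T‖ ≤ 1)
    (hg : g ≤ 1 / 100) (hT0 : 0 < ‖T₀‖) (hc : ‖T‖ ≤ c * ‖T₀‖) :
    ‖T / T₀ * B / (1 + T * B * Z)‖ ≤ 4 * c := by
  obtain ⟨h1, -⟩ := lowb B Z T g hB hZ hT hg
  have h0 : 0 ≤ c := by
    by_contra h
    have h2 : c * ‖T₀‖ < 0 := mul_neg_of_neg_of_pos (not_le.1 h) hT0
    have := norm_nonneg T
    linarith
  rw [norm_div, norm_mul, norm_div, div_le_iff₀ (by linarith)]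
  have h2 : ‖T‖ / ‖T₀‖ ≤ c := by
    rw [div_le_iff₀ hT0]
    exact hc
  calc ‖T‖ / ‖T₀‖ * ‖B‖ ≤ c * 3 := mul_le_mul h2 hB (norm_nonneg _) h0
    _ ≤ 4 * c * (9 / 10) := by nlinarith
    _ ≤ 4 * c * ‖1 + T * B * Z‖ := mul_le_mul_of_nonneg_left h1 (by linarith)

theorem estd (B Z T : F) (g : ℝ) (hB : ‖B‖ ≤ 3) (hZ : ‖Z‖ ≤ g) (hT : ‖T‖ ≤ 1)
    (hg : g ≤ 1 / 100) : ‖B / (1 + T * B * Z) - B‖ ≤ 10 * g := by
  obtain ⟨h1, h2⟩ := lowb B Z T g hB hZ hT hg
  have h0 : 0 ≤ g := (norm_nonneg _).trans hZ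
  have hne : 1 + T * B * Z ≠ 0 := by
    intro h
    rw [h, norm_zero] at h1
    linarith
  have h3 : B / (1 + T * B * Z) - B = -(B * (T * B * Z)) / (1 + T * B * Z) := by
    rw [eq_div_iff hne, sub_mul, div_mul_cancel₀ _ hne]
    ring
  rw [h3, norm_div, norm_neg, norm_mul, div_le_iff₀ (by linarith)]
  calc ‖B‖ * ‖T * B * Z‖ ≤ 3 * (3 * g) := mul_le_mul hB h2 (norm_nonneg _) (by norm_num)
    _ = 10 * g * (9 / 10) := by ring
    _ ≤ 10 * g * ‖1 + T * B * Z‖ := mul_le_mul_of_nonneg_left h1 (by linarith)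

theorem estq (B Z T : F) (g : ℝ) (hB : ‖B‖ ≤ 3) (hZ : ‖Z‖ ≤ g) (hT : ‖T‖ ≤ 1)
    (hg : g ≤ 1 / 100) : ‖B / (1 + T * B * Z)‖ ≤ 4 := by
  obtain ⟨h1, -⟩ := lowb B Z T g hB hZ hT hg
  rw [norm_div, div_le_iff₀ (by linarith)]
  linarith

end

/-- The inductive statement, with the index set `Fin k → Bool`. -/
def P {L : Type} [Field L] (φ : L →+* ℝ) (ψ : L →+* ℂ) {A : Type} (ζ : ℂ) (h : L → A)
    (k : ℕ) : Prop :=
  ∀ (ρ γ : ℝ), 0 < ρ → 0 < γ → ∃ (η : ℝ) (t : Fin k → ℚ), 0 < η ∧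
      (∀ i, 0 < t i ∧ (t i : ℝ) < ρ) ∧ ∀ b : L, |φ b| < η → ‖ψ b - (ζ - 1)‖ < η →
      ∃ Z : (Fin k → Bool) → L, (∀ J, |φ (Z J)| < γ ∧ ‖ψ (Z J)‖ < γ) ∧
        ∀ J J', J ≠ J' → ∃ i, h ((t i : L) * b * Z J) ≠ h ((t i : L) * b * Z J')

theorem zero {L : Type} [Field L] (φ : L →+* ℝ) (ψ : L →+* ℂ) {A : Type} (ζ : ℂ) (h : L → A) :
    P φ ψ ζ h 0 := by
  intro ρ γ hρ hγ
  refine ⟨1, fun i => i.elim0, one_pos, fun i => i.elim0, fun b _ _ => ?_⟩
  refine ⟨fun _ => 0, fun J => ⟨by simpa using hγ, by simpa using hγ⟩, fun J J' hJ => ?_⟩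
  exact absurd (Subsingleton.elim J J') hJ

theorem natr (x : ℚ) (hx : 0 < x) : ‖((x : ℚ) : ℝ)‖ = (x : ℝ) := by
  rw [Real.norm_eq_abs, abs_of_pos (by exact_mod_cast hx)]

theorem natc (x : ℚ) (hx : 0 < x) : ‖((x : ℚ) : ℂ)‖ = (x : ℝ) := by
  rw [Complex.norm_ratCast, abs_of_pos (by exact_mod_cast hx)]

theorem succ (hBLK : SpecBLK) {L : Type} [Field L] (φ : L →+* ℝ) (ψ : L →+* ℂ) {A : Type}
    [AddCommGroup A] (q : ℕ) (ζ : ℂ) (r : ℝ) (h D : L → A) (τ : A) (N : ℕ) (μ : Set L → ℝ)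
    (hC : Cls φ ψ A q ζ r h D τ N μ) (k : ℕ) (ih : P φ ψ ζ h k) : P φ ψ ζ h (k + 1) := by
  intro ρ γ hρ hγ
  have : CharZero L := RingHom.charZero ψ
  have hr0 := hC.cl.r0
  have hr5 := hC.cl.r5
  obtain ⟨τ₀, hτ0, hτ1⟩ : ∃ τ₀ : ℚ, (0 : ℝ) < τ₀ ∧ (τ₀ : ℝ) < min ρ 1 :=
    exists_rat_btwn (lt_min hρ one_pos)
  have hτ0' : (0 : ℚ) < τ₀ := by exact_mod_cast hτ0
  have hτρ : (τ₀ : ℝ) < ρ := hτ1.trans_le (min_le_left _ _)
  have hτ11 : (τ₀ : ℝ) < 1 := hτ1.trans_le (min_le_right _ _)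
  obtain ⟨δ, hδ, hδr, hδγ⟩ : ∃ δ : ℝ, 0 < δ ∧ δ ≤ r / 200 ∧ 8 * δ ≤ γ * τ₀ := by
    refine ⟨min (r / 200) (γ * τ₀ / 8), lt_min (by positivity) (by positivity), min_le_left _ _, ?_⟩
    have := min_le_right (r / 200) (γ * τ₀ / 8)
    linarith
  obtain ⟨η₀, hη₀, H0⟩ := hBLK L φ ψ A q ζ r h D τ N μ hC δ
    (Fintype.card (Option (Fin k) × (Fin k → Bool))) hδ hδr
  obtain ⟨e⟩ : Nonempty (Option (Fin k) × (Fin k → Bool) ≃
    Fin (Fintype.card (Option (Fin k) × (Fin k → Bool)))) := ⟨Fintype.equivFin _⟩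
  obtain ⟨γ', hγ', g1, g2, g3⟩ : ∃ γ' : ℝ, 0 < γ' ∧ 2 * γ' ≤ γ ∧ 100 * γ' ≤ η₀ ∧ 100 * γ' ≤ r := by
    refine ⟨min (γ / 2) (min (η₀ / 100) (r / 100)), lt_min (by positivity) (lt_min (by positivity)
      (by positivity)), ?_, ?_, ?_⟩
    · have := min_le_left (γ / 2) (min (η₀ / 100) (r / 100))
      linarith
    · have := (min_le_right (γ / 2) (min (η₀ / 100) (r / 100))).trans (min_le_left _ _)
      linarith
    · have := (min_le_right (γ / 2) (min (η₀ / 100) (r / 100))).trans (min_le_right _ _)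
      linarith
  obtain ⟨η', t, hη', ht, H'⟩ := ih (min ρ (min τ₀ (τ₀ * η₀ / 10))) γ'
    (lt_min hρ (lt_min hτ0 (by positivity))) hγ'
  have htρ : ∀ i, (t i : ℝ) < ρ := fun i => (ht i).2.trans_le (min_le_left _ _)
  have htτ : ∀ i, (t i : ℝ) < τ₀ := fun i =>
    (ht i).2.trans_le ((min_le_right _ _).trans (min_le_left _ _))
  have htη : ∀ i, (t i : ℝ) < τ₀ * η₀ / 10 := fun i =>
    (ht i).2.trans_le ((min_le_right _ _).trans (min_le_right _ _))
  refine ⟨min η' (min η₀ 1), Fin.cons τ₀ t, lt_min hη' (lt_min hη₀ one_pos), ?_,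
    fun b hb1 hb2 => ?_⟩
  · intro i
    refine Fin.cases ?_ (fun i => ?_) i
    · rw [Fin.cons_zero]
      exact ⟨hτ0', hτρ⟩
    · rw [Fin.cons_succ]
      exact ⟨(ht i).1, htρ i⟩
  obtain ⟨Z, hZ1, hZ2⟩ := H' b (hb1.trans_le (min_le_left _ _)) (hb2.trans_le (min_le_left _ _))
  have hbφ : ‖φ b‖ ≤ 3 := by
    rw [Real.norm_eq_abs]
    have := hb1.trans_le ((min_le_right _ _).trans (min_le_right _ _))
    linarith
  have hbψ : ‖ψ b‖ ≤ 3 := by
    have h1 : ‖ψ b - (ζ - 1)‖ ≤ 1 := (hb2.trans_le ((min_le_right _ _).trans (min_le_right _ _))).le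
    have h2 : ‖ζ - 1‖ ≤ 2 := by
      have := norm_sub_le ζ 1
      rw [hC.cl.z1, norm_one] at this
      linarith
    have h3 : ψ b = (ψ b - (ζ - 1)) + (ζ - 1) := by ring
    rw [h3]
    exact (norm_add_le _ _).trans (by linarith)
  have hg100 : γ' ≤ 1 / 100 := by linarith
  have nτr : ‖((τ₀ : ℚ) : ℝ)‖ = (τ₀ : ℝ) := natr τ₀ hτ0'
  have nτc : ‖((τ₀ : ℚ) : ℂ)‖ = (τ₀ : ℝ) := natc τ₀ hτ0'
  have ntr : ∀ i, ‖((t i : ℚ) : ℝ)‖ = (t i : ℝ) := fun i => natr _ (ht i).1
  have ntc : ∀ i, ‖((t i : ℚ) : ℂ)‖ = (t i : ℝ) := fun i => natc _ (ht i).1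
  have hτL : (τ₀ : L) ≠ 0 := by
    exact_mod_cast hτ0'.ne'
  have hZr : ∀ J, ‖φ (Z J)‖ ≤ γ' := fun J => by
    rw [Real.norm_eq_abs]
    exact (hZ1 J).1.le
  have hZc : ∀ J, ‖ψ (Z J)‖ ≤ γ' := fun J => (hZ1 J).2.le
  -- the elements of the block lemma
  set s : Option (Fin k) × (Fin k → Bool) → L := fun p =>
    match p.1 with
    | none => 0
    | some i => (t i : L) / (τ₀ : L) * b / (1 + (t i : L) * b * Z p.2) with hs
  set s' : Option (Fin k) × (Fin k → Bool) → L := fun p =>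
    b / (1 + (τ₀ : L) * b * Z p.2) with hs'
  have hsn : ∀ p, |φ (s p)| < η₀ ∧ ‖ψ (s p)‖ < η₀ := by
    rintro ⟨o, J⟩
    rcases o with _ | i
    · simp only [hs]
      rw [map_zero, map_zero, abs_zero, norm_zero]
      exact ⟨hη₀, hη₀⟩
    · simp only [hs]
      constructor
      · have h1 := ests (φ b) (φ (Z J)) ((t i : ℚ) : ℝ) ((τ₀ : ℚ) : ℝ) γ' (η₀ / 10) hbφ (hZr J)
          (by rw [ntr]; linarith [htτ i]) hg100 (by rw [nτr]; exact hτ0)
          (by rw [ntr, nτr]; linarith [htη i])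
        have h2 : φ ((t i : L) / (τ₀ : L) * b / (1 + (t i : L) * b * Z J)) =
            ((t i : ℚ) : ℝ) / ((τ₀ : ℚ) : ℝ) * φ b / (1 + ((t i : ℚ) : ℝ) * φ b * φ (Z J)) := by
          simp only [map_div₀, map_mul, map_add, map_one, map_ratCast]
        rw [h2, ← Real.norm_eq_abs]
        linarith
      · have h1 := ests (ψ b) (ψ (Z J)) ((t i : ℚ) : ℂ) ((τ₀ : ℚ) : ℂ) γ' (η₀ / 10) hbψ (hZc J)
          (by rw [ntc]; linarith [htτ i]) hg100 (by rw [nτc]; exact hτ0)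
          (by rw [ntc, nτc]; linarith [htη i])
        have h2 : ψ ((t i : L) / (τ₀ : L) * b / (1 + (t i : L) * b * Z J)) =
            ((t i : ℚ) : ℂ) / ((τ₀ : ℚ) : ℂ) * ψ b / (1 + ((t i : ℚ) : ℂ) * ψ b * ψ (Z J)) := by
          simp only [map_div₀, map_mul, map_add, map_one, map_ratCast]
        rw [h2]
        linarith
  have hsn' : ∀ p, |φ (s' p - b)| < η₀ ∧ ‖ψ (s' p - b)‖ < η₀ := by
    rintro ⟨o, J⟩
    simp only [hs']
    constructor
    · have h1 := estd (φ b) (φ (Z J)) ((τ₀ : ℚ) : ℝ) γ' hbφ (hZr J)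
        (by rw [nτr]; linarith) hg100
      have h2 : φ (b / (1 + (τ₀ : L) * b * Z J) - b) =
          φ b / (1 + ((τ₀ : ℚ) : ℝ) * φ b * φ (Z J)) - φ b := by
        simp only [map_div₀, map_mul, map_add, map_one, map_ratCast, map_sub]
      rw [h2, ← Real.norm_eq_abs]
      linarith
    · have h1 := estd (ψ b) (ψ (Z J)) ((τ₀ : ℚ) : ℂ) γ' hbψ (hZc J)
        (by rw [nτc]; linarith) hg100
      have h2 : ψ (b / (1 + (τ₀ : L) * b * Z J) - b) =
          ψ b / (1 + ((τ₀ : ℚ) : ℂ) * ψ b * ψ (Z J)) - ψ b := by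
        simp only [map_div₀, map_mul, map_add, map_one, map_ratCast, map_sub]
      rw [h2]
      linarith
  obtain ⟨y, hy1, hy2, hy3, hy4⟩ := H0 b
    (hb1.trans_le ((min_le_right _ _).trans (min_le_left _ _)))
    (hb2.trans_le ((min_le_right _ _).trans (min_le_left _ _)))
    (fun j => s (e.symm j)) (fun j => s' (e.symm j)) (fun j => hsn _) (fun j => hsn' _)
  have hy3' : ∀ p, h (s p * y) = 0 := fun p => by
    have := hy3 (e p)
    simpa only [Equiv.symm_apply_apply] using this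
  have hy4' : ∀ p, h (s' p * y) ≠ 0 := fun p => by
    have := hy4 (e p)
    simpa only [Equiv.symm_apply_apply] using this
  have hz0 : ∃ z₀ : L, z₀ = y / (τ₀ : L) := ⟨_, rfl⟩
  obtain ⟨z₀, hz₀⟩ := hz0
  have hzφ : |φ z₀| ≤ γ / 2 := by
    have h1 : φ z₀ = φ y / ((τ₀ : ℚ) : ℝ) := by
      rw [hz₀]
      simp only [map_div₀, map_ratCast]
    rw [h1, abs_div, abs_of_pos hτ0, div_le_iff₀ hτ0]
    linarith
  have hzψ : ‖ψ z₀‖ ≤ γ / 2 := by
    have h1 : ψ z₀ = ψ y / ((τ₀ : ℚ) : ℂ) := by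
      rw [hz₀]
      simp only [map_div₀, map_ratCast]
    rw [h1, norm_div, nτc, div_le_iff₀ hτ0]
    linarith
  -- nonvanishing
  have hne : ∀ (T : ℚ) (J : Fin k → Bool), 0 < T → (T : ℝ) < 1 → 1 + (T : L) * b * Z J ≠ 0 := by
    intro T J hT hT1 h0
    have h1 := (lowb (ψ b) (ψ (Z J)) ((T : ℚ) : ℂ) γ' hbψ (hZc J)
      (by rw [natc T hT]; exact hT1.le) hg100).1
    have h2 : 1 + ((T : ℚ) : ℂ) * ψ b * ψ (Z J) = 0 := by
      have := congrArg ψ h0
      simpa only [map_mul, map_add, map_one, map_ratCast, map_zero] using this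
    rw [h2, norm_zero] at h1
    linarith
  -- the main step
  have hstep : ∀ (T : ℚ) (J : Fin k → Bool) (w : L), 0 < T → (T : ℝ) < 1 →
      w * y = (T : L) * b * z₀ / (1 + (T : L) * b * Z J) → ‖ψ w‖ ≤ 4 →
      h ((T : L) * b * (Z J + z₀)) = h ((T : L) * b * Z J) + h (w * y) := by
    intro T J w hT hT1 hw hw4
    have h1 := hne T J hT hT1
    have h2 : (T : L) * b * (Z J + z₀) = (T : L) * b * Z J + w * y + (T : L) * b * Z J * (w * y) := by
      rw [hw]
      field_simp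
      ring
    rw [h2]
    apply hC.cl.hadd
    · have h3 := (lowb (ψ b) (ψ (Z J)) ((T : ℚ) : ℂ) γ' hbψ (hZc J)
        (by rw [natc T hT]; exact hT1.le) hg100).2
      have h4 : ψ ((T : L) * b * Z J) = ((T : ℚ) : ℂ) * ψ b * ψ (Z J) := by
        simp only [map_mul, map_ratCast]
      rw [h4]
      linarith
    · rw [map_mul, norm_mul]
      calc ‖ψ w‖ * ‖ψ y‖ ≤ 4 * (4 * δ) := mul_le_mul hw4 hy2 (norm_nonneg _) (by norm_num)
        _ < r := by linarith
  have hold : ∀ (i : Fin k) (J : Fin k → Bool),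
      h ((t i : L) * b * (Z J + z₀)) = h ((t i : L) * b * Z J) := by
    intro i J
    have h1 := hstep (t i) J (s (some i, J)) (ht i).1 ((htτ i).trans hτ11) (by
      simp only [hs]
      rw [hz₀]
      have := hne (t i) J (ht i).1 ((htτ i).trans hτ11)
      field_simp) (by
      simp only [hs]
      have h1 := ests (ψ b) (ψ (Z J)) ((t i : ℚ) : ℂ) ((τ₀ : ℚ) : ℂ) γ' 1 hbψ (hZc J)
          (by rw [ntc]; linarith [htτ i]) hg100 (by rw [nτc]; exact hτ0)
          (by rw [ntc, nτc]; linarith [htτ i])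
      have h2 : ψ ((t i : L) / (τ₀ : L) * b / (1 + (t i : L) * b * Z J)) =
            ((t i : ℚ) : ℂ) / ((τ₀ : ℚ) : ℂ) * ψ b / (1 + ((t i : ℚ) : ℂ) * ψ b * ψ (Z J)) := by
          simp only [map_div₀, map_mul, map_add, map_one, map_ratCast]
      rw [h2]
      linarith)
    rw [h1, show h (s (some i, J) * y) = 0 from hy3' (some i, J), add_zero]
  have hnew : ∀ (J : Fin k → Bool),
      h ((τ₀ : L) * b * (Z J + z₀)) ≠ h ((τ₀ : L) * b * Z J) := by
    intro J
    have h1 := hstep τ₀ J (s' (none, J)) hτ0' hτ11 (by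
      simp only [hs']
      rw [hz₀]
      have := hne τ₀ J hτ0' hτ11
      field_simp) (by
      simp only [hs']
      have h1 := estq (ψ b) (ψ (Z J)) ((τ₀ : ℚ) : ℂ) γ' hbψ (hZc J)
        (by rw [nτc]; linarith) hg100
      have h2 : ψ (b / (1 + (τ₀ : L) * b * Z J)) =
          ψ b / (1 + ((τ₀ : ℚ) : ℂ) * ψ b * ψ (Z J)) := by
        simp only [map_div₀, map_mul, map_add, map_one, map_ratCast]
      rw [h2]
      exact h1)
    rw [h1]
    intro h2
    exact hy4' (none, J) (by simpa using h2)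
  refine ⟨fun J => Z (Fin.tail J) + if J 0 then z₀ else 0, fun J => ?_, fun J J' hJ => ?_⟩
  · have a1 := (hZ1 (Fin.tail J)).1
    have a2 := (hZ1 (Fin.tail J)).2
    constructor
    · rcases hj : J 0 with _ | _
      · simp only [hj, Bool.false_eq_true, if_false, add_zero]
        linarith
      · simp only [hj, if_true, map_add]
        have := abs_add_le (φ (Z (Fin.tail J))) (φ z₀)
        linarith
    · rcases hj : J 0 with _ | _
      · simp only [hj, Bool.false_eq_true, if_false, add_zero]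
        linarith
      · simp only [hj, if_true, map_add]
        have := norm_add_le (ψ (Z (Fin.tail J))) (ψ z₀)
        linarith
  · have hh : ∀ (i : Fin k) (J : Fin (k + 1) → Bool),
        h ((t i : L) * b * (Z (Fin.tail J) + if J 0 then z₀ else 0)) =
          h ((t i : L) * b * Z (Fin.tail J)) := by
      intro i J
      cases J 0
      · simp only [Bool.false_eq_true, if_false, add_zero]
      · simp only [if_true]
        exact hold i _
    by_cases hT : Fin.tail J = Fin.tail J'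
    · refine ⟨0, ?_⟩
      rw [Fin.cons_zero]
      have h0 : J 0 ≠ J' 0 := by
        intro h0
        apply hJ
        rw [← Fin.cons_self_tail J, ← Fin.cons_self_tail J', h0, hT]
      simp only [hT]
      have hn := hnew (Fin.tail J')
      cases h1 : J 0 <;> cases h2 : J' 0
      · exact absurd (h1.trans h2.symm) h0
      · simp only [Bool.false_eq_true, if_false, if_true, add_zero]
        exact hn.symm
      · simp only [Bool.false_eq_true, if_false, if_true, add_zero]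
        exact hn
      · exact absurd (h1.trans h2.symm) h0
    · obtain ⟨i, hi⟩ := hZ2 _ _ hT
      refine ⟨i.succ, ?_⟩
      rw [Fin.cons_succ]
      simp only
      rw [hh i J, hh i J']
      exact hi

end Pool.Agent.Lib.MP_556c5c_lc.CLMM

namespace Pool.Agent.Lib.MP_556c5c_lc

theorem specCLM (hBLK : SpecBLK) : SpecCLM := by
  intro L _ φ ψ A _ q ζ r h D τ N μ hC k ρ γ hρ hγ
  have hP : ∀ k, CLMM.P φ ψ ζ h k := by
    intro k
    induction k with
    | zero => exact CLMM.zero φ ψ ζ h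
    | succ k ih => exact CLMM.succ hBLK φ ψ q ζ r h D τ N μ hC k ih
  obtain ⟨η, t, hη, ht, H⟩ := hP k ρ γ hρ hγ
  refine ⟨η, t, hη, ht, fun b hb1 hb2 => ?_⟩
  obtain ⟨Z, hZ1, hZ2⟩ := H b hb1 hb2
  have hcard : Fintype.card (Fin k → Bool) = 2 ^ k := by simp
  refine ⟨fun J => Z ((Fintype.equivFinOfCardEq hcard).symm J), fun J => hZ1 _,
    fun J J' hJ => hZ2 _ _ ?_⟩
  intro h0
  exact hJ ((Fintype.equivFinOfCardEq hcard).symm.injective h0)

end Pool.Agent.Lib.MP_556c5c_lc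
end

section
/-!
# CNT: the count of patterns (Sauer-Shelah)
-/
set_option autoImplicit false

namespace Pool.Agent.Lib.MP_556c5c_lc

open Finset

namespace CNTM

/-- `∑ k < d, m.choose k ≤ (m + 1) ^ d` type bound. -/
theorem sum_choose_le (m d : ℕ) : ∑ k ∈ Finset.Iic d, m.choose k ≤ (m + 1) ^ d := by
  have h1 : Finset.Iic d = Finset.range (d + 1) := by
    ext k; simp
  rw [h1]
  induction d with
  | zero => simp
  | succ d ih =>
    rw [Finset.sum_range_succ]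
    have h2 := ih (by ext k; simp)
    have h3 : m.choose (d + 1) ≤ m * (m + 1) ^ d := by
      have h4 : m.choose (d + 1) ≤ m ^ (d + 1) := Nat.choose_le_pow _ _
      refine h4.trans ?_
      rw [pow_succ, mul_comm]
      exact Nat.mul_le_mul_left _ (Nat.pow_le_pow_left (Nat.le_succ m) d)
    calc ∑ k ∈ Finset.range (d + 1), m.choose k + m.choose (d + 1)
        ≤ (m + 1) ^ d + m * (m + 1) ^ d := Nat.add_le_add h2 h3
      _ = (m + 1) ^ (d + 1) := by ring

end CNTM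

theorem specCNT : SpecCNT := by
  intro L _ ψ A _ r h hr hd
  classical
  have := Fintype.ofFinite A
  choose d hd using hd
  refine ⟨∑ a, d a, ?_⟩
  intro m M t Z hsm hsep
  -- the families
  let fam : A → Finset (Finset (Fin m)) := fun a =>
    (Finset.univ : Finset (Fin M)).image fun j => Finset.univ.filter fun i => h (t i * Z j) = a
  have hsh : ∀ a : A, ∀ S : Finset (Fin m), (fam a).Shatters S → S.card < d a := by
    intro a S hS
    by_contra hcon
    push Not at hcon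
    obtain ⟨T, hTS, hTc⟩ := Finset.exists_subset_card_eq hcon
    have hT : (fam a).Shatters T := hS.mono_right hTS
    apply hd a
    let eT : Fin (d a) ≃ T := (Fintype.equivFinOfCardEq (by simpa using hTc)).symm
    have hex : ∀ S : Finset (Fin (d a)), ∃ j : Fin M, ∀ i : Fin (d a),
        (h (t (eT i) * Z j) = a ↔ i ∈ S) := by
      intro S
      have hsub : (S.map eT.toEmbedding).map (Function.Embedding.subtype _) ⊆ T := by
        intro x hx
        rw [Finset.mem_map] at hx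
        obtain ⟨y, -, rfl⟩ := hx
        exact y.2
      obtain ⟨u, hu, hTu⟩ := hT hsub
      rw [Finset.mem_image] at hu
      obtain ⟨j, -, rfl⟩ := hu
      refine ⟨j, fun i => ?_⟩
      have h1 : ((eT i : Fin m) ∈ T ∩ Finset.univ.filter fun i => h (t i * Z j) = a) ↔
          h (t (eT i) * Z j) = a := by
        rw [Finset.mem_inter, Finset.mem_filter]
        constructor
        · intro h; exact h.2.2
        · intro h; exact ⟨(eT i).2, Finset.mem_univ _, h⟩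
      rw [← h1, hTu, Finset.mem_map]
      constructor
      · rintro ⟨y, hy, hyi⟩
        rw [Finset.mem_map] at hy
        obtain ⟨z, hz, rfl⟩ := hy
        have : eT z = eT i := Subtype.ext hyi
        rw [eT.injective this] at hz
        exact hz
      · intro hi
        exact ⟨eT i, Finset.mem_map.2 ⟨i, hi, rfl⟩, rfl⟩
    choose J hJ using hex
    exact ⟨fun i => t (eT i), fun S => Z (J S), fun i S => hsm _ _, fun S i => hJ S i⟩
  have hcard : ∀ a : A, (fam a).card ≤ (m + 1) ^ (d a) := by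
    intro a
    have h1 : (fam a).vcDim ≤ d a := by
      refine Finset.sup_le fun S hS => ?_
      exact (hsh a S (Finset.mem_shatterer.1 hS)).le
    calc (fam a).card ≤ ∑ k ∈ Finset.Iic (fam a).vcDim, (Fintype.card (Fin m)).choose k :=
          (Finset.card_le_card_shatterer _).trans Finset.card_shatterer_le_sum_vcDim
      _ ≤ ∑ k ∈ Finset.Iic (d a), (Fintype.card (Fin m)).choose k :=
          Finset.sum_le_sum_of_subset (Finset.Iic_subset_Iic.2 h1)
      _ = ∑ k ∈ Finset.Iic (d a), m.choose k := by rw [Fintype.card_fin]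
      _ ≤ (m + 1) ^ (d a) := CNTM.sum_choose_le m (d a)
  -- injection
  have hinj : M ≤ (Fintype.piFinset fam).card := by
    have h1 : (Finset.univ : Finset (Fin M)).card ≤ (Fintype.piFinset fam).card := by
      refine Finset.card_le_card_of_injOn
        (fun j => fun a => Finset.univ.filter fun i => h (t i * Z j) = a) ?_ ?_
      · intro j _
        rw [Finset.mem_coe, Fintype.mem_piFinset]
        intro a
        exact Finset.mem_image.2 ⟨j, Finset.mem_univ _, rfl⟩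
      · intro j _ j' _ hjj
        by_contra hne
        obtain ⟨i, hi⟩ := hsep j j' hne
        apply hi
        have h2 := congrFun hjj (h (t i * Z j))
        have h3 : i ∈ Finset.univ.filter fun i' => h (t i' * Z j) = h (t i * Z j) := by
          rw [Finset.mem_filter]
          exact ⟨Finset.mem_univ _, rfl⟩
        have h4 : i ∈ Finset.univ.filter fun i' => h (t i' * Z j') = h (t i * Z j) := by
          have h5 : (Finset.univ.filter fun i' => h (t i' * Z j) = h (t i * Z j))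
              = Finset.univ.filter fun i' => h (t i' * Z j') = h (t i * Z j) := h2
          rw [← h5]
          exact h3
        rw [Finset.mem_filter] at h4
        exact h4.2.symm
    rwa [Finset.card_univ, Fintype.card_fin] at h1
  refine hinj.trans ?_
  rw [Fintype.card_piFinset, ← Finset.prod_pow_eq_pow_sum]
  exact Finset.prod_le_prod' fun a _ => hcard a

end Pool.Agent.Lib.MP_556c5c_lc
end

section
/-!
# MP_556c5c_lc: module COR (the core: no class map has polynomially many patterns)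
-/
namespace Pool.Agent.Lib.MP_556c5c_lc

open Filter

namespace CORM

theorem exists_k (N : ℕ) : ∃ k : ℕ, (k + 1) ^ N < 2 ^ k := by
  have h := tendsto_pow_const_div_const_pow_of_one_lt N (one_lt_two : (1 : ℝ) < 2)
  have h2 : ∀ᶠ n : ℕ in atTop, (n : ℝ) ^ N / 2 ^ n < 1 / 2 :=
    h.eventually (gt_mem_nhds (by norm_num))
  obtain ⟨n, hn⟩ := ((h2.and (eventually_ge_atTop 1))).exists
  obtain ⟨hn1, hn2⟩ := hn
  obtain ⟨k, rfl⟩ : ∃ k, n = k + 1 := ⟨n - 1, by omega⟩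
  refine ⟨k, ?_⟩
  rw [div_lt_iff₀ (by positivity), pow_succ] at hn1
  have h3 : (((k + 1 : ℕ) : ℝ)) ^ N < 2 ^ k := by linarith
  exact_mod_cast h3

end CORM

theorem specCOR (hCLM : SpecCLM) : SpecCOR := by
  intro L _ φ ψ A _ q ζ r h D τ N μ hC
  obtain ⟨k, hk⟩ := CORM.exists_k N
  have hr0 := hC.cl.r0
  obtain ⟨η, t, hη, ht, hZ⟩ := hCLM L φ ψ A q ζ r h D τ N μ hC k 1 (r / 4) one_pos (by linarith)
  obtain ⟨b, hb1, hb2⟩ := hC.dn 0 (ζ - 1) (min η 1) (lt_min hη one_pos)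
  rw [sub_zero] at hb1
  obtain ⟨Z, hZ1, hZ2⟩ := hZ b (hb1.trans_le (min_le_left _ _)) (hb2.trans_le (min_le_left _ _))
  have hb3 : ‖ψ b‖ ≤ 3 := by
    have h1 : ‖ψ b - (ζ - 1)‖ ≤ 1 := (hb2.trans_le (min_le_right _ _)).le
    have h2 : ‖ζ - 1‖ ≤ 2 := by
      have := norm_sub_le ζ 1
      rw [hC.cl.z1, norm_one] at this
      linarith
    have h3 : ψ b = (ψ b - (ζ - 1)) + (ζ - 1) := by ring
    rw [h3]
    exact (norm_add_le _ _).trans (by linarith)
  have hM := hC.cnt k (2 ^ k) (fun i => (t i : L) * b) Z (by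
    intro i j
    simp only [map_mul, map_ratCast, norm_mul]
    have h1 : ‖((t i : ℚ) : ℂ)‖ < 1 := by
      rw [Complex.norm_ratCast, abs_of_pos (by exact_mod_cast (ht i).1)]
      exact (ht i).2
    have h2 := (hZ1 j).2
    have h0 := norm_nonneg ((t i : ℚ) : ℂ)
    have h3 := norm_nonneg (ψ b)
    have h4 := norm_nonneg (ψ (Z j))
    calc ‖((t i : ℚ) : ℂ)‖ * ‖ψ b‖ * ‖ψ (Z j)‖ ≤ 1 * 3 * (r / 4) := by gcongr
      _ < r := by linarith) hZ2
  exact absurd hM (not_le.2 hk)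

end Pool.Agent.Lib.MP_556c5c_lc
end

section
/-!
# CRD: polynomial functions on `L` are polynomial in the coordinates
-/
set_option autoImplicit false

namespace Pool.Agent.Lib.MP_556c5c_lc

open Finset

theorem specCRD : SpecCRD := by
  intro K L _ _ _ n e ι P
  classical
  induction P using MvPolynomial.induction_on with
  | C a =>
    refine ⟨fun k => MvPolynomial.C (e.repr a k), fun u k => ?_⟩
    simp
  | add p q hp hq =>
    obtain ⟨F, hF⟩ := hp
    obtain ⟨G, hG⟩ := hq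
    refine ⟨fun k => F k + G k, fun u k => ?_⟩
    rw [map_add, hF, hG, map_add, map_add, Finsupp.add_apply]
  | mul_X p i hp =>
    obtain ⟨F, hF⟩ := hp
    refine ⟨fun k => ∑ a, ∑ b, F a * MvPolynomial.X (i, b) *
      MvPolynomial.C (e.repr (e a * e b) k), fun u k => ?_⟩
    have h1 : MvPolynomial.eval (fun i => ∑ j, u (i, j) • e j) p
        = ∑ a, (MvPolynomial.eval u (F a)) • e a := by
      conv_lhs => rw [← e.sum_repr (MvPolynomial.eval (fun i => ∑ j, u (i, j) • e j) p)]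
      refine Finset.sum_congr rfl fun a _ => ?_
      rw [hF]
    rw [map_mul, MvPolynomial.eval_X, h1, Finset.sum_mul_sum]
    simp only [map_sum, Finsupp.coe_finsetSum, Finset.sum_apply, map_mul, MvPolynomial.eval_X,
      MvPolynomial.eval_C]
    refine Finset.sum_congr rfl fun a _ => Finset.sum_congr rfl fun b _ => ?_
    rw [smul_mul_smul_comm, map_smul, Finsupp.smul_apply, smul_eq_mul]

end Pool.Agent.Lib.MP_556c5c_lc
end

section
/-!
# DEF: no ict pattern of depth omega for sequences of existential polynomial relations over `K`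
-/
set_option autoImplicit false

namespace Pool.Agent.Lib.MP_556c5c_lc

open Finset

theorem specDEF (hDFP : SpecDFP) : SpecDEF := by
  intro K _ _ _ hN n p d s F G hcon
  classical
  choose φ c hφ hφc using fun i => hDFP K n p d s (F i) (G i)
  refine hN ⟨n, φ, hφ, fun N => ?_⟩
  obtain ⟨w, hw⟩ := hcon N
  refine ⟨fun i j k => if hk : k < n + p then
    (if hk2 : n ≤ k then w i j ⟨k - n, by omega⟩ else 0) else c i (k - (n + p)), fun η hη => ?_⟩
  obtain ⟨u, hu⟩ := hw η hη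
  refine ⟨fun k => if hk : k < n then u ⟨k, hk⟩ else 0, fun i hi j hj => ?_⟩
  have h1 := hφc i u (w i j) (fun k : ℕ => if k < n then
      (if hk : k < n then u ⟨k, hk⟩ else 0) else
      (if hk : k < n + p then
        (if hk2 : n ≤ k then w i j ⟨k - n, by omega⟩ else 0) else c i (k - (n + p))))
    (fun k => by
      have hk := k.2
      simp only [hk, if_true, dif_pos])
    (fun k => by
      have hk := k.2
      have e1 : ¬ (n + (k : ℕ) < n) := by omega
      have e2 : n + (k : ℕ) < n + p := by omega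
      have e3 : n ≤ n + (k : ℕ) := by omega
      simp only [e1, if_false, e2, e3, dif_pos]
      congr 1
      apply Fin.ext
      simp)
    (fun k => by
      have e1 : ¬ (n + p + k < n) := by omega
      have e2 : ¬ (n + p + k < n + p) := by omega
      simp only [e1, if_false, e2, dif_neg, not_false_eq_true]
      congr 1
      omega)
  exact h1.trans (hu i hi j hj)

end Pool.Agent.Lib.MP_556c5c_lc
end

section
/-!
# DFN: existential polynomial relations over `K` do not have the independence property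
-/
set_option autoImplicit false

namespace Pool.Agent.Lib.MP_556c5c_lc

open Finset

theorem specDFN (hDFP : SpecDFP) : SpecDFN := by
  intro K _ _ _ hN n p d s F G
  classical
  by_contra hcon
  push Not at hcon
  obtain ⟨φ, c, hφ, hφc⟩ := hDFP K n p d s F G
  refine hN ⟨n, φ, hφ, fun N => ?_⟩
  obtain ⟨w, hw⟩ := hcon N
  refine ⟨fun i k => if hi : i < N then (if hk : k < n + p then
    (if hk2 : n ≤ k then w ⟨i, hi⟩ ⟨k - n, by omega⟩ else 0) else c (k - (n + p))) else 0,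
    fun S => ?_⟩
  obtain ⟨u, hu⟩ := hw (Finset.univ.filter fun i : Fin N => (i : ℕ) ∈ S)
  refine ⟨fun k => if hk : k < n then u ⟨k, hk⟩ else 0, fun i hi => ?_⟩
  have h1 := hφc u (w ⟨i, hi⟩) (fun k : ℕ => if k < n then
      (if hk : k < n then u ⟨k, hk⟩ else 0) else
      (if hi : i < N then (if hk : k < n + p then
        (if hk2 : n ≤ k then w ⟨i, hi⟩ ⟨k - n, by omega⟩ else 0) else c (k - (n + p))) else 0))
    (fun k => by
      have hk := k.2
      simp only [hk, if_true, dif_pos])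
    (fun k => by
      have hk := k.2
      have e1 : ¬ (n + (k : ℕ) < n) := by omega
      have e2 : n + (k : ℕ) < n + p := by omega
      have e3 : n ≤ n + (k : ℕ) := by omega
      simp only [e1, if_false, hi, e2, e3, dif_pos]
      congr 1
      apply Fin.ext
      simp)
    (fun k => by
      have e1 : ¬ (n + p + k < n) := by omega
      have e2 : ¬ (n + p + k < n + p) := by omega
      simp only [e1, if_false, hi, e2, dif_pos, dif_neg, not_false_eq_true]
      congr 1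
      omega)
  refine h1.trans ((hu ⟨i, hi⟩).trans ?_)
  simp

end Pool.Agent.Lib.MP_556c5c_lc
end

section
/-!
# DFP: existential polynomial relations over `K` are definable with parameters
-/
set_option autoImplicit false

namespace Pool.Agent.Lib.MP_556c5c_lc

open Finset

namespace DFPM

/-! ### Polynomials with coefficients in a tuple -/

section
variable {K : Type} [Field K]

theorem coef_one {σ : Type} (P : MvPolynomial σ K) :
    ∃ (J : Type) (_ : Fintype J) (c : J → K) (Q : MvPolynomial (σ ⊕ J) ℤ),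
      ∀ u : σ → K, MvPolynomial.eval u P = MvPolynomial.aeval (Sum.elim u c) Q := by
  classical
  refine ⟨{d // d ∈ P.support}, inferInstance, fun d => P.coeff d.1,
    ∑ j : {d // d ∈ P.support}, MvPolynomial.X (Sum.inr j) *
      MvPolynomial.rename Sum.inl (MvPolynomial.monomial j.1 1), fun u => ?_⟩
  rw [map_sum]
  have h1 : ∀ j : {d // d ∈ P.support}, MvPolynomial.aeval (Sum.elim u fun d => P.coeff d.1)
      (MvPolynomial.X (Sum.inr j) * MvPolynomial.rename Sum.inl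
        (MvPolynomial.monomial j.1 (1 : ℤ))) =
      P.coeff j.1 * ∏ i ∈ j.1.support, u i ^ j.1 i := by
    intro j
    rw [map_mul, MvPolynomial.aeval_X, MvPolynomial.aeval_rename, Sum.elim_inr,
      Sum.elim_comp_inl, MvPolynomial.aeval_monomial, map_one, one_mul]
    rfl
  rw [Finset.sum_congr rfl fun j _ => h1 j, MvPolynomial.eval_eq, ← Finset.sum_coe_sort]

theorem coef {σ : Type} {s : ℕ} (P : Fin s → MvPolynomial σ K) :
    ∃ (m : ℕ) (c : Fin m → K) (Q : Fin s → MvPolynomial (σ ⊕ Fin m) ℤ),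
      ∀ (i : Fin s) (u : σ → K),
        MvPolynomial.eval u (P i) = MvPolynomial.aeval (Sum.elim u c) (Q i) := by
  classical
  choose J hJ c Q hQ using fun i => coef_one (P i)
  let e := Fintype.equivFin (Σ i, J i)
  refine ⟨Fintype.card (Σ i, J i), fun k => c (e.symm k).1 (e.symm k).2,
    fun i => MvPolynomial.rename (Sum.map id fun j => e ⟨i, j⟩) (Q i), fun i u => ?_⟩
  rw [hQ i u, MvPolynomial.aeval_rename]
  congr 2
  funext x
  rcases x with x | j
  · rfl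
  · show c i j = c (e.symm (e ⟨i, j⟩)).1 (e.symm (e ⟨i, j⟩)).2
    rw [Equiv.symm_apply_apply]

end

/-! ### Closure properties of `Dfn` -/

section
variable {K : Type} [Field K] [LinearOrder K]

theorem dfn_inter {S T : Set (ℕ → K)} (hS : Dfn S) (hT : Dfn T) : Dfn (S ∩ T) := by
  intro D h1 h2 h3 h4 h5
  exact h4 S (hS D h1 h2 h3 h4 h5) T (hT D h1 h2 h3 h4 h5)

theorem dfn_ex {S : Set (ℕ → K)} (hS : Dfn S) (k : ℕ) :
    Dfn {v : ℕ → K | ∃ c : K, Function.update v k c ∈ S} := by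
  intro D h1 h2 h3 h4 h5
  exact h5 S (hS D h1 h2 h3 h4 h5) k

theorem dfn_zero (p : MvPolynomial ℕ ℤ) : Dfn {v : ℕ → K | MvPolynomial.aeval v p = 0} := by
  intro D h1 h2 h3 h4 h5
  exact h1 p

theorem dfn_pos (p : MvPolynomial ℕ ℤ) : Dfn {v : ℕ → K | 0 < MvPolynomial.aeval v p} := by
  intro D h1 h2 h3 h4 h5
  exact h2 p

theorem dfn_univ : Dfn (Set.univ : Set (ℕ → K)) := by
  have h := dfn_zero (K := K) 0
  simpa using h

theorem dfn_all : ∀ {s : ℕ} (S : Fin s → Set (ℕ → K)), (∀ i, Dfn (S i)) →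
    Dfn {v : ℕ → K | ∀ i, v ∈ S i} := by
  intro s
  induction s with
  | zero =>
    intro S _
    have e : {v : ℕ → K | ∀ i : Fin 0, v ∈ S i} = Set.univ := by
      ext v
      simp only [Set.mem_ofPred_eq, Set.mem_univ, iff_true]
      exact fun i => i.elim0
    rw [e]
    exact dfn_univ
  | succ s ih =>
    intro S hS
    have e : {v : ℕ → K | ∀ i, v ∈ S i} = S 0 ∩ {v : ℕ → K | ∀ i : Fin s, v ∈ S i.succ} := by
      ext v
      exact Fin.forall_fin_succ
    rw [e]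
    exact dfn_inter (hS 0) (ih (fun i => S i.succ) fun i => hS i.succ)

/-- replace a block of coordinates -/
def upd (N d : ℕ) (v : ℕ → K) (y : Fin d → K) : ℕ → K :=
  fun k => if h : N ≤ k ∧ k < N + d then y ⟨k - N, by omega⟩ else v k

omit [Field K] [LinearOrder K] in
theorem upd_succ (N d : ℕ) (v : ℕ → K) (y : Fin (d + 1) → K) :
    upd N (d + 1) v y = Function.update (upd N d v fun i => y i.castSucc) (N + d) (y (Fin.last d)) := by
  funext k
  by_cases hk : k = N + d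
  · subst hk
    rw [Function.update_self]
    unfold upd
    rw [dif_pos (by omega)]
    congr 1
    apply Fin.ext
    simp
  · rw [Function.update_of_ne hk]
    unfold upd
    by_cases h : N ≤ k ∧ k < N + d
    · rw [dif_pos (by omega), dif_pos h]
      rfl
    · rw [dif_neg (by omega), dif_neg h]

theorem dfn_block (N : ℕ) : ∀ (d : ℕ) (S : Set (ℕ → K)), Dfn S →
    Dfn {v : ℕ → K | ∃ y : Fin d → K, upd N d v y ∈ S} := by
  intro d
  induction d with
  | zero =>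
    intro S hS
    have e0 : ∀ (v : ℕ → K) (y : Fin 0 → K), upd N 0 v y = v := by
      intro v y
      funext k
      unfold upd
      rw [dif_neg (by omega)]
    have e : {v : ℕ → K | ∃ y : Fin 0 → K, upd N 0 v y ∈ S} = S := by
      ext v
      simp only [Set.mem_ofPred_eq, e0]
      exact ⟨fun ⟨_, h⟩ => h, fun h => ⟨fun i => i.elim0, h⟩⟩
    rw [e]
    exact hS
  | succ d ih =>
    intro S hS
    have e : {v : ℕ → K | ∃ y : Fin (d + 1) → K, upd N (d + 1) v y ∈ S} =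
        {v : ℕ → K | ∃ y : Fin d → K,
          upd N d v y ∈ {v : ℕ → K | ∃ c : K, Function.update v (N + d) c ∈ S}} := by
      ext v
      constructor
      · rintro ⟨y, hy⟩
        rw [upd_succ] at hy
        exact ⟨_, _, hy⟩
      · rintro ⟨y, c, hy⟩
        refine ⟨Fin.snoc y c, ?_⟩
        rw [upd_succ]
        simpa using hy
    rw [e]
    exact ih _ (dfn_ex hS (N + d))

end

/-- positions of the variables -/
def pos (n p d m : ℕ) : (Fin n ⊕ (Fin p ⊕ Fin d)) ⊕ Fin m → ℕ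
  | Sum.inl (Sum.inl k) => k
  | Sum.inl (Sum.inr (Sum.inl k)) => n + k
  | Sum.inl (Sum.inr (Sum.inr k)) => n + p + m + k
  | Sum.inr k => n + p + k

end DFPM

open DFPM in
/-- **DFP**. -/
theorem specDFP : SpecDFP := by
  intro K _ _ _ n p d s F G
  obtain ⟨m, c, Q, hQ⟩ := coef (Fin.snoc F G : Fin (s + 1) → MvPolynomial _ K)
  let S : Set (ℕ → K) :=
    {v | ∀ l : Fin s, v ∈ {v : ℕ → K | MvPolynomial.aeval v
      (MvPolynomial.rename (pos n p d m) (Q l.castSucc)) = 0}} ∩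
    {v | 0 < MvPolynomial.aeval v (MvPolynomial.rename (pos n p d m) (Q (Fin.last s)))}
  refine ⟨{v : ℕ → K | ∃ y : Fin d → K, upd (n + p + m) d v y ∈ S},
    fun k => if h : k < m then c ⟨k, h⟩ else 0, ?_, ?_⟩
  · apply dfn_block
    exact dfn_inter (dfn_all _ fun l => dfn_zero _) (dfn_pos _)
  · intro u w v hu hw hc
    have hpos : ∀ y : Fin d → K, upd (n + p + m) d v y ∘ pos n p d m =
        Sum.elim (Sum.elim u (Sum.elim w y)) c := by
      intro y
      funext x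
      rcases x with (k | k | k) | k
      · show upd (n + p + m) d v y (k : ℕ) = u k
        unfold upd
        rw [dif_neg (by have := k.2; omega), hu]
      · show upd (n + p + m) d v y (n + (k : ℕ)) = w k
        unfold upd
        rw [dif_neg (by have := k.2; omega), hw]
      · show upd (n + p + m) d v y (n + p + m + (k : ℕ)) = y k
        unfold upd
        rw [dif_pos (by have := k.2; omega)]
        congr 1
        apply Fin.ext
        simp
      · show upd (n + p + m) d v y (n + p + (k : ℕ)) = c k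
        unfold upd
        rw [dif_neg (by have := k.2; omega), hc]
        exact dif_pos k.2
    have hval : ∀ (y : Fin d → K) (l : Fin (s + 1)),
        MvPolynomial.aeval (upd (n + p + m) d v y)
          (MvPolynomial.rename (pos n p d m) (Q l)) =
        MvPolynomial.eval (Sum.elim u (Sum.elim w y))
          ((Fin.snoc F G : Fin (s + 1) → MvPolynomial _ K) l) := by
      intro y l
      rw [MvPolynomial.aeval_rename, hpos, hQ]
    constructor
    · rintro ⟨y, h1, h2⟩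
      refine ⟨y, fun l => ?_, ?_⟩
      · have h3 := h1 l
        rw [Set.mem_ofPred_eq, hval, Fin.snoc_castSucc] at h3
        exact h3
      · rw [Set.mem_ofPred_eq, hval, Fin.snoc_last] at h2
        exact h2
    · rintro ⟨y, h1, h2⟩
      refine ⟨y, fun l => ?_, ?_⟩
      · rw [Set.mem_ofPred_eq, hval, Fin.snoc_castSucc]
        exact h1 l
      · rw [Set.mem_ofPred_eq, hval, Fin.snoc_last]
        exact h2

end Pool.Agent.Lib.MP_556c5c_lc
end

section
/-!
# DNS: density of `L` in `ℝ × ℂ`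
-/
namespace Pool.Agent.Lib.MP_556c5c_lc

namespace DNSM

/-- The closure of the image of `L`. -/
noncomputable def CL {L : Type} [Field L] (φ : L →+* ℝ) (ψ : L →+* ℂ) : Subring (ℝ × ℂ) :=
  (φ.prod ψ).range.topologicalClosure

section

variable {L : Type} [Field L] (φ : L →+* ℝ) (ψ : L →+* ℂ)

theorem mem_img (x : L) : ((φ x, ψ x) : ℝ × ℂ) ∈ CL φ ψ :=
  Subring.le_topologicalClosure _ ⟨x, rfl⟩

theorem mem_rat (q : ℚ) : (((q : ℝ), ((q : ℝ) : ℂ)) : ℝ × ℂ) ∈ CL φ ψ := by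
  have hc : CharZero L := by
    refine ⟨fun m n h => ?_⟩
    have := congrArg φ h
    rw [map_natCast, map_natCast] at this
    exact_mod_cast this
  have h := mem_img φ ψ (q : L)
  rw [map_ratCast, map_ratCast] at h
  simpa using h

theorem mem_real (c : ℝ) : ((c, (c : ℂ)) : ℝ × ℂ) ∈ CL φ ψ := by
  have hcl : IsClosed ((CL φ ψ : Subring (ℝ × ℂ)) : Set (ℝ × ℂ)) :=
    Subring.isClosed_topologicalClosure _
  have hcont : Continuous (fun c : ℝ => ((c, (c : ℂ)) : ℝ × ℂ)) :=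
    continuous_id.prodMk Complex.continuous_ofReal
  have hpre : IsClosed ((fun c : ℝ => ((c, (c : ℂ)) : ℝ × ℂ)) ⁻¹' (CL φ ψ : Set (ℝ × ℂ))) :=
    hcl.preimage hcont
  have hsub : Set.range ((↑) : ℚ → ℝ) ⊆
      (fun c : ℝ => ((c, (c : ℂ)) : ℝ × ℂ)) ⁻¹' (CL φ ψ : Set (ℝ × ℂ)) := by
    rintro _ ⟨q, rfl⟩
    exact mem_rat φ ψ q
  have h1 : closure (Set.range ((↑) : ℚ → ℝ)) ⊆
      (fun c : ℝ => ((c, (c : ℂ)) : ℝ × ℂ)) ⁻¹' (CL φ ψ : Set (ℝ × ℂ)) :=
    closure_minimal hsub hpre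
  rw [Rat.denseRange_cast.closure_range] at h1
  exact h1 (Set.mem_univ c)

theorem mem_smul (c : ℝ) {p : ℝ × ℂ} (hp : p ∈ CL φ ψ) : ((c * p.1, (c : ℂ) * p.2) : ℝ × ℂ) ∈ CL φ ψ :=
  (CL φ ψ).mul_mem (mem_real φ ψ c) hp

theorem all (z : L) (hz : (ψ z).im ≠ 0) (p : ℝ × ℂ) : p ∈ CL φ ψ := by
  set u : ℝ := φ z with hu
  set v : ℂ := ψ z with hv
  have hm : ((u, v) : ℝ × ℂ) ∈ CL φ ψ := mem_img φ ψ z
  set t : ℝ := (u - v.re) ^ 2 + v.im ^ 2 with ht
  have htpos : 0 < t := by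
    have : 0 < v.im ^ 2 := by positivity
    nlinarith [sq_nonneg (u - v.re)]
  have h1 : ((t, (0 : ℂ)) : ℝ × ℂ) ∈ CL φ ψ := by
    have h2 := (CL φ ψ).add_mem ((CL φ ψ).sub_mem ((CL φ ψ).mul_mem hm hm)
      (mem_smul φ ψ (2 * v.re) hm)) (mem_real φ ψ (v.re ^ 2 + v.im ^ 2))
    have e : ((u, v) : ℝ × ℂ) * (u, v) - ((2 * v.re) * u, ((2 * v.re : ℝ) : ℂ) * v) +
        ((v.re ^ 2 + v.im ^ 2 : ℝ), (((v.re ^ 2 + v.im ^ 2 : ℝ) : ℝ) : ℂ)) = (t, (0 : ℂ)) := by
      refine Prod.ext ?_ ?_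
      · show u * u - 2 * v.re * u + (v.re ^ 2 + v.im ^ 2) = t
        rw [ht]
        ring
      · show v * v - ((2 * v.re : ℝ) : ℂ) * v + ((v.re ^ 2 + v.im ^ 2 : ℝ) : ℂ) = 0
        apply Complex.ext
        · simp only [Complex.add_re, Complex.sub_re, Complex.mul_re, Complex.ofReal_re,
            Complex.ofReal_im, Complex.zero_re]
          ring
        · simp only [Complex.add_im, Complex.sub_im, Complex.mul_im, Complex.ofReal_re,
            Complex.ofReal_im, Complex.zero_im]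
          ring
    rw [← e]
    exact h2
  have h10 : ((1, (0 : ℂ)) : ℝ × ℂ) ∈ CL φ ψ := by
    have h2 := mem_smul φ ψ t⁻¹ h1
    have e : ((t⁻¹ * t, ((t⁻¹ : ℝ) : ℂ) * 0) : ℝ × ℂ) = (1, 0) := by
      rw [inv_mul_cancel₀ htpos.ne', mul_zero]
    rw [← e]
    exact h2
  have h01 : (((0 : ℝ), (1 : ℂ)) : ℝ × ℂ) ∈ CL φ ψ := by
    have h2 := (CL φ ψ).sub_mem (CL φ ψ).one_mem h10
    have e : (1 : ℝ × ℂ) - (1, 0) = (0, 1) := by
      refine Prod.ext ?_ ?_
      · show (1 : ℝ) - 1 = 0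
        ring
      · show (1 : ℂ) - 0 = 1
        ring
    rw [← e]
    exact h2
  have h0v : (((0 : ℝ), v) : ℝ × ℂ) ∈ CL φ ψ := by
    have h2 := (CL φ ψ).mul_mem h01 hm
    have e : (((0 : ℝ), (1 : ℂ)) : ℝ × ℂ) * (u, v) = (0, v) := by
      refine Prod.ext ?_ ?_
      · show (0 : ℝ) * u = 0
        ring
      · show (1 : ℂ) * v = v
        ring
    rw [← e]
    exact h2
  have h0i : (((0 : ℝ), Complex.I) : ℝ × ℂ) ∈ CL φ ψ := by
    have h2 := mem_smul φ ψ (v.im)⁻¹ ((CL φ ψ).sub_mem h0v (mem_smul φ ψ v.re h01))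
    have e : (((v.im)⁻¹ * ((((0 : ℝ), v) : ℝ × ℂ) - (v.re * 0, (v.re : ℂ) * 1)).1,
        ((v.im⁻¹ : ℝ) : ℂ) * ((((0 : ℝ), v) : ℝ × ℂ) - (v.re * 0, (v.re : ℂ) * 1)).2) : ℝ × ℂ) =
        (0, Complex.I) := by
      refine Prod.ext ?_ ?_
      · show (v.im)⁻¹ * ((0 : ℝ) - v.re * 0) = 0
        ring
      · show ((v.im⁻¹ : ℝ) : ℂ) * (v - (v.re : ℂ) * 1) = Complex.I
        have hne : (v.im : ℂ) ≠ 0 := by exact_mod_cast hz
        have h3 : v - (v.re : ℂ) * 1 = (v.im : ℂ) * Complex.I := by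
          rw [mul_one, sub_eq_iff_eq_add, add_comm]
          exact (Complex.re_add_im v).symm
        rw [h3, ← mul_assoc, Complex.ofReal_inv, inv_mul_cancel₀ hne, one_mul]
    rw [← e]
    exact h2
  have h3 := (CL φ ψ).add_mem (mem_smul φ ψ p.1 h10)
    ((CL φ ψ).add_mem (mem_smul φ ψ p.2.re h01) (mem_smul φ ψ p.2.im h0i))
  have e : (((p.1 * (1 : ℝ), (p.1 : ℂ) * (0 : ℂ)) : ℝ × ℂ) +
      ((p.2.re * (0 : ℝ), (p.2.re : ℂ) * (1 : ℂ)) + (p.2.im * (0 : ℝ), (p.2.im : ℂ) * Complex.I))) =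
      p := by
    refine Prod.ext ?_ ?_
    · show p.1 * 1 + (p.2.re * 0 + p.2.im * 0) = p.1
      ring
    · show (p.1 : ℂ) * 0 + ((p.2.re : ℂ) * 1 + (p.2.im : ℂ) * Complex.I) = p.2
      rw [mul_zero, zero_add, mul_one]
      exact Complex.re_add_im p.2
  rw [← e]
  exact h3

end

end DNSM

open DNSM in
theorem specDNS : SpecDNS := by
  intro L _ φ ψ ⟨z, hz⟩ a b ε hε
  have h1 : ((a, b) : ℝ × ℂ) ∈ CL φ ψ := all φ ψ z hz (a, b)
  have h2 : ((a, b) : ℝ × ℂ) ∈ closure (((φ.prod ψ).range : Subring (ℝ × ℂ)) : Set (ℝ × ℂ)) := h1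
  obtain ⟨y, hy, hd⟩ := Metric.mem_closure_iff.1 h2 ε hε
  obtain ⟨x, rfl⟩ := hy
  refine ⟨x, ?_, ?_⟩
  · have h3 : dist a (φ x) ≤ dist ((a, b) : ℝ × ℂ) ((φ.prod ψ) x) := le_max_left _ _
    rw [dist_comm, Real.dist_eq] at h3
    exact h3.trans_lt hd
  · have h3 : dist b (ψ x) ≤ dist ((a, b) : ℝ × ℂ) ((φ.prod ψ) x) := le_max_right _ _
    rw [dist_comm, dist_eq_norm] at h3
    exact h3.trans_lt hd

end Pool.Agent.Lib.MP_556c5c_lc
end

section
/-!
# EXT: a finite extension with a real and a non real place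
-/
namespace Pool.Agent.Lib.MP_556c5c_lc

open Finset

namespace EXTM

open Polynomial Filter

theorem oddroot_pos (p : ℝ[X]) (h : Odd p.natDegree) (hl : 0 < p.leadingCoeff) :
    ∃ x, p.IsRoot x := by
  have hd : 0 < p.natDegree := h.pos
  have hdeg : 0 < p.degree := natDegree_pos_iff_degree_pos.1 hd
  have h1 : Tendsto (fun x => eval x p) atTop atTop :=
    p.tendsto_atTop_of_leadingCoeff_nonneg hdeg hl.le
  have h2 : (p.comp (-X)).leadingCoeff = - p.leadingCoeff := by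
    have h3 : (-X : ℝ[X]).natDegree ≠ 0 := by
      rw [natDegree_neg, natDegree_X]
      exact one_ne_zero
    rw [leadingCoeff_comp h3, leadingCoeff_neg, leadingCoeff_X, h.neg_one_pow]
    ring
  have h4 : 0 < (p.comp (-X)).degree := by
    apply natDegree_pos_iff_degree_pos.1
    rw [natDegree_comp, natDegree_neg, natDegree_X, mul_one]
    exact hd
  have h5 : Tendsto (fun x => eval x (p.comp (-X))) atTop atBot :=
    (p.comp (-X)).tendsto_atBot_of_leadingCoeff_nonpos h4 (by rw [h2]; linarith)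
  have h6 : Tendsto (fun x => eval x p) atBot atBot := by
    have h7 := h5.comp tendsto_neg_atBot_atTop
    refine h7.congr fun x => ?_
    simp [eval_comp]
  have h8 : Function.Surjective (fun x => eval x p) := p.continuous.surjective h1 h6
  obtain ⟨x, hx⟩ := h8 0
  exact ⟨x, hx⟩

theorem oddroot (p : ℝ[X]) (h : Odd p.natDegree) : ∃ x, p.IsRoot x := by
  have h0 : p ≠ 0 := by
    rintro rfl
    simp at h
  rcases lt_trichotomy p.leadingCoeff 0 with h1 | h1 | h1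
  · obtain ⟨x, hx⟩ := oddroot_pos (-p) (by rwa [natDegree_neg])
      (by rw [leadingCoeff_neg]; linarith)
    refine ⟨x, ?_⟩
    have h2 : eval x (-p) = 0 := hx
    rw [eval_neg, neg_eq_zero] at h2
    exact h2
  · exact absurd (leadingCoeff_eq_zero.1 h1) h0
  · exact oddroot_pos p h h1

section

variable {K : Type} [Field K] [Algebra K ℝ] [Algebra K ℂ] [IsScalarTower K ℝ ℂ]

/-- The places of `K⟮γ⟯`. -/
theorem place (γ : ℝ) (hγ : IsIntegral K γ) (a : ℝ) (ha : a ∈ IntermediateField.adjoin K {γ})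
    (b : ℂ) (hb : aeval b (minpoly K a) = 0) :
    ∃ ψ : IntermediateField.adjoin K {γ} →ₐ[K] ℂ, ψ ⟨a, ha⟩ = b := by
  have : FiniteDimensional K (IntermediateField.adjoin K {γ}) :=
    IntermediateField.adjoin.finiteDimensional hγ
  apply IntermediateField.exists_algHom_of_splits_of_aeval (F := K)
  · intro s
    exact ⟨Algebra.IsIntegral.isIntegral s, IsAlgClosed.splits _⟩
  · have h1 : minpoly K (⟨a, ha⟩ : IntermediateField.adjoin K {γ}) = minpoly K a := by
      have h2 := minpoly.algebraMap_eq (A := K)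
        (algebraMap (IntermediateField.adjoin K {γ}) ℝ).injective
        (⟨a, ha⟩ : IntermediateField.adjoin K {γ})
      rw [← h2]
      rfl
    rw [h1, hb]

/-- A second conjugate. -/
theorem conj2 [CharZero K] (a : ℝ) (ha : IsIntegral K a) (h : a ∉ (algebraMap K ℝ).range) :
    ∃ b : ℂ, b ≠ (a : ℂ) ∧ aeval b (minpoly K a) = 0 := by
  have h1 : 2 ≤ (minpoly K a).natDegree := (minpoly.two_le_natDegree_iff ha).2 h
  have h2 : (minpoly K a).Separable := (minpoly.irreducible ha).separable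
  have h3 := card_rootSet_eq_natDegree (K := ℂ) h2 (IsAlgClosed.splits _)
  have h4 : aeval (a : ℂ) (minpoly K a) = 0 := by
    have h5 : aeval (algebraMap ℝ ℂ a) (minpoly K a) = algebraMap ℝ ℂ (aeval a (minpoly K a)) :=
      aeval_algebraMap_apply ℂ a (minpoly K a)
    rw [minpoly.aeval, map_zero] at h5
    exact h5
  have h5 : (a : ℂ) ∈ (minpoly K a).rootSet ℂ :=
    (mem_rootSet).2 ⟨minpoly.ne_zero ha, h4⟩
  have h6 : 1 < Fintype.card ((minpoly K a).rootSet ℂ) := by omega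
  obtain ⟨⟨b, hb⟩, hb2⟩ := Fintype.exists_ne_of_one_lt_card h6 ⟨(a : ℂ), h5⟩
  refine ⟨b, fun hba => hb2 (Subtype.ext hba), ((mem_rootSet).1 hb).2⟩

theorem final [CharZero K] (a : ℝ) (ha : IsIntegral K a) (h : a ∉ (algebraMap K ℝ).range) :
    ∃ (γ : ℝ) (_ : IsIntegral K γ) (ψ : IntermediateField.adjoin K {γ} →ₐ[K] ℂ)
      (z : IntermediateField.adjoin K {γ}), (ψ z).im ≠ 0 := by
  obtain ⟨b, hb, hb2⟩ := conj2 a ha h
  by_cases him : b.im = 0
  · -- a real conjugate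
    have hbr : b = ((b.re : ℝ) : ℂ) := by
      apply Complex.ext
      · simp
      · simpa using him
    have hne : b.re ≠ a := by
      intro h1
      rw [h1] at hbr
      exact hb hbr
    -- a rational strictly between
    obtain ⟨r, hr1, hr2⟩ := exists_rat_btwn (min_lt_max.2 hne)
    -- the sign
    obtain ⟨s, hs, hsa, hsb⟩ : ∃ s : ℤ, (s = 1 ∨ s = -1) ∧ 0 < (s : ℝ) * (a - r) ∧
        (s : ℝ) * (b.re - r) < 0 := by
      rcases lt_or_gt_of_ne hne with h1 | h1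
      · rw [min_eq_left h1.le] at hr1
        rw [max_eq_right h1.le] at hr2
        refine ⟨1, Or.inl rfl, ?_, ?_⟩
        · push_cast
          linarith
        · push_cast
          linarith
      · rw [min_eq_right h1.le] at hr1
        rw [max_eq_left h1.le] at hr2
        refine ⟨-1, Or.inr rfl, ?_, ?_⟩
        · push_cast
          linarith
        · push_cast
          linarith
    have hss : (s : ℝ) * (s : ℝ) = 1 := by
      rcases hs with rfl | rfl
      · push_cast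
        ring
      · push_cast
        ring
    set γ : ℝ := Real.sqrt ((s : ℝ) * (a - r)) with hγ
    have hγ2 : γ ^ 2 = (s : ℝ) * (a - r) := Real.sq_sqrt hsa.le
    have hrK : IsIntegral K (r : ℝ) := by
      have h1 : algebraMap K ℝ (r : K) = (r : ℝ) := by simp
      rw [← h1]
      exact isIntegral_algebraMap
    have hsK : IsIntegral K (s : ℝ) := by
      have h1 : algebraMap K ℝ (s : K) = (s : ℝ) := by simp
      rw [← h1]
      exact isIntegral_algebraMap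
    have hγi : IsIntegral K γ := by
      apply IsIntegral.of_pow (n := 2) (by norm_num)
      rw [hγ2]
      exact hsK.mul (ha.sub hrK)
    have hγm : γ ∈ IntermediateField.adjoin K {γ} := IntermediateField.mem_adjoin_simple_self K γ
    have haγ : a = (s : ℝ) * γ ^ 2 + r := by
      rw [hγ2, ← mul_assoc, hss]
      ring
    have ham : a ∈ IntermediateField.adjoin K {γ} := by
      rw [haγ]
      exact add_mem (mul_mem (intCast_mem _ s) (pow_mem hγm 2))
        (by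
          have h1 : algebraMap K ℝ (r : K) = (r : ℝ) := by simp
          rw [← h1]
          exact (IntermediateField.adjoin K {γ}).algebraMap_mem _)
    obtain ⟨ψ, hψ⟩ := place γ hγi a ham b hb2
    refine ⟨γ, hγi, ψ, ⟨γ, hγm⟩, ?_⟩
    intro h0
    have h1 : (⟨γ, hγm⟩ : IntermediateField.adjoin K {γ}) ^ 2
        = (s : IntermediateField.adjoin K {γ}) * (⟨a, ham⟩ - (r : IntermediateField.adjoin K {γ})) := by
      apply Subtype.ext
      push_cast
      exact hγ2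
    have h2 := congrArg ψ h1
    rw [map_pow, map_mul, map_sub, hψ, map_intCast, map_ratCast] at h2
    have h3 : ψ ⟨γ, hγm⟩ = (((ψ ⟨γ, hγm⟩).re : ℝ) : ℂ) := by
      apply Complex.ext
      · simp
      · simpa using h0
    rw [h3, hbr] at h2
    have h4 : (ψ ⟨γ, hγm⟩).re ^ 2 = (s : ℝ) * (b.re - r) := by
      exact_mod_cast h2
    have h5 := sq_nonneg (ψ ⟨γ, hγm⟩).re
    linarith
  · obtain ⟨ψ, hψ⟩ := place a ha a (IntermediateField.mem_adjoin_simple_self K a) b hb2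
    refine ⟨a, ha, ψ, ⟨a, IntermediateField.mem_adjoin_simple_self K a⟩, ?_⟩
    rw [hψ]
    exact him

end

end EXTM

theorem specEXT : SpecEXT := by
  intro K _ _ _ _ hK
  let ι : K →+*o ℝ := ConditionallyCompleteLinearOrderedField.inducedOrderRingHom K ℝ
  have hmono : StrictMono (ι : K →+* ℝ) :=
    ι.monotone'.strictMono_of_injective (RingHom.injective (ι : K →+* ℝ))
  let alg1 : Algebra K ℝ := (ι : K →+* ℝ).toAlgebra
  let alg2 : Algebra K ℂ := ((algebraMap ℝ ℂ).comp (ι : K →+* ℝ)).toAlgebra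
  have tow : IsScalarTower K ℝ ℂ := IsScalarTower.of_algebraMap_eq fun x => rfl
  have key : ∃ a : ℝ, IsIntegral K a ∧ a ∉ (algebraMap K ℝ).range := by
    by_cases h1 : ∀ x : K, 0 < x → ∃ y : K, y * y = x
    · have h2 : ¬ ∀ p : Polynomial K, Odd p.natDegree → ∃ r : K, p.IsRoot r := fun h3 => hK ⟨h1, h3⟩
      push Not at h2
      obtain ⟨p, hp, hp2⟩ := h2
      obtain ⟨a, ha⟩ := EXTM.oddroot (p.map (algebraMap K ℝ)) (by
        rwa [Polynomial.natDegree_map])
      have hp0 : p ≠ 0 := by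
        rintro rfl
        simp at hp
      have ha2 : Polynomial.aeval a p = 0 := by
        rw [Polynomial.IsRoot.def, Polynomial.eval_map_algebraMap] at ha
        exact ha
      refine ⟨a, (isAlgebraic_iff_isIntegral).1 ⟨p, hp0, ha2⟩, ?_⟩
      rintro ⟨x, rfl⟩
      rw [Polynomial.aeval_algebraMap_apply_eq_algebraMap_eval] at ha2
      exact hp2 x ((map_eq_zero (algebraMap K ℝ)).1 ha2)
    · push Not at h1
      obtain ⟨x, hx, hx2⟩ := h1
      have hιx : 0 < algebraMap K ℝ x := by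
        have h2 := hmono hx
        rwa [map_zero] at h2
      refine ⟨Real.sqrt (algebraMap K ℝ x), ?_, ?_⟩
      · apply IsIntegral.of_pow (n := 2) (by norm_num)
        rw [Real.sq_sqrt hιx.le]
        exact isIntegral_algebraMap
      · rintro ⟨y, hy⟩
        apply hx2 y
        apply (algebraMap K ℝ).injective
        rw [map_mul, hy, Real.mul_self_sqrt hιx.le]
  obtain ⟨a, ha, ha2⟩ := key
  obtain ⟨γ, hγ, ψ, z, hz⟩ := EXTM.final a ha ha2
  have : FiniteDimensional K (IntermediateField.adjoin K {γ}) :=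
    IntermediateField.adjoin.finiteDimensional hγ
  refine ⟨(ι : K →+* ℝ), hmono, IntermediateField.adjoin K {γ}, inferInstance, inferInstance,
    inferInstance, (IntermediateField.val _).toRingHom, ψ.toRingHom, fun k => ?_, fun k => ?_,
    z, hz⟩
  · rfl
  · have h1 : ψ (algebraMap K _ k) = algebraMap K ℂ k := ψ.commutes k
    exact h1

end Pool.Agent.Lib.MP_556c5c_lc
end

section
/-!
# MP_556c5c_lc, module FIN: the index of the `q`-th powers is finite for all large primes `q`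

Specs used: `SpecDEF`, `SpecCRD`. By helper65.
-/
namespace Pool.Agent.Lib.MP_556c5c_lc.FINM

open Finset

/-- Exponents `E` congruent to `1` modulo `Q i` and divisible by `Q l` for the other `l < N`. -/
theorem exps (Q : ℕ → ℕ) (hQ : ∀ i, (Q i).Prime) (hinj : Function.Injective Q) (N : ℕ) :
    ∃ E : ℕ → ℕ, (∀ i, ∃ c, E i = Q i * c + 1) ∧ ∀ i l, l < N → l ≠ i → Q l ∣ E i := by
  have key : ∀ i, ∃ E : ℕ, (∃ c, E = Q i * c + 1) ∧ ∀ l, l < N → l ≠ i → Q l ∣ E := by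
    intro i
    have hcop : (∏ l ∈ (range N).erase i, Q l).Coprime (Q i) := by
      apply Nat.Coprime.prod_left
      intro l hl
      exact (Nat.coprime_primes (hQ l) (hQ i)).2 (fun h => (Finset.ne_of_mem_erase hl) (hinj h))
    obtain ⟨c, hc⟩ := Nat.exists_mul_mod_eq_one_of_coprime hcop (hQ i).one_lt
    refine ⟨(∏ l ∈ (range N).erase i, Q l) * c, ⟨(∏ l ∈ (range N).erase i, Q l) * c / Q i, ?_⟩, ?_⟩
    · have h1 := Nat.div_add_mod ((∏ l ∈ (range N).erase i, Q l) * c) (Q i)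
      have h2 : (∏ l ∈ (range N).erase i, Q l) * c % Q i = 1 := hc.2
      omega
    · intro l hl hli
      exact (Finset.dvd_prod_of_mem Q (Finset.mem_erase.2 ⟨hli, Finset.mem_range.2 hl⟩)).mul_right _
  choose E hE1 hE2 using key
  exact ⟨E, hE1, hE2⟩

variable {L : Type} [Field L]

/-- The subgroup of the `q`-th powers. -/
abbrev PQ (L : Type) [Field L] (q : ℕ) : Subgroup Lˣ := (powMonoidHom q : Lˣ →* Lˣ).range

theorem mk_pow (q : ℕ) (a : Lˣ) : QuotientGroup.mk' (PQ L q) (a ^ q) = 1 :=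
  (QuotientGroup.eq_one_iff _).2 ⟨a, rfl⟩

theorem mk_dvd (q E : ℕ) (h : q ∣ E) (a : Lˣ) : QuotientGroup.mk' (PQ L q) (a ^ E) = 1 := by
  obtain ⟨c, rfl⟩ := h
  rw [pow_mul', mk_pow]

theorem mk_one (q E c : ℕ) (h : E = q * c + 1) (a : Lˣ) :
    QuotientGroup.mk' (PQ L q) (a ^ E) = QuotientGroup.mk' (PQ L q) a := by
  rw [h, pow_succ, map_mul, mk_dvd q (q * c) (Dvd.intro c rfl)]
  exact one_mul (M := Lˣ ⧸ PQ L q) _

/-- Solvability of `x = b * z ^ q` in terms of the classes. -/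
theorem solv (q : ℕ) (hq : q ≠ 0) (x b : Lˣ) :
    (∃ z : L, (x : L) - b * z ^ q = 0) ↔
      QuotientGroup.mk' (PQ L q) b = QuotientGroup.mk' (PQ L q) x := by
  constructor
  · rintro ⟨z, hz⟩
    have hz0 : z ≠ 0 := by
      rintro rfl
      rw [zero_pow hq, mul_zero, sub_zero] at hz
      exact x.ne_zero hz
    have h1 : x = b * (Units.mk0 z hz0) ^ q := by
      apply Units.ext
      push_cast
      rw [Units.val_mk0]
      linear_combination hz
    rw [h1, map_mul, mk_pow]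
    exact (mul_one (M := Lˣ ⧸ PQ L q) _).symm
  · intro h
    have h1 : b⁻¹ * x ∈ PQ L q := QuotientGroup.eq.1 h
    obtain ⟨z, hz⟩ := h1
    refine ⟨(z : L), ?_⟩
    have h2 : z ^ q = b⁻¹ * x := hz
    have h3 : b * z ^ q = x := by rw [h2, mul_inv_cancel_left]
    have h4 : (b : L) * (z : L) ^ q = x := by
      rw [← h3]
      push_cast
      rfl
    rw [h4, sub_self]

/-- The three blocks of variables. -/
def blk (n : ℕ) : Fin 3 × Fin n → Fin n ⊕ (Fin n ⊕ Fin n) := fun a =>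
  if a.1 = 0 then Sum.inl a.2 else if a.1 = 1 then Sum.inr (Sum.inl a.2) else Sum.inr (Sum.inr a.2)

end Pool.Agent.Lib.MP_556c5c_lc.FINM

namespace Pool.Agent.Lib.MP_556c5c_lc

open Finset FINM

theorem specFIN (hDEF : SpecDEF) (hCRD : SpecCRD) : SpecFIN := by
  intro K L _ _ _ _ _ _ hK
  by_contra hcon
  push Not at hcon
  -- the sequence of primes
  have hseq : ∃ Q : ℕ → ℕ, Function.Injective Q ∧ ∀ i, (Q i).Prime ∧ ¬ Finite (Lˣ ⧸ PQ L (Q i)) := by
    have hinf : {q : ℕ | q.Prime ∧ ¬ Finite (Lˣ ⧸ PQ L q)}.Infinite := by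
      rw [Set.infinite_iff_exists_gt]
      intro a
      obtain ⟨q, h1, h2, h3⟩ := hcon a
      exact ⟨q, ⟨h1, by simpa using h3⟩, h2⟩
    have hI : Infinite {q : ℕ | q.Prime ∧ ¬ Finite (Lˣ ⧸ PQ L q)} := hinf.to_subtype
    exact ⟨fun i => (Infinite.natEmbedding _ i : {q : ℕ | q.Prime ∧ ¬ Finite (Lˣ ⧸ PQ L q)}),
      fun i j hij => (Infinite.natEmbedding _).injective (Subtype.ext hij),
      fun i => (Infinite.natEmbedding _ i : {q : ℕ | q.Prime ∧ ¬ Finite (Lˣ ⧸ PQ L q)}).2⟩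
  obtain ⟨Q, hQinj, hQ⟩ := hseq
  -- representatives of distinct classes
  have hrep : ∀ i, ∃ β : ℕ → Lˣ,
      Function.Injective (fun j => QuotientGroup.mk' (PQ L (Q i)) (β j)) := by
    intro i
    have hI : Infinite (Lˣ ⧸ PQ L (Q i)) := not_finite_iff_infinite.1 (hQ i).2
    refine ⟨fun j => Quotient.out (Infinite.natEmbedding (Lˣ ⧸ PQ L (Q i)) j), ?_⟩
    intro j j' hj
    have h1 : ∀ j, QuotientGroup.mk' (PQ L (Q i))
        (Quotient.out (Infinite.natEmbedding (Lˣ ⧸ PQ L (Q i)) j)) =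
        Infinite.natEmbedding (Lˣ ⧸ PQ L (Q i)) j := fun j => Quotient.out_eq _
    simp only [h1] at hj
    exact (Infinite.natEmbedding _).injective hj
  choose β hβ using hrep
  set n := Module.finrank K L with hn
  let e : Module.Basis (Fin n) K L := Module.finBasis K L
  -- the polynomials
  have hF : ∀ i : ℕ, ∃ F : Fin n → MvPolynomial (Fin 3 × Fin n) K,
      ∀ (u : Fin 3 × Fin n → K) (k : Fin n), MvPolynomial.eval u (F k) =
        e.repr (MvPolynomial.eval (fun i => ∑ j, u (i, j) • e j)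
          (MvPolynomial.X 0 - MvPolynomial.X 1 * MvPolynomial.X 2 ^ (Q i) :
            MvPolynomial (Fin 3) L)) k := fun i => hCRD K L n e (Fin 3) _
  choose F hF using hF
  apply hDEF K hK n n n n (fun i l => MvPolynomial.rename (blk n) (F i l)) (fun _ => 1)
  -- the relation
  have hrel : ∀ (i : ℕ) (u w : Fin n → K),
      ((∃ y : Fin n → K,
        (∀ l, MvPolynomial.eval (Sum.elim u (Sum.elim w y)) (MvPolynomial.rename (blk n) (F i l)) = 0) ∧
          0 < MvPolynomial.eval (Sum.elim u (Sum.elim w y)) (1 : MvPolynomial (Fin n ⊕ (Fin n ⊕ Fin n)) K)) ↔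
        ∃ z : L, (∑ j, u j • e j) - (∑ j, w j • e j) * z ^ Q i = 0) := by
    intro i u w
    have h1 : ∀ y : Fin n → K,
        (∀ l, MvPolynomial.eval (Sum.elim u (Sum.elim w y))
          (MvPolynomial.rename (blk n) (F i l)) = 0) ↔
        (∑ j, u j • e j) - (∑ j, w j • e j) * (∑ j, y j • e j) ^ Q i = 0 := by
      intro y
      have h2 : ∀ l, MvPolynomial.eval (Sum.elim u (Sum.elim w y))
          (MvPolynomial.rename (blk n) (F i l)) =
          e.repr ((∑ j, u j • e j) - (∑ j, w j • e j) * (∑ j, y j • e j) ^ Q i) l := by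
        intro l
        rw [MvPolynomial.eval_rename, hF]
        simp [blk, Function.comp]
      simp only [h2]
      constructor
      · intro h3
        apply e.repr.injective
        ext l
        rw [h3, map_zero]
        rfl
      · intro h3 l
        rw [h3, map_zero]
        rfl
    constructor
    · rintro ⟨y, hy, -⟩
      exact ⟨_, (h1 y).1 hy⟩
    · rintro ⟨z, hz⟩
      refine ⟨fun j => e.repr z j, (h1 _).2 ?_, by simp⟩
      rw [e.sum_repr]
      exact hz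
  intro N
  refine ⟨fun i j k => e.repr (β i j : L) k, fun η hη => ?_⟩
  obtain ⟨E, hE1, hE2⟩ := exps Q (fun i => (hQ i).1) hQinj N
  refine ⟨fun k => e.repr ((∏ i ∈ range N, β i (η i) ^ E i : Lˣ) : L) k, fun i hi j hj => ?_⟩
  rw [hrel, e.sum_repr, e.sum_repr, solv (Q i) (hQ i).1.ne_zero]
  have hx : QuotientGroup.mk' (PQ L (Q i)) (∏ l ∈ range N, β l (η l) ^ E l) =
      QuotientGroup.mk' (PQ L (Q i)) (β i (η i)) := by
    rw [map_prod, Finset.prod_eq_single i]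
    · obtain ⟨c, hc⟩ := hE1 i
      exact mk_one (Q i) (E i) c hc _
    · intro l hl hli
      exact mk_dvd (Q i) (E l) (hE2 l i hi (Ne.symm hli)) _
    · intro h
      exact absurd (Finset.mem_range.2 hi) h
  rw [hx]
  constructor
  · intro h
    exact hβ i h
  · rintro rfl
    rfl

end Pool.Agent.Lib.MP_556c5c_lc
end

section
namespace Pool.Agent.Lib.MP_556c5c_lc

/-- The assembly: NIP and one finite index give the conclusion. -/
theorem final0 (hVCH : SpecVCH) (hCNT : SpecCNT) (hEXT : SpecEXT) (hDNS : SpecDNS)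
    (hHAT : SpecHAT) (hVOL : SpecVOL) (hCOR : SpecCOR)
    (K : Type) [Field K] [LinearOrder K] [IsStrictOrderedRing K] [Archimedean K]
    (hK : NIPf K)
    (hidx : ∀ (L : Type) [Field L] [Algebra K L] [FiniteDimensional K L],
      ∃ q : ℕ, q.Prime ∧ 5 ≤ q ∧ Finite (Lˣ ⧸ (powMonoidHom q : Lˣ →* Lˣ).range)) :
    (∀ x : K, 0 < x → ∃ y : K, y * y = x) ∧
      ∀ p : Polynomial K, Odd p.natDegree → ∃ r : K, p.IsRoot r := by
  by_contra hcon
  obtain ⟨ι, hι, L, iL, iA, iF, φ, ψ, hφ, hψ, hz⟩ := hEXT K hcon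
  have hdn : Dn φ ψ := hDNS L φ ψ hz
  obtain ⟨q, hq, h5, hfin⟩ := hidx L
  obtain ⟨A, iAG, iAF, ζ, h, D, τ, hcl, hw⟩ := hHAT L φ ψ q hq h5 hfin
  have hodd : Odd q := hq.odd_of_ne_two (by omega)
  have hqr : (5 : ℝ) ≤ (q : ℝ) := by exact_mod_cast h5
  have hr0 : (0 : ℝ) < 1 / (q : ℝ) := by positivity
  have hr1 : 1 / (q : ℝ) < 1 := by
    rw [div_lt_one (by linarith)]
    linarith
  have hvc := hVCH K L hK ι hι φ ψ hφ hψ hdn A q (1 / (q : ℝ)) h hodd hr0 hr1 hw
  obtain ⟨N, hN⟩ := hCNT L ψ A (1 / (q : ℝ)) h hr0 hvc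
  obtain ⟨μ, hμ⟩ := hVOL L φ ψ hdn
  exact hCOR L φ ψ A q ζ (1 / (q : ℝ)) h D τ N μ ⟨hdn, hμ, hcl, hN⟩

/-- The assembly: all Specs give the frozen statement. -/
theorem final (hNIQ : SpecNIQ) (hFIN : SpecFIN) (hVCH : SpecVCH) (hCNT : SpecCNT) (hEXT : SpecEXT)
    (hDNS : SpecDNS) (hHAT : SpecHAT) (hVOL : SpecVOL) (hCOR : SpecCOR)
    (K : Type) [Field K] [LinearOrder K] [IsStrictOrderedRing K] [Archimedean K]
    (hK : NoIct K) :
    (∀ x : K, 0 < x → ∃ y : K, y * y = x) ∧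
      ∀ p : Polynomial K, Odd p.natDegree → ∃ r : K, p.IsRoot r := by
  refine final0 hVCH hCNT hEXT hDNS hHAT hVOL hCOR K (hNIQ K hK) ?_
  intro L _ _ _
  obtain ⟨q₀, hq₀⟩ := hFIN K L hK
  obtain ⟨q, hq1, hq⟩ := Nat.exists_infinite_primes (q₀ + 6)
  exact ⟨q, hq, by omega, hq₀ q hq (by omega)⟩

end Pool.Agent.Lib.MP_556c5c_lc
end

section
/-!
# MP_556c5c_lc, module HAT : the group of classes
-/
set_option autoImplicit false

namespace Pool.Agent.Lib.MP_556c5c_lc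

namespace HATM

open Complex Finset

variable {L : Type} [Field L]

/-- The pairs `(w, l)` with `exp l = ψ w`. -/
def GG (ψ : L →+* ℂ) : AddSubgroup (Additive Lˣ × ℂ) where
  carrier := {p | exp p.2 = ψ ((Additive.toMul p.1 : Lˣ) : L)}
  add_mem' := by
    intro a b ha hb
    change exp (a.2 + b.2) = ψ ((Additive.toMul (a.1 + b.1) : Lˣ) : L)
    rw [exp_add, toMul_add, Units.val_mul, map_mul]
    rw [show exp a.2 = _ from ha, show exp b.2 = _ from hb]
  zero_mem' := by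
    change exp 0 = ψ ((Additive.toMul (0 : Additive Lˣ) : Lˣ) : L)
    simp
  neg_mem' := by
    intro a ha
    change exp (- a.2) = ψ ((Additive.toMul (- a.1) : Lˣ) : L)
    rw [exp_neg, toMul_neg, Units.val_inv_eq_inv_val, map_inv₀]
    rw [show exp a.2 = _ from ha]

/-- The group of classes. -/
abbrev AA (ψ : L →+* ℂ) (q : ℕ) : Type := GG ψ ⧸ (nsmulAddMonoidHom (α := GG ψ) q).range

theorem ne_of_exp {ψ : L →+* ℂ} {w : L} {l : ℂ} (h : exp l = ψ w) : w ≠ 0 := by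
  rintro rfl
  rw [map_zero] at h
  exact exp_ne_zero l h

/-- The element `(w, l)` of `GG`. -/
noncomputable def el {ψ : L →+* ℂ} (w : L) (l : ℂ) (h : exp l = ψ w) : GG ψ :=
  ⟨(Additive.ofMul (Units.mk0 w (ne_of_exp h)), l), h⟩

open Classical in
/-- The class of `(w, l)`. -/
noncomputable def cls (ψ : L →+* ℂ) (q : ℕ) (w : L) (l : ℂ) : AA ψ q :=
  if h : exp l = ψ w then QuotientAddGroup.mk (el w l h) else 0

theorem cls_pos {ψ : L →+* ℂ} {q : ℕ} {w : L} {l : ℂ} (h : exp l = ψ w) :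
    cls ψ q w l = QuotientAddGroup.mk (el w l h) := by
  unfold cls
  rw [dif_pos h]

theorem cls_mul {ψ : L →+* ℂ} {q : ℕ} {w v : L} {a b : ℂ} (ha : exp a = ψ w) (hb : exp b = ψ v) :
    cls ψ q (w * v) (a + b) = cls ψ q w a + cls ψ q v b := by
  have h : exp (a + b) = ψ (w * v) := by rw [exp_add, map_mul, ha, hb]
  rw [cls_pos ha, cls_pos hb, cls_pos h, ← QuotientAddGroup.mk_add]
  congr 1
  apply Subtype.ext
  apply Prod.ext
  · change Additive.ofMul _ = Additive.ofMul _ + Additive.ofMul _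
    rw [← ofMul_mul]
    congr 1
    apply Units.ext
    simp
  · rfl

theorem cls_one (ψ : L →+* ℂ) (q : ℕ) : cls ψ q 1 0 = 0 := by
  have h1 := cls_mul (ψ := ψ) (q := q) (w := 1) (v := 1) (a := 0) (b := 0) (by simp) (by simp)
  rw [mul_one, add_zero] at h1
  have h2 : cls ψ q 1 0 - cls ψ q 1 0 = (cls ψ q 1 0 + cls ψ q 1 0) - cls ψ q 1 0 := by
    rw [← h1]
  rw [sub_self, add_sub_cancel_right] at h2
  exact h2.symm

theorem cls_eq_iff {ψ : L →+* ℂ} {q : ℕ} {w v : L} {a b : ℂ} (ha : exp a = ψ w)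
    (hb : exp b = ψ v) : cls ψ q w a = cls ψ q v b ↔
      ∃ (y : L) (m : ℂ), exp m = ψ y ∧ w = v * y ^ q ∧ a = b + q * m := by
  rw [cls_pos ha, cls_pos hb, eq_comm, QuotientAddGroup.eq]
  constructor
  · rintro ⟨⟨⟨y, m⟩, hy⟩, h2⟩
    have h3 := congrArg (fun g : GG ψ => g.1) h2
    have h4 : (Additive.toMul (q • y) : Lˣ) = (Units.mk0 v (ne_of_exp hb))⁻¹ *
      Units.mk0 w (ne_of_exp ha) := congrArg (fun g : Additive Lˣ × ℂ => Additive.toMul g.1) h3
    have h5 : q • m = - b + a := congrArg (fun g : Additive Lˣ × ℂ => g.2) h3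
    refine ⟨((Additive.toMul y : Lˣ) : L), m, hy, ?_, ?_⟩
    · have h6 := congrArg (fun u : Lˣ => (u : L)) h4
      simp only [toMul_nsmul, Units.val_pow_eq_pow_val, Units.val_mul,
        Units.val_inv_eq_inv_val, Units.val_mk0] at h6
      rw [h6, ← mul_assoc, mul_inv_cancel₀ (ne_of_exp hb), one_mul]
    · rw [nsmul_eq_mul] at h5
      linear_combination -h5
  · rintro ⟨y, m, hy, hw, hab⟩
    refine ⟨el y m hy, ?_⟩
    apply Subtype.ext
    apply Prod.ext
    · change q • Additive.ofMul (Units.mk0 y _) = - Additive.ofMul (Units.mk0 v _) +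
        Additive.ofMul (Units.mk0 w _)
      rw [← ofMul_pow, ← ofMul_inv, ← ofMul_mul]
      congr 1
      apply Units.ext
      simp only [Units.val_pow_eq_pow_val, Units.val_mul, Units.val_inv_eq_inv_val, Units.val_mk0]
      rw [hw, ← mul_assoc, inv_mul_cancel₀ (ne_of_exp hb), one_mul]
    · change q • m = - b + a
      rw [nsmul_eq_mul, hab]
      ring

theorem cls_surj {ψ : L →+* ℂ} {q : ℕ} (x : AA ψ q) :
    ∃ (w : L) (l : ℂ), exp l = ψ w ∧ x = cls ψ q w l := by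
  induction x using QuotientAddGroup.induction_on with
  | H g =>
    obtain ⟨⟨w, l⟩, hg⟩ := g
    refine ⟨((Additive.toMul w : Lˣ) : L), l, hg, ?_⟩
    rw [cls_pos hg]
    congr 1
    apply Subtype.ext
    apply Prod.ext
    · change w = Additive.ofMul _
      rw [Units.mk0_val]
      rfl
    · rfl

theorem tor {ψ : L →+* ℂ} {q : ℕ} (x : AA ψ q) : q • x = 0 := by
  induction x using QuotientAddGroup.induction_on with
  | H g =>
    rw [← QuotientAddGroup.mk_nsmul, QuotientAddGroup.eq_zero_iff]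
    exact ⟨g, rfl⟩

theorem cls_prod {ψ : L →+* ℂ} {q : ℕ} (n : ℕ) (w : ℕ → L) (l : ℕ → ℂ)
    (h : ∀ i < n, exp (l i) = ψ (w i)) :
    ∑ i ∈ range n, cls ψ q (w i) (l i) = cls ψ q (∏ i ∈ range n, w i) (∑ i ∈ range n, l i) ∧
      exp (∑ i ∈ range n, l i) = ψ (∏ i ∈ range n, w i) := by
  induction n with
  | zero => simp [cls_one]
  | succ n ih =>
    obtain ⟨h1, h2⟩ := ih (fun i hi => h i (by omega))
    rw [Finset.sum_range_succ, Finset.prod_range_succ, Finset.sum_range_succ, h1]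
    refine ⟨(cls_mul h2 (h n (by omega))).symm, ?_⟩
    rw [exp_add, map_mul, h2, h n (by omega)]

/-- `A` is finite. -/
theorem finite_A (ψ : L →+* ℂ) (q : ℕ) (hq : 0 < q)
    (hfin : Finite (Lˣ ⧸ (powMonoidHom q : Lˣ →* Lˣ).range)) : Finite (AA ψ q) := by
  have hlam : ∀ w : Lˣ, exp (log (ψ w)) = ψ w := fun w => exp_log (by simp)
  let f : (Lˣ ⧸ (powMonoidHom q : Lˣ →* Lˣ).range) × Fin q → AA ψ q := fun p =>
    cls ψ q (p.1.out : Lˣ) (log (ψ (p.1.out : Lˣ)) + (p.2 : ℕ) * (2 * Real.pi * I))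
  refine Finite.of_surjective f fun x => ?_
  obtain ⟨w, l, hl, rfl⟩ := cls_surj x
  have hw := ne_of_exp hl
  set c : Lˣ ⧸ (powMonoidHom q : Lˣ →* Lˣ).range := QuotientGroup.mk (Units.mk0 w hw) with hc
  have h1 : (QuotientGroup.mk c.out : Lˣ ⧸ (powMonoidHom q : Lˣ →* Lˣ).range) =
      QuotientGroup.mk (Units.mk0 w hw) := by
    rw [← hc]
    exact Quotient.out_eq' c
  rw [QuotientGroup.eq] at h1
  obtain ⟨y, hy⟩ := h1
  have h2 : w = (c.out : Lˣ) * (y : L) ^ q := by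
    have h3 := congrArg (fun u : Lˣ => (u : L)) hy
    simp only [powMonoidHom_apply, Units.val_pow_eq_pow_val, Units.val_mul, Units.val_mk0,
      Units.val_inv_eq_inv_val] at h3
    rw [h3, ← mul_assoc, mul_inv_cancel₀ (Units.ne_zero _), one_mul]
  -- the difference of the logarithms
  have h4 : exp (l - q * log (ψ y)) = exp (log (ψ (c.out : Lˣ))) := by
    rw [hlam, exp_sub, hl, exp_nat_mul, hlam, h2, map_mul, map_pow]
    have : (ψ y) ^ q ≠ 0 := pow_ne_zero _ (by simp)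
    rw [mul_div_assoc, div_self this, mul_one]
  obtain ⟨n, hn⟩ := exp_eq_exp_iff_exists_int.1 h4
  have hq' : (0 : ℤ) < q := by exact_mod_cast hq
  have hk0 : 0 ≤ n % q := Int.emod_nonneg _ hq'.ne'
  have hk1 : n % q < q := Int.emod_lt_of_pos _ hq'
  refine ⟨(c, ⟨(n % q).toNat, by omega⟩), ?_⟩
  have h5 : (((n % q).toNat : ℕ) : ℂ) = ((n : ℂ) - q * ((n / q : ℤ) : ℂ)) := by
    have h6 : (((n % q).toNat : ℕ) : ℤ) = n - q * (n / q) := by
      rw [Int.toNat_of_nonneg hk0, Int.emod_def]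
    exact_mod_cast h6
  change cls ψ q (c.out : Lˣ) (log (ψ (c.out : Lˣ)) + (((n % q).toNat : ℕ) : ℂ) * (2 * Real.pi * I)) =
    cls ψ q w l
  rw [h5, eq_comm]
  have h7 : exp (log (ψ (c.out : Lˣ)) + ((n : ℂ) - q * ((n / q : ℤ) : ℂ)) * (2 * Real.pi * I)) =
      ψ (c.out : Lˣ) := by
    rw [exp_add, hlam]
    have h8 : exp (((n : ℂ) - q * ((n / q : ℤ) : ℂ)) * (2 * Real.pi * I)) = 1 := by
      rw [exp_eq_one_iff]
      exact ⟨n - q * (n / q), by push_cast; ring⟩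
    rw [h8, mul_one]
  rw [cls_eq_iff hl h7]
  refine ⟨y, log (ψ y) + ((n / q : ℤ) : ℂ) * (2 * Real.pi * I), ?_, h2, ?_⟩
  · rw [exp_add, hlam, exp_int_mul_two_pi_mul_I, mul_one]
  · linear_combination hn

theorem log_bd {z : ℂ} {q : ℕ} (h5 : 5 ≤ q) (hz : ‖z‖ < 1 / (q : ℝ)) :
    ‖log (1 + z)‖ ≤ 9 / 8 * ‖z‖ := by
  have hq : (5 : ℝ) ≤ q := by exact_mod_cast h5
  have h1 : ‖z‖ < 1 / 5 := hz.trans_le (by
    apply one_div_le_one_div_of_le <;> linarith)
  have h2 := norm_log_one_add_le (z := z) (by linarith)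
  have h3 : (1 - ‖z‖)⁻¹ ≤ 5 / 4 := by
    rw [inv_le_comm₀ (by linarith) (by norm_num)]
    linarith
  have h0 := norm_nonneg z
  have h4 : ‖z‖ ^ 2 * (1 - ‖z‖)⁻¹ / 2 ≤ 1 / 8 * ‖z‖ := by
    have h6 : ‖z‖ ^ 2 * (1 - ‖z‖)⁻¹ ≤ ‖z‖ ^ 2 * (5 / 4) :=
      mul_le_mul_of_nonneg_left h3 (by positivity)
    nlinarith
  linarith

theorem re_pos {z : ℂ} {r : ℝ} (hr : r ≤ 1) (h : ‖z - 1‖ < r) : 0 < z.re := by
  have h1 := abs_re_le_norm (z - 1)
  rw [sub_re, one_re, abs_le] at h1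
  linarith

theorem log_mul' {a b : ℂ} (ha : 0 < a.re) (hb : 0 < b.re) : log (a * b) = log a + log b := by
  have ha0 : a ≠ 0 := by
    rintro rfl
    simp at ha
  have hb0 : b ≠ 0 := by
    rintro rfl
    simp at hb
  rw [log_mul_eq_add_log_iff ha0 hb0]
  have h1 := abs_lt.1 (abs_arg_lt_pi_div_two_iff.2 (Or.inl ha))
  have h2 := abs_lt.1 (abs_arg_lt_pi_div_two_iff.2 (Or.inl hb))
  exact ⟨by linarith [h1.1, h2.1], by linarith [h1.2, h2.2]⟩

/-- The root of unity. -/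
noncomputable def zet (q : ℕ) : ℂ := exp (2 * Real.pi * I / q)

theorem zet_norm (q : ℕ) : ‖zet q‖ = 1 := by
  unfold zet
  rw [norm_exp]
  have : (2 * (Real.pi : ℂ) * I / q).re = 0 := by
    have h1 : (2 * (Real.pi : ℂ) * I / q) = ((2 * Real.pi / q : ℝ) : ℂ) * I := by
      push_cast
      ring
    rw [h1]
    simp
  rw [this, Real.exp_zero]

theorem zet_pow {q : ℕ} (hq : q ≠ 0) : zet q ^ q = 1 := by
  unfold zet
  rw [← exp_nat_mul, mul_div_cancel₀ _ (by exact_mod_cast hq)]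
  exact exp_two_pi_mul_I

theorem zet_ne (q : ℕ) : zet q ≠ 0 := exp_ne_zero _

theorem div_zet {q : ℕ} {z : ℂ} {r : ℝ} (h : ‖z - zet q‖ < r) : ‖z / zet q - 1‖ < r := by
  have h1 : z / zet q - 1 = (z - zet q) / zet q := by
    rw [sub_div, div_self (zet_ne q)]
  rw [h1, norm_div, zet_norm, div_one]
  exact h

theorem exp_D {ψ : L →+* ℂ} {q : ℕ} {w : L} (hw : w ≠ 0) :
    exp (2 * Real.pi * I / q + log (ψ w / zet q)) = ψ w := by
  have h1 : ψ w ≠ 0 := by simpa using hw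
  rw [exp_add, exp_log (div_ne_zero h1 (zet_ne q))]
  change zet q * _ = _
  field_simp [zet_ne q]

theorem ne_of_norm {ψ : L →+* ℂ} {q : ℕ} {w : L} {r : ℝ} (hr : r ≤ 1)
    (h : ‖ψ w - zet q‖ < r) : w ≠ 0 := by
  rintro rfl
  rw [map_zero, zero_sub, norm_neg, zet_norm] at h
  linarith

theorem one_add_ne {ψ : L →+* ℂ} {t : L} {r : ℝ} (hr : r ≤ 1) (h : ‖ψ t‖ < r) : 1 + t ≠ 0 := by
  intro h1
  have h2 : t = -1 := by linear_combination h1
  rw [h2, map_neg, map_one, norm_neg, norm_one] at h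
  linarith

theorem exp_h {ψ : L →+* ℂ} {t : L} (h : 1 + t ≠ 0) : exp (log (1 + ψ t)) = ψ (1 + t) := by
  rw [map_add, map_one, exp_log]
  have h1 : ψ (1 + t) ≠ 0 := fun h2 => h ((map_eq_zero ψ).1 h2)
  rwa [map_add, map_one] at h1

end HATM

open HATM Complex Finset in
theorem specHAT : SpecHAT := by
  intro L _ φ ψ q hqp h5 hfin
  have hq0 : q ≠ 0 := hqp.ne_zero
  have hqR : (5 : ℝ) ≤ q := by exact_mod_cast h5
  have hqpos : (0 : ℝ) < q := by linarith
  have hqC : (q : ℂ) ≠ 0 := by exact_mod_cast hq0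
  have hr5 : 1 / (q : ℝ) ≤ 1 / 5 := by
    apply one_div_le_one_div_of_le <;> linarith
  have hr1 : 1 / (q : ℝ) ≤ 1 := by linarith
  have hodd : Odd q := hqp.odd_of_ne_two (by omega)
  have htau : exp (2 * Real.pi * I) = ψ 1 := by
    rw [map_one]
    exact exp_two_pi_mul_I
  refine ⟨AA ψ q, inferInstance, finite_A ψ q (by omega) hfin, zet q,
    fun t => cls ψ q (1 + t) (log (1 + ψ t)),
    fun w => cls ψ q w (2 * Real.pi * I / q + log (ψ w / zet q)),
    cls ψ q 1 (2 * Real.pi * I), ?_, ?_⟩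
  · refine ⟨h5, by positivity, hr5, zet_norm q, zet_pow hq0, tor, ?_, ?_, ?_, ?_⟩
    · intro s t hs ht
      have h1 : 1 + (s + t + s * t) = (1 + s) * (1 + t) := by ring
      have h2 : 1 + ψ (s + t + s * t) = (1 + ψ s) * (1 + ψ t) := by
        rw [map_add, map_add, map_mul]
        ring
      change cls ψ q (1 + (s + t + s * t)) (log (1 + ψ (s + t + s * t))) = _
      rw [h1, h2, log_mul' (re_pos hr1 (by simpa using hs)) (re_pos hr1 (by simpa using ht)),
        cls_mul (exp_h (one_add_ne hr1 hs)) (exp_h (one_add_ne hr1 ht))]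
    · intro w t hw ht
      have h1 : ψ (w * (1 + t)) / zet q = (ψ w / zet q) * (1 + ψ t) := by
        rw [map_mul, map_add, map_one]
        ring
      change cls ψ q (w * (1 + t)) (2 * Real.pi * I / q + log (ψ (w * (1 + t)) / zet q)) = _
      rw [h1, log_mul' (re_pos hr1 (div_zet hw)) (re_pos hr1 (by simpa using ht)), ← add_assoc,
        cls_mul (exp_D (ne_of_norm hr1 hw)) (exp_h (one_add_ne hr1 ht))]
    · intro w hw hprod
      have h1 := cls_prod (ψ := ψ) (q := q) q w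
        (fun i => 2 * Real.pi * I / q + log (ψ (w i) / zet q))
        (fun i hi => exp_D (ne_of_norm hr1 (hw i hi)))
      change ∑ i ∈ range q, cls ψ q (w i) (2 * Real.pi * I / q + log (ψ (w i) / zet q)) = _
      rw [h1.1, hprod, Finset.sum_add_distrib, Finset.sum_const, Finset.card_range, nsmul_eq_mul,
        mul_div_cancel₀ _ hqC]
      have h2 := h1.2
      rw [hprod, Finset.sum_add_distrib, Finset.sum_const, Finset.card_range, nsmul_eq_mul,
        mul_div_cancel₀ _ hqC, map_one, exp_add, exp_two_pi_mul_I, one_mul] at h2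
      obtain ⟨n, hn⟩ := exp_eq_one_iff.1 h2
      have h3 : ‖∑ i ∈ range q, log (ψ (w i) / zet q)‖ ≤ 9 / 8 := by
        calc _ ≤ ∑ i ∈ range q, ‖log (ψ (w i) / zet q)‖ := norm_sum_le _ _
          _ ≤ ∑ i ∈ range q, 9 / 8 * (1 / (q : ℝ)) := by
              refine Finset.sum_le_sum fun i hi => ?_
              have h4 := div_zet (hw i (Finset.mem_range.1 hi))
              have h5' := log_bd h5 h4
              rw [add_sub_cancel] at h5'
              linarith
          _ = 9 / 8 := by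
              rw [Finset.sum_const, Finset.card_range, nsmul_eq_mul]
              field_simp
      have hn0 : n = 0 := by
        by_contra hne
        have h6 : (1 : ℝ) ≤ |(n : ℝ)| := by
          have : (1 : ℤ) ≤ |n| := Int.one_le_abs hne
          exact_mod_cast this
        rw [hn, norm_mul, norm_intCast, norm_mul, norm_mul, norm_I, Complex.norm_real,
          Real.norm_eq_abs, abs_of_pos Real.pi_pos, mul_one, Complex.norm_ofNat] at h3
        nlinarith [Real.pi_gt_three]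
      rw [hn, hn0, Int.cast_zero, zero_mul, add_zero]
    · rw [← cls_one ψ q]
      intro h1
      obtain ⟨y, m, hm, hy, h2⟩ := (cls_eq_iff htau (by simp)).1 h1
      have hy1 : y = 1 := by
        have h3 : φ y ^ q = 1 := by
          rw [← map_pow, ← one_mul (y ^ q), ← hy, map_one]
        have h4 : φ y = 1 := by
          have h6 : φ y ^ q = 1 ^ q := by rw [h3, one_pow]
          exact hodd.strictMono_pow.injective h6
        rw [← map_one φ] at h4
        exact φ.injective h4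
      rw [hy1, map_one, exp_eq_one_iff] at hm
      obtain ⟨n, hn⟩ := hm
      rw [hn, zero_add] at h2
      have h7 : (2 * (Real.pi : ℂ) * I) ≠ 0 := two_pi_I_ne_zero
      have h8 : ((q : ℂ) * n) = 1 := by
        apply mul_right_cancel₀ h7
        linear_combination -h2
      have h9 : (q : ℤ) * n = 1 := by exact_mod_cast h8
      have h10 := Int.eq_one_or_neg_one_of_mul_eq_one h9
      omega
  · intro a
    obtain ⟨w, l, hl, rfl⟩ := cls_surj a
    refine ⟨w, exp (l / q), exp_ne_zero _, fun t ht => ?_⟩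
    have ht1 := one_add_ne hr1 ht
    constructor
    · intro h1
      obtain ⟨y, m, hm, hy, h2⟩ := (cls_eq_iff (exp_h ht1) hl).1 h1
      refine ⟨y, hy.symm, ?_⟩
      rw [← hm, ← exp_add]
      have h3 : l / q + m = log (1 + ψ t) / q := by
        rw [h2]
        field_simp
      rw [h3]
      have h4 := log_bd h5 ht
      have h6 : ‖log (1 + ψ t) / q‖ ≤ 9 / 8 * ‖ψ t‖ / q := by
        rw [norm_div, Complex.norm_natCast]
        gcongr
      have h7 : 9 / 8 * ‖ψ t‖ / q < 1 / (4 * q) := by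
        rw [div_lt_div_iff₀ hqpos (by positivity)]
        nlinarith
      have h8 : 1 / (4 * (q : ℝ)) ≤ 1 := by
        rw [div_le_one (by positivity)]
        linarith
      have h9 := norm_exp_sub_one_le (x := log (1 + ψ t) / q) (by linarith)
      have h10 : 2 * (1 / (4 * (q : ℝ))) = 1 / (2 * q) := by
        field_simp
        norm_num
      linarith
    · intro y hy h1
      have h2 : exp (l / q) * ψ y ≠ 0 := by
        intro h3
        rw [h3, zero_sub, norm_neg, norm_one] at h1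
        linarith
      have h3 : ‖log (exp (l / q) * ψ y)‖ ≤ 9 / 8 * (1 / (q : ℝ)) := by
        have h4 := log_bd h5 h1
        rw [add_sub_cancel] at h4
        linarith
      have h4 : exp (q * log (exp (l / q) * ψ y)) = 1 + ψ t := by
        rw [exp_nat_mul, exp_log h2, mul_pow, ← exp_nat_mul, mul_div_cancel₀ _ hqC, hl,
          ← map_pow, ← map_mul, hy, map_add, map_one]
      have h6 : |(q * log (exp (l / q) * ψ y)).im| ≤ 9 / 8 := by
        refine (abs_im_le_norm _).trans ?_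
        rw [norm_mul, Complex.norm_natCast]
        calc (q : ℝ) * ‖log (exp (l / q) * ψ y)‖ ≤ q * (9 / 8 * (1 / (q : ℝ))) := by gcongr
          _ = 9 / 8 := by field_simp
      have h7 : log (1 + ψ t) = q * log (exp (l / q) * ψ y) := by
        rw [← h4]
        have h8 := abs_le.1 h6
        exact log_exp (by linarith [h8.1, Real.pi_gt_three]) (by linarith [h8.2, Real.pi_gt_three])
      refine (cls_eq_iff (exp_h ht1) hl).2 ⟨y, log (exp (l / q) * ψ y) - l / q, ?_, hy.symm, ?_⟩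
      · rw [exp_sub, exp_log h2]
        field_simp [exp_ne_zero]
      · rw [h7]
        field_simp
        ring

end Pool.Agent.Lib.MP_556c5c_lc
end

section
/-!
# MUB: first properties of the volume
-/
namespace Pool.Agent.Lib.MP_556c5c_lc

open Finset

namespace MUBM

variable {L : Type} [Field L] {φ : L →+* ℝ} {ψ : L →+* ℂ} {μ : Set L → ℝ}

theorem bdb (φ : L →+* ℝ) (ψ : L →+* ℂ) (T U : ℝ) : Bd φ ψ (Bx φ ψ T U) :=
  ⟨max T U, fun _ hx => ⟨hx.1.trans_le (le_max_left _ _), hx.2.trans_le (le_max_right _ _)⟩⟩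

theorem bds {S T : Set L} (hT : Bd φ ψ T) (hST : S ⊆ T) : Bd φ ψ S := by
  obtain ⟨R, hR⟩ := hT
  exact ⟨R, hST.trans hR⟩

theorem bdu {S T : Set L} (hS : Bd φ ψ S) (hT : Bd φ ψ T) : Bd φ ψ (S ∪ T) := by
  obtain ⟨R, hR⟩ := hS
  obtain ⟨R', hR'⟩ := hT
  refine ⟨max R R', ?_⟩
  rintro x (hx | hx)
  · exact ⟨(hR hx).1.trans_le (le_max_left _ _), (hR hx).2.trans_le (le_max_left _ _)⟩
  · exact ⟨(hR' hx).1.trans_le (le_max_right _ _), (hR' hx).2.trans_le (le_max_right _ _)⟩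

theorem bda {S : Set L} (hS : Bd φ ψ S) (c g : L) : Bd φ ψ ((fun x => c * x + g) '' S) := by
  obtain ⟨R, hR⟩ := hS
  refine ⟨|R| * (|φ c| + ‖ψ c‖) + |φ g| + ‖ψ g‖ + 1, ?_⟩
  rintro y ⟨x, hx, rfl⟩
  have h1 := (hR hx).1
  have h2 := (hR hx).2
  have h3 : |φ x| ≤ |R| := h1.le.trans (le_abs_self R)
  have h4 : ‖ψ x‖ ≤ |R| := h2.le.trans (le_abs_self R)
  have h5 := abs_nonneg R
  have h6 := abs_nonneg (φ c)
  have h7 := norm_nonneg (ψ c)
  have h8 := abs_nonneg (φ g)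
  have h9 := norm_nonneg (ψ g)
  constructor
  · show |φ (c * x + g)| < _
    rw [map_add, map_mul]
    have h10 : |φ c * φ x + φ g| ≤ |φ c| * |φ x| + |φ g| := by
      refine (abs_add_le _ _).trans ?_
      rw [abs_mul]
    have h11 : |φ c| * |φ x| ≤ |φ c| * |R| := mul_le_mul_of_nonneg_left h3 h6
    have h12 : 0 ≤ |R| * ‖ψ c‖ := mul_nonneg h5 h7
    have h13 : |R| * (|φ c| + ‖ψ c‖) = |φ c| * |R| + |R| * ‖ψ c‖ := by ring
    rw [h13]
    linarith
  · show ‖ψ (c * x + g)‖ < _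
    rw [map_add, map_mul]
    have h10 : ‖ψ c * ψ x + ψ g‖ ≤ ‖ψ c‖ * ‖ψ x‖ + ‖ψ g‖ := by
      refine (norm_add_le _ _).trans ?_
      rw [norm_mul]
    have h11 : ‖ψ c‖ * ‖ψ x‖ ≤ ‖ψ c‖ * |R| := mul_le_mul_of_nonneg_left h4 h7
    have h12 : 0 ≤ |R| * |φ c| := mul_nonneg h5 h6
    have h13 : |R| * (|φ c| + ‖ψ c‖) = |R| * |φ c| + ‖ψ c‖ * |R| := by ring
    rw [h13]
    linarith

theorem split (hμ : Vol φ ψ μ) {S T : Set L} (hT : Bd φ ψ T) (hST : S ⊆ T) :
    μ T = μ S + μ (T \ S) := by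
  have h1 := hμ.ad S (T \ S) (bds hT hST) (bds hT Set.sdiff_subset) Set.disjoint_sdiff_right
  rwa [Set.union_sdiff_cancel hST] at h1

theorem mono (hμ : Vol φ ψ μ) {S T : Set L} (hT : Bd φ ψ T) (hST : S ⊆ T) : μ S ≤ μ T := by
  have h1 := split hμ hT hST
  have h2 := hμ.nn (T \ S) (bds hT Set.sdiff_subset)
  linarith

theorem bde : Bd φ ψ (∅ : Set L) := ⟨0, Set.empty_subset _⟩

theorem emp (hμ : Vol φ ψ μ) : μ ∅ = 0 := by
  have h1 := hμ.ad ∅ ∅ bde bde (Set.disjoint_empty _)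
  rw [Set.union_empty] at h1
  linarith

theorem sub (hμ : Vol φ ψ μ) {S T : Set L} (hS : Bd φ ψ S) (hT : Bd φ ψ T) :
    μ (S ∪ T) ≤ μ S + μ T := by
  have h1 := hμ.ad S (T \ S) hS (bds hT Set.sdiff_subset) Set.disjoint_sdiff_right
  rw [Set.union_sdiff_self] at h1
  have h2 := mono hμ hT (Set.sdiff_subset : T \ S ⊆ T)
  linarith

theorem aff (hμ : Vol φ ψ μ) {S : Set L} (hS : Bd φ ψ S) (c g : L) (hc : c ≠ 0) :
    μ ((fun x => c * x + g) '' S) = |φ c| * ‖ψ c‖ ^ 2 * μ S := by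
  have h1 : (fun x => c * x + g) '' S = (fun x => x + g) '' ((fun x => c * x) '' S) := by
    rw [Set.image_image]
  have h2 : Bd φ ψ ((fun x => c * x) '' S) := by
    have h3 := bda hS c 0
    simpa only [add_zero] using h3
  rw [h1, hμ.tr _ h2 g, hμ.sc S hS c hc]

theorem pull (hμ : Vol φ ψ μ) {S Q : Set L} (hS : Bd φ ψ S) (hQ : Bd φ ψ Q) (c g : L)
    (hc : c ≠ 0) (h : ∀ x ∈ S, c * x + g ∈ Q) : |φ c| * ‖ψ c‖ ^ 2 * μ S ≤ μ Q := by
  rw [← aff hμ hS c g hc]
  apply mono hμ hQ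
  rintro y ⟨x, hx, rfl⟩
  exact h x hx

theorem find (hμ : Vol φ ψ μ) (n : ℕ) (B : Fin n → Set L) (S : Set L) (hS : Bd φ ψ S)
    (hB : ∀ k, B k ⊆ S) (h : ∑ k, μ (B k) < μ S) : ∃ x ∈ S, ∀ k, x ∉ B k := by
  classical
  by_contra hcon
  push Not at hcon
  have h1 : ∀ F : Finset (Fin n), μ (⋃ k ∈ F, B k) ≤ ∑ k ∈ F, μ (B k) := by
    intro F
    induction F using Finset.induction_on with
    | empty =>
      have h2 := emp hμ
      simp [h2]
    | insert a F ha ih =>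
      rw [Finset.set_biUnion_insert, Finset.sum_insert ha]
      have h2 := sub hμ (S := B a) (T := ⋃ k ∈ F, B k) (bds hS (hB a))
        (bds hS (Set.iUnion₂_subset fun k _ => hB k))
      linarith
  have h2 : S ⊆ ⋃ k ∈ (Finset.univ : Finset (Fin n)), B k := by
    intro x hx
    obtain ⟨k, hk⟩ := hcon x hx
    exact Set.mem_iUnion₂.2 ⟨k, Finset.mem_univ k, hk⟩
  have h3 := mono hμ (bds hS (Set.iUnion₂_subset fun k _ => hB k)) h2
  have h4 := h1 Finset.univ
  linarith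

theorem boxc (hμ : Vol φ ψ μ) (c : L) (hc : c ≠ 0) :
    μ (Bx φ ψ |φ c| ‖ψ c‖) = |φ c| * ‖ψ c‖ ^ 2 := by
  have h1 := hμ.sc (Bx φ ψ 1 1) (bdb φ ψ 1 1) c hc
  rw [hμ.un, mul_one] at h1
  have h2 : (fun x => c * x) '' (Bx φ ψ 1 1) = Bx φ ψ |φ c| ‖ψ c‖ := by
    have hφc : 0 < |φ c| := abs_pos.2 (by simpa using hc)
    have hψc : 0 < ‖ψ c‖ := norm_pos_iff.2 (by simpa using hc)
    ext y
    constructor
    · rintro ⟨x, hx, rfl⟩
      refine ⟨?_, ?_⟩
      · show |φ (c * x)| < _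
        rw [map_mul, abs_mul]
        have := hx.1
        nlinarith
      · show ‖ψ (c * x)‖ < _
        rw [map_mul, norm_mul]
        have := hx.2
        nlinarith
    · intro hy
      refine ⟨c⁻¹ * y, ⟨?_, ?_⟩, ?_⟩
      · rw [map_mul, map_inv₀, abs_mul, abs_inv]
        have := hy.1
        rw [inv_mul_lt_iff₀ hφc]
        linarith
      · rw [map_mul, map_inv₀, norm_mul, norm_inv]
        have := hy.2
        rw [inv_mul_lt_iff₀ hψc]
        linarith
      · show c * (c⁻¹ * y) = y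
        rw [mul_inv_cancel_left₀ hc]
  rw [← h2, h1]

theorem dens (hd : Dn φ ψ) (a b ε : ℝ) (ha : 0 < a) (hb : 0 < b) (hε : 0 < ε) :
    ∃ c : L, c ≠ 0 ∧ a < |φ c| ∧ |φ c| < a + ε ∧ b < ‖ψ c‖ ∧ ‖ψ c‖ < b + ε := by
  obtain ⟨c, hc1, hc2⟩ := hd (a + ε / 2) ((b + ε / 2 : ℝ) : ℂ) (ε / 2) (by positivity)
  have h1 : |φ c| < a + ε ∧ a < |φ c| := by
    rw [abs_lt] at hc1
    have h2 : a < φ c := by linarith [hc1.1]
    have h3 : |φ c| = φ c := abs_of_pos (by linarith)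
    rw [h3]
    exact ⟨by linarith [hc1.2], h2⟩
  have h2 : ‖((b + ε / 2 : ℝ) : ℂ)‖ = b + ε / 2 := by
    rw [Complex.norm_real, Real.norm_eq_abs, abs_of_pos (by positivity)]
  have h3 : |‖ψ c‖ - ‖((b + ε / 2 : ℝ) : ℂ)‖| ≤ ‖ψ c - ((b + ε / 2 : ℝ) : ℂ)‖ :=
    abs_norm_sub_norm_le _ _
  rw [h2] at h3
  have h4 := h3.trans_lt hc2
  rw [abs_lt] at h4
  refine ⟨c, ?_, h1.2, h1.1, by linarith [h4.1], by linarith [h4.2]⟩
  rintro rfl
  rw [map_zero, abs_zero] at h1
  linarith [h1.2]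

theorem box (hd : Dn φ ψ) (hμ : Vol φ ψ μ) (T U : ℝ) (hT : 0 < T) (hU : 0 < U) :
    μ (Bx φ ψ T U) = T * U ^ 2 := by
  have hmono : ∀ T' U', T ≤ T' → U ≤ U' → μ (Bx φ ψ T U) ≤ μ (Bx φ ψ T' U') := by
    intro T' U' h1 h2
    exact mono hμ (bdb φ ψ T' U') fun x hx => ⟨hx.1.trans_le h1, hx.2.trans_le h2⟩
  have hmono' : ∀ T' U', T' ≤ T → U' ≤ U → μ (Bx φ ψ T' U') ≤ μ (Bx φ ψ T U) := by
    intro T' U' h1 h2
    exact mono hμ (bdb φ ψ T U) fun x hx => ⟨hx.1.trans_le h1, hx.2.trans_le h2⟩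
  apply le_antisymm
  · -- upper bound: `μ ≤ (T + ε) (U + ε)^2`
    have h1 : ∀ ε : ℝ, 0 < ε → μ (Bx φ ψ T U) ≤ (T + ε) * (U + ε) ^ 2 := by
      intro ε hε
      obtain ⟨c, hc, h2, h3, h4, h5⟩ := dens hd T U ε hT hU hε
      have h6 := hmono _ _ h2.le h4.le
      rw [boxc hμ c hc] at h6
      refine h6.trans ?_
      have h7 : ‖ψ c‖ ^ 2 ≤ (U + ε) ^ 2 := pow_le_pow_left₀ (norm_nonneg _) h5.le 2
      exact mul_le_mul h3.le h7 (by positivity) (by positivity)
    have h2 : Filter.Tendsto (fun ε : ℝ => (T + ε) * (U + ε) ^ 2) (nhdsWithin 0 (Set.Ioi 0))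
        (nhds (T * U ^ 2)) := by
      have h3 : Continuous (fun ε : ℝ => (T + ε) * (U + ε) ^ 2) := by fun_prop
      have h4 := h3.tendsto 0
      simp only [add_zero] at h4
      exact h4.mono_left nhdsWithin_le_nhds
    refine ge_of_tendsto h2 ?_
    filter_upwards [self_mem_nhdsWithin] with ε hε
    exact h1 ε hε
  · have h1 : ∀ ε : ℝ, 0 < ε → ε < T → ε < U → (T - ε) * (U - ε) ^ 2 ≤ μ (Bx φ ψ T U) := by
      intro ε hε hεT hεU
      obtain ⟨c, hc, h2, h3, h4, h5⟩ := dens hd (T - ε) (U - ε) ε (by linarith) (by linarith) hε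
      have h6 := hmono' |φ c| ‖ψ c‖ (by linarith) (by linarith)
      rw [boxc hμ c hc] at h6
      refine le_trans ?_ h6
      have h7 : (U - ε) ^ 2 ≤ ‖ψ c‖ ^ 2 := pow_le_pow_left₀ (by linarith) h4.le 2
      exact mul_le_mul h2.le h7 (by positivity) (by positivity)
    have h2 : Filter.Tendsto (fun ε : ℝ => (T - ε) * (U - ε) ^ 2) (nhdsWithin 0 (Set.Ioi 0))
        (nhds (T * U ^ 2)) := by
      have h3 : Continuous (fun ε : ℝ => (T - ε) * (U - ε) ^ 2) := by fun_prop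
      have h4 := h3.tendsto 0
      simp only [sub_zero] at h4
      exact h4.mono_left nhdsWithin_le_nhds
    refine le_of_tendsto h2 ?_
    have h3 : Set.Ioo (0 : ℝ) (min T U) ∈ nhdsWithin (0 : ℝ) (Set.Ioi 0) :=
      Ioo_mem_nhdsGT (lt_min hT hU)
    filter_upwards [h3] with ε hε
    exact h1 ε hε.1 (hε.2.trans_le (min_le_left _ _)) (hε.2.trans_le (min_le_right _ _))

end MUBM

theorem specMUB : SpecMUB where
  bdb := fun _ _ φ ψ T U => MUBM.bdb φ ψ T U
  bds := fun _ _ _ _ _ _ hT hST => MUBM.bds hT hST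
  bda := fun _ _ _ _ _ c g hS => MUBM.bda hS c g
  mono := fun _ _ _ _ _ hμ _ _ hT hST => MUBM.mono hμ hT hST
  emp := fun _ _ _ _ _ hμ => MUBM.emp hμ
  sub := fun _ _ _ _ _ hμ _ _ hS hT => MUBM.sub hμ hS hT
  box := fun _ _ _ _ _ hd hμ T U hT hU => MUBM.box hd hμ T U hT hU
  aff := fun _ _ _ _ _ hμ _ hS c g hc => MUBM.aff hμ hS c g hc
  pull := fun _ _ _ _ _ hμ _ _ hS hQ c g hc h => MUBM.pull hμ hS hQ c g hc h
  find := fun _ _ _ _ _ hμ n B S hS hB h => MUBM.find hμ n B S hS hB h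

end Pool.Agent.Lib.MP_556c5c_lc
end

section
/-!
# NIQ: no ict pattern implies no independence property
-/
set_option autoImplicit false

namespace Pool.Agent.Lib.MP_556c5c_lc

open Finset

theorem specNIQ : SpecNIQ := by
  intro K _ _ _ hN
  rintro ⟨n, φ, hφ, h⟩
  refine hN ⟨n, fun _ => φ, fun _ => hφ, fun N => ?_⟩
  obtain ⟨b, hb⟩ := h (N * N)
  refine ⟨fun i j => b (i * N + j), fun η hη => ?_⟩
  obtain ⟨a, ha⟩ := hb {m | ∃ i < N, m = i * N + η i}
  refine ⟨a, fun i hi j hj => ?_⟩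
  have h1 : i * N + j < N * N := by nlinarith
  have h2 := ha (i * N + j) h1
  refine h2.trans ?_
  constructor
  · rintro ⟨i', hi', he⟩
    have hη' := hη i' hi'
    have hN0 : 0 < N := by omega
    have e1 : (i * N + j) / N = i := by
      rw [Nat.add_comm, Nat.add_mul_div_right _ _ hN0, Nat.div_eq_of_lt hj, Nat.zero_add]
    have e2 : (i' * N + η i') / N = i' := by
      rw [Nat.add_comm, Nat.add_mul_div_right _ _ hN0, Nat.div_eq_of_lt hη', Nat.zero_add]
    have e3 : i = i' := by rw [← e1, he, e2]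
    subst e3
    omega
  · intro he
    exact ⟨i, hi, by rw [he]⟩

end Pool.Agent.Lib.MP_556c5c_lc
end
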