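import Pool.Agent.Lib.MP_556c5c_lc.Spec
import Pool.Agent.Lib.MP_556c5c_lc.NIQ
import Pool.Agent.Lib.MP_556c5c_lc.HDG

section
/-!
# MP_556c5c_lc, module POL (polygon lemma)
-/
set_option autoImplicit false

namespace Pool.Agent.Lib.MP_556c5c_lc

open Finset

namespace POLM

theorem tele {L : Type} [Field L] (f : ℕ → L) (hf : ∀ i, f i ≠ 0) (n : ℕ) :
    ∏ i ∈ range n, f (i + 1) / f i = f n / f 0 := by
  induction n with
  | zero => simp [div_self (hf 0)]
  | succ n ih =>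
    rw [prod_range_succ, ih]
    field_simp [hf n, hf 0]

section

variable {K : Type} [NormedField K]

theorem bnd {z z' ζ A A' C b : K} {η : ℝ} (hz : ‖z‖ = 1) (hz' : ‖z'‖ = 1) (hζ : ‖ζ‖ = 1)
    (hzz : z' * z = 1) (h1 : ‖A - z‖ ≤ η) (h2 : ‖A' - z * ζ‖ ≤ η) (h3 : ‖C - z'‖ ≤ η)
    (h4 : ‖b - (ζ - 1)‖ ≤ η) (hη : η ≤ 1) :
    ‖C * (A' - A) - b‖ ≤ 7 * η ∧ ‖C * A - 1‖ ≤ 3 * η ∧ 1 - η ≤ ‖C‖ ∧ ‖C‖ ≤ 1 + η := by
  have h0 : 0 ≤ η := (norm_nonneg _).trans h1
  have hA : ‖A‖ ≤ 1 + η := by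
    calc ‖A‖ = ‖z + (A - z)‖ := by congr 1; ring
      _ ≤ ‖z‖ + ‖A - z‖ := norm_add_le _ _
      _ ≤ 1 + η := by rw [hz]; linarith
  have hAA : ‖A' - A‖ ≤ 2 + 2 * η := by
    have e : A' - A = (A' - z * ζ) + z * ζ - z - (A - z) := by ring
    calc ‖A' - A‖ = ‖(A' - z * ζ) + z * ζ - z - (A - z)‖ := by rw [← e]
      _ ≤ ‖(A' - z * ζ) + z * ζ - z‖ + ‖A - z‖ := norm_sub_le _ _
      _ ≤ ‖(A' - z * ζ) + z * ζ‖ + ‖z‖ + ‖A - z‖ := by
          gcongr
          exact norm_sub_le _ _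
      _ ≤ ‖A' - z * ζ‖ + ‖z * ζ‖ + ‖z‖ + ‖A - z‖ := by
          gcongr
          exact norm_add_le _ _
      _ ≤ 2 + 2 * η := by rw [norm_mul, hz, hζ]; linarith
  refine ⟨?_, ?_, ?_, ?_⟩
  · have e : C * (A' - A) - b = (C - z') * (A' - A) + z' * (A' - z * ζ) - z' * (A - z)
        - (b - (ζ - 1)) := by
      linear_combination (ζ - 1) * hzz
    rw [e]
    calc ‖(C - z') * (A' - A) + z' * (A' - z * ζ) - z' * (A - z) - (b - (ζ - 1))‖
        ≤ ‖(C - z') * (A' - A) + z' * (A' - z * ζ) - z' * (A - z)‖ + ‖b - (ζ - 1)‖ :=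
          norm_sub_le _ _
      _ ≤ ‖(C - z') * (A' - A) + z' * (A' - z * ζ)‖ + ‖z' * (A - z)‖ + ‖b - (ζ - 1)‖ := by
          gcongr
          exact norm_sub_le _ _
      _ ≤ ‖(C - z') * (A' - A)‖ + ‖z' * (A' - z * ζ)‖ + ‖z' * (A - z)‖ + ‖b - (ζ - 1)‖ := by
          gcongr
          exact norm_add_le _ _
      _ = ‖C - z'‖ * ‖A' - A‖ + ‖A' - z * ζ‖ + ‖A - z‖ + ‖b - (ζ - 1)‖ := by
          rw [norm_mul, norm_mul, norm_mul, hz', one_mul, one_mul]
      _ ≤ η * (2 + 2 * η) + η + η + η := by gcongr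
      _ ≤ 7 * η := by nlinarith
  · have e : C * A - 1 = (C - z') * A + z' * (A - z) := by linear_combination hzz
    rw [e]
    calc ‖(C - z') * A + z' * (A - z)‖ ≤ ‖(C - z') * A‖ + ‖z' * (A - z)‖ := norm_add_le _ _
      _ = ‖C - z'‖ * ‖A‖ + ‖A - z‖ := by rw [norm_mul, norm_mul, hz', one_mul]
      _ ≤ η * (1 + η) + η := by gcongr
      _ ≤ 3 * η := by nlinarith
  · have : ‖z'‖ ≤ ‖C‖ + ‖C - z'‖ := by
      calc ‖z'‖ = ‖C - (C - z')‖ := by congr 1; ring
        _ ≤ ‖C‖ + ‖C - z'‖ := norm_sub_le _ _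
    rw [hz'] at this
    linarith
  · calc ‖C‖ = ‖z' + (C - z')‖ := by congr 1; ring
      _ ≤ ‖z'‖ + ‖C - z'‖ := norm_add_le _ _
      _ ≤ 1 + η := by rw [hz']; linarith

/-- The point `C x + (C A - 1)` is in the box of radius `δ`. -/
theorem inbox {A C x : K} {η δ θ : ℝ} (hC : ‖C‖ ≤ 1 + η) (hA : ‖C * A - 1‖ ≤ 3 * η)
    (hx : ‖x‖ < δ * (1 - θ)) (hδ1 : δ ≤ 1) (hη : 80 * η ≤ θ * δ) (h0 : 0 < η)
    (hδ : 0 < δ) (hθ0 : 0 < θ) : ‖C * x + (C * A - 1)‖ < δ := by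
  calc ‖C * x + (C * A - 1)‖ ≤ ‖C * x‖ + ‖C * A - 1‖ := norm_add_le _ _
    _ = ‖C‖ * ‖x‖ + ‖C * A - 1‖ := by rw [norm_mul]
    _ ≤ (1 + η) * (δ * (1 - θ)) + 3 * η := by
        gcongr
    _ < δ := by nlinarith [mul_pos h0 hδ, mul_pos (mul_pos h0 hδ) hθ0]

/-- `(x + A') / (x + A)` is near `ζ`. -/
theorem nearw {z ζ A A' x : K} {η δ r : ℝ} (hz : ‖z‖ = 1) (hζ : ‖ζ‖ = 1)
    (h1 : ‖A - z‖ ≤ η) (h2 : ‖A' - z * ζ‖ ≤ η) (hx : ‖x‖ < δ) (hη : 80 * η ≤ δ)
    (hδ : δ ≤ r / 100) (hr : r ≤ 1 / 5) (h0 : 0 < η) :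
    1 / 2 ≤ ‖x + A‖ ∧ ‖(x + A') / (x + A) - ζ‖ < r := by
  have hδ0 : 0 < δ := by linarith
  have hlow : 1 - η - δ ≤ ‖x + A‖ := by
    have : ‖z‖ ≤ ‖x + A‖ + ‖A - z‖ + ‖x‖ := by
      calc ‖z‖ = ‖(x + A) - (A - z) - x‖ := by congr 1; ring
        _ ≤ ‖(x + A) - (A - z)‖ + ‖x‖ := norm_sub_le _ _
        _ ≤ ‖x + A‖ + ‖A - z‖ + ‖x‖ := by
            gcongr
            exact norm_sub_le _ _
    rw [hz] at this
    linarith
  have hpos : 1 / 2 ≤ ‖x + A‖ := by linarith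
  refine ⟨hpos, ?_⟩
  have hne : x + A ≠ 0 := by
    intro hh
    rw [hh, norm_zero] at hpos
    linarith
  have e : (x + A') / (x + A) - ζ = ((A' - z * ζ) - ζ * (A - z) + (x - ζ * x)) / (x + A) := by
    field_simp
    ring
  rw [e, norm_div, div_lt_iff₀ (by linarith)]
  have hnum : ‖(A' - z * ζ) - ζ * (A - z) + (x - ζ * x)‖ ≤ 2 * η + 2 * δ := by
    calc ‖(A' - z * ζ) - ζ * (A - z) + (x - ζ * x)‖
        ≤ ‖(A' - z * ζ) - ζ * (A - z)‖ + ‖x - ζ * x‖ := norm_add_le _ _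
      _ ≤ (‖A' - z * ζ‖ + ‖ζ * (A - z)‖) + (‖x‖ + ‖ζ * x‖) := by
          gcongr
          · exact norm_sub_le _ _
          · exact norm_sub_le _ _
      _ = (‖A' - z * ζ‖ + ‖A - z‖) + (‖x‖ + ‖x‖) := by rw [norm_mul, norm_mul, hζ]; ring
      _ ≤ 2 * η + 2 * δ := by linarith
  nlinarith

/-- `1 + b / X` is near `ζ`. -/
theorem nearb {ζ b X : K} {η δ r : ℝ} (hζ : ‖ζ‖ = 1) (hb : ‖b - (ζ - 1)‖ ≤ η)
    (hX : ‖X - 1‖ < δ) (hη : 80 * η ≤ δ) (hδ : δ ≤ r / 100) (hr : r ≤ 1 / 5) (h0 : 0 < η) :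
    ‖1 + b / X - ζ‖ < r := by
  have hδ0 : 0 < δ := by linarith
  have hlow : 1 - δ ≤ ‖X‖ := by
    have : ‖(1 : K)‖ ≤ ‖X‖ + ‖X - 1‖ := by
      calc ‖(1 : K)‖ = ‖X - (X - 1)‖ := by congr 1; ring
        _ ≤ ‖X‖ + ‖X - 1‖ := norm_sub_le _ _
    rw [norm_one] at this
    linarith
  have hpos : 1 / 2 ≤ ‖X‖ := by linarith
  have hne : X ≠ 0 := by
    intro hh
    rw [hh, norm_zero] at hpos
    linarith
  have e : 1 + b / X - ζ = ((X - 1) - ζ * (X - 1) + (b - (ζ - 1))) / X := by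
    field_simp
    ring
  rw [e, norm_div, div_lt_iff₀ (by linarith)]
  have hnum : ‖(X - 1) - ζ * (X - 1) + (b - (ζ - 1))‖ ≤ 2 * δ + η := by
    calc ‖(X - 1) - ζ * (X - 1) + (b - (ζ - 1))‖
        ≤ ‖(X - 1) - ζ * (X - 1)‖ + ‖b - (ζ - 1)‖ := norm_add_le _ _
      _ ≤ (‖X - 1‖ + ‖ζ * (X - 1)‖) + ‖b - (ζ - 1)‖ := by
          gcongr
          exact norm_sub_le _ _
      _ = (‖X - 1‖ + ‖X - 1‖) + ‖b - (ζ - 1)‖ := by rw [norm_mul, hζ]; ring
      _ ≤ 2 * δ + η := by linarith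
  nlinarith

end

/-- The numerical step: volumes of the bad sets. -/
theorem num1 {η ε Q m M D3 : ℝ} (hη0 : 0 < η) (hη : 6 * η ≤ Q * ε) (hη1 : η ≤ 1 / 8)
    (hQ : 0 < Q) (hM : m * M ≤ (1 / Q - ε) * D3) (hm : (1 - η) ^ 3 ≤ m) (hM0 : 0 ≤ M)
    (hD : 0 ≤ D3) (hε : 0 < ε) : M ≤ (1 / Q - ε / 2) * D3 := by
  have h1 : 1 - 3 * η ≤ (1 - η) ^ 3 := by nlinarith [sq_nonneg η]
  have h2 : 0 < 1 - 3 * η := by linarith
  have h3 : (1 - 3 * η) * M ≤ (1 / Q - ε) * D3 := by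
    calc (1 - 3 * η) * M ≤ m * M := by
          apply mul_le_mul_of_nonneg_right _ hM0
          linarith
      _ ≤ _ := hM
  have h4 : 1 / Q - ε ≤ (1 - 3 * η) * (1 / Q - ε / 2) := by
    have h5 : 3 * η * (1 / Q) ≤ ε / 2 := by
      rw [mul_one_div, div_le_iff₀ hQ]
      linarith
    nlinarith
  have h6 : (1 - 3 * η) * M ≤ (1 - 3 * η) * ((1 / Q - ε / 2) * D3) := by
    calc (1 - 3 * η) * M ≤ (1 / Q - ε) * D3 := h3
      _ ≤ ((1 - 3 * η) * (1 / Q - ε / 2)) * D3 := mul_le_mul_of_nonneg_right h4 hD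
      _ = _ := by ring
  exact le_of_mul_le_mul_left h6 h2

theorem num2 {η m M B : ℝ} (hη1 : η ≤ 1 / 8) (hη0 : 0 < η) (hm : (1 - η) ^ 3 ≤ m)
    (hM : m * M ≤ B) (hM0 : 0 ≤ M) : M ≤ 2 * B := by
  have h1 : 1 - 3 * η ≤ (1 - η) ^ 3 := by nlinarith [sq_nonneg η]
  have h2 : 1 / 2 ≤ m := by linarith
  nlinarith

end POLM

open POLM in
theorem specPOL (hSSC : SpecSSC) (hMUB : SpecMUB) : SpecPOL := by
  intro L _ φ ψ A _ q ζ r h D τ N μ hC
  -- reduction to `ε ≤ 1 / q`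
  have hq5 : (5 : ℝ) ≤ q := by exact_mod_cast hC.cl.q5
  have hq0 : (0 : ℝ) < q := by linarith
  suffices key : ∀ ε δ : ℝ, 0 < ε → ε ≤ 1 / (q : ℝ) → 0 < δ → δ ≤ r / 100 → ∃ η : ℝ, 0 < η ∧
      ∀ b : L, |φ b| < η → ‖ψ b - (ζ - 1)‖ < η → ∀ α : A,
      μ {x ∈ Bx φ ψ δ δ | D (1 + b / (1 + x)) = α} ≤ (1 - 1 / (q : ℝ) + ε) * δ ^ 3 by
    intro ε δ hε hδ hδr
    obtain ⟨η, hη, H⟩ := key (min ε (1 / (q : ℝ))) δ (lt_min hε (by positivity))
      (min_le_right _ _) hδ hδr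
    refine ⟨η, hη, fun b hb1 hb2 α => (H b hb1 hb2 α).trans ?_⟩
    gcongr
    exact min_le_left _ _
  intro ε δ hε hεq hδ hδr
  have hr0 := hC.cl.r0
  have hr5 := hC.cl.r5
  have hqε : (q : ℝ) * ε ≤ 1 := by
    rw [le_div_iff₀ hq0] at hεq
    linarith
  have hqε0 : 0 < (q : ℝ) * ε := by positivity
  set θ : ℝ := q * ε / 16 with hθ
  have hθ0 : 0 < θ := by positivity
  have hθ1 : θ ≤ 1 / 16 := by rw [hθ]; linarith
  obtain ⟨η₁, hη₁, H1⟩ := hSSC L φ ψ A q ζ r h D τ N μ hC δ 4 (ε / (32 * q)) (r / 2) hδ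
    (by norm_num) (by positivity) (by linarith) (by linarith)
  -- the constant
  obtain ⟨η, hη0, hηa, hηb, hηc⟩ : ∃ η : ℝ, 0 < η ∧ 20 * η ≤ η₁ ∧ 80 * η ≤ θ * δ ∧
      6 * η ≤ q * ε := by
    refine ⟨min (η₁ / 20) (min (θ * δ / 80) (q * ε / 6)), ?_, ?_, ?_, ?_⟩
    · apply lt_min (by positivity)
      apply lt_min <;> positivity
    · have := min_le_left (η₁ / 20) (min (θ * δ / 80) (q * ε / 6))
      linarith
    · have := (min_le_right (η₁ / 20) (min (θ * δ / 80) (q * ε / 6))).trans (min_le_left _ _)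
      linarith
    · have := (min_le_right (η₁ / 20) (min (θ * δ / 80) (q * ε / 6))).trans (min_le_right _ _)
      linarith
  have hδ1 : δ ≤ 1 / 500 := by linarith
  have hηδ : 80 * η ≤ δ := by nlinarith
  have hη8 : η ≤ 1 / 8 := by linarith
  have hη1 : η ≤ 1 := by linarith
  refine ⟨η, hη0, fun b hb1 hb2 α => ?_⟩
  by_contra hcon
  rw [not_le] at hcon
  -- the approximations
  have hζ1 := hC.cl.z1
  have hζq := hC.cl.zq
  have hzpow : ∀ i : ℕ, ‖ζ ^ i‖ = 1 := fun i => by rw [norm_pow, hζ1, one_pow]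
  choose a₀ ha₀ using fun i : ℕ => hC.dn 1 (ζ ^ i) η hη0
  choose c hc using fun i : ℕ => hC.dn 1 (ζ ^ (q - i)) η hη0
  have hq1 : 0 < q := by have := hC.cl.q5; omega
  set a : ℕ → L := fun i => a₀ (i % q) with ha
  have haφ : ∀ i, |φ (a i) - 1| ≤ η := fun i => (ha₀ (i % q)).1.le
  have haψ : ∀ i, ‖ψ (a i) - ζ ^ i‖ ≤ η := by
    intro i
    have h1 := (ha₀ (i % q)).2.le
    have h2 : ζ ^ i = ζ ^ (i % q) := by
      conv_lhs => rw [← Nat.div_add_mod i q, pow_add, pow_mul, hζq, one_pow, one_mul]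
    rw [h2]
    exact h1
  have haq : a q = a 0 := by simp [ha]
  -- bounds at the two places
  have hψ : ∀ i < q, ‖ψ (c i * (a (i + 1) - a i) - b)‖ ≤ 7 * η ∧ ‖ψ (c i * a i - 1)‖ ≤ 3 * η ∧
      1 - η ≤ ‖ψ (c i)‖ ∧ ‖ψ (c i)‖ ≤ 1 + η := by
    intro i hi
    have hzz : ζ ^ (q - i) * ζ ^ i = 1 := by rw [← pow_add, Nat.sub_add_cancel hi.le, hζq]
    have h1 := haψ (i + 1)
    rw [pow_succ] at h1
    have := bnd (hzpow i) (hzpow (q - i)) hζ1 hzz (haψ i) h1 (hc i).2.le hb2.le hη1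
    simpa only [map_sub, map_mul, map_one] using this
  have hφ : ∀ i < q, |φ (c i * (a (i + 1) - a i) - b)| ≤ 7 * η ∧ |φ (c i * a i - 1)| ≤ 3 * η ∧
      1 - η ≤ |φ (c i)| ∧ |φ (c i)| ≤ 1 + η := by
    intro i hi
    have h4 : ‖φ b - (1 - 1)‖ ≤ η := by
      rw [sub_self, sub_zero, Real.norm_eq_abs]
      exact hb1.le
    have := bnd (K := ℝ) (z := 1) (z' := 1) (ζ := 1) (A := φ (a i)) (A' := φ (a (i + 1)))
      (C := φ (c i)) (b := φ b) (η := η) (by simp) (by simp) (by simp) (by simp)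
      (haφ i) (by rw [one_mul]; exact haφ (i + 1)) (hc i).1.le h4 hη1
    simpa only [map_sub, map_mul, map_one, Real.norm_eq_abs] using this
  have hδ' : 0 < δ * (1 - θ) := by
    apply mul_pos hδ
    linarith
  -- the bad sets
  set S : Set L := {x ∈ Bx φ ψ δ δ | D (1 + b / (1 + x)) = α} with hS
  set S' : Set L := Bx φ ψ (δ * (1 - θ)) (δ * (1 - θ)) with hS'
  set e : ℕ → L := fun i => c i * (a (i + 1) - a i) - b with he
  set g : ℕ → L := fun i => c i * a i - 1 with hg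
  set B1 : ℕ → Set L := fun i => {x ∈ S' | c i * x + g i ∉ S} with hB1
  set B2 : ℕ → Set L := fun i => {x ∈ S' | ¬ Good ψ h (r / 2) (e i) (c i * x + g i + (1 + b))}
    with hB2
  have hBdδ : Bd φ ψ (Bx φ ψ δ δ) := hMUB.bdb L φ ψ δ δ
  have hBdS' : Bd φ ψ S' := hMUB.bdb L φ ψ _ _
  have hinb : ∀ i < q, ∀ x ∈ S', c i * x + g i ∈ Bx φ ψ δ δ := by
    intro i hi x hx
    obtain ⟨p1, p2, p3, p4⟩ := hφ i hi
    obtain ⟨s1, s2, s3, s4⟩ := hψ i hi
    constructor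
    · have := inbox (K := ℝ) (A := φ (a i)) (C := φ (c i)) (x := φ x) (η := η) (δ := δ) (θ := θ)
        p4 (by simpa only [map_sub, map_mul, map_one, Real.norm_eq_abs] using p2) hx.1
        (by linarith) hηb hη0 hδ hθ0
      simpa only [hg, map_add, map_sub, map_mul, map_one, Real.norm_eq_abs] using this
    · have := inbox (A := ψ (a i)) (C := ψ (c i)) (x := ψ x) (η := η) (δ := δ) (θ := θ)
        s4 (by simpa only [map_sub, map_mul, map_one] using s2) hx.2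
        (by linarith) hηb hη0 hδ hθ0
      simpa only [hg, map_add, map_sub, map_mul, map_one] using this
  have hcne : ∀ i < q, c i ≠ 0 := by
    intro i hi hh
    have := (hφ i hi).2.2.1
    rw [hh, map_zero, abs_zero] at this
    linarith
  have hfac : ∀ i < q, (1 - η) ^ 3 ≤ |φ (c i)| * ‖ψ (c i)‖ ^ 2 := by
    intro i hi
    have p := (hφ i hi).2.2.1
    have s := (hψ i hi).2.2.1
    have h0 : 0 ≤ 1 - η := by linarith
    calc (1 - η) ^ 3 = (1 - η) * (1 - η) ^ 2 := by ring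
      _ ≤ |φ (c i)| * ‖ψ (c i)‖ ^ 2 := by gcongr
  have hnn : ∀ T : Set L, T ⊆ S' → 0 ≤ μ T := fun T hT =>
    hC.vol.nn T (hMUB.bds L φ ψ T S' hBdS' hT)
  have hboxδ : μ (Bx φ ψ δ δ) = δ ^ 3 := by
    rw [hMUB.box L φ ψ μ hC.dn hC.vol δ δ hδ hδ]
    ring
  have hSsub : S ⊆ Bx φ ψ δ δ := fun x hx => hx.1
  have hdiff : μ (Bx φ ψ δ δ \ S) ≤ (1 / (q : ℝ) - ε) * δ ^ 3 := by
    have h1 := hC.vol.ad S (Bx φ ψ δ δ \ S) (hMUB.bds L φ ψ _ _ hBdδ hSsub)
      (hMUB.bds L φ ψ _ _ hBdδ Set.sdiff_subset) Set.disjoint_sdiff_right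
    rw [Set.union_sdiff_cancel hSsub, hboxδ] at h1
    have h2 : (1 - 1 / (q : ℝ) + ε) * δ ^ 3 < μ S := hcon
    nlinarith
  have hvol1 : ∀ i < q, μ (B1 i) ≤ (1 / (q : ℝ) - ε / 2) * δ ^ 3 := by
    intro i hi
    have h1 := hMUB.pull L φ ψ μ hC.vol (B1 i) (Bx φ ψ δ δ \ S)
      (hMUB.bds L φ ψ _ _ hBdS' (fun x hx => hx.1))
      (hMUB.bds L φ ψ _ _ hBdδ Set.sdiff_subset) (c i) (g i) (hcne i hi)
      (fun x hx => ⟨hinb i hi x hx.1, hx.2⟩)
    exact num1 hη0 hηc hη8 hq0 (h1.trans hdiff) (hfac i hi) (hnn _ (fun x hx => hx.1))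
      (by positivity) hε
  have hvol2 : ∀ i < q, μ (B2 i) ≤ 2 * (ε / (32 * q) * δ ^ 3) := by
    intro i hi
    have ha1 : |φ (1 + b)| ≤ 4 := by
      rw [map_add, map_one]
      calc |1 + φ b| ≤ |1| + |φ b| := abs_add_le _ _
        _ ≤ 4 := by rw [abs_one]; linarith
    have ha2 : ‖ψ (1 + b)‖ ≤ 4 := by
      rw [map_add, map_one]
      calc ‖1 + ψ b‖ = ‖ζ + (ψ b - (ζ - 1))‖ := by congr 1; ring
        _ ≤ ‖ζ‖ + ‖ψ b - (ζ - 1)‖ := norm_add_le _ _
        _ ≤ 4 := by rw [hζ1]; linarith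
    have h2 := H1 (1 + b) (e i) ha1 ha2 (by have := (hφ i hi).1; linarith)
      (by have := (hψ i hi).1; linarith)
    have h1 := hMUB.pull L φ ψ μ hC.vol (B2 i)
      {x ∈ Bx φ ψ δ δ | ¬ Good ψ h (r / 2) (e i) (x + (1 + b))}
      (hMUB.bds L φ ψ _ _ hBdS' (fun x hx => hx.1))
      (hMUB.bds L φ ψ _ _ hBdδ (fun x hx => hx.1)) (c i) (g i) (hcne i hi)
      (fun x hx => ⟨hinb i hi x hx.1, hx.2⟩)
    exact num2 hη8 hη0 (hfac i hi) (h1.trans h2) (hnn _ (fun x hx => hx.1))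
  have hbox' : μ S' = (δ * (1 - θ)) ^ 3 := by
    rw [hS', hMUB.box L φ ψ μ hC.dn hC.vol _ _ hδ' hδ']
    ring
  have hδ3 : 0 < δ ^ 3 := by positivity
  obtain ⟨x, hx, hgood⟩ := hMUB.find L φ ψ μ hC.vol q (fun k => B1 k ∪ B2 k) S' hBdS'
    (fun k x hx => by
      rcases hx with hx | hx
      · exact hx.1
      · exact hx.1) (by
    have h1 : ∀ k : Fin q, μ (B1 k ∪ B2 k) ≤
        (1 / (q : ℝ) - ε / 2) * δ ^ 3 + 2 * (ε / (32 * q) * δ ^ 3) := by
      intro k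
      have h2 := hMUB.sub L φ ψ μ hC.vol (B1 k) (B2 k)
        (hMUB.bds L φ ψ _ _ hBdS' (fun x hx => hx.1))
        (hMUB.bds L φ ψ _ _ hBdS' (fun x hx => hx.1))
      have h3 := hvol1 k k.2
      have h4 := hvol2 k k.2
      linarith
    calc ∑ k : Fin q, μ (B1 k ∪ B2 k)
        ≤ ∑ _k : Fin q, ((1 / (q : ℝ) - ε / 2) * δ ^ 3 + 2 * (ε / (32 * q) * δ ^ 3)) :=
          Finset.sum_le_sum fun k _ => h1 k
      _ = (1 - q * ε / 2 + ε / 16) * δ ^ 3 := by
          rw [Finset.sum_const, Finset.card_univ, Fintype.card_fin, nsmul_eq_mul]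
          field_simp
          ring
      _ < (1 - 3 * θ) * δ ^ 3 := by
          apply mul_lt_mul_of_pos_right _ hδ3
          rw [hθ]
          nlinarith
      _ ≤ μ S' := by
          rw [hbox', mul_pow, mul_comm]
          apply mul_le_mul_of_nonneg_left _ hδ3.le
          nlinarith [sq_nonneg θ])
  -- all the terms of the product
  have hxδ : ∀ i < q, c i * x + g i ∈ S ∧
      Good ψ h (r / 2) (e i) (c i * x + g i + (1 + b)) := by
    intro i hi
    have h1 := hgood ⟨i, hi⟩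
    simp only [Set.mem_union, not_or] at h1
    obtain ⟨h2, h3⟩ := h1
    constructor
    · by_contra h4
      exact h2 ⟨hx, h4⟩
    · by_contra h4
      exact h3 ⟨hx, h4⟩
  have hxa : ∀ i, x + a i ≠ 0 := by
    intro i hh
    have h1 : φ x + φ (a i) = 0 := by rw [← map_add, hh, map_zero]
    have h2 := haφ i
    have h3 : |φ x| < δ * (1 - θ) := hx.1
    rw [abs_le] at h2
    rw [abs_lt] at h3
    nlinarith
  have hxψ : ‖ψ x‖ < δ := by
    have h3 : ‖ψ x‖ < δ * (1 - θ) := hx.2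
    nlinarith
  have hw1 : ∀ i < q, ‖ψ ((x + a (i + 1)) / (x + a i)) - ζ‖ < r := by
    intro i _
    have h1 := haψ (i + 1)
    rw [pow_succ] at h1
    have := (nearw (hzpow i) hζ1 (haψ i) h1 hxψ hηδ hδr hr5 hη0).2
    simpa only [map_div₀, map_add] using this
  have hw2 : ∀ i < q, D ((x + a (i + 1)) / (x + a i)) = α := by
    intro i hi
    obtain ⟨h1, h2⟩ := hxδ i hi
    obtain ⟨g1, g2, g3⟩ := h2
    have hX : 1 + (c i * x + g i) = c i * (x + a i) := by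
      rw [hg]
      ring
    have hXne : c i * (x + a i) ≠ 0 := mul_ne_zero (hcne i hi) (hxa i)
    have hXb : c i * x + g i + (1 + b) = c i * (x + a i) + b := by
      rw [hg]
      ring
    rw [hXb] at g1 g2 g3
    have hci := hcne i hi
    have hxi := hxa i
    have hprod : (x + a (i + 1)) / (x + a i) =
        (1 + b / (c i * (x + a i))) * (1 + e i / (c i * (x + a i) + b)) := by
      have q1 : 1 + b / (c i * (x + a i)) = (c i * (x + a i) + b) / (c i * (x + a i)) := by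
        rw [add_div, div_self hXne]
      have q2 : 1 + e i / (c i * (x + a i) + b) =
          (c i * (x + a (i + 1))) / (c i * (x + a i) + b) := by
        have q3 : c i * (x + a (i + 1)) = (c i * (x + a i) + b) + e i := by
          simp only [he]
          ring
        rw [q3, add_div, div_self g1]
      rw [q1, q2, div_mul_div_comm, mul_comm (c i * (x + a i)) (c i * (x + a i) + b),
        mul_div_mul_left _ _ g1, mul_div_mul_left _ _ hci]
    have hr1 : ‖ψ (1 + b / (c i * (x + a i))) - ζ‖ < r := by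
      have h3 : ‖ψ (c i * (x + a i)) - 1‖ < δ := by
        have h4 := h1.1.2
        have h5 : ψ (c i * (x + a i)) - 1 = ψ (c i * x + g i) := by
          rw [← hX, map_add, map_one]
          ring
        rw [h5]
        exact h4
      have := nearb hζ1 hb2.le h3 hηδ hδr hr5 hη0
      simpa only [map_div₀, map_add, map_one] using this
    have hr2 : ‖ψ (e i / (c i * (x + a i) + b))‖ < r := by
      have h3 : 0 < ‖ψ (c i * (x + a i) + b)‖ := by
        rw [norm_pos_iff]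
        exact (map_ne_zero ψ).2 g1
      rw [map_div₀, norm_div, div_lt_iff₀ h3]
      calc ‖ψ (e i)‖ ≤ r / 2 * ‖ψ (c i * (x + a i) + b)‖ := g2
        _ < r * ‖ψ (c i * (x + a i) + b)‖ := by
            apply mul_lt_mul_of_pos_right _ h3
            linarith
    rw [hprod, hC.cl.dadd _ _ hr1 hr2, g3, add_zero]
    have h6 := h1.2
    rw [hX] at h6
    exact h6
  have hw3 : ∏ i ∈ range q, (x + a (i + 1)) / (x + a i) = 1 := by
    rw [tele (fun i => x + a i) hxa q, haq, div_self (hxa 0)]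
  have hfin := hC.cl.dprod (fun i => (x + a (i + 1)) / (x + a i)) hw1 hw3
  rw [Finset.sum_congr rfl (fun i hi => hw2 i (Finset.mem_range.1 hi)), Finset.sum_const,
    Finset.card_range, hC.cl.tor] at hfin
  exact hC.cl.tau hfin.symm

end Pool.Agent.Lib.MP_556c5c_lc
end

section
/-!
# MP_556c5c_lc, module SEP: greedy separation
-/
set_option autoImplicit false

namespace Pool.Agent.Lib.MP_556c5c_lc

namespace SEPM

variable {X : Type} {μ : Set X → ℝ} {Ω : Set X}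

theorem mu_empty (hadd : ∀ S T, S ⊆ Ω → T ⊆ Ω → Disjoint S T → μ (S ∪ T) = μ S + μ T) :
    μ ∅ = 0 := by
  have h := hadd ∅ ∅ (Set.empty_subset _) (Set.empty_subset _) (Set.disjoint_empty _)
  rw [Set.union_empty] at h
  linarith

theorem mu_sum (hadd : ∀ S T, S ⊆ Ω → T ⊆ Ω → Disjoint S T → μ (S ∪ T) = μ S + μ T)
    {ι : Type} (I : Finset ι) (T : ι → Set X) (hT : ∀ s, T s ⊆ Ω)
    (hd : ∀ s t, s ≠ t → Disjoint (T s) (T t)) : μ (⋃ s ∈ I, T s) = ∑ s ∈ I, μ (T s) := by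
  classical
  induction I using Finset.induction_on with
  | empty => simp [mu_empty hadd]
  | insert a I ha ih =>
    rw [Finset.set_biUnion_insert, Finset.sum_insert ha, ← ih]
    apply hadd _ _ (hT a)
    · exact Set.iUnion₂_subset (fun s _ => hT s)
    · rw [Set.disjoint_iUnion₂_right]
      intro s hs
      exact hd a s (fun h => ha (h ▸ hs))

/-- Some point is in many of the sets. -/
theorem step (hne : Ω.Nonempty) (hnn : ∀ S ⊆ Ω, 0 ≤ μ S)
    (hadd : ∀ S T, S ⊆ Ω → T ⊆ Ω → Disjoint S T → μ (S ∪ T) = μ S + μ T) {V ε : ℝ}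
    (hV : μ Ω ≤ V) (hV0 : 0 < V) {ι : Type} [DecidableEq ι] (P : Finset ι) (S : ι → X → Prop)
    (hS : ∀ p ∈ P, ε * V ≤ μ {x ∈ Ω | S p x}) :
    ∃ x ∈ Ω, ∃ Q ⊆ P, (∀ p ∈ Q, S p x) ∧ ε * (P.card : ℝ) ≤ (Q.card : ℝ) := by
  classical
  set sig : X → Finset ι := fun x => P.filter (fun p => S p x) with hsig
  -- maximal signature
  obtain ⟨x0, hx0, hmax⟩ : ∃ x0 ∈ Ω, ∀ x ∈ Ω, (sig x).card ≤ (sig x0).card := by
    have hbd : BddAbove ((fun x => (sig x).card) '' Ω) := by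
      refine ⟨P.card, ?_⟩
      rintro n ⟨x, -, rfl⟩
      exact Finset.card_le_card (Finset.filter_subset _ _)
    obtain ⟨x0, hx0, h0⟩ := Nat.sSup_mem (hne.image (fun x => (sig x).card)) hbd
    refine ⟨x0, hx0, fun x hx => ?_⟩
    have h1 : (sig x).card ≤ sSup ((fun x => (sig x).card) '' Ω) := le_csSup hbd ⟨x, hx, rfl⟩
    exact h1.trans_eq h0.symm
  refine ⟨x0, hx0, sig x0, Finset.filter_subset _ _, fun p hp => (Finset.mem_filter.1 hp).2, ?_⟩
  -- the partition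
  set T : Finset ι → Set X := fun s => {x ∈ Ω | sig x = s} with hT
  have hTs : ∀ s, T s ⊆ Ω := fun s x hx => hx.1
  have hTd : ∀ s t, s ≠ t → Disjoint (T s) (T t) := by
    intro s t hst
    rw [Set.disjoint_left]
    rintro x ⟨-, h1⟩ ⟨-, h2⟩
    exact hst (h1.symm.trans h2)
  have hsigP : ∀ x, sig x ∈ P.powerset := fun x =>
    Finset.mem_powerset.2 (Finset.filter_subset _ _)
  have hΩ : Ω = ⋃ s ∈ P.powerset, T s := by
    ext x
    simp only [Set.mem_iUnion, exists_prop]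
    constructor
    · intro hx
      exact ⟨sig x, hsigP x, hx, rfl⟩
    · rintro ⟨s, -, hx⟩
      exact hTs s hx
  have hp : ∀ p ∈ P, {x ∈ Ω | S p x} = ⋃ s ∈ P.powerset.filter (fun s => p ∈ s), T s := by
    intro p hp
    ext x
    simp only [Set.mem_iUnion, exists_prop, Finset.mem_filter]
    constructor
    · rintro ⟨hx, hxp⟩
      exact ⟨sig x, ⟨hsigP x, Finset.mem_filter.2 ⟨hp, hxp⟩⟩, hx, rfl⟩
    · rintro ⟨s, ⟨-, hs⟩, hx, hxs⟩
      refine ⟨hx, ?_⟩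
      rw [← hxs] at hs
      exact (Finset.mem_filter.1 hs).2
  have h1 : ε * V * P.card ≤ ∑ p ∈ P, μ {x ∈ Ω | S p x} := by
    calc ε * V * P.card = ∑ p ∈ P, ε * V := by rw [Finset.sum_const, nsmul_eq_mul, mul_comm]
      _ ≤ _ := Finset.sum_le_sum hS
  have h2 : ∑ p ∈ P, μ {x ∈ Ω | S p x} = ∑ s ∈ P.powerset, (s.card : ℝ) * μ (T s) := by
    calc ∑ p ∈ P, μ {x ∈ Ω | S p x}
        = ∑ p ∈ P, ∑ s ∈ P.powerset.filter (fun s => p ∈ s), μ (T s) := by
          apply Finset.sum_congr rfl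
          intro p hpP
          rw [hp p hpP, mu_sum hadd _ T hTs hTd]
      _ = ∑ p ∈ P, ∑ s ∈ P.powerset, (if p ∈ s then μ (T s) else 0) := by
          apply Finset.sum_congr rfl
          intro p _
          rw [Finset.sum_filter]
      _ = ∑ s ∈ P.powerset, ∑ p ∈ P, (if p ∈ s then μ (T s) else 0) := Finset.sum_comm
      _ = _ := by
          apply Finset.sum_congr rfl
          intro s hs
          rw [← Finset.sum_filter, Finset.sum_const, nsmul_eq_mul]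
          congr 2
          have : P.filter (fun p => p ∈ s) = s := by
            ext p
            rw [Finset.mem_filter]
            exact ⟨fun h => h.2, fun h => ⟨Finset.mem_powerset.1 hs h, h⟩⟩
          rw [this]
  have h3 : ∑ s ∈ P.powerset, (s.card : ℝ) * μ (T s) ≤
      ∑ s ∈ P.powerset, ((sig x0).card : ℝ) * μ (T s) := by
    apply Finset.sum_le_sum
    intro s _
    by_cases hs : (T s).Nonempty
    · obtain ⟨x, hx, hxs⟩ := hs
      apply mul_le_mul_of_nonneg_right _ (hnn _ (hTs s))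
      have h4 := hmax x hx
      rw [hxs] at h4
      exact_mod_cast h4
    · rw [Set.not_nonempty_iff_eq_empty.1 hs, mu_empty hadd, mul_zero, mul_zero]
  have h5 : ∑ s ∈ P.powerset, μ (T s) = μ Ω := by
    conv_rhs => rw [hΩ]
    rw [mu_sum hadd _ T hTs hTd]
  rw [← Finset.mul_sum, h5] at h3
  have h6 : ((sig x0).card : ℝ) * μ Ω ≤ ((sig x0).card : ℝ) * V :=
    mul_le_mul_of_nonneg_left hV (Nat.cast_nonneg _)
  have h7 : ε * (P.card : ℝ) * V ≤ ((sig x0).card : ℝ) * V := by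
    calc ε * (P.card : ℝ) * V = ε * V * P.card := by ring
      _ ≤ _ := by linarith
  exact le_of_mul_le_mul_right h7 hV0

end SEPM

open SEPM in
theorem specSEP : SpecSEP := by
  intro X A μ Ω V ε hne hnn hadd hV hV0 hε hε1 M f hf m hm
  classical
  have hf' : ∀ i j, i ≠ j → ε * V ≤ μ {x ∈ Ω | f i x ≠ f j x} := by
    intro i j hij
    rcases lt_or_gt_of_ne hij with h | h
    · exact hf i j h
    · have h2 := hf j i h
      have e : {x ∈ Ω | f j x ≠ f i x} = {x ∈ Ω | f i x ≠ f j x} := by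
        ext x
        exact and_congr Iff.rfl ne_comm
      rwa [e] at h2
  have key : ∀ m : ℕ, ∃ x : Fin m → X, (∀ k, x k ∈ Ω) ∧
      (((Finset.univ.filter (fun p : Fin M × Fin M => p.1 ≠ p.2 ∧
        ∀ k, f p.1 (x k) = f p.2 (x k))).card : ℕ) : ℝ) ≤ (M : ℝ) ^ 2 * (1 - ε) ^ m := by
    intro m
    induction m with
    | zero =>
      refine ⟨Fin.elim0, fun k => k.elim0, ?_⟩
      rw [pow_zero, mul_one]
      have h := Finset.card_filter_le (Finset.univ : Finset (Fin M × Fin M))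
        (fun p => p.1 ≠ p.2 ∧ ∀ k : Fin 0, f p.1 (Fin.elim0 k) = f p.2 (Fin.elim0 k))
      have h2 : (Finset.univ : Finset (Fin M × Fin M)).card = M ^ 2 := by
        rw [Finset.card_univ, Fintype.card_prod, Fintype.card_fin, sq]
      rw [h2] at h
      exact_mod_cast h
    | succ m ih =>
      obtain ⟨x, hx, hcard⟩ := ih
      set P := Finset.univ.filter (fun p : Fin M × Fin M => p.1 ≠ p.2 ∧
        ∀ k, f p.1 (x k) = f p.2 (x k)) with hP
      obtain ⟨y, hy, Q, hQP, hQ, hQc⟩ := step hne hnn hadd hV hV0 (ε := ε) P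
        (fun p z => f p.1 z ≠ f p.2 z) (by
          intro p hp
          rw [hP, Finset.mem_filter] at hp
          exact hf' p.1 p.2 hp.2.1)
      refine ⟨Fin.cons y x, ?_, ?_⟩
      · intro k
        refine Fin.cases ?_ (fun k => ?_) k
        · rw [Fin.cons_zero]; exact hy
        · rw [Fin.cons_succ]; exact hx k
      · have hsub : Finset.univ.filter (fun p : Fin M × Fin M => p.1 ≠ p.2 ∧
            ∀ k : Fin (m + 1), f p.1 ((Fin.cons y x : Fin (m + 1) → X) k) =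
              f p.2 ((Fin.cons y x : Fin (m + 1) → X) k)) ⊆ P \ Q := by
          intro p hp
          rw [Finset.mem_filter] at hp
          obtain ⟨-, hne', hall⟩ := hp
          rw [Finset.mem_sdiff, hP, Finset.mem_filter]
          refine ⟨⟨Finset.mem_univ _, hne', fun k => ?_⟩, fun hpQ => ?_⟩
          · have := hall k.succ
            rwa [Fin.cons_succ] at this
          · have := hall 0
            rw [Fin.cons_zero] at this
            exact hQ p hpQ this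
        have h1 := Finset.card_le_card hsub
        rw [Finset.card_sdiff_of_subset hQP] at h1
        have h2 : Q.card ≤ P.card := Finset.card_le_card hQP
        have h3 : ((Finset.univ.filter (fun p : Fin M × Fin M => p.1 ≠ p.2 ∧
            ∀ k : Fin (m + 1), f p.1 ((Fin.cons y x : Fin (m + 1) → X) k) =
              f p.2 ((Fin.cons y x : Fin (m + 1) → X) k))).card : ℝ) ≤
            (P.card : ℝ) - (Q.card : ℝ) := by
          rw [← Nat.cast_sub h2]
          exact_mod_cast h1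
        have h4 : (P.card : ℝ) - (Q.card : ℝ) ≤ (1 - ε) * (P.card : ℝ) := by linarith
        have h5 : (1 - ε) * (P.card : ℝ) ≤ (1 - ε) * ((M : ℝ) ^ 2 * (1 - ε) ^ m) :=
          mul_le_mul_of_nonneg_left hcard (by linarith)
        calc _ ≤ (P.card : ℝ) - (Q.card : ℝ) := h3
          _ ≤ (1 - ε) * ((M : ℝ) ^ 2 * (1 - ε) ^ m) := h4.trans h5
          _ = (M : ℝ) ^ 2 * (1 - ε) ^ (m + 1) := by ring
  obtain ⟨x, hx, hcard⟩ := key m
  refine ⟨x, hx, fun i j hij => ?_⟩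
  by_contra hc
  push Not at hc
  have hmem : (i, j) ∈ Finset.univ.filter (fun p : Fin M × Fin M => p.1 ≠ p.2 ∧
      ∀ k, f p.1 (x k) = f p.2 (x k)) := by
    rw [Finset.mem_filter]
    exact ⟨Finset.mem_univ _, hij, hc⟩
  have h1 : 1 ≤ (Finset.univ.filter (fun p : Fin M × Fin M => p.1 ≠ p.2 ∧
      ∀ k, f p.1 (x k) = f p.2 (x k))).card := Finset.card_pos.2 ⟨_, hmem⟩
  have h2 : (1 : ℝ) ≤ ((Finset.univ.filter (fun p : Fin M × Fin M => p.1 ≠ p.2 ∧
      ∀ k, f p.1 (x k) = f p.2 (x k))).card : ℝ) := by exact_mod_cast h1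
  linarith

end Pool.Agent.Lib.MP_556c5c_lc
end

section
/-!
# MP_556c5c_lc: module SSC (the small step law on small boxes, with a shift)
-/
namespace Pool.Agent.Lib.MP_556c5c_lc

theorem specSSC (hSSL : SpecSSL) (hMUB : SpecMUB) : SpecSSC := by
  intro L _ φ ψ A _ q ζ r h D τ N μ hC δ T ε κ hδ hT hε hκ hκr
  obtain ⟨T', hT'⟩ : ∃ T' : ℝ, T' = T + δ := ⟨_, rfl⟩
  have hT'0 : 0 < T' := by rw [hT']; linarith
  obtain ⟨R, hR1, hR⟩ := hSSL L φ ψ A q ζ r h D τ N μ hC (ε * δ ^ 3 / T' ^ 3) κ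
    (by positivity) hκ hκr
  have hR0 : 0 < R := by linarith
  refine ⟨T' / R, by positivity, ?_⟩
  intro a e ha1 ha2 he1 he2
  have h1 : R * |φ e| ≤ T' := by
    have := mul_le_mul_of_nonneg_left he1 hR0.le
    rwa [mul_div_cancel₀ _ hR0.ne'] at this
  have h2 : R * ‖ψ e‖ ≤ T' := by
    have := mul_le_mul_of_nonneg_left he2 hR0.le
    rwa [mul_div_cancel₀ _ hR0.ne'] at this
  have h3 := hR e T' T' hT'0 hT'0 h1 h2
  have hBd1 : Bd φ ψ {x ∈ Bx φ ψ δ δ | ¬ Good ψ h κ e (x + a)} :=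
    hMUB.bds L φ ψ _ _ (hMUB.bdb L φ ψ δ δ) (fun x hx => hx.1)
  have hBd2 : Bd φ ψ {x ∈ Bx φ ψ T' T' | ¬ Good ψ h κ e x} :=
    hMUB.bds L φ ψ _ _ (hMUB.bdb L φ ψ T' T') (fun x hx => hx.1)
  have h4 : (fun x => x + a) '' {x ∈ Bx φ ψ δ δ | ¬ Good ψ h κ e (x + a)} ⊆
      {x ∈ Bx φ ψ T' T' | ¬ Good ψ h κ e x} := by
    rintro y ⟨x, ⟨⟨hx1, hx2⟩, hx3⟩, rfl⟩
    refine ⟨⟨?_, ?_⟩, hx3⟩
    · simp only [map_add]
      have := abs_add_le (φ x) (φ a)
      rw [hT']; linarith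
    · simp only [map_add]
      have := norm_add_le (ψ x) (ψ a)
      rw [hT']; linarith
  calc μ {x ∈ Bx φ ψ δ δ | ¬ Good ψ h κ e (x + a)}
      = μ ((fun x => x + a) '' {x ∈ Bx φ ψ δ δ | ¬ Good ψ h κ e (x + a)}) :=
        (hC.vol.tr _ hBd1 a).symm
    _ ≤ μ {x ∈ Bx φ ψ T' T' | ¬ Good ψ h κ e x} := hMUB.mono L φ ψ μ hC.vol _ _ hBd2 h4
    _ ≤ ε * δ ^ 3 / T' ^ 3 * (T' * T' ^ 2) := h3
    _ = ε * δ ^ 3 := by
        field_simp

end Pool.Agent.Lib.MP_556c5c_lc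
end

section
/-!
# MP_556c5c_lc, module SSL: the small step law
-/
namespace Pool.Agent.Lib.MP_556c5c_lc

open Finset

namespace SSLM

theorem growth (c N : ℕ) : ∃ k : ℕ, 1 ≤ k ∧ (c * k + 1) ^ N < 2 ^ k := by
  have h1 : Filter.Tendsto (fun n : ℕ => (n : ℝ) ^ N / (2 : ℝ) ^ n) Filter.atTop (nhds 0) :=
    tendsto_pow_const_div_const_pow_of_one_lt N (by norm_num)
  have hpos : (0 : ℝ) < 1 / ((c : ℝ) + 1) ^ N := by positivity
  have h2 : ∀ᶠ n : ℕ in Filter.atTop, (n : ℝ) ^ N / (2 : ℝ) ^ n < 1 / ((c : ℝ) + 1) ^ N :=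
    h1.eventually (gt_mem_nhds hpos)
  obtain ⟨k, hk, hk1⟩ := (h2.and (Filter.eventually_ge_atTop 1)).exists
  refine ⟨k, hk1, ?_⟩
  have hk1' : (1 : ℝ) ≤ k := by exact_mod_cast hk1
  have h3 : ((c : ℝ) * k + 1) ^ N ≤ (((c : ℝ) + 1) * k) ^ N := by
    apply pow_le_pow_left₀ (by positivity)
    nlinarith [Nat.cast_nonneg (α := ℝ) c]
  have h4 : (((c : ℝ) + 1) * k) ^ N < 2 ^ k := by
    rw [mul_pow]
    have h5 : (0 : ℝ) < 2 ^ k := by positivity
    have h6 : (0 : ℝ) < ((c : ℝ) + 1) ^ N := by positivity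
    rw [div_lt_div_iff₀ h5 h6] at hk
    linarith
  have h7 : ((c : ℝ) * k + 1) ^ N < 2 ^ k := lt_of_le_of_lt h3 h4
  exact_mod_cast h7

variable {L : Type} [Field L]

theorem shell (hMUB : SpecMUB) {φ : L →+* ℝ} {ψ : L →+* ℂ} {μ : Set L → ℝ} (hd : Dn φ ψ)
    (hV : Vol φ ψ μ) {R : ℝ} (hR : 1 ≤ R) :
    μ (Bx φ ψ (1 + 1 / R) (1 + 1 / R) \ Bx φ ψ 1 1) ≤ 7 / R := by
  have hR0 : 0 < R := by linarith
  have hinv : 0 < 1 / R := by positivity
  have hinv1 : 1 / R ≤ 1 := by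
    rw [div_le_one hR0]
    exact hR
  have hsub : Bx φ ψ 1 1 ⊆ Bx φ ψ (1 + 1 / R) (1 + 1 / R) := by
    intro x hx
    exact ⟨by linarith [hx.1], by linarith [hx.2]⟩
  have hb := hMUB.bdb L φ ψ (1 + 1 / R) (1 + 1 / R)
  have h1 := hV.ad (Bx φ ψ 1 1) (Bx φ ψ (1 + 1 / R) (1 + 1 / R) \ Bx φ ψ 1 1)
    (hMUB.bdb L φ ψ 1 1) (hMUB.bds L φ ψ _ _ hb Set.sdiff_subset) Set.disjoint_sdiff_right
  rw [Set.union_sdiff_cancel hsub, hV.un,
    hMUB.box L φ ψ μ hd hV _ _ (by positivity) (by positivity)] at h1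
  have h2 : (1 + 1 / R) * (1 + 1 / R) ^ 2 - 1 ≤ 7 * (1 / R) := by
    have h3 : 0 ≤ (1 / R) * (1 - 1 / R) := mul_nonneg hinv.le (by linarith)
    have h4 : 0 ≤ (1 / R) * (1 / R) * (1 - 1 / R) := mul_nonneg (by positivity) (by linarith)
    nlinarith
  have h5 : 7 / R = 7 * (1 / R) := by ring
  rw [h5]
  linarith

end SSLM

open SSLM in
theorem specSSL (hBDS : SpecBDS) (hSEP : SpecSEP) (hMUB : SpecMUB) : SpecSSL := by
  intro L _ φ ψ A _ q ζ r h D τ N μ hC ε₀ κ hε₀ hκ hκr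
  by_contra hcon
  push Not at hcon
  have hV := hC.vol
  have hdn := hC.dn
  set ε : ℝ := min ε₀ 1 with hεdef
  have hε : 0 < ε := lt_min hε₀ one_pos
  have hε1 : ε ≤ 1 := min_le_right _ _
  have hfail : ∀ R : ℝ, 1 ≤ R → ∃ (b : L) (T U : ℝ), 0 < T ∧ 0 < U ∧ R * |φ b| ≤ T ∧
      R * ‖ψ b‖ ≤ U ∧ ε * (T * U ^ 2) < μ {x ∈ Bx φ ψ T U | ¬ Good ψ h κ b x} := by
    intro R hR
    obtain ⟨b, T, U, hT, hU, h1, h2, h3⟩ := hcon R hR
    refine ⟨b, T, U, hT, hU, h1, h2, lt_of_le_of_lt ?_ h3⟩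
    apply mul_le_mul_of_nonneg_right (min_le_left _ _)
    positivity
  have hbds := hBDS L φ ψ A q ζ r h D τ N μ hC ε κ hε hκ hfail
  -- constants
  have hbase0 : 0 ≤ 1 - ε / 8 := by linarith
  have hbase1 : 1 - ε / 8 < 1 := by linarith
  obtain ⟨c, hc⟩ := exists_pow_lt_of_lt_one (show (0 : ℝ) < 1 / 8 by norm_num) hbase1
  obtain ⟨k, hk1, hk⟩ := growth c N
  set C : ℝ := 4 / κ with hCdef
  have hCpos : 0 < C := by positivity
  have hκC : κ * C = 4 := by
    rw [hCdef]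
    field_simp
  set R : ℝ := max 1 (max (8 * (C + 2) ^ 2 / ε) (56 / ε)) with hRdef
  have hR1 : 1 ≤ R := le_max_left _ _
  have hR0 : 0 < R := by linarith
  have hRa : 8 * (C + 2) ^ 2 / ε ≤ R := (le_max_left _ _).trans (le_max_right _ _)
  have hRb : 56 / ε ≤ R := (le_max_right _ _).trans (le_max_right _ _)
  have hbox1 : ((C + 2) / R) ^ 2 ≤ ε / 8 := by
    rw [div_le_iff₀ hε] at hRa
    rw [div_pow, div_le_div_iff₀ (by positivity) (by norm_num)]
    nlinarith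
  have hbox2 : 7 / R ≤ ε / 8 := by
    rw [div_le_iff₀ hε] at hRb
    rw [div_le_div_iff₀ hR0 (by norm_num)]
    linarith
  obtain ⟨b, hb, hbd⟩ := hbds (2 ^ k) R hR1
  set Ω : Set L := {x | x ∈ Bx φ ψ 1 1 ∧ C / R < ‖ψ x‖} with hΩ
  have hB1 : Bd φ ψ (Bx φ ψ 1 1) := hMUB.bdb L φ ψ 1 1
  have hΩsub : Ω ⊆ Bx φ ψ 1 1 := fun x hx => hx.1
  have hΩbd : Bd φ ψ Ω := hMUB.bds L φ ψ _ _ hB1 hΩsub
  have hne : ∀ {a : ℝ} {x : L}, 0 ≤ a → a < ‖ψ x‖ → x ≠ 0 := by
    intro a x ha hx h0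
    rw [h0, map_zero, norm_zero] at hx
    linarith
  have hsmall : ∀ (i : Fin (2 ^ k)) (x : L), C / R < ‖ψ x‖ → ‖ψ (b i / x)‖ < r := by
    intro i x hx
    have hx0 : 0 < ‖ψ x‖ := lt_of_le_of_lt (by positivity) hx
    rw [map_div₀, norm_div, div_lt_iff₀ hx0]
    have h1 : ‖ψ (b i)‖ ≤ 1 / R := (hb i).2
    have h2 : κ * (C / R) = 4 / R := by
      rw [← mul_div_assoc, hκC]
    have h3 : κ * (C / R) < κ * ‖ψ x‖ := mul_lt_mul_of_pos_left hx hκ
    have h4 : κ * ‖ψ x‖ ≤ r * ‖ψ x‖ := mul_le_mul_of_nonneg_right hκr hx0.le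
    have h5 : 1 / R ≤ 4 / R := by
      apply div_le_div_of_nonneg_right (by norm_num) hR0.le
    linarith
  have hkey : ∀ i j : Fin (2 ^ k), i < j →
      ε / 8 * 1 ≤ μ {x ∈ Ω | h (b i / x) ≠ h (b j / x)} := by
    intro i j hij
    set e : L := b i - b j with he
    have heψ : ‖ψ e‖ ≤ 2 / R := by
      rw [he, map_sub]
      have := norm_sub_le (ψ (b i)) (ψ (b j))
      have h1 := (hb i).2
      have h2 := (hb j).2
      have h3 : 2 / R = 1 / R + 1 / R := by ring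
      linarith
    set S1 : Set L := {x ∈ Bx φ ψ 1 1 | ¬ Good ψ h κ e x} with hS1
    set S2 : Set L := {x | x ∈ Bx φ ψ 1 1 ∧ (C + 1) / R < ‖ψ x‖ ∧ h (e / x) ≠ 0} with hS2
    have hS1μ : ε / 2 < μ S1 := hbd i j hij
    have hS2bd : Bd φ ψ S2 := hMUB.bds L φ ψ _ _ hB1 (fun x hx => hx.1)
    have hsub1 : S1 ⊆ Bx φ ψ 1 ((C + 2) / R) ∪ S2 := by
      intro x hx
      by_cases hxn : ‖ψ x‖ ≤ (C + 1) / R
      · left
        refine ⟨hx.1.1, lt_of_le_of_lt hxn ?_⟩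
        apply div_lt_div_of_pos_right _ hR0
        linarith
      · right
        push Not at hxn
        refine ⟨hx.1, hxn, fun h0 => hx.2 ⟨?_, ?_, h0⟩⟩
        · exact hne (by positivity) hxn
        · have h1 : κ * ((C + 1) / R) ≤ κ * ‖ψ x‖ := mul_le_mul_of_nonneg_left hxn.le hκ.le
          have h2 : κ * ((C + 1) / R) = 4 / R + κ / R := by
            rw [← mul_div_assoc, mul_add, hκC]
            ring
          have h3 : 2 / R ≤ 4 / R := div_le_div_of_nonneg_right (by norm_num) hR0.le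
          have h4 : 0 < κ / R := by positivity
          linarith
    have hμ2 : ε / 2 - ((C + 2) / R) ^ 2 < μ S2 := by
      have h1 := hMUB.mono L φ ψ μ hV S1 (Bx φ ψ 1 ((C + 2) / R) ∪ S2)
        (hMUB.bds L φ ψ _ (Bx φ ψ (max 1 ((C + 2) / R)) (max 1 ((C + 2) / R)))
          (hMUB.bdb L φ ψ _ _) (by
            rintro x (hx | hx)
            · exact ⟨lt_of_lt_of_le hx.1 (le_max_left _ _), lt_of_lt_of_le hx.2 (le_max_right _ _)⟩
            · exact ⟨lt_of_lt_of_le hx.1.1 (le_max_left _ _),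
                lt_of_lt_of_le hx.1.2 (le_max_left _ _)⟩)) hsub1
      have h2 := hMUB.sub L φ ψ μ hV (Bx φ ψ 1 ((C + 2) / R)) S2 (hMUB.bdb L φ ψ _ _) hS2bd
      rw [hMUB.box L φ ψ μ hdn hV 1 ((C + 2) / R) one_pos (by positivity)] at h2
      linarith
    set S3 : Set L := (fun x => x + (- b j)) '' S2 with hS3
    have hμ3 : μ S3 = μ S2 := hV.tr S2 hS2bd (- b j)
    have hS3sub : S3 ⊆ {x ∈ Ω | h (b i / x) ≠ h (b j / x)} ∪
        (Bx φ ψ (1 + 1 / R) (1 + 1 / R) \ Bx φ ψ 1 1) := by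
      rintro x' ⟨x, ⟨hxB, hxn, hxh⟩, rfl⟩
      have hjφ := (hb j).1
      have hjψ := (hb j).2
      by_cases hin : x + (- b j) ∈ Bx φ ψ 1 1
      · left
        have h1 : C / R < ‖ψ (x + (- b j))‖ := by
          have h2 : ψ x = ψ (x + (- b j)) + ψ (b j) := by
            rw [← map_add]
            congr 1
            ring
          have h3 : ‖ψ x‖ ≤ ‖ψ (x + (- b j))‖ + ‖ψ (b j)‖ := by
            rw [h2]
            exact norm_add_le _ _
          have h4 : (C + 1) / R = C / R + 1 / R := by ring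
          linarith
        refine ⟨⟨hin, h1⟩, ?_⟩
        have hx'0 : x + (- b j) ≠ 0 := hne (by positivity) h1
        have hx0 : x ≠ 0 := hne (by positivity) hxn
        have hxpos : 0 < ‖ψ x‖ := lt_of_le_of_lt (by positivity) hxn
        have hs : ‖ψ (b j / (x + (- b j)))‖ < r := hsmall j _ h1
        have ht : ‖ψ (e / x)‖ < r := by
          rw [map_div₀, norm_div, div_lt_iff₀ hxpos]
          have h2 : κ * (C / R) = 4 / R := by
            rw [← mul_div_assoc, hκC]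
          have h3 : C / R < (C + 1) / R := div_lt_div_of_pos_right (by linarith) hR0
          have h4 : κ * (C / R) < κ * ‖ψ x‖ := mul_lt_mul_of_pos_left (h3.trans hxn) hκ
          have h5 : κ * ‖ψ x‖ ≤ r * ‖ψ x‖ := mul_le_mul_of_nonneg_right hκr hxpos.le
          have h6 : 2 / R ≤ 4 / R := div_le_div_of_nonneg_right (by norm_num) hR0.le
          linarith
        have hadd := hC.cl.hadd _ _ hs ht
        have hid : b j / (x + (- b j)) + e / x + b j / (x + (- b j)) * (e / x) =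
            b i / (x + (- b j)) := by
          rw [he]
          field_simp
          ring
        rw [hid] at hadd
        intro heq
        apply hxh
        rw [heq] at hadd
        exact left_eq_add.1 hadd
      · right
        refine ⟨⟨?_, ?_⟩, hin⟩
        · rw [map_add, map_neg]
          have h2 := abs_add_le (φ x) (-φ (b j))
          rw [abs_neg] at h2
          linarith [hxB.1]
        · rw [map_add, map_neg]
          have h2 := norm_add_le (ψ x) (-ψ (b j))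
          rw [norm_neg] at h2
          linarith [hxB.2]
    have hsh := shell hMUB hdn hV hR1
    have hbdA : Bd φ ψ {x ∈ Ω | h (b i / x) ≠ h (b j / x)} :=
      hMUB.bds L φ ψ _ _ hΩbd (fun x hx => hx.1)
    have hbdB : Bd φ ψ (Bx φ ψ (1 + 1 / R) (1 + 1 / R) \ Bx φ ψ 1 1) :=
      hMUB.bds L φ ψ _ _ (hMUB.bdb L φ ψ (1 + 1 / R) (1 + 1 / R)) Set.sdiff_subset
    have hbdU : Bd φ ψ ({x ∈ Ω | h (b i / x) ≠ h (b j / x)} ∪
        (Bx φ ψ (1 + 1 / R) (1 + 1 / R) \ Bx φ ψ 1 1)) := by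
      apply hMUB.bds L φ ψ _ _ (hMUB.bdb L φ ψ (1 + 1 / R) (1 + 1 / R))
      have hinv : 0 < 1 / R := by positivity
      rintro x (hx | hx)
      · exact ⟨by linarith [hx.1.1.1], by linarith [hx.1.1.2]⟩
      · exact hx.1
    have h1 := hMUB.mono L φ ψ μ hV _ _ hbdU hS3sub
    have h2 := hMUB.sub L φ ψ μ hV _ _ hbdA hbdB
    rw [hμ3] at h1
    linarith
  have hM2 : 1 < 2 ^ k := Nat.one_lt_two_pow (by omega)
  have hΩne : Ω.Nonempty := by
    by_contra hcon2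
    rw [Set.not_nonempty_iff_eq_empty] at hcon2
    have h1 := hkey ⟨0, by omega⟩ ⟨1, hM2⟩ (by
      rw [Fin.mk_lt_mk]
      exact one_pos)
    have h2 : {x ∈ Ω | h (b ⟨0, by omega⟩ / x) ≠ h (b ⟨1, hM2⟩ / x)} = ∅ := by
      rw [hcon2]
      ext x
      simp
    rw [h2, hMUB.emp L φ ψ μ hV] at h1
    linarith
  have hΩ1 : μ Ω ≤ 1 := by
    have := hMUB.mono L φ ψ μ hV Ω _ hB1 hΩsub
    rwa [hV.un] at this
  have hm : ((2 ^ k : ℕ) : ℝ) ^ 2 * (1 - ε / 8) ^ (c * k) < 1 := by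
    rw [pow_mul]
    have h1 : ((1 - ε / 8) ^ c) ^ k ≤ (1 / 8 : ℝ) ^ k :=
      pow_le_pow_left₀ (pow_nonneg hbase0 _) hc.le _
    have h2 : ((2 ^ k : ℕ) : ℝ) ^ 2 = 4 ^ k := by
      push_cast
      rw [← pow_mul, mul_comm, pow_mul]
      norm_num
    rw [h2]
    calc (4 : ℝ) ^ k * ((1 - ε / 8) ^ c) ^ k ≤ 4 ^ k * (1 / 8) ^ k :=
          mul_le_mul_of_nonneg_left h1 (by positivity)
      _ = (1 / 2) ^ k := by
          rw [← mul_pow]
          norm_num
      _ < 1 := pow_lt_one₀ (by norm_num) (by norm_num) (by omega)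
  obtain ⟨x, hxΩ, hxsep⟩ := hSEP L A μ Ω 1 (ε / 8) hΩne
    (fun S hS => hV.nn S (hMUB.bds L φ ψ _ _ hΩbd hS))
    (fun S T hS hT hd => hV.ad S T (hMUB.bds L φ ψ _ _ hΩbd hS) (hMUB.bds L φ ψ _ _ hΩbd hT) hd)
    hΩ1 one_pos (by linarith) (by linarith) (2 ^ k) (fun i y => h (b i / y)) hkey (c * k) hm
  have hcnt := hC.cnt (c * k) (2 ^ k) (fun i => (x i)⁻¹) b (by
    intro i j
    have h1 : (x i)⁻¹ * b j = b j / x i := by
      rw [div_eq_mul_inv, mul_comm]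
    rw [h1]
    exact hsmall j (x i) (hxΩ i).2) (by
    intro j j' hjj
    obtain ⟨i, hi⟩ := hxsep j j' hjj
    refine ⟨i, ?_⟩
    have h1 : ∀ j, (x i)⁻¹ * b j = b j / x i := by
      intro j
      rw [div_eq_mul_inv, mul_comm]
    rw [h1, h1]
    exact hi)
  exact absurd hcnt (not_le.2 hk)

end Pool.Agent.Lib.MP_556c5c_lc
end

section
/-!
# MP_556c5c_lc, module UPI: the upper integral (helper76)
-/
open MeasureTheory Filter Topology

namespace Pool.Agent.Lib.MP_556c5c_lc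

namespace UPIM

/-! ### Cutoffs -/

/-- the cutoff -/
noncomputable def ch (r s : ℝ) (v : ℝ × ℂ) : ℝ := max 0 (min 1 ((s - ‖v‖) / (s - r)))

theorem ch_cont (r s : ℝ) : Continuous (ch r s) := by
  unfold ch
  exact continuous_const.max (continuous_const.min ((continuous_const.sub continuous_norm).div_const _))

theorem ch_nonneg (r s : ℝ) (v : ℝ × ℂ) : 0 ≤ ch r s v := le_max_left _ _

theorem ch_le_one (r s : ℝ) (v : ℝ × ℂ) : ch r s v ≤ 1 :=
  max_le zero_le_one (min_le_left _ _)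

theorem ch_one {r s : ℝ} (h : r < s) {v : ℝ × ℂ} (hv : ‖v‖ ≤ r) : ch r s v = 1 := by
  have h1 : 1 ≤ (s - ‖v‖) / (s - r) := by
    rw [le_div_iff₀ (by linarith)]
    linarith
  unfold ch
  rw [min_eq_left h1]
  exact max_eq_right zero_le_one

theorem ch_zero {r s : ℝ} (h : r < s) {v : ℝ × ℂ} (hv : s ≤ ‖v‖) : ch r s v = 0 := by
  have h1 : (s - ‖v‖) / (s - r) ≤ 0 := div_nonpos_of_nonpos_of_nonneg (by linarith) (by linarith)
  unfold ch
  exact max_eq_left ((min_le_right _ _).trans h1)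

theorem ch_supp {r s : ℝ} (h : r < s) : HasCompactSupport (ch r s) := by
  refine HasCompactSupport.intro (isCompact_closedBall (0 : ℝ × ℂ) s) fun v hv => ?_
  refine ch_zero h ?_
  rw [Metric.mem_closedBall, dist_zero_right, not_le] at hv
  exact hv.le

/-! ### The normalised integral -/

instance haar : (volume : Measure (ℝ × ℂ)).IsAddHaarMeasure :=
  inferInstanceAs ((volume : Measure ℝ).prod (volume : Measure ℂ)).IsAddHaarMeasure

/-- the volume of the unit box -/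
noncomputable def V : ℝ := (volume : Measure (ℝ × ℂ)).real (Metric.ball 0 1)

theorem V_pos : 0 < V := by
  unfold V
  rw [measureReal_def]
  exact ENNReal.toReal_pos (Metric.measure_ball_pos _ _ one_pos).ne' measure_ball_lt_top.ne

/-- the normalised integral -/
noncomputable def I (G : ℝ × ℂ → ℝ) : ℝ := (∫ v, G v) / V

theorem I_mono {G H : ℝ × ℂ → ℝ} (hG : Continuous G) (hG' : HasCompactSupport G)
    (hH : Continuous H) (hH' : HasCompactSupport H) (h : ∀ v, H v ≤ G v) : I H ≤ I G := by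
  unfold I
  refine div_le_div_of_nonneg_right ?_ V_pos.le
  exact integral_mono (hH.integrable_of_hasCompactSupport hH')
    (hG.integrable_of_hasCompactSupport hG') h

theorem I_add {G H : ℝ × ℂ → ℝ} (hG : Continuous G) (hG' : HasCompactSupport G)
    (hH : Continuous H) (hH' : HasCompactSupport H) : I (fun v => G v + H v) = I G + I H := by
  unfold I
  rw [integral_add (hG.integrable_of_hasCompactSupport hG')
    (hH.integrable_of_hasCompactSupport hH'), add_div]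

theorem I_smul (c : ℝ) (G : ℝ × ℂ → ℝ) : I (fun v => c * G v) = c * I G := by
  unfold I
  rw [integral_const_mul, mul_div_assoc]

/-- the exponent -/
noncomputable def dd : ℕ := Module.finrank ℝ (ℝ × ℂ)

theorem I_ch_le {r s : ℝ} (h : r < s) (hs : 0 ≤ s) : I (ch r s) ≤ s ^ dd := by
  have h1 : ∫ v, ch r s v ≤ (volume : Measure (ℝ × ℂ)).real (Metric.closedBall 0 s) := by
    rw [← integral_indicator_one measurableSet_closedBall]
    refine integral_mono ((ch_cont r s).integrable_of_hasCompactSupport (ch_supp h)) ?_ fun v => ?_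
    · refine (integrable_indicator_iff measurableSet_closedBall).2 ?_
      exact integrableOn_const measure_closedBall_lt_top.ne
    · by_cases hv : v ∈ Metric.closedBall (0 : ℝ × ℂ) s
      · rw [Set.indicator_of_mem hv]
        exact ch_le_one r s v
      · rw [Set.indicator_of_notMem hv]
        rw [Metric.mem_closedBall, dist_zero_right, not_le] at hv
        exact (ch_zero h hv.le).le
  unfold I
  rw [div_le_iff₀ V_pos]
  rw [Measure.addHaar_real_closedBall _ _ hs] at h1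
  exact h1

theorem le_I_ch {r s : ℝ} (h : r < s) (hr : 0 ≤ r) : r ^ dd ≤ I (ch r s) := by
  have h1 : (volume : Measure (ℝ × ℂ)).real (Metric.closedBall 0 r) ≤ ∫ v, ch r s v := by
    rw [← integral_indicator_one measurableSet_closedBall]
    refine integral_mono ?_ ((ch_cont r s).integrable_of_hasCompactSupport (ch_supp h)) fun v => ?_
    · refine (integrable_indicator_iff measurableSet_closedBall).2 ?_
      exact integrableOn_const measure_closedBall_lt_top.ne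
    · by_cases hv : v ∈ Metric.closedBall (0 : ℝ × ℂ) r
      · rw [Set.indicator_of_mem hv]
        rw [Metric.mem_closedBall, dist_zero_right] at hv
        exact (ch_one h hv).ge
      · rw [Set.indicator_of_notMem hv]
        exact ch_nonneg r s v
  unfold I
  rw [le_div_iff₀ V_pos]
  rw [Measure.addHaar_real_closedBall _ _ hr] at h1
  exact h1

/-! ### Changes of variables -/

theorem I_trans (G : ℝ × ℂ → ℝ) (w : ℝ × ℂ) : I (fun v => G (v - w)) = I G := by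
  unfold I
  rw [integral_sub_right_eq_self G w]

/-- multiplication by `(a, b)` -/
noncomputable def TT (a : ℝ) (b : ℂ) : ℝ × ℂ →ₗ[ℝ] ℝ × ℂ :=
  (LinearMap.mul ℝ ℝ a).prodMap (LinearMap.mul ℝ ℂ b)

theorem TT_apply (a : ℝ) (b : ℂ) (v : ℝ × ℂ) : TT a b v = (a * v.1, b * v.2) := rfl

theorem det_TT (a : ℝ) (b : ℂ) : LinearMap.det (TT a b) = a * ‖b‖ ^ 2 := by
  unfold TT
  rw [LinearMap.det_prodMap]
  congr 1
  · have h := Algebra.norm_apply ℝ a
    rw [Algebra.norm_self] at h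
    exact h.symm
  · have h := Algebra.norm_apply ℝ b
    rw [Algebra.norm_complex_apply, Complex.normSq_eq_norm_sq] at h
    exact h.symm

theorem I_scal {G : ℝ × ℂ → ℝ} (hG : Continuous G) (a : ℝ) (b : ℂ) (ha : a ≠ 0) (hb : b ≠ 0) :
    I (fun v => G (TT a b v)) = (|a| * ‖b‖ ^ 2)⁻¹ * I G := by
  have hdet : LinearMap.det (TT a b) ≠ 0 := by
    rw [det_TT]
    exact mul_ne_zero ha (pow_ne_zero _ (norm_ne_zero_iff.2 hb))
  have hm := Measure.map_linearMap_addHaar_eq_smul_addHaar (volume : Measure (ℝ × ℂ)) hdet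
  have hc : Continuous (TT a b) := LinearMap.continuous_of_finiteDimensional _
  have h1 : ∫ v, G (TT a b v) = ∫ v, G v ∂(Measure.map (TT a b) volume) := by
    rw [integral_map hc.aemeasurable hG.aestronglyMeasurable]
  unfold I
  rw [h1, hm, integral_smul_measure, ENNReal.toReal_ofReal (abs_nonneg _), det_TT, smul_eq_mul,
    abs_inv, abs_mul, abs_of_nonneg (sq_nonneg ‖b‖), mul_div_assoc]

/-! ### Admissible functions -/

section

variable {L : Type} [Field L]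

/-- admissible functions -/
structure Adm (φ : L →+* ℝ) (ψ : L →+* ℂ) (f : L → ℝ) (G : ℝ × ℂ → ℝ) : Prop where
  c : Continuous G
  s : HasCompactSupport G
  le : ∀ x, f x ≤ G (φ x, ψ x)

/-- the upper integral -/
noncomputable def MM (φ : L →+* ℝ) (ψ : L →+* ℂ) (f : L → ℝ) : ℝ :=
  sInf {y | ∃ G, Adm φ ψ f G ∧ y = I G}

theorem mem_Bx {φ : L →+* ℝ} {ψ : L →+* ℂ} {R : ℝ} {x : L} :
    x ∈ Bx φ ψ R R ↔ ‖((φ x, ψ x) : ℝ × ℂ)‖ < R := by
  rw [Prod.norm_def, max_lt_iff, Real.norm_eq_abs]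
  rfl

theorem dense {φ : L →+* ℝ} {ψ : L →+* ℂ} (hD : Dn φ ψ) :
    DenseRange (fun x : L => ((φ x, ψ x) : ℝ × ℂ)) := by
  intro v
  rw [Metric.mem_closure_iff]
  intro ε hε
  obtain ⟨x, h1, h2⟩ := hD v.1 v.2 ε hε
  refine ⟨_, ⟨x, rfl⟩, ?_⟩
  rw [dist_comm, Prod.dist_eq, max_lt_iff, Real.dist_eq, dist_eq_norm]
  exact ⟨h1, h2⟩

theorem low {φ : L →+* ℝ} {ψ : L →+* ℂ} (hD : Dn φ ψ) {f : L → ℝ} {G H : ℝ × ℂ → ℝ}
    (hG : Adm φ ψ f G) (hH : Continuous H) (hH' : HasCompactSupport H)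
    (h : ∀ x, H (φ x, ψ x) ≤ f x) : I H ≤ I G := by
  refine I_mono hG.c hG.s hH hH' fun v => ?_
  have h1 : ∀ v, 0 ≤ G v - H v := by
    intro v
    have h2 : IsClosed {v : ℝ × ℂ | 0 ≤ G v - H v} := isClosed_le continuous_const (hG.c.sub hH)
    have h3 : Set.range (fun x : L => ((φ x, ψ x) : ℝ × ℂ)) ⊆ {v : ℝ × ℂ | 0 ≤ G v - H v} := by
      rintro _ ⟨x, rfl⟩
      exact sub_nonneg.2 ((h x).trans (hG.le x))
    exact h2.closure_subset_iff.2 h3 (dense hD v)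
  linarith [h1 v]

theorem EE_bd {φ : L →+* ℝ} {ψ : L →+* ℂ} (f : EE φ ψ) : ∃ C R : ℝ, 0 ≤ C ∧
    ∀ x, |(f : L → ℝ) x| ≤ C * ch R (R + 1) (φ x, ψ x) := by
  obtain ⟨C, R, h⟩ := f.2
  refine ⟨C, R, (abs_nonneg _).trans (h 0).1, fun x => ?_⟩
  by_cases h1 : (f : L → ℝ) x = 0
  · rw [h1, abs_zero]
    exact mul_nonneg ((abs_nonneg _).trans (h 0).1) (ch_nonneg _ _ _)
  · rw [ch_one (by linarith) (mem_Bx.1 ((h x).2 h1)).le, mul_one]
    exact (h x).1

theorem ex_adm {φ : L →+* ℝ} {ψ : L →+* ℂ} (f : EE φ ψ) : ∃ G, Adm φ ψ (f : L → ℝ) G := by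
  obtain ⟨C, R, _, h⟩ := EE_bd f
  refine ⟨fun v => C * ch R (R + 1) v, continuous_const.mul (ch_cont _ _),
    (ch_supp (by linarith)).mul_left, fun x => (le_abs_self _).trans (h x)⟩

theorem bdd {φ : L →+* ℝ} {ψ : L →+* ℂ} (hD : Dn φ ψ) (f : EE φ ψ) :
    BddBelow {y | ∃ G, Adm φ ψ (f : L → ℝ) G ∧ y = I G} := by
  obtain ⟨C, R, _, h⟩ := EE_bd f
  refine ⟨I (fun v => -C * ch R (R + 1) v), ?_⟩
  rintro _ ⟨G, hG, rfl⟩
  refine low hD hG (continuous_const.mul (ch_cont _ _)) (ch_supp (by linarith)).mul_left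
    fun x => ?_
  have h1 := neg_abs_le ((f : L → ℝ) x)
  have h2 := h x
  linarith

theorem MM_le {φ : L →+* ℝ} {ψ : L →+* ℂ} (hD : Dn φ ψ) (f : EE φ ψ) {G : ℝ × ℂ → ℝ}
    (hG : Adm φ ψ (f : L → ℝ) G) : MM φ ψ (f : L → ℝ) ≤ I G :=
  csInf_le (bdd hD f) ⟨G, hG, rfl⟩

theorem le_MM {φ : L →+* ℝ} {ψ : L →+* ℂ} (f : EE φ ψ) {B : ℝ}
    (h : ∀ G, Adm φ ψ (f : L → ℝ) G → B ≤ I G) : B ≤ MM φ ψ (f : L → ℝ) := by
  obtain ⟨G, hG⟩ := ex_adm f
  refine le_csInf ⟨_, G, hG, rfl⟩ ?_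
  rintro _ ⟨G, hG, rfl⟩
  exact h G hG

theorem hom_le {φ : L →+* ℝ} {ψ : L →+* ℂ} (hD : Dn φ ψ) (c : ℝ) (f : EE φ ψ) (hc : 0 < c) :
    MM φ ψ ((c • f : EE φ ψ) : L → ℝ) ≤ c * MM φ ψ (f : L → ℝ) := by
  have h1 : c⁻¹ * MM φ ψ ((c • f : EE φ ψ) : L → ℝ) ≤ MM φ ψ (f : L → ℝ) := by
    refine le_MM f fun G hG => ?_
    have h2 : MM φ ψ ((c • f : EE φ ψ) : L → ℝ) ≤ I (fun v => c * G v) := by
      refine MM_le hD _ ⟨continuous_const.mul hG.c, hG.s.mul_left, fun x => ?_⟩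
      show c * (f : L → ℝ) x ≤ c * G (φ x, ψ x)
      exact mul_le_mul_of_nonneg_left (hG.le x) hc.le
    rw [I_smul] at h2
    rw [inv_mul_le_iff₀ hc]
    exact h2
  rw [inv_mul_le_iff₀ hc] at h1
  exact h1

end

end UPIM

open UPIM in
theorem specUPI : SpecUPI := by
  intro L _ φ ψ hD
  refine ⟨fun f => MM φ ψ (f : L → ℝ), ⟨?_, ?_⟩, ?_, ?_, ?_, ?_, ?_⟩
  · intro c f hc
    refine le_antisymm (hom_le hD c f hc) ?_
    have h1 := hom_le hD c⁻¹ (c • f) (inv_pos.2 hc)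
    rw [smul_smul, inv_mul_cancel₀ hc.ne', one_smul] at h1
    rw [← div_eq_inv_mul, le_div_iff₀ hc] at h1
    rw [mul_comm]
    exact h1
  · intro f g
    have h1 : MM φ ψ ((f + g : EE φ ψ) : L → ℝ) - MM φ ψ (g : L → ℝ) ≤ MM φ ψ (f : L → ℝ) := by
      refine le_MM f fun G hG => ?_
      have h2 : MM φ ψ ((f + g : EE φ ψ) : L → ℝ) - I G ≤ MM φ ψ (g : L → ℝ) := by
        refine le_MM g fun G' hG' => ?_
        have h3 : MM φ ψ ((f + g : EE φ ψ) : L → ℝ) ≤ I (fun v => G v + G' v) :=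
          MM_le hD _ ⟨hG.c.add hG'.c, hG.s.add hG'.s, fun x => add_le_add (hG.le x) (hG'.le x)⟩
        rw [I_add hG.c hG.s hG'.c hG'.s] at h3
        linarith
      linarith
    show MM φ ψ ((f + g : EE φ ψ) : L → ℝ) ≤ MM φ ψ (f : L → ℝ) + MM φ ψ (g : L → ℝ)
    linarith
  · intro f hf
    have h1 : MM φ ψ (f : L → ℝ) ≤ I (fun _ => 0) :=
      MM_le hD f ⟨continuous_const, HasCompactSupport.zero, hf⟩
    have h2 : I (fun _ => 0) = 0 := by
      unfold I
      simp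
    rw [h2] at h1
    exact h1
  · intro f g t hfg
    refine le_MM f fun G hG => ?_
    have h1 : MM φ ψ (g : L → ℝ) ≤ I (fun v => G (v - (φ t, ψ t))) := by
      refine MM_le hD g ⟨hG.c.comp (continuous_id.sub continuous_const), ?_, fun x => ?_⟩
      · exact hG.s.comp_homeomorph (Homeomorph.subRight ((φ t, ψ t) : ℝ × ℂ))
      · rw [hfg x]
        refine (hG.le (x - t)).trans (le_of_eq ?_)
        rw [map_sub, map_sub]
        rfl
    rw [I_trans] at h1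
    exact h1
  · intro f g c hc hfg
    refine le_MM f fun G hG => ?_
    have ha : φ c ≠ 0 := (map_ne_zero φ).2 hc
    have hb : ψ c ≠ 0 := (map_ne_zero ψ).2 hc
    have ha' : (φ c)⁻¹ ≠ 0 := inv_ne_zero ha
    have hb' : (ψ c)⁻¹ ≠ 0 := inv_ne_zero hb
    have hk : 0 < |φ c| * ‖ψ c‖ ^ 2 := by positivity
    have hT : Continuous (TT (φ c)⁻¹ (ψ c)⁻¹) := LinearMap.continuous_of_finiteDimensional _
    have h1 : MM φ ψ (g : L → ℝ) ≤
        I (fun v => (|φ c| * ‖ψ c‖ ^ 2)⁻¹ * G (TT (φ c)⁻¹ (ψ c)⁻¹ v)) := by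
      refine MM_le hD g ⟨continuous_const.mul (hG.c.comp hT), ?_, fun x => ?_⟩
      · refine HasCompactSupport.mul_left ?_
        have e : (fun v => G (TT (φ c)⁻¹ (ψ c)⁻¹ v)) = G ∘
            ((Homeomorph.mulLeft₀ (φ c)⁻¹ ha').prodCongr (Homeomorph.mulLeft₀ (ψ c)⁻¹ hb')) := by
          funext v
          rfl
        rw [e]
        exact hG.s.comp_homeomorph _
      · rw [hfg x]
        refine mul_le_mul_of_nonneg_left ?_ (inv_nonneg.2 hk.le)
        refine (hG.le (c⁻¹ * x)).trans (le_of_eq ?_)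
        rw [map_mul, map_mul, map_inv₀, map_inv₀]
        rfl
    rw [I_smul, I_scal hG.c _ _ ha' hb', ← mul_assoc, abs_inv, norm_inv] at h1
    have h2 : (|φ c| * ‖ψ c‖ ^ 2)⁻¹ * (|φ c|⁻¹ * ‖ψ c‖⁻¹ ^ 2)⁻¹ = 1 := by
      have e1 : |φ c| ≠ 0 := abs_ne_zero.2 ha
      have e2 : ‖ψ c‖ ≠ 0 := norm_ne_zero_iff.2 hb
      field_simp
    rw [h2, one_mul] at h1
    exact h1
  · intro f hf
    have h1 : ∀ s : ℝ, 1 < s → MM φ ψ (f : L → ℝ) ≤ s ^ dd := by
      intro s hs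
      have h2 : MM φ ψ (f : L → ℝ) ≤ I (ch 1 s) := by
        refine MM_le hD f ⟨ch_cont 1 s, ch_supp hs, fun x => ?_⟩
        rw [hf x]
        by_cases hx : x ∈ Bx φ ψ 1 1
        · rw [Set.indicator_of_mem hx, ch_one hs (mem_Bx.1 hx).le]
        · rw [Set.indicator_of_notMem hx]
          exact ch_nonneg _ _ _
      exact h2.trans (I_ch_le hs (by linarith))
    have h3 : Tendsto (fun s : ℝ => s ^ dd) (𝓝[>] 1) (𝓝 (1 ^ dd)) :=
      ((continuous_pow dd).tendsto 1).mono_left nhdsWithin_le_nhds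
    rw [one_pow] at h3
    refine ge_of_tendsto h3 ?_
    filter_upwards [self_mem_nhdsWithin] with s hs
    exact h1 s hs
  · intro f hf
    have h1 : ∀ r : ℝ, 0 < r → r < 1 → MM φ ψ (f : L → ℝ) ≤ - r ^ dd := by
      intro r hr hr1
      have h2 : MM φ ψ (f : L → ℝ) ≤ I (fun v => (-1) * ch r 1 v) := by
        refine MM_le hD f ⟨continuous_const.mul (ch_cont r 1), (ch_supp hr1).mul_left,
          fun x => ?_⟩
        rw [hf x]
        by_cases hx : x ∈ Bx φ ψ 1 1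
        · rw [Set.indicator_of_mem hx]
          have := ch_le_one r 1 (φ x, ψ x)
          linarith
        · rw [Set.indicator_of_notMem hx]
          rw [mem_Bx, not_lt] at hx
          rw [ch_zero hr1 hx]
          simp
      rw [I_smul] at h2
      have h4 := le_I_ch hr1 hr.le
      linarith
    have h3 : Tendsto (fun r : ℝ => - r ^ dd) (𝓝[<] 1) (𝓝 (- 1 ^ dd)) :=
      ((continuous_pow dd).neg.tendsto 1).mono_left nhdsWithin_le_nhds
    rw [one_pow] at h3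
    refine ge_of_tendsto h3 ?_
    have h5 : ∀ᶠ r : ℝ in 𝓝[<] 1, 0 < r :=
      (eventually_gt_nhds (show (0 : ℝ) < 1 by norm_num)).filter_mono nhdsWithin_le_nhds
    filter_upwards [self_mem_nhdsWithin, h5] with r hr hr0
    exact h1 r hr0 hr

end Pool.Agent.Lib.MP_556c5c_lc
end

section
/-!
# MP_556c5c_lc, module VCH : the classes shatter no large sets
-/
set_option autoImplicit false

namespace Pool.Agent.Lib.MP_556c5c_lc

namespace VCHM

open Complex

/-- Rational approximation of complex numbers. -/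
theorem approx (z : ℂ) {ε : ℝ} (hε : 0 < ε) :
    ∃ A B : ℚ, ‖((A : ℂ) + (B : ℂ) * I) - z‖ < ε := by
  obtain ⟨A, hA1, hA2⟩ := exists_rat_btwn (show z.re < z.re + ε / 2 by linarith)
  obtain ⟨B, hB1, hB2⟩ := exists_rat_btwn (show z.im < z.im + ε / 2 by linarith)
  refine ⟨A, B, (norm_le_abs_re_add_abs_im _).trans_lt ?_⟩
  have h1 : (((A : ℂ) + (B : ℂ) * I) - z).re = A - z.re := by
    simp
  have h2 : (((A : ℂ) + (B : ℂ) * I) - z).im = B - z.im := by
    simp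
  rw [h1, h2, abs_of_pos (by linarith), abs_of_pos (by linarith)]
  linarith

variable {K L : Type} [Field K] [Field L] [Algebra K L]

/-- The packing of the parameters. -/
def pack {n : ℕ} (T A B : Fin n → K) (j : Fin (3 * n)) : K :=
  (![T, A, B] : Fin 3 → Fin n → K) (finProdFinEquiv.symm j).1 (finProdFinEquiv.symm j).2

omit [Field K] in
theorem pack_apply {n : ℕ} (T A B : Fin n → K) (b : Fin 3) (k : Fin n) :
    pack T A B (finProdFinEquiv (b, k)) = (![T, A, B] : Fin 3 → Fin n → K) b k := by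
  unfold pack
  rw [Equiv.symm_apply_apply]

theorem polys (hCRD : SpecCRD) {n : ℕ} (e : Module.Basis (Fin n) K L) (w y0 : L) (q : ℕ) (ρ : K) :
    ∃ (F : Fin n → MvPolynomial (Fin n ⊕ (Fin (3 * n) ⊕ Fin n)) K)
      (G : MvPolynomial (Fin n ⊕ (Fin (3 * n) ⊕ Fin n)) K),
      ∀ (z t y : L) (A B : Fin n → K),
        ((∀ l, MvPolynomial.eval (Sum.elim (fun k => e.repr z k)
          (Sum.elim (pack (fun k => e.repr t k) A B) (fun k => e.repr y k))) (F l) = 0) ↔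
          w * y ^ q = 1 + t * z) ∧
        MvPolynomial.eval (Sum.elim (fun k => e.repr z k)
          (Sum.elim (pack (fun k => e.repr t k) A B) (fun k => e.repr y k))) G =
          ρ ^ 2 - (∑ k, e.repr (y - y0) k * A k) ^ 2 - (∑ k, e.repr (y - y0) k * B k) ^ 2 := by
  obtain ⟨F0, hF0⟩ := hCRD K L n e (Fin 3)
    (MvPolynomial.C w * MvPolynomial.X 2 ^ q - 1 - MvPolynomial.X 1 * MvPolynomial.X 0)
  let f : Fin 3 × Fin n → Fin n ⊕ (Fin (3 * n) ⊕ Fin n) := fun p =>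
    (![Sum.inl p.2, Sum.inr (Sum.inl (finProdFinEquiv ((0 : Fin 3), p.2))),
      Sum.inr (Sum.inr p.2)] : Fin 3 → Fin n ⊕ (Fin (3 * n) ⊕ Fin n)) p.1
  refine ⟨fun l => MvPolynomial.rename f (F0 l),
    MvPolynomial.C (ρ ^ 2) -
      (∑ k, (MvPolynomial.X (Sum.inr (Sum.inr k)) - MvPolynomial.C (e.repr y0 k)) *
        MvPolynomial.X (Sum.inr (Sum.inl (finProdFinEquiv ((1 : Fin 3), k))))) ^ 2 -
      (∑ k, (MvPolynomial.X (Sum.inr (Sum.inr k)) - MvPolynomial.C (e.repr y0 k)) *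
        MvPolynomial.X (Sum.inr (Sum.inl (finProdFinEquiv ((2 : Fin 3), k))))) ^ 2, ?_⟩
  intro z t y A B
  constructor
  · have key : ∀ l, MvPolynomial.eval (Sum.elim (fun k => e.repr z k)
          (Sum.elim (pack (fun k => e.repr t k) A B) (fun k => e.repr y k)))
          (MvPolynomial.rename f (F0 l)) = e.repr (w * y ^ q - 1 - t * z) l := by
      intro l
      rw [MvPolynomial.eval_rename, hF0]
      congr 2
      have h0 : (∑ j, (Sum.elim (fun k => e.repr z k)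
          (Sum.elim (pack (fun k => e.repr t k) A B) (fun k => e.repr y k)) ∘ f) ((0 : Fin 3), j) •
            e j) = z := by
        simp only [Function.comp, f, Matrix.cons_val_zero, Sum.elim_inl]
        exact e.sum_repr z
      have h1 : (∑ j, (Sum.elim (fun k => e.repr z k)
          (Sum.elim (pack (fun k => e.repr t k) A B) (fun k => e.repr y k)) ∘ f) ((1 : Fin 3), j) •
            e j) = t := by
        simp only [Function.comp, f, Matrix.cons_val_one, Matrix.cons_val_zero, Sum.elim_inr,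
          Sum.elim_inl, pack_apply]
        exact e.sum_repr t
      have h2 : (∑ j, (Sum.elim (fun k => e.repr z k)
          (Sum.elim (pack (fun k => e.repr t k) A B) (fun k => e.repr y k)) ∘ f) ((2 : Fin 3), j) •
            e j) = y := by
        simp only [Function.comp, f, Matrix.cons_val, Sum.elim_inr]
        exact e.sum_repr y
      simp only [map_sub, map_mul, map_pow, map_one, MvPolynomial.eval_C, MvPolynomial.eval_X]
      rw [h0, h1, h2]
    constructor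
    · intro h
      have h1 : e.repr (w * y ^ q - 1 - t * z) = 0 := by
        ext l
        rw [← key l]
        exact h l
      have h2 : w * y ^ q - 1 - t * z = 0 := by
        rw [← e.repr.map_zero] at h1
        exact e.repr.injective h1
      linear_combination h2
    · intro h l
      rw [key l]
      have h2 : w * y ^ q - 1 - t * z = 0 := by linear_combination h
      rw [h2]
      simp
  · simp only [map_sub, map_mul, map_pow, map_sum, MvPolynomial.eval_C, MvPolynomial.eval_X,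
      Sum.elim_inr, Sum.elim_inl, pack_apply, Matrix.cons_val_one, Matrix.cons_val_zero,
      Matrix.cons_val, Finsupp.coe_sub, Pi.sub_apply]

/-- Rational approximation of the basis. -/
theorem basis_approx {n : ℕ} (e : Module.Basis (Fin n) K L) (ι : K →+* ℝ) (ψ : L →+* ℂ)
    (hψ : ∀ k, ψ (algebraMap K L k) = (ι k : ℂ)) {J : Type} [Fintype J] (y : J → L) {g : ℝ}
    (hg : 0 < g) :
    ∃ A B : Fin n → ℚ, ∀ j,
      ‖∑ k, (ι (e.repr (y j) k) : ℂ) * ((A k : ℂ) + (B k : ℂ) * I) - ψ (y j)‖ < g := by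
  set M : ℝ := 1 + ∑ j, ∑ k, |ι (e.repr (y j) k)| with hM
  have hM0 : 0 ≤ ∑ j, ∑ k, |ι (e.repr (y j) k)| :=
    Finset.sum_nonneg fun j _ => Finset.sum_nonneg fun k _ => abs_nonneg _
  have hM1 : 0 < M := by linarith
  choose A B hAB using fun k => approx (ψ (e k)) (div_pos hg hM1)
  refine ⟨A, B, fun j => ?_⟩
  have h1 : ψ (y j) = ∑ k, (ι (e.repr (y j) k) : ℂ) * ψ (e k) := by
    conv_lhs => rw [← e.sum_repr (y j)]
    rw [map_sum]
    refine Finset.sum_congr rfl fun k _ => ?_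
    rw [Algebra.smul_def, map_mul, hψ]
  rw [h1, ← Finset.sum_sub_distrib]
  have h2 : ∑ k, |ι (e.repr (y j) k)| ≤ M - 1 := by
    rw [hM, add_sub_cancel_left]
    exact Finset.single_le_sum (f := fun j => ∑ k, |ι (e.repr (y j) k)|)
      (fun j _ => Finset.sum_nonneg fun k _ => abs_nonneg _) (Finset.mem_univ j)
  calc ‖∑ k, ((ι (e.repr (y j) k) : ℂ) * ((A k : ℂ) + (B k : ℂ) * I) -
        (ι (e.repr (y j) k) : ℂ) * ψ (e k))‖
      ≤ ∑ k, ‖(ι (e.repr (y j) k) : ℂ) * ((A k : ℂ) + (B k : ℂ) * I) -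
        (ι (e.repr (y j) k) : ℂ) * ψ (e k)‖ := norm_sum_le _ _
    _ ≤ ∑ k, |ι (e.repr (y j) k)| * (g / M) := by
        refine Finset.sum_le_sum fun k _ => ?_
        rw [← mul_sub, norm_mul, Complex.norm_real, Real.norm_eq_abs]
        exact mul_le_mul_of_nonneg_left (hAB k).le (abs_nonneg _)
    _ = (∑ k, |ι (e.repr (y j) k)|) * (g / M) := (Finset.sum_mul _ _ _).symm
    _ ≤ (M - 1) * (g / M) := mul_le_mul_of_nonneg_right h2 (by positivity)
    _ < g := by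
        rw [mul_div_assoc', div_lt_iff₀ hM1]
        nlinarith

/-- The sum of squares is the square of a norm. -/
theorem sq_iff {n : ℕ} [LinearOrder K] [IsStrictOrderedRing K] (ι : K →+* ℝ) (hι : StrictMono ι)
    (c : Fin n → K) (A B : Fin n → ℚ) (ρ : ℚ) (hρ : 0 < ρ) :
    0 < (ρ : K) ^ 2 - (∑ k, c k * (A k : K)) ^ 2 - (∑ k, c k * (B k : K)) ^ 2 ↔
      ‖∑ k, (ι (c k) : ℂ) * ((A k : ℂ) + (B k : ℂ) * I)‖ < ρ := by
  have h1 : ∑ k, (ι (c k) : ℂ) * ((A k : ℂ) + (B k : ℂ) * I) =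
      ((∑ k, ι (c k) * (A k : ℝ) : ℝ) : ℂ) + ((∑ k, ι (c k) * (B k : ℝ) : ℝ) : ℂ) * I := by
    push_cast
    rw [Finset.sum_mul, ← Finset.sum_add_distrib]
    refine Finset.sum_congr rfl fun k _ => ?_
    ring
  have hρ' : (0 : ℝ) < ρ := by exact_mod_cast hρ
  rw [h1, ← abs_of_nonneg (norm_nonneg _), ← abs_of_pos hρ', ← sq_lt_sq, Complex.sq_norm,
    Complex.normSq_add_mul_I, ← hι.lt_iff_lt, map_zero, map_sub, map_sub, map_pow,
    map_pow, map_pow, map_sum, map_sum, map_ratCast]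
  simp only [map_mul, map_ratCast]
  constructor
  · intro h
    linarith
  · intro h
    linarith

end VCHM

open VCHM Complex in
theorem specVCH (hDFN : SpecDFN) (hCRD : SpecCRD) : SpecVCH := by
  classical
  intro K L _ _ _ _ _ _ hNIP ι hι φ ψ hφ hψ hDn A q r h hq hr0 hr1 hWit a
  obtain ⟨w, ν, hν, hw⟩ := hWit a
  have hq0 : 0 < q := hq.pos
  have hqR : (0 : ℝ) < q := by exact_mod_cast hq0
  have hνn : 0 < ‖ν‖ := norm_pos_iff.2 hν
  set g : ℝ := 1 / (16 * q * ‖ν‖) with hg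
  have hg0 : 0 < g := by positivity
  have hgν : 16 * g * ‖ν‖ = 1 / q := by
    rw [hg]
    field_simp
  obtain ⟨y0, -, hy0⟩ := hDn 0 (1 / ν) g hg0
  obtain ⟨ρ, hρ1, hρ2⟩ := exists_rat_btwn (show 10 * g < 14 * g by linarith)
  have hρ0 : 0 < ρ := by
    have : (0 : ℝ) < ρ := by linarith
    exact_mod_cast this
  let e := Module.finBasis K L
  obtain ⟨F, G, hFG⟩ := polys hCRD e w y0 q (ρ : K)
  obtain ⟨N, hN⟩ := hDFN K hNIP _ _ _ _ F G
  refine ⟨N, ?_⟩
  rintro ⟨t, Z, htZ, hS⟩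
  apply hN
  -- the solutions
  have hne : ∀ i S, 1 + t i * Z S ≠ 0 := by
    intro i S h1
    have h2 : t i * Z S = -1 := by linear_combination h1
    have h3 := htZ i S
    rw [h2, map_neg, map_one, norm_neg, norm_one] at h3
    linarith
  have huniq : ∀ i S (y y' : L), w * y ^ q = 1 + t i * Z S → w * y' ^ q = 1 + t i * Z S →
      y = y' := by
    intro i S y y' h1 h2
    have hw0 : w ≠ 0 := by
      rintro rfl
      rw [zero_mul] at h1
      exact hne i S h1.symm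
    have h3 : y ^ q = y' ^ q := mul_left_cancel₀ hw0 (h1.trans h2.symm)
    have h4 : φ y ^ q = φ y' ^ q := by rw [← map_pow, h3, map_pow]
    exact φ.injective (hq.strictMono_pow.injective h4)
  let sol : Fin N × Finset (Fin N) → L := fun p =>
    if h : ∃ y, w * y ^ q = 1 + t p.1 * Z p.2 then h.choose else 0
  have hsol : ∀ i S (y : L), w * y ^ q = 1 + t i * Z S → sol (i, S) = y := by
    intro i S y hy
    have hex : ∃ y, w * y ^ q = 1 + t i * Z S := ⟨y, hy⟩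
    change (if h : ∃ y, w * y ^ q = 1 + t i * Z S then h.choose else 0) = y
    rw [dif_pos hex]
    exact huniq i S _ _ hex.choose_spec hy
  obtain ⟨PA, PB, hPAB⟩ := basis_approx e ι ψ hψ (fun p => sol p - y0) hg0
  refine ⟨fun i => pack (fun k => e.repr (t i) k) (fun k => (PA k : K)) (fun k => (PB k : K)),
    fun S => ⟨fun k => e.repr (Z S) k, fun i => ?_⟩⟩
  have hnorm : ∀ y : L, ‖ν * ψ y - 1‖ = ‖ν‖ * ‖ψ y - 1 / ν‖ := by
    intro y
    rw [← norm_mul]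
    congr 1
    field_simp
  rw [← hS S i]
  constructor
  · rintro ⟨yy, h1, h2⟩
    have hyy : yy = fun k => e.repr (∑ j, yy j • e j) k := by
      funext k
      rw [e.repr_sum_self]
    rw [hyy] at h1 h2
    obtain ⟨h3, h4⟩ := hFG (Z S) (t i) (∑ j, yy j • e j) (fun k => (PA k : K)) (fun k => (PB k : K))
    have h5 := h3.1 h1
    rw [h4, sq_iff ι hι _ PA PB ρ hρ0] at h2
    have h6 := hPAB (i, S)
    rw [hsol i S _ h5] at h6
    set y := ∑ j, yy j • e j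
    refine (hw (t i * Z S) (htZ i S)).2 y h5 ?_
    rw [hnorm]
    have h7 : ‖ψ (y - y0)‖ < 15 * g := by
      have h8 := norm_sub_norm_le (ψ (y - y0)) (∑ k, (ι (e.repr (y - y0) k) : ℂ) *
        ((PA k : ℂ) + (PB k : ℂ) * I))
      rw [norm_sub_rev] at h8
      linarith
    have h8 : ‖ψ y - 1 / ν‖ < 16 * g := by
      have h9 : ψ y - 1 / ν = ψ (y - y0) + (ψ y0 - 1 / ν) := by
        rw [map_sub]
        ring
      rw [h9]
      exact (norm_add_le _ _).trans_lt (by linarith)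
    rw [← hgν]
    nlinarith
  · intro h1
    obtain ⟨y, hy, hy2⟩ := (hw (t i * Z S) (htZ i S)).1 h1
    obtain ⟨h3, h4⟩ := hFG (Z S) (t i) y (fun k => (PA k : K)) (fun k => (PB k : K))
    refine ⟨fun k => e.repr y k, h3.2 hy, ?_⟩
    rw [h4, sq_iff ι hι _ PA PB ρ hρ0]
    have h6 := hPAB (i, S)
    rw [hsol i S _ hy] at h6
    rw [hnorm] at hy2
    have h7 : 1 / (2 * (q : ℝ)) = 8 * g * ‖ν‖ := by
      have : 1 / (2 * (q : ℝ)) = (1 / q) / 2 := by
        field_simp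
      rw [this, ← hgν]
      ring
    have h8 : ‖ψ y - 1 / ν‖ < 8 * g := by
      rw [h7] at hy2
      nlinarith
    have h9 : ‖ψ (y - y0)‖ < 9 * g := by
      have h10 : ψ (y - y0) = (ψ y - 1 / ν) - (ψ y0 - 1 / ν) := by
        rw [map_sub]
        ring
      rw [h10]
      exact (norm_sub_le _ _).trans_lt (by linarith)
    have h10 := norm_sub_norm_le (∑ k, (ι (e.repr (y - y0) k) : ℂ) *
        ((PA k : ℂ) + (PB k : ℂ) * I)) (ψ (y - y0))
    linarith

end Pool.Agent.Lib.MP_556c5c_lc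
end

section
/-! # MP_556c5c_lc, module VOL (helper45): existence of the finitely additive volume -/
set_option autoImplicit false

namespace Pool.Agent.Lib.MP_556c5c_lc

namespace VOLM

variable {L : Type} [Field L] {φ : L →+* ℝ} {ψ : L →+* ℂ}

/-- the operator `f ↦ a * f (u x)` -/
noncomputable def Op (a : ℝ) (u : L → L)
    (hu : ∀ R : ℝ, ∃ R' : ℝ, ∀ x, u x ∈ Bx φ ψ R R → x ∈ Bx φ ψ R' R') :
    EE φ ψ →ₗ[ℝ] EE φ ψ where
  toFun f := ⟨fun x => a * (f : L → ℝ) (u x), by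
    obtain ⟨C, R, hf⟩ := f.2
    obtain ⟨R', hR'⟩ := hu R
    refine ⟨|a| * C, R', fun x => ⟨?_, fun hx => hR' x ((hf (u x)).2 ?_)⟩⟩
    · rw [abs_mul]
      exact mul_le_mul_of_nonneg_left (hf (u x)).1 (abs_nonneg a)
    · intro h
      refine hx ?_
      change a * (f : L → ℝ) (u x) = 0
      rw [h, mul_zero]⟩
  map_add' f g := by
    ext x
    exact mul_add a _ _
  map_smul' c f := by
    ext x
    exact mul_left_comm a c _

theorem Op_apply (a : ℝ) (u : L → L)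
    (hu : ∀ R : ℝ, ∃ R' : ℝ, ∀ x, u x ∈ Bx φ ψ R R → x ∈ Bx φ ψ R' R') (f : EE φ ψ) (x : L) :
    ((Op a u hu f : EE φ ψ) : L → ℝ) x = a * (f : L → ℝ) (u x) := rfl

theorem hT (φ : L →+* ℝ) (ψ : L →+* ℂ) (t : L) :
    ∀ R : ℝ, ∃ R' : ℝ, ∀ x, x - t ∈ Bx φ ψ R R → x ∈ Bx φ ψ R' R' := by
  intro R
  refine ⟨R + |φ t| + ‖ψ t‖, fun x hx => ?_⟩
  obtain ⟨h1, h2⟩ := hx
  have e1 : |φ x| ≤ |φ (x - t)| + |φ t| := by
    have h := abs_add_le (φ (x - t)) (φ t)
    rwa [← map_add, sub_add_cancel] at h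
  have e2 : ‖ψ x‖ ≤ ‖ψ (x - t)‖ + ‖ψ t‖ := by
    have h := norm_add_le (ψ (x - t)) (ψ t)
    rwa [← map_add, sub_add_cancel] at h
  have p1 := abs_nonneg (φ t)
  have p2 := norm_nonneg (ψ t)
  constructor <;> linarith

theorem hS (φ : L →+* ℝ) (ψ : L →+* ℂ) (c : L) (hc : c ≠ 0) :
    ∀ R : ℝ, ∃ R' : ℝ, ∀ x, c⁻¹ * x ∈ Bx φ ψ R R → x ∈ Bx φ ψ R' R' := by
  intro R
  refine ⟨max (|φ c| * R) (‖ψ c‖ * R), fun x hx => ?_⟩
  obtain ⟨h1, h2⟩ := hx
  have hφ : 0 < |φ c| := abs_pos.2 ((map_ne_zero φ).2 hc)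
  have hψ : 0 < ‖ψ c‖ := norm_pos_iff.2 ((map_ne_zero ψ).2 hc)
  have e : x = c * (c⁻¹ * x) := (mul_inv_cancel_left₀ hc x).symm
  constructor
  · rw [e, map_mul, abs_mul]
    exact (mul_lt_mul_of_pos_left h1 hφ).trans_le (le_max_left _ _)
  · rw [e, map_mul, norm_mul]
    exact (mul_lt_mul_of_pos_left h2 hψ).trans_le (le_max_right _ _)

/-- the indicator function of a bounded set -/
noncomputable def ind (S : Set L) (h : Bd φ ψ S) : EE φ ψ :=
  ⟨S.indicator (fun _ => 1), by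
    obtain ⟨R, hR⟩ := h
    refine ⟨1, R, fun x => ⟨?_, fun hx => hR (Set.mem_of_indicator_ne_zero hx)⟩⟩
    by_cases hx : x ∈ S
    · rw [Set.indicator_of_mem hx, abs_one]
    · rw [Set.indicator_of_notMem hx, abs_zero]
      exact zero_le_one⟩

theorem ind_apply (S : Set L) (h : Bd φ ψ S) (x : L) :
    ((ind S h : EE φ ψ) : L → ℝ) x = S.indicator (fun _ => 1) x := rfl

theorem bd_union {S T : Set L} (hS : Bd φ ψ S) (hT : Bd φ ψ T) : Bd φ ψ (S ∪ T) := by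
  obtain ⟨R, hR⟩ := hS
  obtain ⟨R', hR'⟩ := hT
  refine ⟨max R R', ?_⟩
  rintro x (hx | hx)
  · exact ⟨(hR hx).1.trans_le (le_max_left _ _), (hR hx).2.trans_le (le_max_left _ _)⟩
  · exact ⟨(hR' hx).1.trans_le (le_max_right _ _), (hR' hx).2.trans_le (le_max_right _ _)⟩

theorem sbl_zero {E : Type} [AddCommGroup E] [Module ℝ E] {p : E → ℝ} (hp : Sbl p) : p 0 = 0 := by
  have h := hp.hom 2 0 two_pos
  rw [smul_zero] at h
  linarith

end VOLM

open VOLM in
theorem specVOL (hAVG : SpecAVG) (hUPI : SpecUPI) : SpecVOL := by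
  classical
  intro L _ φ ψ hD
  obtain ⟨M, hM, hM0, hMT, hMS, hM1, hM2⟩ := hUPI L φ ψ hD
  let T : L → (EE φ ψ →ₗ[ℝ] EE φ ψ) := fun t => Op 1 (fun x => x - t) (hT φ ψ t)
  let S : {c : L // c ≠ 0} → (EE φ ψ →ₗ[ℝ] EE φ ψ) := fun c =>
    Op (|φ c.1| * ‖ψ c.1‖ ^ 2)⁻¹ (fun x => c.1⁻¹ * x) (hS φ ψ c.1 c.2)
  have hTa : ∀ (t : L) (f : EE φ ψ) (x : L), ((T t f : EE φ ψ) : L → ℝ) x = (f : L → ℝ) (x - t) :=
    fun t f x => one_mul _
  have hSa : ∀ (c : {c : L // c ≠ 0}) (f : EE φ ψ) (x : L), ((S c f : EE φ ψ) : L → ℝ) x =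
      (|φ c.1| * ‖ψ c.1‖ ^ 2)⁻¹ * (f : L → ℝ) (c.1⁻¹ * x) := fun c f x => rfl
  obtain ⟨p₁, hp₁, hp₁M, hp₁T, hp₁S⟩ := hAVG (EE φ ψ) M hM (Set.range T)
    (by
      rintro _ ⟨t, rfl⟩ _ ⟨s, rfl⟩
      refine LinearMap.ext fun f => Subtype.ext (funext fun x => ?_)
      change ((T t (T s f) : EE φ ψ) : L → ℝ) x = ((T s (T t f) : EE φ ψ) : L → ℝ) x
      rw [hTa, hTa, hTa, hTa, sub_sub, sub_sub, add_comm])
    (by
      rintro _ ⟨t, rfl⟩ f
      exact hMT f (T t f) t (hTa t f))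
  obtain ⟨p₂, hp₂, hp₂p, hp₂S, -⟩ := hAVG (EE φ ψ) p₁ hp₁ (Set.range S)
    (by
      rintro _ ⟨c, rfl⟩ _ ⟨d, rfl⟩
      refine LinearMap.ext fun f => Subtype.ext (funext fun x => ?_)
      change ((S c (S d f) : EE φ ψ) : L → ℝ) x = ((S d (S c f) : EE φ ψ) : L → ℝ) x
      rw [hSa, hSa, hSa, hSa, mul_left_comm (d.1⁻¹) (c.1⁻¹) x]
      ring)
    (by
      rintro _ ⟨c, rfl⟩ f
      refine hp₁S (S c) (fun f => hMS f (S c f) c.1 c.2 (hSa c f)) ?_ f
      rintro _ ⟨t, rfl⟩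
      refine ⟨T (c.1 * t), ⟨_, rfl⟩, LinearMap.ext fun f => Subtype.ext (funext fun x => ?_)⟩
      change ((T (c.1 * t) (S c f) : EE φ ψ) : L → ℝ) x = ((S c (T t f) : EE φ ψ) : L → ℝ) x
      rw [hTa, hSa, hSa, hTa, mul_sub, inv_mul_cancel_left₀ c.2])
  obtain ⟨l, -, hl⟩ := exists_extension_of_le_sublinear (⊥ : EE φ ψ →ₗ.[ℝ] ℝ) p₂
    (fun c hc x => hp₂.hom c x hc) hp₂.sub
    (by
      intro x
      have hx : (x : EE φ ψ) = 0 := (Submodule.mem_bot ℝ).1 x.2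
      have hx' : x = 0 := Subtype.ext hx
      rw [hx', LinearPMap.map_zero]
      exact (sbl_zero hp₂).ge)
  have hlM : ∀ f, l f ≤ M f := fun f => (hl f).trans ((hp₂p f).trans (hp₁M f))
  have hlT : ∀ t f, l (T t f) = l f := by
    intro t f
    have h1 : ∀ f, l f ≤ l (T t f) := by
      intro f
      have h := (hl (f - T t f)).trans ((hp₂p _).trans (hp₁T (T t) ⟨t, rfl⟩ f))
      rw [map_sub] at h
      linarith
    have h2 := h1 (-f)
    rw [map_neg, map_neg, map_neg] at h2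
    exact le_antisymm (by linarith) (h1 f)
  have hlS : ∀ c f, l (S c f) = l f := by
    intro c f
    have h1 : ∀ f, l f ≤ l (S c f) := by
      intro f
      have h := (hl (f - S c f)).trans (hp₂S (S c) ⟨c, rfl⟩ f)
      rw [map_sub] at h
      linarith
    have h2 := h1 (-f)
    rw [map_neg, map_neg, map_neg] at h2
    exact le_antisymm (by linarith) (h1 f)
  refine ⟨fun Q => if h : Bd φ ψ Q then l (ind Q h) else 0, ?_, ?_, ?_, ?_, ?_⟩
  · intro Q hQ
    simp only [dif_pos hQ]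
    have h1 := (hlM (-(ind Q hQ))).trans (hM0 _ (fun x => by
      change -((ind Q hQ : EE φ ψ) : L → ℝ) x ≤ 0
      rw [ind_apply, neg_nonpos]
      exact Set.indicator_nonneg (fun _ _ => zero_le_one) x))
    rw [map_neg] at h1
    linarith
  · intro Q Q' hQ hQ' hdis
    simp only [dif_pos hQ, dif_pos hQ', dif_pos (bd_union hQ hQ')]
    rw [← map_add]
    congr 1
    refine Subtype.ext (funext fun x => ?_)
    change (Q ∪ Q').indicator (fun _ => (1 : ℝ)) x =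
      Q.indicator (fun _ => (1 : ℝ)) x + Q'.indicator (fun _ => (1 : ℝ)) x
    rw [Set.indicator_union_of_disjoint hdis]
  · intro Q hQ t
    have hQt : Bd φ ψ ((fun x => x + t) '' Q) := by
      obtain ⟨R, hR⟩ := hQ
      obtain ⟨R', hR'⟩ := hT φ ψ t R
      refine ⟨R', ?_⟩
      rintro _ ⟨x, hx, rfl⟩
      refine hR' _ ?_
      change x + t - t ∈ _
      rw [add_sub_cancel_right]
      exact hR hx
    simp only [dif_pos hQ, dif_pos hQt]
    rw [← hlT t (ind Q hQ)]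
    congr 1
    refine Subtype.ext (funext fun x => ?_)
    rw [hTa, ind_apply, ind_apply]
    by_cases hx : x - t ∈ Q
    · rw [Set.indicator_of_mem hx, Set.indicator_of_mem]
      exact ⟨x - t, hx, sub_add_cancel x t⟩
    · rw [Set.indicator_of_notMem hx, Set.indicator_of_notMem]
      rintro ⟨y, hy, rfl⟩
      apply hx
      change y + t - t ∈ Q
      rw [add_sub_cancel_right]
      exact hy
  · intro Q hQ c hc
    have hQc : Bd φ ψ ((fun x => c * x) '' Q) := by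
      obtain ⟨R, hR⟩ := hQ
      obtain ⟨R', hR'⟩ := hS φ ψ c hc R
      refine ⟨R', ?_⟩
      rintro _ ⟨x, hx, rfl⟩
      refine hR' _ ?_
      change c⁻¹ * (c * x) ∈ _
      rw [inv_mul_cancel_left₀ hc]
      exact hR hx
    simp only [dif_pos hQ, dif_pos hQc]
    have hφ : 0 < |φ c| := abs_pos.2 ((map_ne_zero φ).2 hc)
    have hψ : 0 < ‖ψ c‖ := norm_pos_iff.2 ((map_ne_zero ψ).2 hc)
    have hk : 0 < |φ c| * ‖ψ c‖ ^ 2 := by positivity
    have hsm : (|φ c| * ‖ψ c‖ ^ 2) * l (S ⟨c, hc⟩ (ind Q hQ)) =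
        l ((|φ c| * ‖ψ c‖ ^ 2) • S ⟨c, hc⟩ (ind Q hQ)) := by
      rw [map_smul, smul_eq_mul]
    rw [← hlS ⟨c, hc⟩ (ind Q hQ), hsm]
    congr 1
    refine Subtype.ext (funext fun x => ?_)
    change ((ind _ hQc : EE φ ψ) : L → ℝ) x =
      (|φ c| * ‖ψ c‖ ^ 2) * ((S ⟨c, hc⟩ (ind Q hQ) : EE φ ψ) : L → ℝ) x
    rw [hSa, ind_apply, ind_apply, mul_inv_cancel_left₀ hk.ne']
    by_cases hx : c⁻¹ * x ∈ Q
    · rw [Set.indicator_of_mem hx, Set.indicator_of_mem]
      exact ⟨c⁻¹ * x, hx, mul_inv_cancel_left₀ hc x⟩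
    · rw [Set.indicator_of_notMem hx, Set.indicator_of_notMem]
      rintro ⟨y, hy, rfl⟩
      apply hx
      change c⁻¹ * (c * y) ∈ Q
      rw [inv_mul_cancel_left₀ hc]
      exact hy
  · have hB : Bd φ ψ (Bx φ ψ 1 1) := ⟨1, fun x hx => hx⟩
    simp only [dif_pos hB]
    have h1 := (hlM (ind _ hB)).trans (hM1 _ (fun x => ind_apply _ hB x))
    have h2 := (hlM (-(ind _ hB))).trans (hM2 _ (fun x => by
      change -((ind _ hB : EE φ ψ) : L → ℝ) x = _
      rw [ind_apply]))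
    rw [map_neg] at h2
    exact le_antisymm h1 (by linarith)

end Pool.Agent.Lib.MP_556c5c_lc
end

section
/-!
# MP_556c5c_lc: all Specs without hypotheses, and the final theorems
-/
namespace Pool.Agent.Lib.MP_556c5c_lc.All

theorem hMUB : SpecMUB := specMUB

theorem hSEP : SpecSEP := specSEP

theorem hBDS : SpecBDS := specBDS hMUB

theorem hSSL : SpecSSL := specSSL hBDS hSEP hMUB

theorem hSSC : SpecSSC := specSSC hSSL hMUB

theorem hPOL : SpecPOL := specPOL hSSC hMUB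

theorem hBLA : SpecBLA := specBLA hPOL hMUB

theorem hBLK : SpecBLK := specBLK hBLA hSSC hMUB

theorem hCLM : SpecCLM := specCLM hBLK

theorem hCOR : SpecCOR := specCOR hCLM

theorem hNIQ : SpecNIQ := specNIQ

theorem hDFP : SpecDFP := specDFP

theorem hDFN : SpecDFN := specDFN hDFP

theorem hDEF : SpecDEF := specDEF hDFP

theorem hCRD : SpecCRD := specCRD

theorem hFIN : SpecFIN := specFIN hDEF hCRD

theorem hVCH : SpecVCH := specVCH hDFN hCRD

theorem hCNT : SpecCNT := specCNT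

theorem hEXT : SpecEXT := specEXT

theorem hDNS : SpecDNS := specDNS

theorem hHAT : SpecHAT := specHAT

theorem hVOL : SpecVOL := specVOL specAVG specUPI

/-- Strongly NIP archimedean ordered fields are real closed. -/
theorem final (K : Type) [Field K] [LinearOrder K] [IsStrictOrderedRing K] [Archimedean K]
    (hK : NoIct K) :
    (∀ x : K, 0 < x → ∃ y : K, y * y = x) ∧
      ∀ p : Polynomial K, Odd p.natDegree → ∃ r : K, p.IsRoot r :=
  MP_556c5c_lc.final hNIQ hFIN hVCH hCNT hEXT hDNS hHAT hVOL hCOR K hK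

/-- NIP archimedean ordered fields with finite indices of powers are real closed. -/
theorem final0 (K : Type) [Field K] [LinearOrder K] [IsStrictOrderedRing K] [Archimedean K]
    (hK : NIPf K)
    (hidx : ∀ (L : Type) [Field L] [Algebra K L] [FiniteDimensional K L],
      ∃ q : ℕ, q.Prime ∧ 5 ≤ q ∧ Finite (Lˣ ⧸ (powMonoidHom q : Lˣ →* Lˣ).range)) :
    (∀ x : K, 0 < x → ∃ y : K, y * y = x) ∧
      ∀ p : Polynomial K, Odd p.natDegree → ∃ r : K, p.IsRoot r :=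
  MP_556c5c_lc.final0 hVCH hCNT hEXT hDNS hHAT hVOL hCOR K hK hidx

end Pool.Agent.Lib.MP_556c5c_lc.All
end
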