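import Pool.Agent.Lib.MP_556c5c_lc.All
import Pool.Agent.Lib.MP_556c5c_lc.HDG

/-!
# NIP archimedean ordered fields: the index of the `n`-th powers, any `n ≥ 2`

HAT and VCH for every exponent `q ≥ 5` (not only primes), and the finite index of the `n ^ 3`-th powers.
-/

set_option autoImplicit false

namespace Pool.Agent.Lib.MP_556c5c_lc

/-- HAT for every exponent `q ≥ 5`: `y ^ q = 1` gives `y ^ 2 = 1` (real place). -/
def SpecHAT' : Prop :=
  ∀ (L : Type) [Field L] (φ : L →+* ℝ) (ψ : L →+* ℂ) (q : ℕ), 5 ≤ q →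
    Finite (Lˣ ⧸ (powMonoidHom q : Lˣ →* Lˣ).range) →
    ∃ (A : Type) (_ : AddCommGroup A) (_ : Finite A) (ζ : ℂ) (h D : L → A) (τ : A),
      Cl0 φ ψ A q ζ (1 / (q : ℝ)) h D τ ∧ Wit ψ q (1 / (q : ℝ)) h

/-- VCH for every exponent. -/
def SpecVCH' : Prop :=
  ∀ (K L : Type) [Field K] [LinearOrder K] [IsStrictOrderedRing K] [Field L] [Algebra K L]
    [FiniteDimensional K L], NIPf K →
    ∀ (ι : K →+* ℝ), StrictMono ι → ∀ (φ : L →+* ℝ) (ψ : L →+* ℂ),
      (∀ k, φ (algebraMap K L k) = ι k) → (∀ k, ψ (algebraMap K L k) = (ι k : ℂ)) → Dn φ ψ →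
      ∀ (A : Type) (q : ℕ) (r : ℝ) (h : L → A), 0 < q → 0 < r → r < 1 → Wit ψ q r h →
      ∀ a : A, ∃ d : ℕ, ¬ ∃ (t : Fin d → L) (Z : Finset (Fin d) → L),
        (∀ i S, ‖ψ (t i * Z S)‖ < r) ∧ ∀ S i, (h (t i * Z S) = a ↔ i ∈ S)

open HATM Complex Finset in
theorem hat' : SpecHAT' := by
  intro L _ φ ψ q h5 hfin
  have hq0 : q ≠ 0 := by omega
  have hqR : (5 : ℝ) ≤ q := by exact_mod_cast h5
  have hqpos : (0 : ℝ) < q := by linarith
  have hqC : (q : ℂ) ≠ 0 := by exact_mod_cast hq0
  have hr5 : 1 / (q : ℝ) ≤ 1 / 5 := by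
    apply one_div_le_one_div_of_le <;> linarith
  have hr1 : 1 / (q : ℝ) ≤ 1 := by linarith
  have htau : exp (2 * Real.pi * I) = ψ 1 := by
    rw [map_one]
    exact exp_two_pi_mul_I
  refine ⟨AA ψ q, inferInstance, finite_A ψ q (by omega) hfin, zet q,
    fun t => cls ψ q (1 + t) (log (1 + ψ t)),
    fun w => cls ψ q w (2 * Real.pi * I / q + log (ψ w / zet q)),
    cls ψ q 1 (2 * Real.pi * I), ?_, ?_⟩
  · refine ⟨h5, by positivity, hr5, zet_norm q, zet_pow hq0, tor, ?_, ?_, ?_, ?_⟩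
    · intro s t hs ht
      have h1 : 1 + (s + t + s * t) = (1 + s) * (1 + t) := by ring
      have h2 : 1 + ψ (s + t + s * t) = (1 + ψ s) * (1 + ψ t) := by
        rw [map_add, map_add, map_mul]
        ring
      change cls ψ q (1 + (s + t + s * t)) (log (1 + ψ (s + t + s * t))) = _
      rw [h1, h2, log_mul' (re_pos hr1 (by simpa using hs)) (re_pos hr1 (by simpa using ht)),
        cls_mul (exp_h (one_add_ne hr1 hs)) (exp_h (one_add_ne hr1 ht))]
    · intro w t hw ht
      have h1 : ψ (w * (1 + t)) / zet q = (ψ w / zet q) * (1 + ψ t) := by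
        rw [map_mul, map_add, map_one]
        ring
      change cls ψ q (w * (1 + t)) (2 * Real.pi * I / q + log (ψ (w * (1 + t)) / zet q)) = _
      rw [h1, log_mul' (re_pos hr1 (div_zet hw)) (re_pos hr1 (by simpa using ht)), ← add_assoc,
        cls_mul (exp_D (ne_of_norm hr1 hw)) (exp_h (one_add_ne hr1 ht))]
    · intro w hw hprod
      have h1 := cls_prod (ψ := ψ) (q := q) q w
        (fun i => 2 * Real.pi * I / q + log (ψ (w i) / zet q))
        (fun i hi => exp_D (ne_of_norm hr1 (hw i hi)))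
      change ∑ i ∈ range q, cls ψ q (w i) (2 * Real.pi * I / q + log (ψ (w i) / zet q)) = _
      rw [h1.1, hprod, Finset.sum_add_distrib, Finset.sum_const, Finset.card_range, nsmul_eq_mul,
        mul_div_cancel₀ _ hqC]
      have h2 := h1.2
      rw [hprod, Finset.sum_add_distrib, Finset.sum_const, Finset.card_range, nsmul_eq_mul,
        mul_div_cancel₀ _ hqC, map_one, exp_add, exp_two_pi_mul_I, one_mul] at h2
      obtain ⟨n, hn⟩ := exp_eq_one_iff.1 h2
      have h3 : ‖∑ i ∈ range q, log (ψ (w i) / zet q)‖ ≤ 9 / 8 := by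
        calc _ ≤ ∑ i ∈ range q, ‖log (ψ (w i) / zet q)‖ := norm_sum_le _ _
          _ ≤ ∑ i ∈ range q, 9 / 8 * (1 / (q : ℝ)) := by
              refine Finset.sum_le_sum fun i hi => ?_
              have h4 := div_zet (hw i (Finset.mem_range.1 hi))
              have h5' := log_bd h5 h4
              rw [add_sub_cancel] at h5'
              linarith
          _ = 9 / 8 := by
              rw [Finset.sum_const, Finset.card_range, nsmul_eq_mul]
              field_simp
      have hn0 : n = 0 := by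
        by_contra hne
        have h6 : (1 : ℝ) ≤ |(n : ℝ)| := by
          have : (1 : ℤ) ≤ |n| := Int.one_le_abs hne
          exact_mod_cast this
        rw [hn, norm_mul, norm_intCast, norm_mul, norm_mul, norm_I, Complex.norm_real,
          Real.norm_eq_abs, abs_of_pos Real.pi_pos, mul_one, Complex.norm_ofNat] at h3
        nlinarith [Real.pi_gt_three]
      rw [hn, hn0, Int.cast_zero, zero_mul, add_zero]
    · rw [← cls_one ψ q]
      intro h1
      obtain ⟨y, m, hm, hy, h2⟩ := (cls_eq_iff htau (by simp)).1 h1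
      have hy1 : y * y = 1 := by
        have h3 : φ y ^ q = 1 := by
          rw [← map_pow, ← one_mul (y ^ q), ← hy, map_one]
        have h4 : |φ y| = 1 := by
          have h6 : |φ y| ^ q = 1 := by rw [← abs_pow, h3, abs_one]
          exact (pow_eq_one_iff_of_nonneg (abs_nonneg _) hq0).1 h6
        have h5' : φ (y * y) = φ 1 := by
          rw [map_mul, map_one, ← abs_mul_abs_self, h4, one_mul]
        exact φ.injective h5'
      have hm2 : exp (2 * m) = 1 := by
        rw [two_mul, exp_add, hm, ← map_mul, hy1, map_one]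
      rw [exp_eq_one_iff] at hm2
      obtain ⟨n, hn⟩ := hm2
      rw [zero_add] at h2
      have h7 : (2 * (Real.pi : ℂ) * I) ≠ 0 := two_pi_I_ne_zero
      have h8 : ((q : ℂ) * n) = 2 := by
        apply mul_right_cancel₀ h7
        linear_combination -2 * h2 - q * hn
      have h9 : (q : ℤ) * n = 2 := by exact_mod_cast h8
      have h10 : (q : ℤ) ∣ 2 := ⟨n, h9.symm⟩
      have h11 := Int.le_of_dvd (by norm_num) h10
      omega
  · intro a
    obtain ⟨w, l, hl, rfl⟩ := cls_surj a
    refine ⟨w, exp (l / q), exp_ne_zero _, fun t ht => ?_⟩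
    have ht1 := one_add_ne hr1 ht
    constructor
    · intro h1
      obtain ⟨y, m, hm, hy, h2⟩ := (cls_eq_iff (exp_h ht1) hl).1 h1
      refine ⟨y, hy.symm, ?_⟩
      rw [← hm, ← exp_add]
      have h3 : l / q + m = log (1 + ψ t) / q := by
        rw [h2]
        field_simp
      rw [h3]
      have h4 := log_bd h5 ht
      have h6 : ‖log (1 + ψ t) / q‖ ≤ 9 / 8 * ‖ψ t‖ / q := by
        rw [norm_div, Complex.norm_natCast]
        gcongr
      have h7 : 9 / 8 * ‖ψ t‖ / q < 1 / (4 * q) := by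
        rw [div_lt_div_iff₀ hqpos (by positivity)]
        nlinarith
      have h8 : 1 / (4 * (q : ℝ)) ≤ 1 := by
        rw [div_le_one (by positivity)]
        linarith
      have h9 := norm_exp_sub_one_le (x := log (1 + ψ t) / q) (by linarith)
      have h10 : 2 * (1 / (4 * (q : ℝ))) = 1 / (2 * q) := by
        field_simp
        norm_num
      linarith
    · intro y hy h1
      have h2 : exp (l / q) * ψ y ≠ 0 := by
        intro h3
        rw [h3, zero_sub, norm_neg, norm_one] at h1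
        linarith
      have h3 : ‖log (exp (l / q) * ψ y)‖ ≤ 9 / 8 * (1 / (q : ℝ)) := by
        have h4 := log_bd h5 h1
        rw [add_sub_cancel] at h4
        linarith
      have h4 : exp (q * log (exp (l / q) * ψ y)) = 1 + ψ t := by
        rw [exp_nat_mul, exp_log h2, mul_pow, ← exp_nat_mul, mul_div_cancel₀ _ hqC, hl,
          ← map_pow, ← map_mul, hy, map_add, map_one]
      have h6 : |(q * log (exp (l / q) * ψ y)).im| ≤ 9 / 8 := by
        refine (abs_im_le_norm _).trans ?_
        rw [norm_mul, Complex.norm_natCast]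
        calc (q : ℝ) * ‖log (exp (l / q) * ψ y)‖ ≤ q * (9 / 8 * (1 / (q : ℝ))) := by gcongr
          _ = 9 / 8 := by field_simp
      have h7 : log (1 + ψ t) = q * log (exp (l / q) * ψ y) := by
        rw [← h4]
        have h8 := abs_le.1 h6
        exact log_exp (by linarith [h8.1, Real.pi_gt_three]) (by linarith [h8.2, Real.pi_gt_three])
      refine (cls_eq_iff (exp_h ht1) hl).2 ⟨y, log (exp (l / q) * ψ y) - l / q, ?_, hy.symm, ?_⟩
      · rw [exp_sub, exp_log h2]
        field_simp [exp_ne_zero]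
      · rw [h7]
        field_simp
        ring


open VCHM Complex in
theorem vch' (hDFN : SpecDFN) (hCRD : SpecCRD) : SpecVCH' := by
  classical
  intro K L _ _ _ _ _ _ hNIP ι hι φ ψ hφ hψ hDn A q r h hq hr0 hr1 hWit a
  obtain ⟨w, ν, hν, hw⟩ := hWit a
  have hq0 : 0 < q := hq
  have hqR : (0 : ℝ) < q := by exact_mod_cast hq0
  have hνn : 0 < ‖ν‖ := norm_pos_iff.2 hν
  set g : ℝ := 1 / (16 * q * ‖ν‖) with hg
  have hg0 : 0 < g := by positivity
  have hgν : 16 * g * ‖ν‖ = 1 / q := by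
    rw [hg]
    field_simp
  obtain ⟨y0, -, hy0⟩ := hDn 0 (1 / ν) g hg0
  obtain ⟨ρ, hρ1, hρ2⟩ := exists_rat_btwn (show 10 * g < 14 * g by linarith)
  have hρ0 : 0 < ρ := by
    have : (0 : ℝ) < ρ := by linarith
    exact_mod_cast this
  let e := Module.finBasis K L
  obtain ⟨F, G, hFG⟩ := polys hCRD e w y0 q (ρ : K)
  obtain ⟨N, hN⟩ := hDFN K hNIP _ _ _ _ F G
  refine ⟨N, ?_⟩
  rintro ⟨t, Z, htZ, hS⟩
  apply hN
  -- the solutions
  have hne : ∀ i S, 1 + t i * Z S ≠ 0 := by
    intro i S h1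
    have h2 : t i * Z S = -1 := by linear_combination h1
    have h3 := htZ i S
    rw [h2, map_neg, map_one, norm_neg, norm_one] at h3
    linarith
  have huniq : ∀ i S (y y' : L), w * y ^ q = 1 + t i * Z S → w * y' ^ q = 1 + t i * Z S →
      y = y' ∨ -y = y' := by
    intro i S y y' h1 h2
    have hw0 : w ≠ 0 := by
      rintro rfl
      rw [zero_mul] at h1
      exact hne i S h1.symm
    have h3 : y ^ q = y' ^ q := mul_left_cancel₀ hw0 (h1.trans h2.symm)
    have h4 : |φ y| ^ q = |φ y'| ^ q := by rw [← abs_pow, ← abs_pow, ← map_pow, h3, map_pow]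
    have h5 : |φ y| = |φ y'| := (pow_left_inj₀ (abs_nonneg _) (abs_nonneg _) hq0.ne').1 h4
    rcases abs_eq_abs.1 h5 with h6 | h6
    · exact Or.inl (φ.injective h6)
    · refine Or.inr (φ.injective ?_)
      rw [map_neg, h6, neg_neg]
  let sol : (Fin N × Finset (Fin N)) × Bool → L := fun p =>
    if h : ∃ y, w * y ^ q = 1 + t p.1.1 * Z p.1.2 then
      (if p.2 then h.choose else - h.choose) else 0
  have hsol : ∀ i S (y : L), w * y ^ q = 1 + t i * Z S → ∃ b, sol ((i, S), b) = y := by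
    intro i S y hy
    have hex : ∃ y, w * y ^ q = 1 + t i * Z S := ⟨y, hy⟩
    rcases huniq i S _ _ hex.choose_spec hy with h | h
    · refine ⟨true, ?_⟩
      change (if h : ∃ y, w * y ^ q = 1 + t i * Z S then
        (if true then h.choose else - h.choose) else 0) = y
      rw [dif_pos hex, if_pos rfl]
      exact h
    · refine ⟨false, ?_⟩
      change (if h : ∃ y, w * y ^ q = 1 + t i * Z S then
        (if false then h.choose else - h.choose) else 0) = y
      rw [dif_pos hex]
      simpa using h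
  obtain ⟨PA, PB, hPAB⟩ := basis_approx e ι ψ hψ (fun p => sol p - y0) hg0
  refine ⟨fun i => pack (fun k => e.repr (t i) k) (fun k => (PA k : K)) (fun k => (PB k : K)),
    fun S => ⟨fun k => e.repr (Z S) k, fun i => ?_⟩⟩
  have hnorm : ∀ y : L, ‖ν * ψ y - 1‖ = ‖ν‖ * ‖ψ y - 1 / ν‖ := by
    intro y
    rw [← norm_mul]
    congr 1
    field_simp
  rw [← hS S i]
  constructor
  · rintro ⟨yy, h1, h2⟩
    have hyy : yy = fun k => e.repr (∑ j, yy j • e j) k := by
      funext k
      rw [e.repr_sum_self]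
    rw [hyy] at h1 h2
    obtain ⟨h3, h4⟩ := hFG (Z S) (t i) (∑ j, yy j • e j) (fun k => (PA k : K)) (fun k => (PB k : K))
    have h5 := h3.1 h1
    rw [h4, sq_iff ι hι _ PA PB ρ hρ0] at h2
    obtain ⟨b, hb⟩ := hsol i S _ h5
    have h6 := hPAB ((i, S), b)
    rw [hb] at h6
    set y := ∑ j, yy j • e j
    refine (hw (t i * Z S) (htZ i S)).2 y h5 ?_
    rw [hnorm]
    have h7 : ‖ψ (y - y0)‖ < 15 * g := by
      have h8 := norm_sub_norm_le (ψ (y - y0)) (∑ k, (ι (e.repr (y - y0) k) : ℂ) *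
        ((PA k : ℂ) + (PB k : ℂ) * I))
      rw [norm_sub_rev] at h8
      linarith
    have h8 : ‖ψ y - 1 / ν‖ < 16 * g := by
      have h9 : ψ y - 1 / ν = ψ (y - y0) + (ψ y0 - 1 / ν) := by
        rw [map_sub]
        ring
      rw [h9]
      exact (norm_add_le _ _).trans_lt (by linarith)
    rw [← hgν]
    nlinarith
  · intro h1
    obtain ⟨y, hy, hy2⟩ := (hw (t i * Z S) (htZ i S)).1 h1
    obtain ⟨h3, h4⟩ := hFG (Z S) (t i) y (fun k => (PA k : K)) (fun k => (PB k : K))
    refine ⟨fun k => e.repr y k, h3.2 hy, ?_⟩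
    rw [h4, sq_iff ι hι _ PA PB ρ hρ0]
    obtain ⟨b, hb⟩ := hsol i S _ hy
    have h6 := hPAB ((i, S), b)
    rw [hb] at h6
    rw [hnorm] at hy2
    have h7 : 1 / (2 * (q : ℝ)) = 8 * g * ‖ν‖ := by
      have : 1 / (2 * (q : ℝ)) = (1 / q) / 2 := by
        field_simp
      rw [this, ← hgν]
      ring
    have h8 : ‖ψ y - 1 / ν‖ < 8 * g := by
      rw [h7] at hy2
      nlinarith
    have h9 : ‖ψ (y - y0)‖ < 9 * g := by
      have h10 : ψ (y - y0) = (ψ y - 1 / ν) - (ψ y0 - 1 / ν) := by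
        rw [map_sub]
        ring
      rw [h10]
      exact (norm_sub_le _ _).trans_lt (by linarith)
    have h10 := norm_sub_norm_le (∑ k, (ι (e.repr (y - y0) k) : ℂ) *
        ((PA k : ℂ) + (PB k : ℂ) * I)) (ψ (y - y0))
    linarith


/-- the index of the `m n`-th powers -/
theorem finite_index_mul {G : Type} [CommGroup G] (m n : ℕ)
    (hm : Finite (G ⧸ (powMonoidHom m : G →* G).range))
    (hn : Finite (G ⧸ (powMonoidHom n : G →* G).range)) :
    Finite (G ⧸ (powMonoidHom (m * n) : G →* G).range) := by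
  have key : ∀ (k : ℕ) (x : G), ∃ y : G,
      x = (QuotientGroup.mk x : G ⧸ (powMonoidHom k : G →* G).range).out * y ^ k := by
    intro k x
    have h1 : (QuotientGroup.mk (QuotientGroup.mk x : G ⧸ (powMonoidHom k : G →* G).range).out :
        G ⧸ (powMonoidHom k : G →* G).range) = QuotientGroup.mk x := Quotient.out_eq' _
    rw [QuotientGroup.eq] at h1
    obtain ⟨y, hy⟩ := h1
    refine ⟨y, ?_⟩
    rw [show y ^ k = _ from hy, mul_inv_cancel_left]
  refine Finite.of_surjective (fun p : (G ⧸ (powMonoidHom m : G →* G).range) ×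
    (G ⧸ (powMonoidHom n : G →* G).range) =>
    (QuotientGroup.mk (p.1.out * p.2.out ^ m) : G ⧸ (powMonoidHom (m * n) : G →* G).range)) ?_
  intro c
  induction c using QuotientGroup.induction_on with
  | H x =>
    obtain ⟨y, hy⟩ := key m x
    obtain ⟨z, hz⟩ := key n y
    refine ⟨(QuotientGroup.mk x, QuotientGroup.mk y), ?_⟩
    change (QuotientGroup.mk ((QuotientGroup.mk x : G ⧸ (powMonoidHom m : G →* G).range).out *
      (QuotientGroup.mk y : G ⧸ (powMonoidHom n : G →* G).range).out ^ m) :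
        G ⧸ (powMonoidHom (m * n) : G →* G).range) = _
    rw [QuotientGroup.eq]
    refine ⟨z, ?_⟩
    change z ^ (m * n) = _
    generalize (QuotientGroup.mk x : G ⧸ (powMonoidHom m : G →* G).range).out = a at hy
    generalize (QuotientGroup.mk y : G ⧸ (powMonoidHom n : G →* G).range).out = b at hz
    rw [hy, hz, mul_pow, ← pow_mul, mul_comm n m,
      show a * (b ^ m * z ^ (m * n)) = (a * b ^ m) * z ^ (m * n) from (mul_assoc _ _ _).symm,
      inv_mul_cancel_left]

/-- An archimedean ordered field with NIP theory is real closed, or it has a finite extension `L`, with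
an embedding into the reals extending the order of `K`, for which the `n`-th powers have infinite index
in `Lˣ` for all `n ≥ 2`. -/
theorem final1 (K : Type) [Field K] [LinearOrder K] [IsStrictOrderedRing K] [Archimedean K]
    (hK : NIPf K) :
    ((∀ x : K, 0 < x → ∃ y : K, y * y = x) ∧
      ∀ p : Polynomial K, Odd p.natDegree → ∃ r : K, p.IsRoot r) ∨
    ∃ (L : Type) (_ : Field L) (_ : Algebra K L) (_ : FiniteDimensional K L) (φ : L →+* ℝ),
      StrictMono (fun k : K => φ (algebraMap K L k)) ∧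
      ∀ n : ℕ, 2 ≤ n → Infinite (Lˣ ⧸ (powMonoidHom n : Lˣ →* Lˣ).range) := by
  by_contra hcon
  rw [not_or] at hcon
  obtain ⟨hcon1, hcon2⟩ := hcon
  obtain ⟨ι, hι, L, iL, iA, iF, φ, ψ, hφ, hψ, hz⟩ := All.hEXT K hcon1
  refine hcon2 ⟨L, iL, iA, iF, φ, ?_, ?_⟩
  · have : (fun k : K => φ (algebraMap K L k)) = ι := funext hφ
    rw [this]
    exact hι
  intro n hn2
  rw [← not_finite_iff_infinite]
  intro hn
  have hdn : Dn φ ψ := All.hDNS L φ ψ hz
  set q : ℕ := n * (n * n) with hq
  have hfin : Finite (Lˣ ⧸ (powMonoidHom q : Lˣ →* Lˣ).range) :=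
    finite_index_mul n (n * n) hn (finite_index_mul n n hn hn)
  have h5 : 5 ≤ q := by
    have h1 : 2 * 2 ≤ n * n := Nat.mul_le_mul hn2 hn2
    have h2 : 2 * (2 * 2) ≤ n * (n * n) := Nat.mul_le_mul hn2 h1
    omega
  obtain ⟨A, iAG, iAF, ζ, h, D, τ, hcl, hw⟩ := hat' L φ ψ q h5 hfin
  have hqr : (5 : ℝ) ≤ (q : ℝ) := by exact_mod_cast h5
  have hr0 : (0 : ℝ) < 1 / (q : ℝ) := by positivity
  have hr1 : 1 / (q : ℝ) < 1 := by
    rw [div_lt_one (by linarith)]
    linarith
  have hvc := vch' All.hDFN All.hCRD K L hK ι hι φ ψ hφ hψ hdn A q (1 / (q : ℝ)) h (by omega)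
    hr0 hr1 hw
  obtain ⟨N, hN⟩ := All.hCNT L ψ A (1 / (q : ℝ)) h hr0 hvc
  obtain ⟨μ, hμ⟩ := All.hVOL L φ ψ hdn
  exact All.hCOR L φ ψ A q ζ (1 / (q : ℝ)) h D τ N μ ⟨hdn, hμ, hcl, hN⟩

end Pool.Agent.Lib.MP_556c5c_lc
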