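import Mathlib

/-!
# MP_556c5c_lc (frozen S14715): a strongly NIP archimedean ordered field is real closed. Specs.

Paper: `/team-store/MP_556c5c_lc_paper.md`. Every Spec below is a closed proposition with a complete proof in
its doc string. Module XXX = file `Pool/Agent/Lib/MP_556c5c_lc/XXX.lean` (import
`Pool.Agent.Lib.MP_556c5c_lc.Spec`), `theorem specXXX (hYYY : SpecYYY) .. : SpecXXX` in the namespace
`Pool.Agent.Lib.MP_556c5c_lc` (any other Spec may be a hypothesis, no cycles), own lemmas in the namespace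
`Pool.Agent.Lib.MP_556c5c_lc.XXXM`.

Notation: `|x|₁ = |φ x|`, `|x|₂ = ‖ψ x‖` for `φ : L →+* ℝ`, `ψ : L →+* ℂ`.
-/

namespace Pool.Agent.Lib.MP_556c5c_lc

open Finset

/-! ## Definitions -/

section

variable {L : Type} [Field L]

/-- The box of radii `T`, `U` about `0`. -/
def Bx (φ : L →+* ℝ) (ψ : L →+* ℂ) (T U : ℝ) : Set L := {x | |φ x| < T ∧ ‖ψ x‖ < U}

/-- Bounded sets. -/
def Bd (φ : L →+* ℝ) (ψ : L →+* ℂ) (S : Set L) : Prop := ∃ R : ℝ, S ⊆ Bx φ ψ R R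

/-- The image of `L` in `ℝ × ℂ` is dense. -/
def Dn (φ : L →+* ℝ) (ψ : L →+* ℂ) : Prop :=
  ∀ (a : ℝ) (b : ℂ) (ε : ℝ), 0 < ε → ∃ x : L, |φ x - a| < ε ∧ ‖ψ x - b‖ < ε

/-- A finitely additive volume on the bounded subsets of `L`. -/
structure Vol (φ : L →+* ℝ) (ψ : L →+* ℂ) (μ : Set L → ℝ) : Prop where
  nn : ∀ S, Bd φ ψ S → 0 ≤ μ S
  ad : ∀ S T, Bd φ ψ S → Bd φ ψ T → Disjoint S T → μ (S ∪ T) = μ S + μ T
  tr : ∀ S, Bd φ ψ S → ∀ t : L, μ ((fun x => x + t) '' S) = μ S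
  sc : ∀ S, Bd φ ψ S → ∀ c : L, c ≠ 0 → μ ((fun x => c * x) '' S) = |φ c| * ‖ψ c‖ ^ 2 * μ S
  un : μ (Bx φ ψ 1 1) = 1

/-- The class map: all its properties except the count of patterns. -/
structure Cl0 (φ : L →+* ℝ) (ψ : L →+* ℂ) (A : Type) [AddCommGroup A] (q : ℕ) (ζ : ℂ) (r : ℝ)
    (h D : L → A) (τ : A) : Prop where
  q5 : 5 ≤ q
  r0 : 0 < r
  r5 : r ≤ 1 / 5
  z1 : ‖ζ‖ = 1
  zq : ζ ^ q = 1
  tor : ∀ a : A, q • a = 0
  hadd : ∀ s t : L, ‖ψ s‖ < r → ‖ψ t‖ < r → h (s + t + s * t) = h s + h t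
  dadd : ∀ w t : L, ‖ψ w - ζ‖ < r → ‖ψ t‖ < r → D (w * (1 + t)) = D w + h t
  dprod : ∀ w : ℕ → L, (∀ i < q, ‖ψ (w i) - ζ‖ < r) → ∏ i ∈ range q, w i = 1 →
    ∑ i ∈ range q, D (w i) = τ
  tau : τ ≠ 0

/-- The count of patterns. -/
def Cnt (ψ : L →+* ℂ) {A : Type} (r : ℝ) (h : L → A) (N : ℕ) : Prop :=
  ∀ (m M : ℕ) (t : Fin m → L) (Z : Fin M → L), (∀ i j, ‖ψ (t i * Z j)‖ < r) →
    (∀ j j', j ≠ j' → ∃ i, h (t i * Z j) ≠ h (t i * Z j')) → M ≤ (m + 1) ^ N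

/-- Everything the analytic core needs. -/
structure Cls (φ : L →+* ℝ) (ψ : L →+* ℂ) (A : Type) [AddCommGroup A] (q : ℕ) (ζ : ℂ) (r : ℝ)
    (h D : L → A) (τ : A) (N : ℕ) (μ : Set L → ℝ) : Prop where
  dn : Dn φ ψ
  vol : Vol φ ψ μ
  cl : Cl0 φ ψ A q ζ r h D τ
  cnt : Cnt ψ r h N

/-- `e / y` is small at the complex place (`κ`), and has class zero. -/
def Good (ψ : L →+* ℂ) {A : Type} [Zero A] (h : L → A) (κ : ℝ) (e y : L) : Prop :=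
  y ≠ 0 ∧ ‖ψ e‖ ≤ κ * ‖ψ y‖ ∧ h (e / y) = 0

/-- Witnesses: the class `a` of `1 + t` is detected by a `q`-th root in `L` lying near `1 / ν`. -/
def Wit (ψ : L →+* ℂ) {A : Type} (q : ℕ) (r : ℝ) (h : L → A) : Prop :=
  ∀ a : A, ∃ (w : L) (ν : ℂ), ν ≠ 0 ∧ ∀ t : L, ‖ψ t‖ < r →
    (h t = a → ∃ y : L, w * y ^ q = 1 + t ∧ ‖ν * ψ y - 1‖ < 1 / (2 * (q : ℝ))) ∧
    (∀ y : L, w * y ^ q = 1 + t → ‖ν * ψ y - 1‖ < 1 / (q : ℝ) → h t = a)

/-- Real linear space of the bounded functions with bounded support. -/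
def EE (φ : L →+* ℝ) (ψ : L →+* ℂ) : Submodule ℝ (L → ℝ) where
  carrier := {f | ∃ C R : ℝ, ∀ x, |f x| ≤ C ∧ (f x ≠ 0 → x ∈ Bx φ ψ R R)}
  add_mem' := by
    rintro f g ⟨C, R, hf⟩ ⟨C', R', hg⟩
    refine ⟨C + C', max R R', fun x => ⟨?_, fun hx => ?_⟩⟩
    · exact (abs_add_le _ _).trans (add_le_add (hf x).1 (hg x).1)
    · by_cases h1 : f x = 0
      · have h2 : g x ≠ 0 := by
          intro h2
          exact hx (by simp [h1, h2])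
        have h3 := (hg x).2 h2
        exact ⟨h3.1.trans_le (le_max_right _ _), h3.2.trans_le (le_max_right _ _)⟩
      · have h3 := (hf x).2 h1
        exact ⟨h3.1.trans_le (le_max_left _ _), h3.2.trans_le (le_max_left _ _)⟩
  zero_mem' := ⟨0, 0, fun x => ⟨by simp, fun hx => absurd rfl hx⟩⟩
  smul_mem' := by
    rintro c f ⟨C, R, hf⟩
    refine ⟨|c| * C, R, fun x => ⟨?_, fun hx => (hf x).2 ?_⟩⟩
    · have h1 : (c • f) x = c * f x := rfl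
      rw [h1, abs_mul]
      exact mul_le_mul_of_nonneg_left (hf x).1 (abs_nonneg c)
    · intro h1
      exact hx (by simp [h1])

end

/-- Sublinear functionals. -/
structure Sbl {E : Type} [AddCommGroup E] [Module ℝ E] (p : E → ℝ) : Prop where
  hom : ∀ (c : ℝ) (f : E), 0 < c → p (c • f) = c * p f
  sub : ∀ f g : E, p (f + g) ≤ p f + p g

/-- Parameter free definability, in the form of the frozen statement. -/
def Dfn {K : Type} [Field K] [LinearOrder K] (S : Set (ℕ → K)) : Prop :=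
  ∀ D : Set (Set (ℕ → K)),
    (∀ p : MvPolynomial ℕ ℤ, {v : ℕ → K | MvPolynomial.aeval v p = 0} ∈ D) →
    (∀ p : MvPolynomial ℕ ℤ, {v : ℕ → K | 0 < MvPolynomial.aeval v p} ∈ D) →
    (∀ S ∈ D, Sᶜ ∈ D) →
    (∀ S ∈ D, ∀ T ∈ D, S ∩ T ∈ D) →
    (∀ S ∈ D, ∀ k : ℕ, {v : ℕ → K | ∃ c : K, Function.update v k c ∈ S} ∈ D) →
    S ∈ D

/-- The hypothesis of the frozen statement. -/
def NoIct (K : Type) [Field K] [LinearOrder K] : Prop :=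
  ¬ ∃ (n : ℕ) (φ : ℕ → Set (ℕ → K)), (∀ i, Dfn (φ i)) ∧
    ∀ N : ℕ, ∃ b : ℕ → ℕ → ℕ → K, ∀ η : ℕ → ℕ, (∀ i < N, η i < N) →
      ∃ a : ℕ → K, ∀ i < N, ∀ j < N,
        ((fun k : ℕ => if k < n then a k else b i j k) ∈ φ i ↔ j = η i)

/-- No parameter free definable set has the independence property (`x` = the first `n` coordinates). -/
def NIPf (K : Type) [Field K] [LinearOrder K] : Prop :=
  ¬ ∃ (n : ℕ) (φ : Set (ℕ → K)), Dfn φ ∧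
    ∀ N : ℕ, ∃ b : ℕ → ℕ → K, ∀ S : Set ℕ, ∃ a : ℕ → K, ∀ i < N,
      ((fun k : ℕ => if k < n then a k else b i k) ∈ φ ↔ i ∈ S)

/-! ## Logic -/

/-- **NIQ** (50 lines). Proof. If `φ` has the independence property take the constant sequence `φ`; for `N` take `N * N`
independent points `b'` and `b i j = b' (i * N + j)`; for `η` use `S = {m | ∃ i < N, m = i * N + η i}`
(`i * N + j = i' * N + η i'` with `j, η i' < N` gives `i = i'`, `j = η i'`). -/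
def SpecNIQ : Prop :=
  ∀ (K : Type) [Field K] [LinearOrder K] [IsStrictOrderedRing K], NoIct K → NIPf K

/-- **DFP** (180 lines). Existential polynomial relations `R (u, w) : ∃ y, (all F l (u, w, y) = 0) ∧ 0 < G (u, w, y)` over `K` are
definable with parameters.
Proof. (1) Every `P : MvPolynomial σ K` has `m`, `c : Fin m → K`, `Q : MvPolynomial (σ ⊕ Fin m) ℤ` with
`eval u P = aeval (Sum.elim u c) Q` for all `u : σ → K` (`MvPolynomial.induction_on`; or `m` = number of monomials of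
the support). (2) `Dfn` is closed under complement, intersection, finite intersections, one `∃`
(`Function.update`), hence under a block: if `Dfn S` then
`Dfn {v | ∃ y : Fin d → K, (fun k => if h : N₀ ≤ k ∧ k < N₀ + d then y ⟨k - N₀, _⟩ else v k) ∈ S}` (induction on `d`).
(3) Collect the coefficient tuples of the `F l` and of `G` in one tuple, `m` numbers, extended by `0` to `c : ℕ → K`.
`φ` = the set of `v : ℕ → K` such that for some `y : Fin d → K` all the integer polynomials vanish and the last one is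
positive at `u = (v 0, .., v (n-1))`, `w = (v n, .., v (n+p-1))`, `c = (v (n+p), .., v (n+p+m-1))`, `y`;
`Dfn φ` by (2) with `N₀ = n + p + m` (rename the variables of the polynomials into `ℕ`). -/
def SpecDFP : Prop :=
  ∀ (K : Type) [Field K] [LinearOrder K] [IsStrictOrderedRing K]
    (n p d s : ℕ) (F : Fin s → MvPolynomial (Fin n ⊕ (Fin p ⊕ Fin d)) K)
    (G : MvPolynomial (Fin n ⊕ (Fin p ⊕ Fin d)) K),
    ∃ (φ : Set (ℕ → K)) (c : ℕ → K), Dfn φ ∧ ∀ (u : Fin n → K) (w : Fin p → K) (v : ℕ → K),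
      (∀ k : Fin n, v k = u k) → (∀ k : Fin p, v (n + k) = w k) → (∀ k : ℕ, v (n + p + k) = c k) →
      (v ∈ φ ↔ ∃ y : Fin d → K,
        (∀ l, MvPolynomial.eval (Sum.elim u (Sum.elim w y)) (F l) = 0) ∧
          0 < MvPolynomial.eval (Sum.elim u (Sum.elim w y)) G)

/-- **DFN** (60 lines, from DFP). Proof. Otherwise for every `N` there is a configuration `w`, and with `φ`, `c` from DFP and
`b i k = w i (k - n)` for `n ≤ k < n + p`, `b i k = c (k - n - p)` for `k ≥ n + p` the set `φ` has the independence property. -/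
def SpecDFN : Prop :=
  ∀ (K : Type) [Field K] [LinearOrder K] [IsStrictOrderedRing K], NIPf K →
    ∀ (n p d s : ℕ) (F : Fin s → MvPolynomial (Fin n ⊕ (Fin p ⊕ Fin d)) K)
      (G : MvPolynomial (Fin n ⊕ (Fin p ⊕ Fin d)) K),
      ∃ N : ℕ, ¬ ∃ w : Fin N → Fin p → K, ∀ S : Finset (Fin N), ∃ u : Fin n → K, ∀ i : Fin N,
        ((∃ y : Fin d → K,
            (∀ l, MvPolynomial.eval (Sum.elim u (Sum.elim (w i) y)) (F l) = 0) ∧
              0 < MvPolynomial.eval (Sum.elim u (Sum.elim (w i) y)) G) ↔ i ∈ S)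

/-- **DEF** (70 lines, from DFP). No ict pattern of depth `ω` for a sequence of relations
`R i (u, w) : ∃ y, (all F i l (u, w, y) = 0) ∧ 0 < G i (u, w, y)` with polynomials over `K`.
Proof. DFP for each `i` gives `φ i`, `c i`. Given patterns `w` for every `N`, take `b i j k = w i j (k - n)` for
`n ≤ k < n + p`, `b i j k = c i (k - n - p)` for `k ≥ n + p`, and `a k = u k` for `k < n` (`0` otherwise). This contradicts `NoIct K`. -/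
def SpecDEF : Prop :=
  ∀ (K : Type) [Field K] [LinearOrder K] [IsStrictOrderedRing K], NoIct K →
    ∀ (n p d s : ℕ) (F : ℕ → Fin s → MvPolynomial (Fin n ⊕ (Fin p ⊕ Fin d)) K)
      (G : ℕ → MvPolynomial (Fin n ⊕ (Fin p ⊕ Fin d)) K),
      ¬ ∀ N : ℕ, ∃ w : ℕ → ℕ → Fin p → K, ∀ η : ℕ → ℕ, (∀ i < N, η i < N) →
        ∃ u : Fin n → K, ∀ i < N, ∀ j < N,
          ((∃ y : Fin d → K,
            (∀ l, MvPolynomial.eval (Sum.elim u (Sum.elim (w i j) y)) (F i l) = 0) ∧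
              0 < MvPolynomial.eval (Sum.elim u (Sum.elim (w i j) y)) (G i)) ↔ j = η i)

/-- **CRD** (60 lines). Polynomial functions on `L` are polynomial in the coordinates.
Proof. `MvPolynomial.induction_on P`: constants `C (e.repr a k)`; sums; `p * X i`: the `k`-th coordinate of
`(∑ a, p_a • e a) * (∑ b, u (i, b) • e b)` is `∑ a b, p_a u (i, b) (e.repr (e a * e b) k)`. -/
def SpecCRD : Prop :=
  ∀ (K L : Type) [Field K] [Field L] [Algebra K L] (n : ℕ) (e : Module.Basis (Fin n) K L) (ι : Type)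
    (P : MvPolynomial ι L), ∃ F : Fin n → MvPolynomial (ι × Fin n) K,
      ∀ (u : ι × Fin n → K) (k : Fin n),
        MvPolynomial.eval u (F k) = e.repr (MvPolynomial.eval (fun i => ∑ j, u (i, j) • e j) P) k

/-- **FIN** (150 lines, from DEF, CRD). The index of the `q`-th powers is finite for all large primes `q`.
Proof. Otherwise there is an injective (increasing) sequence of primes `Q i` with infinite quotient
`Lˣ ⧸ (powMonoidHom (Q i)).range`. Let `e` be a basis of `L / K` (`Module.finBasis`), `n = finrank`. Use DEF with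
`n = p = d = s = finrank`, `F i` = the coordinates (CRD, variables `Fin 3`, reindexed to the three blocks) of
`X 0 - X 1 * X 2 ^ (Q i)`, `G i = 1`: the relation is `R i (x, y) : ∃ z, x = y z ^ (Q i)`. Choose units `β i j` (`j : ℕ`) in
distinct classes (`Infinite.natEmbedding` of the quotient, `Quotient.out`), `w i j` = coordinates of `β i j`. Given `η` and
`N`: by CRT there are naturals `E i` (`i < N`), `E i ≡ 1` mod `Q i`, `E i ≡ 0` mod `Q l` for `l < N`, `l ≠ i`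
(`Nat.chineseRemainderOfFinset` or `Ideal`/`ZMod` version; the primes are distinct); `x = ∏ i ∈ range N, β i (η i) ^ E i`.
Then `x / β i (η i)` is a `Q i`-th power; so `R i (x, β i j)` iff `β i j`, `β i (η i)` have the same class iff `j = η i`
(a `z` with `x = y z ^ Q` is a unit as `x ≠ 0`, `Q ≠ 0`). -/
def SpecFIN : Prop :=
  ∀ (K L : Type) [Field K] [LinearOrder K] [IsStrictOrderedRing K] [Field L] [Algebra K L]
    [FiniteDimensional K L], NoIct K →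
    ∃ q₀ : ℕ, ∀ q : ℕ, q.Prime → q₀ < q → Finite (Lˣ ⧸ (powMonoidHom q : Lˣ →* Lˣ).range)

/-- **VCH** (250 lines, from DFN, CRD). For every class `a` the sets `{i | h (t i * Z) = a}` do not shatter large sets.
Proof. Suppose that for every `d` there is such a configuration. Fix `w`, `ν` from `Wit` for `a`; `e` a basis of `L / K`,
`n = finrank`. Put `g = 1 / (16 q ‖ν‖)`. By density of `ψ(L)` choose `y₀ : L` with `‖ψ y₀ - 1/ν‖ < g` and a rational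
`ρ` in `(10 g, 14 g)`: then `‖ν ψ y - 1‖ < 1/(2q)` implies `‖ψ (y - y₀)‖ < 9 g < ρ - g`, and
`‖ψ (y - y₀)‖ < ρ + g` implies `‖ν ψ y - 1‖ < (15 g + g) ‖ν‖ = 1/q`. Consider the relation
(`u` = coordinates of `Z`; parameters: coordinates of `t` and two tuples `A, B : Fin n → K`, so `p = 3 n`; `n` coordinates
of `y`; `s = n`): `∃ y, w y ^ q - 1 - t Z = 0` (coordinates by CRD) `∧ 0 < ρ ^ 2 - (∑ k, (y - y₀)_k A_k) ^ 2 - (∑ k, (y - y₀)_k B_k) ^ 2`.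
DFN gives `N` without a shattered configuration for this relation. Take the given configuration with `d = N`. The solutions `y` of
`w y ^ q = 1 + t i * Z S` are unique for each `(i, S)` (`φ y ^ q` is determined, `q` odd, `φ` injective; `w ≠ 0`
because `w y^q = 1 + t i * Z S ≠ 0` as `‖ψ (t i * Z S)‖ < 1`), so there are finitely many of them; choose rationals `A_k, B_k` with
`‖A_k + i B_k - ψ (e k)‖` so small that for each of these `y`: `‖∑ (y - y₀)_k (A_k + i B_k) - ψ (y - y₀)‖ < g` (`(y - y₀)_k` read in `ℝ` by `ι`).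
Then the relation at `u = Z S`, parameters `(t i, A, B)` holds iff `h (t i * Z S) = a` iff `i ∈ S`: contradiction.
(The inequality in `K` is transported by the strictly monotone `ι`; `‖∑ (y - y₀)_k (A_k + i B_k)‖ ^ 2 = (∑ ..A_k) ^ 2 + (∑ ..B_k) ^ 2`;
`ψ y = ∑ (ι y_k) ψ (e k)`.) -/
def SpecVCH : Prop :=
  ∀ (K L : Type) [Field K] [LinearOrder K] [IsStrictOrderedRing K] [Field L] [Algebra K L]
    [FiniteDimensional K L], NIPf K →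
    ∀ (ι : K →+* ℝ), StrictMono ι → ∀ (φ : L →+* ℝ) (ψ : L →+* ℂ),
      (∀ k, φ (algebraMap K L k) = ι k) → (∀ k, ψ (algebraMap K L k) = (ι k : ℂ)) → Dn φ ψ →
      ∀ (A : Type) (q : ℕ) (r : ℝ) (h : L → A), Odd q → 0 < r → r < 1 → Wit ψ q r h →
      ∀ a : A, ∃ d : ℕ, ¬ ∃ (t : Fin d → L) (Z : Finset (Fin d) → L),
        (∀ i S, ‖ψ (t i * Z S)‖ < r) ∧ ∀ S i, (h (t i * Z S) = a ↔ i ∈ S)

/-- **CNT** (120 lines). Sauer-Shelah. Given `d a` for the finitely many `a : A`, `N = ∑ a, d a` (or larger). For `t`, `Z` as in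
`Cnt`: for each `a` the family `𝒜 a = {{i | h (t i * Z j) = a} : j}` of subsets of `Fin m` shatters no set of size `d a`
(restrict `t` to the set; for `S` choose a `j`), so `vcDim < d a` and
`#𝒜 a ≤ ∑ k < d a, m.choose k ≤ (m + 1) ^ (d a)` (`Finset.card_le_card_shatterer`, `Finset.card_shatterer_le_sum_vcDim`).
`j ↦ (fun a => {i | h (t i * Z j) = a})` is injective, so `M ≤ ∏ a, (m + 1) ^ d a`. (If `d a = 0` the hypothesis says that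
no configuration of size `0` exists, but `Fin 0 → L`, `Z = fun _ => 0` is one, for `0 < r`; so `d a ≥ 1`, or treat it directly.) -/
def SpecCNT : Prop :=
  ∀ (L : Type) [Field L] (ψ : L →+* ℂ) (A : Type) [Finite A] (r : ℝ) (h : L → A), 0 < r →
    (∀ a : A, ∃ d : ℕ, ¬ ∃ (t : Fin d → L) (Z : Finset (Fin d) → L),
        (∀ i S, ‖ψ (t i * Z S)‖ < r) ∧ ∀ S i, (h (t i * Z S) = a ↔ i ∈ S)) →
    ∃ N : ℕ, Cnt ψ r h N

/-! ## Algebra -/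

/-- **EXT** (200 lines). If the archimedean ordered field `K` is not real closed, a finite extension has a real and a non real place.
Proof. `ι : K →+* ℝ` = the archimedean embedding (`LinearOrderedField.inducedOrderRingHom K ℝ`). Failure of the first
clause: `0 < x` not a square, `α = √(ι x)`; of the second: `p` of odd degree without root, `α` a real root of `p.map ι`
(odd degree real polynomials have a root: intermediate value theorem, or `Polynomial`/`RealClosed` API); in both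
cases `α` is algebraic over `K` (`letI := ι.toAlgebra : Algebra K ℝ`) and `α ∉ range ι`. The minimal polynomial `f` is
separable of degree `≥ 2`, so it has a complex root `β ≠ α`. If `β.im ≠ 0`: `L = K⟮α⟯`, `φ` the inclusion,
`ψ` = the `K`-algebra hom with `α ↦ β` (`IntermediateField.adjoin` API). If `β` is real, `r` rational strictly between `α` and `β`,
`γ = √|α - r|`, `L = K⟮γ⟯ ∋ α`; extend `K⟮α⟯ → ℂ`, `α ↦ β` to `ψ : L → ℂ` (`ℂ` algebraically closed, `L` algebraic over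
`K⟮α⟯`); `ψ γ ^ 2 = ± (β - r) < 0`, so `ψ γ` is not real. (Equivalently: `γ` and a non real root of `minpoly K γ`.) -/
def SpecEXT : Prop :=
  ∀ (K : Type) [Field K] [LinearOrder K] [IsStrictOrderedRing K] [Archimedean K],
    ¬ ((∀ x : K, 0 < x → ∃ y : K, y * y = x) ∧
        ∀ p : Polynomial K, Odd p.natDegree → ∃ r : K, p.IsRoot r) →
    ∃ ι : K →+* ℝ, StrictMono ι ∧ ∃ (L : Type) (_ : Field L) (_ : Algebra K L)
      (_ : FiniteDimensional K L) (φ : L →+* ℝ) (ψ : L →+* ℂ),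
      (∀ k, φ (algebraMap K L k) = ι k) ∧ (∀ k, ψ (algebraMap K L k) = (ι k : ℂ)) ∧
      ∃ z : L, (ψ z).im ≠ 0

/-- **DNS** (120 lines). Density. Proof. Let `C` be the closure of `{(φ x, ψ x)}` in `ℝ × ℂ`: a closed subring containing
`(c, c)` for rational, hence real `c`; so closed under multiplication by reals. With `u = φ z`, `v = ψ z`, `v.im ≠ 0`: the element
`z ^ 2 - 2 (Re v) z + |v| ^ 2` (real coefficients, in the closure) is `(|u - v| ^ 2, 0)`, and `|u - v| > 0`, so `(1, 0) ∈ C`,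
`(0, 1) ∈ C`, `(0, v) ∈ C`, `(0, i) ∈ C` (as `v = Re v + i Im v`), so `C` is everything. -/
def SpecDNS : Prop :=
  ∀ (L : Type) [Field L] (φ : L →+* ℝ) (ψ : L →+* ℂ), (∃ z : L, (ψ z).im ≠ 0) → Dn φ ψ

/-- **HAT** (300 lines). The group of classes. `ζ = exp (2 π i / q)`, `r = 1 / q` (this value of `r` is part of the Spec).
Proof (log lift, helper7). `G = {(w, λ) : Lˣ × ℂ | exp λ = ψ w}`, a commutative group (`w` multiplicative, `λ` additive; take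
the additive subgroup of `Additive Lˣ × ℂ`), `A = G ⧸ q G`. So `q • a = 0` is automatic. `τ` = class of `(1, 2 π i)`; `τ ≠ 0`: otherwise
`(1, 2 π i) = q (y, λ)`, `y ^ q = 1`, `φ y ^ q = 1`, `q` odd, `y = 1`, `exp λ = 1`, `λ = 2 π i n`, `q n = 1`, false. `A` is finite: the
hom `A → Lˣ ⧸ (q-th powers)`, `(w, λ) ↦ w`, has finite kernel: if `w = y ^ q`, subtract `q (y, λ')` (`exp λ' = ψ y`, `λ' = log (ψ y)`):
the class is that of some `(1, 2 π i n)`, i.e. `n • τ`, at most `q` classes. `h t` = class of `(1 + t, log (1 + ψ t))` if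
`1 + t ≠ 0`, `0` otherwise; `D w` = class of `(w, 2 π i / q + log (ψ w / ζ))` if `w ≠ 0`. `hadd`, `dadd`: for numbers `a, b` with positive
real part `log (a b) = log a + log b` (`|arg| < π / 2`); `‖ψ w - ζ‖ < r` gives `‖ψ w / ζ - 1‖ < r`.
`dprod`: the sum of the second components is `2 π i + Σ`, `Σ = ∑ log (ψ (w i) / ζ)`; `exp Σ = ∏ ψ (w i) / ζ ^ q = 1`
and `|Im Σ| ≤ ∑ |arg| ≤ q (π/2) (1/q) < 2 π` (or `‖log (1 + z)‖ ≤ 2 ‖z‖`), so `Σ = 0`. `Wit`: for `a` = class of `(w, λ)` take `ν = exp (λ / q)`.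
If `‖ψ t‖ < r` and `h t = a` then `(1 + t, log (1 + ψ t)) = (w, λ) + q (y, μ)`: `w y ^ q = 1 + t`, `ν ψ y = exp (λ/q + μ) =
exp (log (1 + ψ t) / q)`, and `‖exp (log (1 + z) / q) - 1‖ < 1 / (2 q)` for `‖z‖ < 1/q`, `q ≥ 5`
(`‖log (1 + z)‖ ≤ (5/4) ‖z‖`, `‖exp u - 1‖ ≤ 2 ‖u‖` for `‖u‖ ≤ 1`: `≤ (5/2) / q ^ 2 ≤ 1 / (2 q)`, strict because `‖z‖ < 1/q`). Conversely if `w y ^ q = 1 + t`
and `‖ν ψ y - 1‖ < 1 / q`, put `μ = log (ν ψ y) - λ / q`; `exp μ = ψ y`; `(w, λ) + q (y, μ) = (1 + t, q log (ν ψ y))`, and `q log (ν ψ y)` has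
exponential `1 + ψ t` and `|Im| < π` (`‖log (1 + z)‖ ≤ (5/4) ‖z‖`), so it is `log (1 + ψ t)`: `h t = a`. -/
def SpecHAT : Prop :=
  ∀ (L : Type) [Field L] (φ : L →+* ℝ) (ψ : L →+* ℂ) (q : ℕ), q.Prime → 5 ≤ q →
    Finite (Lˣ ⧸ (powMonoidHom q : Lˣ →* Lˣ).range) →
    ∃ (A : Type) (_ : AddCommGroup A) (_ : Finite A) (ζ : ℂ) (h D : L → A) (τ : A),
      Cl0 φ ψ A q ζ (1 / (q : ℝ)) h D τ ∧ Wit ψ q (1 / (q : ℝ)) h

/-! ## The volume -/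

/-- **AVG** (150 lines). Averaging over commuting operators.
Proof. `P` = the submonoid of `Module.End ℝ E` generated by the `A n a = (1 / n) ∑ k < n, a ^ k` (`n ≥ 1`, `a ∈ X`). It is
commutative, and `p (Q f) ≤ p f` for `Q ∈ P` (sublinearity). `p' f = sInf {p (Q f) | Q ∈ P}`; bounded below by `- p (-f)` because
`0 = p 0 ≤ p (Q f) + p (Q (-f))` (`p 0 = 0` by homogeneity). Subadditive: `p' (f + g) ≤ p (Q Q' (f + g)) ≤ p (Q' (Q f)) + p (Q (Q' g))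
≤ p (Q f) + p (Q' g)`. `p' (f - a f) ≤ p (A n a (f - a f)) = p ((f - a ^ n f) / n) ≤ (p f + p (- f)) / n` for all `n`. Last clause: for
`Q ∈ P` there is `Q' ∈ P` with `Q' S = S Q` (generators, then induction), `p' (S f) ≤ p (Q' (S f)) = p (S (Q f)) ≤ p (Q f)`. -/
def SpecAVG : Prop :=
  ∀ (E : Type) [AddCommGroup E] [Module ℝ E] (p : E → ℝ), Sbl p → ∀ X : Set (E →ₗ[ℝ] E),
    (∀ a ∈ X, ∀ b ∈ X, a ∘ₗ b = b ∘ₗ a) → (∀ a ∈ X, ∀ f, p (a f) ≤ p f) →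
    ∃ p' : E → ℝ, Sbl p' ∧ (∀ f, p' f ≤ p f) ∧ (∀ a ∈ X, ∀ f, p' (f - a f) ≤ 0) ∧
      ∀ S : E →ₗ[ℝ] E, (∀ f, p (S f) ≤ p f) → (∀ a ∈ X, ∃ a' ∈ X, a' ∘ₗ S = S ∘ₗ a) →
        ∀ f, p' (S f) ≤ p' f

/-- **UPI** (250 lines). The upper integral.
Proof. `M f = sInf {(∫ v, g v) / (2 π) | g : ℝ × ℂ → ℝ continuous with compact support, ∀ x, f x ≤ g (φ x, ψ x)}` (volume on `ℝ × ℂ`).
Nonempty: `C` times a continuous cutoff that is `1` on the closed box of radius `R`. Bounded below: if `f x ≥ - C` everywhere and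
`f x = 0` outside `Bx R R` then by density and continuity `g ≥ - C` everywhere and `g ≥ 0` outside the closed box, so
`∫ g ≥ - C vol(closed box)`. Sublinear; `M f ≤ 0` for `f ≤ 0` (`g = 0`). Translation: `g (v - (φ t, ψ t))`; scaling: `g (c⁻¹ v)`
with `∫ g (a⁻¹ x, b⁻¹ z) = |a| ‖b‖ ^ 2 ∫ g` (Fubini and one variable changes, or `addHaar` of a linear map), divided by
`|φ c| ‖ψ c‖ ^ 2`. Indicator of `B = Bx 1 1`: the open box `O = {|x| < 1, ‖z‖ < 1}` has volume `2 π`, as the closed box; for `ε > 0` there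
is a continuous compactly supported `g` with `g ≥ 1` on the closed box and `∫ g ≤ 2 π + ε` (Urysohn and outer regularity, or
explicit trapezoids), giving `M 1_B ≤ 1`; and `0 ≤ g' ≤ 1_O` with `∫ g' ≥ 2 π - ε`, giving `M (- 1_B) ≤ - 1` with `g = - g'`. -/
def SpecUPI : Prop :=
  ∀ (L : Type) [Field L] (φ : L →+* ℝ) (ψ : L →+* ℂ), Dn φ ψ →
    ∃ M : EE φ ψ → ℝ, Sbl M ∧ (∀ f : EE φ ψ, (∀ x, (f : L → ℝ) x ≤ 0) → M f ≤ 0) ∧
      (∀ (f g : EE φ ψ) (t : L), (∀ x, (g : L → ℝ) x = (f : L → ℝ) (x - t)) → M g ≤ M f) ∧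
      (∀ (f g : EE φ ψ) (c : L), c ≠ 0 →
        (∀ x, (g : L → ℝ) x = (|φ c| * ‖ψ c‖ ^ 2)⁻¹ * (f : L → ℝ) (c⁻¹ * x)) → M g ≤ M f) ∧
      (∀ f : EE φ ψ, (∀ x, (f : L → ℝ) x = (Bx φ ψ 1 1).indicator (fun _ => 1) x) → M f ≤ 1) ∧
      (∀ f : EE φ ψ, (∀ x, (f : L → ℝ) x = - (Bx φ ψ 1 1).indicator (fun _ => 1) x) → M f ≤ - 1)

/-- **VOL** (150 lines, from AVG, UPI). Existence of the volume.
Proof. `T t f = f (· - t)`, `S c f = (|φ c| ‖ψ c‖ ^ 2)⁻¹ f (c⁻¹ ·)` as linear operators of `EE φ ψ`. AVG with `X` = the `T t` gives `p₁`,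
still invariant under the `S c` (`T (c t) S c = S c T t`); AVG again with `X` = the `S c` (`c ≠ 0`) and `p = p₁` gives `p₂ ≤ p₁ ≤ M`.
`exists_extension_of_le_sublinear` (from the zero subspace) gives a linear `l ≤ p₂`; `l (f - T t f) ≤ p₂ (..) ≤ p₁ (..) ≤ 0` for `f` and `- f`, so
`l (T t f) = l f`; the same for `S c`. `μ S = l (1_S)` for bounded `S` (and `0` otherwise): additive; `0 ≤ μ` (`l (- 1_S) ≤ M (- 1_S) ≤ 0`);
`μ (Bx 1 1) ≤ 1` and `- μ (Bx 1 1) ≤ - 1`. -/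
def SpecVOL : Prop :=
  ∀ (L : Type) [Field L] (φ : L →+* ℝ) (ψ : L →+* ℂ), Dn φ ψ → ∃ μ : Set L → ℝ, Vol φ ψ μ

/-- **MUB** (200 lines). First properties of the volume. `mono`: `T = S ∪ (T \ S)`. `emp`: additivity. `sub`: `S ∪ T = S ∪ (T \ S)`.
`box`: for `c ≠ 0`, `c * Bx 1 1 = Bx |φ c| ‖ψ c‖` has volume `|φ c| ‖ψ c‖ ^ 2`; the pairs `(|φ c|, ‖ψ c‖)` are dense in `(0, ∞) ^ 2`; squeeze.
`aff`: image under `x ↦ c x + g` = translate of a scaling. `pull`: the image of `S` under `x ↦ c x + g` lies in `Q`. `find`: otherwise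
`S` is the union of the `B k`. `Bd` facts: subsets, unions, images under `x ↦ c x + g`. -/
structure SpecMUB : Prop where
  bdb : ∀ (L : Type) [Field L] (φ : L →+* ℝ) (ψ : L →+* ℂ) (T U : ℝ), Bd φ ψ (Bx φ ψ T U)
  bds : ∀ (L : Type) [Field L] (φ : L →+* ℝ) (ψ : L →+* ℂ) (S T : Set L), Bd φ ψ T → S ⊆ T →
    Bd φ ψ S
  bda : ∀ (L : Type) [Field L] (φ : L →+* ℝ) (ψ : L →+* ℂ) (S : Set L) (c g : L), Bd φ ψ S →
    Bd φ ψ ((fun x => c * x + g) '' S)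
  mono : ∀ (L : Type) [Field L] (φ : L →+* ℝ) (ψ : L →+* ℂ) (μ : Set L → ℝ), Vol φ ψ μ →
    ∀ S T, Bd φ ψ T → S ⊆ T → μ S ≤ μ T
  emp : ∀ (L : Type) [Field L] (φ : L →+* ℝ) (ψ : L →+* ℂ) (μ : Set L → ℝ), Vol φ ψ μ → μ ∅ = 0
  sub : ∀ (L : Type) [Field L] (φ : L →+* ℝ) (ψ : L →+* ℂ) (μ : Set L → ℝ), Vol φ ψ μ →
    ∀ S T, Bd φ ψ S → Bd φ ψ T → μ (S ∪ T) ≤ μ S + μ T
  box : ∀ (L : Type) [Field L] (φ : L →+* ℝ) (ψ : L →+* ℂ) (μ : Set L → ℝ), Dn φ ψ → Vol φ ψ μ →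
    ∀ T U : ℝ, 0 < T → 0 < U → μ (Bx φ ψ T U) = T * U ^ 2
  aff : ∀ (L : Type) [Field L] (φ : L →+* ℝ) (ψ : L →+* ℂ) (μ : Set L → ℝ), Vol φ ψ μ →
    ∀ S, Bd φ ψ S → ∀ c g : L, c ≠ 0 →
      μ ((fun x => c * x + g) '' S) = |φ c| * ‖ψ c‖ ^ 2 * μ S
  pull : ∀ (L : Type) [Field L] (φ : L →+* ℝ) (ψ : L →+* ℂ) (μ : Set L → ℝ), Vol φ ψ μ →
    ∀ S Q, Bd φ ψ S → Bd φ ψ Q → ∀ c g : L, c ≠ 0 → (∀ x ∈ S, c * x + g ∈ Q) →
      |φ c| * ‖ψ c‖ ^ 2 * μ S ≤ μ Q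
  find : ∀ (L : Type) [Field L] (φ : L →+* ℝ) (ψ : L →+* ℂ) (μ : Set L → ℝ), Vol φ ψ μ →
    ∀ (n : ℕ) (B : Fin n → Set L) (S : Set L), Bd φ ψ S → (∀ k, B k ⊆ S) →
      ∑ k, μ (B k) < μ S → ∃ x ∈ S, ∀ k, x ∉ B k

/-! ## The core -/

/-- **SEP** (120 lines). Greedy separation. `μ` is a nonnegative finitely additive function on the subsets of `Ω`.
Proof. Induction on `m`: there are `x 1 .. x m` in `Ω` such that the set `P` of the unseparated pairs `(i, j)`, `i ≠ j`, has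
`#P ≤ M ^ 2 (1 - ε) ^ m`. Step: `∑ p ∈ P, μ {x ∈ Ω | p separated at x} ≥ ε V #P ≥ ε μ Ω #P`. If every `x ∈ Ω` separated fewer than
`ε #P` pairs of `P` (`#P > 0`), partition `Ω` by the signature (the set of pairs of `P` separated at `x`, finitely many
signatures): `∑ p, μ (..) = ∑ s, #s μ (Ω s)` with `#s < ε #P`, so the sum is `< ε #P μ Ω` if `μ Ω > 0`, contradiction; `μ Ω > 0`
because `P` is not empty. If `P = ∅` take any `x ∈ Ω`. -/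
def SpecSEP : Prop :=
  ∀ (X A : Type) (μ : Set X → ℝ) (Ω : Set X) (V ε : ℝ), Ω.Nonempty → (∀ S ⊆ Ω, 0 ≤ μ S) →
    (∀ S T, S ⊆ Ω → T ⊆ Ω → Disjoint S T → μ (S ∪ T) = μ S + μ T) → μ Ω ≤ V → 0 < V →
    0 < ε → ε < 1 → ∀ (M : ℕ) (f : Fin M → X → A),
    (∀ i j, i < j → ε * V ≤ μ {x ∈ Ω | f i x ≠ f j x}) →
    ∀ m : ℕ, (M : ℝ) ^ 2 * (1 - ε) ^ m < 1 →
    ∃ x : Fin m → X, (∀ k, x k ∈ Ω) ∧ ∀ i j, i ≠ j → ∃ k, f i (x k) ≠ f j (x k)

/-- **BDS** (200 lines, from MUB). If the small step law fails for `ε`, `κ`, there are arbitrarily many scales with bad differences.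
Proof. Write `Z b T U = {x ∈ Bx T U | ¬ Good b x}`. Scaling: `c * Z b T U = Z (c b) (|φ c| T) (‖ψ c‖ U)` for `c ≠ 0`, so
`ε T U ^ 2 < μ (Z b T U)` passes to `(c b, |φ c| T, ‖ψ c‖ U)`. Let `s = min 1 ε / 56`.
(★) For every `R ≥ 1` there is `b ≠ 0` with `|b|₁, |b|₂ ≤ 1/R` and `(3/4) ε < μ (Z b 1 1)`: take a bad `(b', T', U')` for `2 R`; `b' ≠ 0`
(`Z 0 T U ⊆ {0}` as `h 0 = 0` by `hadd`, and `μ {0} = 0`: `{0}` is invariant under scalings by `c` with `|c| ≠ 1`, e.g. `c = 2`); by `Dn`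
choose `c` with `1 ≤ |φ c| T' ≤ 1 + s`, `1 ≤ ‖ψ c‖ U' ≤ 1 + s`; `b = c b'`. `Z b 1 1 ⊇ Z b T'' U'' \ (Bx T'' U'' \ Bx 1 1)`, `T'' = |φ c| T'`
etc., `μ (Bx T'' U'' \ Bx 1 1) = T'' U'' ^ 2 - 1 ≤ (1 + s) ^ 3 - 1 ≤ 7 s ≤ ε / 8`.
Choose `b 0, b 1, ..` recursively by (★) with `|b (j+1)|_k ≤ s min (|φ (b j)|, ‖ψ (b j)‖)` (and all `≤ 1 / R`); so `|b j|_k ≤ s |b i|_k` for `i < j`.
For `i < j`: `b i - b j = g b i`, `g = 1 - b j / b i`, `|φ g - 1| ≤ s`, `‖ψ g - 1‖ ≤ s`; by scaling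
`(3/4) ε |φ g| ‖ψ g‖ ^ 2 < μ (Z (b i - b j) |φ g| ‖ψ g‖)`, and `Z (b i - b j) 1 1` contains this set minus `Bx (1+s) (1+s) \ Bx 1 1`:
`μ (Z (b i - b j) 1 1) > (3/4) ε (1 - s) ^ 3 - 7 s ≥ ε / 2`. -/
def SpecBDS : Prop :=
  ∀ (L : Type) [Field L] (φ : L →+* ℝ) (ψ : L →+* ℂ) (A : Type) [AddCommGroup A] (q : ℕ) (ζ : ℂ)
    (r : ℝ) (h D : L → A) (τ : A) (N : ℕ) (μ : Set L → ℝ), Cls φ ψ A q ζ r h D τ N μ →
    ∀ ε κ : ℝ, 0 < ε → 0 < κ →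
    (∀ R : ℝ, 1 ≤ R → ∃ (b : L) (T U : ℝ), 0 < T ∧ 0 < U ∧ R * |φ b| ≤ T ∧ R * ‖ψ b‖ ≤ U ∧
      ε * (T * U ^ 2) < μ {x ∈ Bx φ ψ T U | ¬ Good ψ h κ b x}) →
    ∀ (M : ℕ) (R : ℝ), 1 ≤ R → ∃ b : Fin M → L, (∀ i, |φ (b i)| ≤ 1 / R ∧ ‖ψ (b i)‖ ≤ 1 / R) ∧
      ∀ i j, i < j → ε / 2 < μ {x ∈ Bx φ ψ 1 1 | ¬ Good ψ h κ (b i - b j) x}

/-- **SSL** (220 lines, from BDS, SEP, MUB). Small step law.
Proof. By contradiction: the hypothesis of BDS holds for `ε`, `κ` (we may assume `ε ≤ 1`: if the law holds for `min ε 1` it holds for `ε`).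
Let `c` be a natural number with `(1 - ε/8) ^ c ≤ 1/8`, and `k ≥ 1` with `2 ^ k > (c k + 1) ^ N`; `M = 2 ^ k`, `m = c k`, so
`M ^ 2 (1 - ε/8) ^ m ≤ 4 ^ k / 8 ^ k < 1`. Take `R` large (below) and `b` from BDS. `B = Bx 1 1`, `μ B = 1`. Let
`C = 4 / κ` and `Ω = {x ∈ B | C / R < ‖ψ x‖}`. For `i < j`, `e = b i - b j`, `|e|_k ≤ 2/R`. The set of `x ∈ B` with `¬ (x ≠ 0 ∧ ‖ψ e‖ ≤ κ ‖ψ x‖)`
lies in `{‖ψ x‖ ≤ 2/(κ R)}` (if `x = 0` too), inside `Bx 1 (3/(κ R))`, volume `9/(κ R) ^ 2`. So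
`μ {x ∈ B | C/R + 1/R < ‖ψ x‖, h (e / x) ≠ 0} ≥ ε/2 - ((C + 2)/R) ^ 2` (the part `‖ψ x‖ ≤ (C+1)/R` lies in `Bx 1 ((C+2)/R)`, and contains the
former). Translate: `x = x' + b j`: the set of the `x'` is in `Bx (1+1/R) (1+1/R)`, remove what is outside `B` (volume
`(1 + 1/R) ^ 3 - 1 ≤ 7/R`): `μ {x' ∈ Ω | h (e / (x' + b j)) ≠ 0} ≥ ε/2 - ((C+2)/R) ^ 2 - 7/R ≥ ε/8` for large `R`; use this with
`‖ψ x'‖ > C/R` since `‖ψ (x' + b j)‖ > (C+1)/R`. For `x' ∈ Ω`: `h (b i / x') = h (b j / x') + h (e / (x' + b j))` by `hadd` with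
`s = b j / x'`, `t = e / (x' + b j)`: `s + t + s t = b i / x'`; `‖ψ s‖ < 1/C ≤ κ/4 ≤ r/4`, `‖ψ t‖ ≤ (2/R) / ((C-1)/R) < r`
(take `κ ≤ r`, `C = 4/κ ≥ 20`). So `f i x = h (b i / x)` satisfy the hypothesis of SEP on `Ω` with `V = 1`, `ε/8`. SEP gives
`x 1 .. x m ∈ Ω`, and `Cnt` with `t k = 1 / x k`, `Z j = b j` (`‖ψ (t k Z j)‖ < r`) gives `M ≤ (m + 1) ^ N`. Contradiction. `Ω` is nonempty
since `μ Ω > 0` (or `Dn`). -/
def SpecSSL : Prop :=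
  ∀ (L : Type) [Field L] (φ : L →+* ℝ) (ψ : L →+* ℂ) (A : Type) [AddCommGroup A] (q : ℕ) (ζ : ℂ)
    (r : ℝ) (h D : L → A) (τ : A) (N : ℕ) (μ : Set L → ℝ), Cls φ ψ A q ζ r h D τ N μ →
    ∀ ε κ : ℝ, 0 < ε → 0 < κ → κ ≤ r → ∃ R : ℝ, 1 ≤ R ∧ ∀ (b : L) (T U : ℝ), 0 < T → 0 < U →
      R * |φ b| ≤ T → R * ‖ψ b‖ ≤ U →
      μ {x ∈ Bx φ ψ T U | ¬ Good ψ h κ b x} ≤ ε * (T * U ^ 2)

/-- **SSC** (80 lines, from SSL, MUB). The small step law on small boxes, with a shift.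
Proof. `T' = T + δ`, `ε' = ε δ ^ 3 / T' ^ 3`, `R` from SSL for `ε'`, `κ`; `η = T' / R`. The translate by `a` of the set is contained in
`{y ∈ Bx T' T' | ¬ Good e y}` (`pull` with `c = 1`, `g = a`). -/
def SpecSSC : Prop :=
  ∀ (L : Type) [Field L] (φ : L →+* ℝ) (ψ : L →+* ℂ) (A : Type) [AddCommGroup A] (q : ℕ) (ζ : ℂ)
    (r : ℝ) (h D : L → A) (τ : A) (N : ℕ) (μ : Set L → ℝ), Cls φ ψ A q ζ r h D τ N μ →
    ∀ δ T ε κ : ℝ, 0 < δ → 0 < T → 0 < ε → 0 < κ → κ ≤ r → ∃ η : ℝ, 0 < η ∧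
      ∀ a e : L, |φ a| ≤ T → ‖ψ a‖ ≤ T → |φ e| ≤ η → ‖ψ e‖ ≤ η →
      μ {x ∈ Bx φ ψ δ δ | ¬ Good ψ h κ e (x + a)} ≤ ε * δ ^ 3

/-- **POL** (300 lines, from SSC, MUB). Polygon lemma: the class `D (1 + b / (1 + x))`, `b ≈ (0, ζ - 1)`, is not almost constant on
the small boxes. Proof. If the bound fails for `ε` it fails for smaller `ε`, so we may assume `ε ≤ 1 / q` (if `1 - 1/q + ε ≥ 1` the bound is trivial,
`μ ≤ δ ^ 3`). Choose `θ ∈ (0, 1/10)` with `(1 - θ) ^ 3 > 1 - q ε / 4`, `δ' = δ (1 - θ)`. SSC (box `δ`, `T = 4`,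
`ε₁ = ε / (32 q)`, `κ = r`) gives `η₁`. Choose `η' > 0` small in terms of `δ, θ, ε, η₁`; by `Dn` choose `a i, c i : L`
(`i < q`; `a q := a 0`) with `|φ (a i) - 1|, ‖ψ (a i) - ζ ^ i‖ < η'`,
`|φ (c i) - 1|, ‖ψ (c i) - ζ ^ (q - i)‖ < η'`, and let `η = η'`. Given `b`: `e i = c i (a (i+1) - a i) - b`, `g i = c i a i - 1` are
`≤ 20 η' ≤ min η₁ (θ δ / 4)` at both places (`ζ ^ q = 1`, `‖ζ‖ = 1`; `a (i+1) - a i ≈ (0, ζ ^ i (ζ - 1))`). For `x ∈ Bx δ' δ'`: `x + a i ≠ 0`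
(`φ (x + a i) > 0`), `w i = (x + a (i+1)) / (x + a i)`, `∏ w i = 1` (telescoping, `a q = a 0`); `‖ψ (w i) - ζ‖ < r`. `x_i = c i x + g i ∈ Bx δ δ`
(`(1 + η') δ' + 20 η' < δ`), `X_i = 1 + x_i = c i (x + a i)`; `w i = 1 + (b + e i) / X_i = (1 + b / X_i) (1 + e i / (X_i + b))`. If
`Good (e i) (x_i + (1 + b))` then `D (w i) = D (1 + b / X_i)` by `dadd` (for the strict `‖ψ t‖ < r` use SSC with `κ = r / 2` instead of `r`).
Suppose `μ Sα > (1 - 1/q + ε) δ ^ 3`, `Sα = {y ∈ Bx δ δ | D (1 + b / (1 + y)) = α}`. The set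
`{x ∈ Bx δ' δ' | x_i ∉ Sα}` has volume `≤ (|φ (c i)| ‖ψ (c i)‖ ^ 2)⁻¹ (1/q - ε) δ ^ 3 ≤ (1/q - ε/2) δ ^ 3` (`pull` with `Q = Bx δ δ \ Sα`; the factor is
within `10 η'` of `1`) and `{x ∈ Bx δ' δ' | ¬ Good (e i) (x_i + (1 + b))}` has volume `≤ 2 ε₁ δ ^ 3`. Total
`≤ (1 - q ε / 2 + 2 q ε₁) δ ^ 3 ≤ (1 - q ε / 4) δ ^ 3 < (1 - θ) ^ 3 δ ^ 3 = μ (Bx δ' δ')` (`2 q ε₁ = ε / 16`),
so by `find` some `x` is in none of these `2 q` sets: `τ = ∑ D (w i) = q • α = 0`. Contradiction. -/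
def SpecPOL : Prop :=
  ∀ (L : Type) [Field L] (φ : L →+* ℝ) (ψ : L →+* ℂ) (A : Type) [AddCommGroup A] (q : ℕ) (ζ : ℂ)
    (r : ℝ) (h D : L → A) (τ : A) (N : ℕ) (μ : Set L → ℝ), Cls φ ψ A q ζ r h D τ N μ →
    ∀ ε δ : ℝ, 0 < ε → 0 < δ → δ ≤ r / 100 → ∃ η : ℝ, 0 < η ∧ ∀ b : L, |φ b| < η →
      ‖ψ b - (ζ - 1)‖ < η → ∀ α : A,
      μ {x ∈ Bx φ ψ δ δ | D (1 + b / (1 + x)) = α} ≤ (1 - 1 / (q : ℝ) + ε) * δ ^ 3

/-- **BLA** (150 lines, from POL, MUB). For fixed `x` near `0` the class `h (b (1/(1+x) - 1/(1+x')))` is nonzero for many `x'`.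
Proof. `κ = 1 / (1000 q)`, `ε = 1 / (100 q)`, `δ⁺ = δ (1 + 12 κ) ≤ r / 100`, `η` from POL for `ε`, `δ⁺`, and also `η ≤ κ`.
`X = 1 + x`, `X' = 1 + x'`, `y = 1/X - 1/X'`, `u = 1 + b / X`, `g = - b x / X`, `x''' = u x' + g`, `X''' = 1 + x''' = u X' - b`. Identity
`(1 + b / X''') (1 + b y) = 1 + b / X` (`field_simp; ring`; `X''' ≠ 0`). `x''' ∈ Bx δ⁺ δ⁺`: `‖ψ u‖ ≤ 1 + η + 6 κ δ`, `|φ u| ≤ 1 + 2 η`, `‖ψ g‖ ≤ 5 κ δ`,
`|φ g| ≤ 2 η κ δ` (`‖ζ - 1‖ ≤ 2`). If `h (b y) = 0` then by `dadd` (`w = 1 + b / X'''`, `t = b y`, `‖ψ (b y)‖ ≤ 3 * 4 δ < r`,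
`‖ψ w - ζ‖ < r`) `D (1 + b / X''') = D (1 + b / X) =: α`. By `pull` (`c = u`, `g`) and POL the volume of these `x'` is
`≤ (|φ u| ‖ψ u‖ ^ 2)⁻¹ (1 - 1/q + ε) (1 + 12 κ) ^ 3 δ ^ 3 ≤ (1 - 1/(2 q)) δ ^ 3`. -/
def SpecBLA : Prop :=
  ∀ (L : Type) [Field L] (φ : L →+* ℝ) (ψ : L →+* ℂ) (A : Type) [AddCommGroup A] (q : ℕ) (ζ : ℂ)
    (r : ℝ) (h D : L → A) (τ : A) (N : ℕ) (μ : Set L → ℝ), Cls φ ψ A q ζ r h D τ N μ →
    ∃ κ : ℝ, 0 < κ ∧ κ ≤ 1 ∧ ∀ δ : ℝ, 0 < δ → δ ≤ r / 200 → ∃ η : ℝ, 0 < η ∧ ∀ b x : L,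
      |φ b| < η → ‖ψ b - (ζ - 1)‖ < η → x ∈ Bx φ ψ (κ * δ) (κ * δ) →
      μ {x' ∈ Bx φ ψ δ δ | h (b * (1 / (1 + x) - 1 / (1 + x'))) = 0} ≤
        (1 - 1 / (2 * (q : ℝ))) * δ ^ 3

/-- **BLK** (250 lines, from BLA, SSC, MUB). Block lemma.
Proof. `κ` from BLA. `y = 1/X - 1/X'`, `X = 1 + x`, `x ∈ Bx (κ δ) (κ δ)`, `X' = 1 + x'`, `x' ∈ Bx δ δ`; `|y|_k ≤ 4 δ`. For every `s` with
`X + s ≠ 0`: `1 + s y = (1 + s / X) (1 + (- a) / X')`, `a = s X / (X + s)`. SSC on the box `κ δ` with `T = 5`, `ε₁ = 1/(4 n + 4)`, `κ_SSC = r/4` gives `η₁`; SSC on the box `δ` with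
`T = 20`, `ε₂ = 1 / (8 q (n + 1))`, `κ_SSC = r/4` gives `η₂`; `η` small: `η ≤ η₁`, `100 η ≤ η₂`, `η ≤ η_BLA`, `η ≤ r / 100`.
Choice of `x` (`find`, `2 n` bad sets): `Good (s k) (x + 1)` and `Good (s' k - b) (x + (1 + b))`. Choice of `x'` (`find`, `2 n + 1` bad sets):
(i) `a k = s k X / (X + s k)`, `|a k|_j ≤ 4 η`: `Good (- a k) (x' + 1)`; with `hadd`: `h (s k y) = h (s k / X) + h (- a k / X') = 0`.
(ii) `a = b X / (X + b)`, `a' k = s' k X / (X + s' k)`, `a - a' k = X ^ 2 (b - s' k) / ((X + b) (X + s' k))` is `≤ 16 η` (`|X + b|_j ≥ 1/2` as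
`ψ (X + b) ≈ ζ`, `φ (X + b) ≈ 1`), `Good (a - a' k) (x' + (1 - a))`, `|1 - a|_j ≤ 20`. With `u' = (s' k - b) / (X + b)`, `v' = (a - a' k) / (X' - a)`:
`1 + s' k y = (1 + b y) (1 + u') (1 + v')`, `h (u' + v' + u' v') = 0`, `h (s' k y) = h (b y)` by `hadd` twice (all arguments have norm `< r`:
`‖ψ (b y)‖ ≤ 3 * 4 δ < r`, `‖ψ (u' + v' + u' v')‖ ≤ r/4 + r/4 + r^2/16 < r`). (iii) `h (b y) ≠ 0` (BLA). Total bad volume
`≤ (1 - 1/(2q) + 2 n ε₂) δ ^ 3 < δ ^ 3`. -/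
def SpecBLK : Prop :=
  ∀ (L : Type) [Field L] (φ : L →+* ℝ) (ψ : L →+* ℂ) (A : Type) [AddCommGroup A] (q : ℕ) (ζ : ℂ)
    (r : ℝ) (h D : L → A) (τ : A) (N : ℕ) (μ : Set L → ℝ), Cls φ ψ A q ζ r h D τ N μ →
    ∀ (δ : ℝ) (n : ℕ), 0 < δ → δ ≤ r / 200 → ∃ η : ℝ, 0 < η ∧ ∀ b : L, |φ b| < η →
      ‖ψ b - (ζ - 1)‖ < η → ∀ s s' : Fin n → L, (∀ k, |φ (s k)| < η ∧ ‖ψ (s k)‖ < η) →
      (∀ k, |φ (s' k - b)| < η ∧ ‖ψ (s' k - b)‖ < η) →
      ∃ y : L, |φ y| ≤ 4 * δ ∧ ‖ψ y‖ ≤ 4 * δ ∧ (∀ k, h (s k * y) = 0) ∧ ∀ k, h (s' k * y) ≠ 0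

/-- **CLM** (250 lines, from BLK). Many patterns. Induction on `k`.
`k = 0`: `Z = 0` (one element; `Fin (2 ^ 0)`), `η = 1`. Step `k → k + 1`: given `ρ, γ > 0`, choose a rational `τ₀` with `0 < τ₀ < min ρ 1`,
`δ = min (r / 200) (γ τ₀ / 8)`, `n = (k + 1) 2 ^ k`, `η₀` from BLK. The claim for `k` with `ρ' = min ρ (τ₀ η₀ / 10)` and
`γ' = min (γ / 2) (min (η₀ / 100) (r / 100))` gives `η'` and `τ 1 .. τ k`; `η = min η' (min η₀ (1/10))`. Given `b` (`|b|₁ ≤ 1/10`, `|b|₂ ≤ 3`) take the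
`Z J`, `J : Fin (2 ^ k)`. BLK with the small elements `s (i, J) = (τ i / τ₀) b / (1 + τ i b Z J)` (`|.|_j ≤ (η₀/10) * 3 * 2 < η₀`, as
`|τ i b Z J|_j ≤ 1/2`) and with `s' J = b / (1 + τ₀ b Z J)`, `|s' J - b|_j ≤ 2 * 9 |Z J|_j < η₀`, gives `y`; `z₀ = y / τ₀`, `|z₀|_j ≤ γ / 2`. New
family: `Z J` and `Z J + z₀` (`2 ^ (k+1)` elements, all `< γ`; they are pairwise different as families of vectors). For `τ = τ i` or `τ₀`: `hadd` with `s = τ b Z J`,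
`t = τ b z₀ / (1 + τ b Z J)`: `h (τ b (Z J + z₀)) = h (τ b Z J) + h (t)` (`‖ψ s‖, ‖ψ t‖ < r`; `‖ψ t‖ ≤ 2 * 3 * 4 δ < r`); `t = s (i, J) y` for `i ≥ 1`, `t = s' J y` for `τ₀`. So the old
coordinates do not change and the new coordinate separates `Z J` from `Z J + z₀`. -/
def SpecCLM : Prop :=
  ∀ (L : Type) [Field L] (φ : L →+* ℝ) (ψ : L →+* ℂ) (A : Type) [AddCommGroup A] (q : ℕ) (ζ : ℂ)
    (r : ℝ) (h D : L → A) (τ : A) (N : ℕ) (μ : Set L → ℝ), Cls φ ψ A q ζ r h D τ N μ →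
    ∀ (k : ℕ) (ρ γ : ℝ), 0 < ρ → 0 < γ → ∃ (η : ℝ) (t : Fin k → ℚ), 0 < η ∧
      (∀ i, 0 < t i ∧ (t i : ℝ) < ρ) ∧ ∀ b : L, |φ b| < η → ‖ψ b - (ζ - 1)‖ < η →
      ∃ Z : Fin (2 ^ k) → L, (∀ J, |φ (Z J)| < γ ∧ ‖ψ (Z J)‖ < γ) ∧
        ∀ J J', J ≠ J' → ∃ i, h ((t i : L) * b * Z J) ≠ h ((t i : L) * b * Z J')

/-- **COR** (60 lines, from CLM). The core. Proof. `k` with `(k + 1) ^ N < 2 ^ k`; CLM with `ρ = 1`, `γ = r / 4`, `b` from `Dn`;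
`Cnt` with `t i * b` and `Z J` (`‖ψ (t i b Z J)‖ ≤ 1 * 3 * r / 4 < r`). -/
def SpecCOR : Prop :=
  ∀ (L : Type) [Field L] (φ : L →+* ℝ) (ψ : L →+* ℂ) (A : Type) [AddCommGroup A] (q : ℕ) (ζ : ℂ)
    (r : ℝ) (h D : L → A) (τ : A) (N : ℕ) (μ : Set L → ℝ), ¬ Cls φ ψ A q ζ r h D τ N μ

end Pool.Agent.Lib.MP_556c5c_lc
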